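import Pool.Agent.EssMap.Lat

/-!
# Growth along finite p-quotients
-/

namespace EssMap

/-- All two dimensional classes of the nilpotent groups become torsion on all subgroups of
finite index. -/
def HN (G : Type) [Group G] : Prop :=
  ∀ (X : Type) [Group X] (j : X →* G), Function.Injective j → j.range.FiniteIndex →
    ∀ (k : ℕ) (f : X →* TK k) (τ : HZ (TK k) 2), ¬ NonTors (pull f 2 τ)

theorem range_comp_fin {A B C : Type} [Group A] [Group B] [Group C] (j : A →* B) (i : B →* C)
    (hi : Function.Injective i) (hj : j.range.FiniteIndex) (hi2 : i.range.FiniteIndex) :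
    (i.comp j).range.FiniteIndex := by
  constructor
  rw [MonoidHom.range_comp, Subgroup.index_map_of_injective _ hi]
  exact mul_ne_zero hj.index_ne_zero hi2.index_ne_zero

theorem HN.comp {A B : Type} [Group A] [Group B] (i : A →* B) (hi : Function.Injective i)
    (hi2 : i.range.FiniteIndex) (h : HN B) : HN A := by
  intro X _ j hj hj2
  exact h X (i.comp j) (hi.comp hj) (range_comp_fin j i hi hj2 hi2)

theorem exists_char {p : ℕ} [Fact p.Prime] (P : Type) [Group P] [Finite P] (hP : IsPGroup p P)
    (hne : Nat.card P ≠ 1) : ∃ χ : P →* Multiplicative (ZMod p), Function.Surjective χ := by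
  have hp : p.Prime := Fact.out
  obtain ⟨n, hn⟩ := (IsPGroup.iff_card).1 hP
  obtain ⟨m, rfl⟩ : ∃ m, n = m + 1 := by
    cases n with
    | zero => rw [pow_zero] at hn; exact absurd hn hne
    | succ m => exact ⟨m, rfl⟩
  obtain ⟨K, hK⟩ := Sylow.exists_subgroup_card_pow_prime p
    (show p ^ m ∣ Nat.card P by rw [hn]; exact pow_dvd_pow _ (Nat.le_succ m))
  have hidx : K.index = p := by
    have h1 := K.card_mul_index
    rw [hK, hn, pow_succ] at h1
    exact Nat.eq_of_mul_eq_mul_left (pow_pos hp.pos m) h1
  have hnorm : K.Normal := by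
    apply Subgroup.normal_of_index_eq_minFac_card
    rw [hidx, hn, Nat.Prime.pow_minFac hp (Nat.succ_ne_zero m)]
  have hq : Nat.card (P ⧸ K) = p := by
    rw [← hidx]
    rfl
  have hz : Nat.card (Multiplicative (ZMod p)) = p := Nat.card_zmod p
  let e : P ⧸ K ≃* Multiplicative (ZMod p) := mulEquivOfPrimeCardEq hq hz
  exact ⟨e.toMonoidHom.comp (QuotientGroup.mk' K),
    e.surjective.comp (QuotientGroup.mk'_surjective K)⟩

theorem Hp_fin {G : Type} [Group G] (a : G →* Multiplicative ℤ) (p : ℕ) (hp : 0 < p) :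
    (Hp a p).FiniteIndex := by
  have : NeZero p := ⟨hp.ne'⟩
  let π : G →* Multiplicative (ZMod p) :=
    (AddMonoidHom.toMultiplicative (Int.castAddHom (ZMod p))).comp a
  have h : Hp a p = π.ker := by
    ext g
    rw [mem_Hp, MonoidHom.mem_ker, ← ZMod.intCast_zmod_eq_zero_iff_dvd]
    exact Iff.rfl
  rw [h]
  infer_instance

/-- Invariance under isomorphism. -/
theorem finrank_iso {A B K : Type} [Group A] [Group B] [Field K] (e : A ≃* B) :
    Module.finrank K (Addf A K) = Module.finrank K (Addf B K) := by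
  apply LinearEquiv.finrank_eq
  exact
    { toFun := fun f => ⟨fun b => f.1 (e.symm b), fun x y => by
        show f.1 (e.symm (x * y)) = _
        rw [map_mul]
        exact f.2 _ _⟩
      invFun := fun f => ⟨fun b => f.1 (e b), fun x y => by
        show f.1 (e (x * y)) = _
        rw [map_mul]
        exact f.2 _ _⟩
      map_add' := fun _ _ => rfl
      map_smul' := fun _ _ => rfl
      left_inv := fun f => by
        apply Subtype.ext
        funext x
        show f.1 (e.symm (e x)) = f.1 x
        rw [MulEquiv.symm_apply_apply]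
      right_inv := fun f => by
        apply Subtype.ext
        funext x
        show f.1 (e (e.symm x)) = f.1 x
        rw [MulEquiv.apply_symm_apply] }

theorem exists_surj_of {G : Type} [Group G] (p : ℕ) [Fact p.Prime] (a' : G →* Multiplicative ℤ)
    (hne : toP p a' ≠ 0) :
    ∃ (a : G →* Multiplicative ℤ) (t : G), (a t).toAdd = 1 ∧
      ∀ g, (p : ℤ) ∣ (a g).toAdd ↔ (toP p a').1 g = 0 := by
  have hp : p.Prime := Fact.out
  let R : AddSubgroup ℤ :=
    { carrier := {n | ∃ g, (a' g).toAdd = n}
      zero_mem' := ⟨1, by rw [map_one, toAdd_one]⟩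
      add_mem' := by
        rintro _ _ ⟨x, rfl⟩ ⟨y, rfl⟩
        exact ⟨x * y, by rw [map_mul, toAdd_mul]⟩
      neg_mem' := by
        rintro _ ⟨x, rfl⟩
        exact ⟨x⁻¹, by rw [map_inv, toAdd_inv]⟩ }
  obtain ⟨r, hr⟩ := Int.subgroup_cyclic R
  have hall : ∀ g, ∃ n : ℤ, n * r = (a' g).toAdd := by
    intro g
    have h3 : (a' g).toAdd ∈ R := ⟨g, rfl⟩
    rw [hr, AddSubgroup.mem_closure_singleton] at h3
    obtain ⟨n, hn⟩ := h3
    exact ⟨n, by rw [← hn, smul_eq_mul]⟩
  have hrR : r ∈ R := by
    rw [hr]
    exact AddSubgroup.mem_closure_of_mem rfl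
  obtain ⟨t, ht⟩ := hrR
  have hpr : ¬ (p : ℤ) ∣ r := by
    intro hd
    apply hne
    apply Subtype.ext
    funext g
    obtain ⟨n, hn⟩ := hall g
    rw [toP_apply, ← hn]
    exact (ZMod.intCast_zmod_eq_zero_iff_dvd _ _).2 (Dvd.dvd.mul_left hd n)
  have hr0 : r ≠ 0 := by
    rintro rfl
    exact hpr (dvd_zero _)
  choose n hn using hall
  refine ⟨MonoidHom.mk' (fun g => Multiplicative.ofAdd (n g)) ?_, t, ?_, fun g => ?_⟩
  · intro x y
    rw [← ofAdd_add]
    congr 1
    apply mul_right_cancel₀ hr0
    rw [add_mul, hn, hn, hn, map_mul, toAdd_mul]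
  · show n t = 1
    apply mul_right_cancel₀ hr0
    rw [hn, ht, one_mul]
  · show (p : ℤ) ∣ n g ↔ _
    rw [toP_apply, ZMod.intCast_zmod_eq_zero_iff_dvd, ← hn]
    constructor
    · intro h
      exact Dvd.dvd.mul_right h r
    · intro h
      rcases (Nat.prime_iff_prime_int.1 hp).dvd_or_dvd h with h6 | h6
      · exact h6
      · exact absurd h6 hpr

/-- The step. -/
theorem step_p {G : Type} [Group G] [Group.FG G] (p : ℕ) [Fact p.Prime] (hHN : HN G)
    (hL : LiftP p G) (a : G →* Multiplicative ℤ) (t : G) (ht : (a t).toAdd = 1) :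
    LiftP p (Hp a p) ∧ Module.finrank (ZMod p) (Addf (Hp a p) (ZMod p)) + p =
      p * Module.finrank (ZMod p) (Addf G (ZMod p)) + 1 := by
  have hp : p.Prime := Fact.out
  have hHf := Hp_fin a p hp.pos
  have hFG : Group.FG (Hp a p) := inferInstance
  have i1 := addf_fd (H := G) (K := ZMod p)
  have i2 := addf_fd (H := Hp a p) (K := ZMod p)
  have i3 := addf_fd (H := Hp a p) (K := ℂ)
  obtain ⟨b, hb⟩ := exists_ind_of_lift p hL
  obtain ⟨m, q, hq⟩ := fg_fin (G := G)
  have hγ : Function.Surjective (FreeGroup.lift (fun i => q (FreeGroup.of i))) := by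
    have : FreeGroup.lift (fun i => q (FreeGroup.of i)) = q := by
      ext i
      rw [FreeGroup.lift_apply_of]
    rw [this]
    exact hq
  have h1 := growth a _ hγ b hb (fun k f τ => hHN G (MonoidHom.id G) Function.injective_id (by
    rw [MonoidHom.range_eq_top.2 Function.surjective_id]
    infer_instance) k f τ) t ht p hp.pos
  have h2 := modp_bound (p := p) a t ht
  have h3 : LiftP p (Hp a p) := lift_of_le p (by omega)
  refine ⟨h3, ?_⟩
  obtain ⟨b', hb'⟩ := exists_modp (H := Hp a p) p _ le_rfl
  have h4 := hb'.fintype_card_le_finrank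
  rw [Fintype.card_fin] at h4
  omega

/-- Growth along finite p-quotients. -/
theorem pgroup_growth (p : ℕ) [Fact p.Prime] (n : ℕ) :
    ∀ (G : Type) [Group G] [Group.FG G], HN G → LiftP p G →
      ∀ (P : Type) [Group P] [Finite P], IsPGroup p P → Nat.card P = n →
        ∀ f : G →* P, Function.Surjective f →
          n * Module.finrank (ZMod p) (Addf G (ZMod p)) + 1 ≤
            Module.finrank ℂ (Addf f.ker ℂ) + n := by
  induction n using Nat.strong_induction_on with
  | _ n ih =>
    intro G _ _ hHN hL P _ _ hP hcard f hf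
    have hp : p.Prime := Fact.out
    by_cases hn : n = 1
    · subst hn
      have hsub : Subsingleton P := (Nat.card_eq_one_iff_unique.1 hcard).1
      have hker : f.ker = ⊤ := by
        ext g
        rw [MonoidHom.mem_ker]
        exact ⟨fun _ => trivial, fun _ => Subsingleton.elim _ _⟩
      have e : f.ker ≃* G := (MulEquiv.subgroupCongr hker).trans Subgroup.topEquiv
      rw [finrank_iso (K := ℂ) e]
      obtain ⟨b, hb⟩ := exists_ind_of_lift p hL
      have h1 := le_finrank_of_ind b hb
      omega
    · obtain ⟨χ, hχ⟩ := exists_char P hP (by rw [hcard]; exact hn)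
      let χf : Addf G (ZMod p) := ⟨fun g => (χ (f g)).toAdd, fun x y => by
        show (χ (f (x * y))).toAdd = (χ (f x)).toAdd + (χ (f y)).toAdd
        rw [map_mul, map_mul, toAdd_mul]⟩
      obtain ⟨a', ha'⟩ := hL χf
      have hne : toP p a' ≠ 0 := by
        intro h0
        obtain ⟨y, hy⟩ := hχ (Multiplicative.ofAdd 1)
        obtain ⟨g, hg⟩ := hf y
        have h1 : χf.1 g = 0 := by rw [ha', h0]; rfl
        have h2 : χf.1 g = 1 := by
          show (χ (f g)).toAdd = 1
          rw [hg, hy, toAdd_ofAdd]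
        rw [h2] at h1
        exact one_ne_zero h1
      obtain ⟨a, t, ht, hat⟩ := exists_surj_of p a' hne
      obtain ⟨hL1, hβ⟩ := step_p p hHN hL a t ht
      have hHf := Hp_fin a p hp.pos
      have hFG : Group.FG (Hp a p) := inferInstance
      have hHN1 : HN (Hp a p) := hHN.comp (Hp a p).subtype (Subgroup.subtype_injective _) (by
        rw [Subgroup.range_subtype]
        exact hHf)
      have hmem : ∀ g, g ∈ Hp a p ↔ f g ∈ χ.ker := by
        intro g
        rw [mem_Hp, hat, ← ha', MonoidHom.mem_ker]
        show (χ (f g)).toAdd = 0 ↔ χ (f g) = 1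
        exact Iff.rfl
      let f1 : Hp a p →* χ.ker := (f.comp (Hp a p).subtype).codRestrict χ.ker
        (fun x => (hmem x.1).1 x.2)
      have hf1 : Function.Surjective f1 := by
        intro y
        obtain ⟨g, hg⟩ := hf y.1
        refine ⟨⟨g, (hmem g).2 (by rw [hg]; exact y.2)⟩, Subtype.ext hg⟩
      have hc : Nat.card χ.ker * p = n := by
        have h1 := χ.ker.card_mul_index
        rw [Subgroup.index_ker, MonoidHom.range_eq_top.2 hχ, Subgroup.card_top, hcard] at h1
        have hz : Nat.card (Multiplicative (ZMod p)) = p := Nat.card_zmod p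
        rw [hz] at h1
        exact h1
      have hlt : Nat.card χ.ker < n := by
        rw [← hc]
        have h1 : 0 < Nat.card χ.ker := Nat.card_pos
        have h2 := hp.two_le
        nlinarith
      have h1 := ih (Nat.card χ.ker) hlt (Hp a p) hHN1 hL1 χ.ker (hP.to_subgroup χ.ker) rfl f1 hf1
      let e : f1.ker ≃* f.ker :=
        { toFun := fun x => ⟨x.1.1, by
            rw [MonoidHom.mem_ker]
            exact congrArg Subtype.val ((MonoidHom.mem_ker).1 x.2)⟩
          invFun := fun x => ⟨⟨x.1, by
            rw [hmem, (MonoidHom.mem_ker).1 x.2]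
            exact χ.ker.one_mem⟩, by
            rw [MonoidHom.mem_ker]
            exact Subtype.ext ((MonoidHom.mem_ker).1 x.2)⟩
          left_inv := fun _ => rfl
          right_inv := fun _ => rfl
          map_mul' := fun _ _ => rfl }
      rw [finrank_iso (K := ℂ) e] at h1
      have h2 : n * Module.finrank (ZMod p) (Addf G (ZMod p)) + Nat.card χ.ker =
          Nat.card χ.ker * Module.finrank (ZMod p) (Addf (Hp a p) (ZMod p)) + n := by
        have h3 : Nat.card χ.ker * (Module.finrank (ZMod p) (Addf (Hp a p) (ZMod p)) + p) =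
            Nat.card χ.ker * (p * Module.finrank (ZMod p) (Addf G (ZMod p)) + 1) := by rw [hβ]
        rw [mul_add, hc, mul_add, ← mul_assoc, hc, mul_one] at h3
        omega
      omega

end EssMap
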