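import Pool.Agent.EssMap.ChiE
import Pool.Agent.EssMap.PGr

/-!
# The linking argument
-/

open CategoryTheory groupCohomology

namespace EssMap

theorem exists_charE {A : Type} [CommGroup A] {K : Type} [Group K] (f : K →* A) (e : ℕ)
    (he : 0 < e) (hf : ∀ x, f x ^ e = 1) (w : K) (hw : f w ≠ 1) :
    ∃ ψ : K →* Multiplicative (ZMod e), ψ w ≠ 1 := by
  have : Fact ((0 : ℚ) < 1) := ⟨one_pos⟩
  have hw2 : Additive.ofMul (f w) ≠ 0 := fun h => hw (Additive.ofMul.injective h)
  obtain ⟨χ, hχ⟩ := CharacterModule.exists_character_apply_ne_zero_of_ne_zero hw2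
  let y : AddCircle (1 : ℚ) := ((1 / (e : ℚ) : ℚ) : AddCircle (1 : ℚ))
  have hy : addOrderOf y = e := AddCircle.addOrderOf_period_div he
  let j : ZMod e →+ AddCircle (1 : ℚ) := ZMod.lift e ⟨zmultiplesHom _ y, by
    rw [zmultiplesHom_apply, natCast_zsmul]
    conv_lhs => rw [← hy]
    exact addOrderOf_nsmul_eq_zero y⟩
  have hjc : ∀ m : ℤ, j (m : ZMod e) = m • y := by
    intro m
    exact ZMod.lift_coe e _ m
  have hj : Function.Injective j := by
    rw [injective_iff_map_eq_zero]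
    intro z hz
    obtain ⟨m, rfl⟩ := ZMod.intCast_surjective z
    rw [hjc, ← addOrderOf_dvd_iff_zsmul_eq_zero, hy] at hz
    rwa [ZMod.intCast_zmod_eq_zero_iff_dvd]
  have hr : ∀ x : AddCircle (1 : ℚ), e • x = 0 → x ∈ j.range := by
    intro x hx
    obtain ⟨m, -, hm⟩ := (AddCircle.nsmul_eq_zero_iff he).1 hx
    refine ⟨((m : ℤ) : ZMod e), ?_⟩
    rw [hjc, ← hm, natCast_zsmul]
    show m • ((1 / (e : ℚ) : ℚ) : AddCircle (1 : ℚ)) = _
    rw [← AddCircle.coe_nsmul, nsmul_eq_mul]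
    congr 1
    ring
  have hr2 : ∀ x : K, χ (Additive.ofMul (f x)) ∈ j.range := by
    intro x
    apply hr
    rw [← map_nsmul, ← ofMul_pow, hf, ofMul_one, map_zero]
  let E := AddMonoidHom.ofInjective hj
  let ψ : K →* Multiplicative (ZMod e) := MonoidHom.mk'
    (fun x => Multiplicative.ofAdd (E.symm ⟨χ (Additive.ofMul (f x)), hr2 x⟩)) (fun x x' => by
      rw [← ofAdd_add, ← map_add]
      congr 2
      apply Subtype.ext
      show χ (Additive.ofMul (f (x * x'))) = χ (Additive.ofMul (f x)) + χ (Additive.ofMul (f x'))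
      rw [map_mul, ofMul_mul, map_add])
  refine ⟨ψ, fun h => hχ ?_⟩
  have h1 : E.symm ⟨χ (Additive.ofMul (f w)), hr2 w⟩ = 0 := Multiplicative.ofAdd.injective h
  have h2 : (⟨χ (Additive.ofMul (f w)), hr2 w⟩ : j.range) = 0 := by
    rw [← E.apply_symm_apply ⟨χ (Additive.ofMul (f w)), hr2 w⟩, h1, map_zero]
  exact congrArg Subtype.val h2

section ext

variable {G : Type} [Group G] {M : Type} [CommGroup M] (a : G →* Multiplicative ℤ)

/-- The elements fixing a homomorphism of the kernel. -/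
def Stb (v : a.ker →* M) : Subgroup G where
  carrier := {g | ∀ x y : a.ker, (y : G) = g * x * g⁻¹ → v y = v x}
  one_mem' := by
    intro x y h
    congr 1
    apply Subtype.ext
    rw [h]
    group
  mul_mem' := by
    intro g h hg hh x y hy
    have h1 : h * x * h⁻¹ ∈ a.ker := (inferInstance : a.ker.Normal).conj_mem x x.2 h
    rw [← hh x ⟨_, h1⟩ rfl]
    apply hg
    rw [hy]
    group
  inv_mem' := by
    intro g hg x y hy
    symm
    apply hg
    rw [hy]
    group

theorem ext_hom (t : G) (ht : a t = Multiplicative.ofAdd 1) (v : a.ker →* M)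
    (hv : ∀ x y : a.ker, (y : G) = t * x * t⁻¹ → v y = v x) :
    ∃ V : G →* M, ∀ x : a.ker, V x = v x := by
  have hst : ∀ k : ℤ, t ^ k ∈ Stb a v := by
    intro k
    have h1 : t ∈ Stb a v := hv
    exact (Stb a v).zpow_mem h1 k
  have hker : ∀ g : G, g * t ^ (-(a g).toAdd) ∈ a.ker := by
    intro g
    rw [MonoidHom.mem_ker, map_mul a, map_zpow a, ht]
    apply Multiplicative.toAdd.injective
    rw [toAdd_mul, toAdd_zpow, toAdd_one]
    show (a g).toAdd + (-(a g).toAdd) • (1 : ℤ) = 0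
    rw [smul_eq_mul, mul_one, add_neg_cancel]
  refine ⟨MonoidHom.mk' (fun g => v ⟨g * t ^ (-(a g).toAdd), hker g⟩) (fun g h => ?_), ?_⟩
  · have h1 : t ^ (a g).toAdd * (h * t ^ (-(a h).toAdd)) * (t ^ (a g).toAdd)⁻¹ ∈ a.ker :=
      (inferInstance : a.ker.Normal).conj_mem _ (hker h) _
    have h2 := hst (a g).toAdd ⟨_, hker h⟩ ⟨_, h1⟩ rfl
    rw [← h2, ← map_mul v]
    congr 1
    apply Subtype.ext
    show g * h * t ^ (-(a (g * h)).toAdd) = g * t ^ (-(a g).toAdd) *
      (t ^ (a g).toAdd * (h * t ^ (-(a h).toAdd)) * (t ^ (a g).toAdd)⁻¹)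
    rw [map_mul a, toAdd_mul, neg_add, zpow_add, zpow_neg, zpow_neg]
    group
  · intro x
    show v _ = v x
    congr 1
    apply Subtype.ext
    have hx : a x = 1 := x.2
    show (x : G) * t ^ (-(a x).toAdd) = x
    rw [hx, toAdd_one, neg_zero, zpow_zero, mul_one]

end ext

theorem bock {G : Type} [Group G] (e : ℕ) (he : 0 < e) (V : G →* Multiplicative (ZMod e)) :
    ∃ (V' : G → ℤ) (c : G → G → ℤ), (∀ g, ((V' g : ℤ) : ZMod e) = (V g).toAdd) ∧
      (∀ x y, (e : ℤ) * c x y = V' x + V' y - V' (x * y)) ∧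
      ∀ x y z, c (x * y) z + c x y = c y z + c x (y * z) := by
  have h1 : ∀ g, ∃ m : ℤ, ((m : ℤ) : ZMod e) = (V g).toAdd := fun g => ZMod.intCast_surjective _
  choose V' hV' using h1
  have h2 : ∀ x y, ∃ m : ℤ, (e : ℤ) * m = V' x + V' y - V' (x * y) := by
    intro x y
    have h3 : (((V' x + V' y - V' (x * y)) : ℤ) : ZMod e) = 0 := by
      push_cast
      rw [hV', hV', hV', map_mul, toAdd_mul, sub_self]
    rw [ZMod.intCast_zmod_eq_zero_iff_dvd] at h3
    obtain ⟨m, hm⟩ := h3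
    exact ⟨m, hm.symm⟩
  choose c hc using h2
  refine ⟨V', c, hV', hc, fun x y z => ?_⟩
  have he2 : (e : ℤ) ≠ 0 := by exact_mod_cast he.ne'
  apply mul_left_cancel₀ he2
  rw [mul_add, mul_add, hc, hc, hc, hc, mul_assoc]
  ring

theorem c2_smul_zero {T : Type} [Group T] (c : T → T → ℤ)
    (hc : ∀ x y z, c (x * y) z + c x y = c y z + c x (y * z)) (m : ℤ) (β : T → ℤ)
    (h : ∀ x y, m * c x y = β y - β (x * y) + β x) : m • c2 c hc = 0 := by
  unfold c2
  rw [← map_zsmul]
  refine (H2π_eq_zero_iff _).2 ⟨β, ?_⟩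
  funext p
  exact (h p.1 p.2).symm

/-- A homomorphism to the integers vanishes on elements with a power in the commutator
subgroup. -/
theorem hom_zero {K : Type} [Group K] (e : ℕ) (he : 0 < e) (x : K) (hx : x ^ e ∈ commutator K)
    (F : K →* Multiplicative ℤ) : F x = 1 := by
  have h1 : F (x ^ e) = 1 := Abelianization.commutator_subset_ker F hx
  rw [map_pow] at h1
  exact torFree_ZM _ e he h1

section main

variable {G : Type} [Group G]

theorem Hp_dvd (a : G →* Multiplicative ℤ) (t : G) (ht : a t = Multiplicative.ofAdd 1) (e : ℕ)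
    (he : 0 < e) : e ∣ (Hp a e).index := by
  have hf := Hp_fin a e he
  have hn : (Hp a e).Normal := by
    constructor
    intro x hx g
    rw [mem_Hp] at hx ⊢
    rw [map_mul a, map_mul a, map_inv a, toAdd_mul, toAdd_mul, toAdd_inv]
    simpa using hx
  have h1 : orderOf (QuotientGroup.mk t : G ⧸ Hp a e) ∣ Nat.card (G ⧸ Hp a e) :=
    orderOf_dvd_natCard _
  have h2 : e ∣ orderOf (QuotientGroup.mk t : G ⧸ Hp a e) := by
    have h3 := pow_orderOf_eq_one (QuotientGroup.mk t : G ⧸ Hp a e)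
    rw [← QuotientGroup.mk_pow, QuotientGroup.eq_one_iff, mem_Hp, map_pow a, ht] at h3
    rw [toAdd_pow] at h3
    have h4 : (e : ℤ) ∣ (orderOf (QuotientGroup.mk t : G ⧸ Hp a e)) • (1 : ℤ) := h3
    rw [nsmul_eq_mul, mul_one] at h4
    exact_mod_cast h4
  exact h2.trans h1

theorem link (hG : Dual 3 G) (ho : Ori 3 G = ⊤) (a : G →* Multiplicative ℤ) (t : G)
    (ht : a t = Multiplicative.ofAdd 1) (e : ℕ) (he : 0 < e)
    (hK : ∀ x : a.ker, x ^ e ∈ commutator a.ker)
    (hv : ∀ v : a.ker →* Multiplicative (ZMod e), ∀ x y : a.ker,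
      (y : G) = t * x * t⁻¹ → v y = v x)
    (v : a.ker →* Multiplicative (ZMod e)) (x₀ : a.ker) (hx₀ : v x₀ ≠ 1) : False := by
  have he2 : (e : ℤ) ≠ 0 := by exact_mod_cast he.ne'
  have := hG.fg
  obtain ⟨V, hV⟩ := ext_hom a t ht v (hv v)
  obtain ⟨V', c, hV', hc, hcc⟩ := bock e he V
  have hSf : (Hp a e).FiniteIndex := Hp_fin a e he
  have hSd := hG.sub (Hp a e)
  have := hSd.fg
  have hoS : Ori 3 (Hp a e) = ⊤ := ori_top (Hp a e) 3 hG.cd (by rw [ho]; exact le_top)
  obtain ⟨u⟩ := hSd.top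
  obtain ⟨hc', hcl⟩ := c2_eq_cls c hcc
  let c' : (Fin 2 → G) → ℤ := fun g => c (g 0) (g 1)
  let cS : (Fin 2 → Hp a e) → ℤ := fun g => c' ((Hp a e).subtype ∘ g)
  have hcS : inhomogeneousCochains.d (Rep.trivial ℤ (Hp a e) ℤ) 2 cS = 0 :=
    comp_cocycle (Hp a e).subtype c' hc'
  have hcSc : ∀ x y z : Hp a e, c ((Hp a e).subtype (x * y)) ((Hp a e).subtype z) +
      c ((Hp a e).subtype x) ((Hp a e).subtype y) =
      c ((Hp a e).subtype y) ((Hp a e).subtype z) +
      c ((Hp a e).subtype x) ((Hp a e).subtype (y * z)) := fun x y z => by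
    rw [map_mul, map_mul]
    exact hcc _ _ _
  have hY : cls cS hcS = c2 (fun x y : Hp a e => c ((Hp a e).subtype x) ((Hp a e).subtype y))
      hcSc := by
    rw [← pull_c2 (Hp a e).subtype c hcc, hcl, pull_cls]
  -- the inclusion of the kernel
  have hKS : a.ker ≤ Hp a e := by
    intro x hx
    rw [mem_Hp]
    have hx2 : a x = 1 := hx
    rw [hx2, toAdd_one]
    exact dvd_zero _
  let ι : a.ker →* Hp a e := Subgroup.inclusion hKS
  have hY0 : cls cS hcS ≠ 0 := by
    intro h0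
    rw [hY] at h0
    obtain ⟨β, hβ⟩ := smul_c2 _ hcSc 1 (by rw [one_smul]; exact h0)
    let F : Hp a e →* Multiplicative ℤ := MonoidHom.mk'
      (fun x => Multiplicative.ofAdd (V' x - e * β x)) (fun x y => by
        rw [← ofAdd_add]
        congr 1
        have h1 := hc x y
        have h2 := hβ x y
        rw [one_mul] at h2
        have h3 : c (x : G) (y : G) = β y - β (x * y) + β x := h2
        rw [h3] at h1
        have h4 : ((x * y : Hp a e) : G) = x * y := rfl
        rw [h4]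
        linear_combination h1)
    apply hx₀
    have h1 := hom_zero e he x₀ (hK x₀) (F.comp ι)
    have h2 : V' x₀ - e * β (ι x₀) = 0 := Multiplicative.ofAdd.injective h1
    have h3 := hV' x₀
    have h4 : V' x₀ = e * β (ι x₀) := by linarith
    rw [h4] at h3
    rw [← hV]
    apply Multiplicative.toAdd.injective
    rw [← h3, toAdd_one]
    push_cast
    simp
  have hYe : (e : ℤ) • cls cS hcS = 0 := by
    rw [hY]
    apply c2_smul_zero _ hcSc _ (fun x : Hp a e => V' x)
    intro x y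
    show (e : ℤ) * c x y = V' y - V' (x * y) + V' x
    rw [hc]
    ring
  have hd : Mono (δ (XG_shortExact (Hp a e)) 2 3 rfl) :=
    mono_δ_of_isZero (XG_shortExact (Hp a e)) 2 (hSd.low 2 rfl)
  have hd2 := (ModuleCat.mono_iff_injective _).1 hd
  obtain ⟨w, hw⟩ := cl_surjective 3 u hSd.cd hoS (δ (XG_shortExact (Hp a e)) 2 3 rfl (cls cS hcS))
  have hw1 : w ∉ commutator (Hp a e) := by
    intro h1
    have h2 : clHom 3 hoS (u.symm 1) w = 1 := Abelianization.commutator_subset_ker _ h1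
    have h3 : cl 3 (u.symm 1) w = 0 := Multiplicative.ofAdd.injective h2
    rw [h3] at hw
    exact hY0 (hd2 (hw.trans (map_zero _).symm))
  have hw2 : (e : ℤ) • cl 3 (u.symm 1) w = 0 := by
    rw [← hw]
    have h4 : (δ (XG_shortExact (Hp a e)) 2 3 rfl).hom ((e : ℤ) • cls cS hcS) =
      (e : ℤ) • (δ (XG_shortExact (Hp a e)) 2 3 rfl).hom (cls cS hcS) := map_zsmul _ _ _
    refine h4.symm.trans ?_
    rw [hYe]
    exact map_zero _
  have hepsZ : ∀ m : ℤ, cmap (eps (Hp a e)) 3 (m • u.symm 1) = 0 → m = 0 := by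
    intro m hm
    have h3 := eps_injective 3 u hSd.cd hoS _ hm
    have h4 := congrArg u h3
    rw [map_zsmul, u.apply_symm_apply, map_zero, smul_eq_mul, mul_one] at h4
    exact h4
  have hw3 : a w = 1 := by
    have h1 := congrArg (cmap (chi (a.comp (Hp a e).subtype)) 3) hw2
    rw [map_zsmul, map_zero] at h1
    unfold cl at h1
    rw [← cmap_comp, kg_chi, cmap_int_smul, ← map_zsmul, ← map_zsmul, ← mul_smul] at h1
    have h2 := hepsZ _ h1
    have h5 : (a w).toAdd = 0 := by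
      rcases mul_eq_zero.1 h2 with h6 | h6
      · exact absurd h6 he2
      · exact h6
    exact Multiplicative.toAdd.injective h5
  obtain ⟨ψ, hψ⟩ := exists_charE (Abelianization.of.comp ι) e he (fun x => by
      rw [← map_pow]
      have h1 := hK x
      exact Abelianization.commutator_subset_ker (Abelianization.of.comp ι) h1)
    ⟨w, hw3⟩ (fun h => hw1 ((QuotientGroup.eq_one_iff _).1 h))
  obtain ⟨X, hX⟩ := ext_hom a t ht ψ (hv ψ)
  have r := res_mod 3 hG.cd ho (Hp a e) e (Hp_dvd a t ht e he)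
    (clsB (cupB X c') (cupB_cocycle X c' hc'))
  rw [pull_clsB (Hp a e).subtype _ _ (cupB_cocycle (X.comp (Hp a e).subtype) cS hcS)] at r
  have r2 : clsB (cupB (X.comp (Hp a e).subtype) cS)
    (cupB_cocycle (X.comp (Hp a e).subtype) cS hcS) = 0 := r
  rw [← chiB_delta] at r2
  have r3 : cmap (chiB (X.comp (Hp a e).subtype)) 3 (cl 3 (u.symm 1) w) = 0 := by
    rw [← hw]
    exact r2
  unfold cl at r3
  rw [← cmap_comp, kg_chiB, cmap_comp] at r3
  obtain ⟨m, hm⟩ := ZMod.intCast_surjective (X w).toAdd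
  have h1 : redB (G := Hp a e) (zmultiplesHom (ZMod e)
      (Multiplicative.toAdd ((X.comp (Hp a e).subtype) w))) = m • redE (Hp a e) e := by
    ext
    show (1 : ℤ) • (X w).toAdd = m • ((1 : ℤ) : ZMod e)
    rw [← hm]
    simp
  rw [h1, cmap_int_smul, ← map_zsmul, ← map_zsmul] at r3
  obtain ⟨y, hy⟩ := red_zero e he 3 _ r3
  obtain ⟨y', hy'⟩ := top_surj (eps (Hp a e)) (fun k => ⟨_, eps_single (Hp a e) 1 k⟩) 3 hSd.cd y
  have h2 : y = cmap (eps (Hp a e)) 3 (u y' • u.symm 1) := by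
    have h3 : u y' • u.symm 1 = y' := by
      rw [← map_zsmul, smul_eq_mul, mul_one, u.symm_apply_apply]
    rw [h3]
    exact hy'.symm
  have h4 : cmap (eps (Hp a e)) 3 ((m - e * u y') • u.symm 1) = 0 := by
    rw [sub_zsmul, mul_smul, ← sub_eq_add_neg, map_sub,
      map_zsmul (cmap (eps (Hp a e)) 3) (e : ℤ), sub_eq_zero, hy, h2]
  have h3 := hepsZ _ h4
  apply hψ
  rw [← hX]
  apply Multiplicative.toAdd.injective
  show (X w).toAdd = 0
  rw [← hm, sub_eq_zero.1 h3]
  push_cast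
  simp

end main

end EssMap
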