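import Pool.Agent.EssMap.Inh

/-!
# Heredity of the duality hypotheses
-/

open CategoryTheory groupCohomology

namespace EssMap

variable {Q : Type} [Group Q] (S : Subgroup Q)

theorem inh_zero (m : ℕ) (h : ∀ M : Rep ℤ Q, Limits.IsZero (groupCohomology M m))
    (A : Rep ℤ S) : Limits.IsZero (groupCohomology A m) :=
  (h (Rep.coind S.subtype A)).of_iso (groupCohomology.coindIso A m).symm

theorem inh_equiv [S.FiniteIndex] (m : ℕ) :
    Nonempty (groupCohomology (Rep.leftRegular ℤ S) m ≃+
      groupCohomology (Rep.leftRegular ℤ Q) m) := by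
  have h1 : Mono (ka S) := (Rep.mono_iff_injective _).2 (ka_injective S)
  have h2 : Epi (ka S) := (Rep.epi_iff_surjective _).2 (ka_surjective S)
  have h3 : IsIso (ka S) := isIso_of_mono_of_epi _
  let i := asIso (ka S)
  let e1 : groupCohomology (CS S) m ≃ₗ[ℤ] groupCohomology (Rep.leftRegular ℤ S) m :=
    (groupCohomology.coindIso (Rep.leftRegular ℤ S) m).toLinearEquiv
  let e2 : groupCohomology (CS S) m ≃+ groupCohomology (Rep.leftRegular ℤ Q) m :=
    { toFun := cmap i.inv m
      invFun := cmap i.hom m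
      left_inv := fun x => by
        rw [← cmap_comp, i.inv_hom_id, cmap_id]
        rfl
      right_inv := fun x => by
        rw [← cmap_comp, i.hom_inv_id, cmap_id]
        rfl
      map_add' := fun x y => map_add _ _ _ }
  exact ⟨e1.symm.toAddEquiv.trans e2⟩

theorem shA_nat {A B : Rep ℤ S} (g : A ⟶ B) (n : ℕ)
    (y : groupCohomology (Rep.coind S.subtype A) n) :
    shA S B n (cmap (Rep.coindMap S.subtype g) n y) = cmap g n (shA S A n y) := by
  unfold shA cmap
  have h1 := groupCohomology.map_comp (A := Rep.coind S.subtype A) (MonoidHom.id Q) S.subtype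
    (Rep.coindMap S.subtype g) (evA S B) n
  have h2 := groupCohomology.map_comp (A := Rep.coind S.subtype A) (B := A) S.subtype
    (MonoidHom.id S) (evA S A) g n
  have h3 : groupCohomology.map ((MonoidHom.id Q).comp S.subtype)
      ((Rep.resFunctor S.subtype).map (Rep.coindMap S.subtype g) ≫ evA S B) n =
      groupCohomology.map (S.subtype.comp (MonoidHom.id S))
      ((Rep.resFunctor (MonoidHom.id S)).map (evA S A) ≫ g) n := by
    apply groupCohomology.map_congr
    · rfl
    · rfl
  rw [h1, h2] at h3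
  exact congrArg (fun F => F.hom y) h3

theorem dz_rt (x : Q) (s : S) : dz S (x * s) = (rt s).hom (dz S x) := by
  unfold dz
  by_cases h : x ∈ S
  · have h1 : x * (s : Q) ∈ S := S.mul_mem h s.2
    rw [dif_pos h1, dif_pos h, rt_single]
    rfl
  · have h1 : ¬ (x * (s : Q) ∈ S) := fun h2 => h ((Subgroup.mul_mem_cancel_right S s.2).1 h2)
    rw [dif_neg h1, dif_neg h, map_zero]

theorem rt_ka (s : S) : rt (s : Q) ≫ ka S = ka S ≫ Rep.coindMap S.subtype (rt s) := by
  apply lr_ext
  apply Subtype.ext
  funext x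
  show ((ka S).hom ((rt (s : Q)).hom (MonoidAlgebra.single 1 1))).1 x =
    (rt s).hom (((ka S).hom (MonoidAlgebra.single 1 1)).1 x)
  rw [rt_single, one_mul, ka_single, ka_single, mul_one, dz_rt]

/-- The comparison of the top cohomology groups. -/
noncomputable def theta (n : ℕ) : groupCohomology (Rep.leftRegular ℤ Q) n →ₗ[ℤ]
    groupCohomology (Rep.leftRegular ℤ S) n :=
  (shA S (Rep.leftRegular ℤ S) n).comp (cmap (ka S) n)

theorem theta_surjective [S.FiniteIndex] (n : ℕ)
    (h : ∀ M : Rep ℤ Q, Limits.IsZero (groupCohomology M (n + 1))) :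
    Function.Surjective (theta S n) :=
  (shA_surjective S _ n).comp (top_surj (ka S) (ka_surjective S) n h)

theorem theta_rt (n : ℕ) (s : S) (x : groupCohomology (Rep.leftRegular ℤ Q) n) :
    theta S n (cmap (rt (s : Q)) n x) = cmap (rt s) n (theta S n x) := by
  unfold theta
  show shA S _ n (cmap (ka S) n (cmap (rt (s : Q)) n x)) =
    cmap (rt s) n (shA S _ n (cmap (ka S) n x))
  rw [← cmap_comp, rt_ka, cmap_comp, shA_nat]

theorem ori_top [S.FiniteIndex] (n : ℕ)
    (h : ∀ M : Rep ℤ Q, Limits.IsZero (groupCohomology M (n + 1))) (hS : S ≤ Ori n Q) :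
    Ori n S = ⊤ := by
  rw [eq_top_iff]
  intro s _ y
  obtain ⟨x, rfl⟩ := theta_surjective S n h y
  rw [← theta_rt, hS s.2 x]

end EssMap
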