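import Pool.Agent.EssMap.Main

/-!
# Trivial coefficients
-/

open CategoryTheory groupCohomology

namespace EssMap

section gen

variable (B : Type) [AddCommGroup B]

/-- The identity, as a map of the restricted trivial module to the trivial module. -/
noncomputable def trB {G H : Type} [Group G] [Group H] (f : G →* H) :
    Rep.res f (Rep.trivial ℤ H B) ⟶ Rep.trivial ℤ G B :=
  Rep.ofHom ⟨LinearMap.id, fun _ => rfl⟩

/-- The pull back map. -/
noncomputable def pullB {G H : Type} [Group G] [Group H] (f : G →* H) (n : ℕ) :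
    groupCohomology (Rep.trivial ℤ H B) n →ₗ[ℤ] groupCohomology (Rep.trivial ℤ G B) n :=
  (groupCohomology.map f (trB B f) n).hom

variable {B}

/-- The map of trivial modules given by a homomorphism. -/
noncomputable def redB {G : Type} [Group G] (r : ℤ →+ B) :
    Rep.trivial ℤ G ℤ ⟶ Rep.trivial ℤ G B :=
  Rep.ofHom ⟨r.toIntLinearMap, fun _ => rfl⟩

theorem redB_apply {G : Type} [Group G] (r : ℤ →+ B) (m : ℤ) :
    (redB (G := G) r).hom m = r m := rfl

theorem pullB_red {G H : Type} [Group G] [Group H] (f : G →* H) (r : ℤ →+ B) (n : ℕ)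
    (x : HZ H n) : pullB B f n (cmap (redB r) n x) = cmap (redB r) n (pull f n x) := by
  unfold pullB pull cmap
  have h1 := groupCohomology.map_comp (A := Rep.trivial ℤ H ℤ) (MonoidHom.id H) f
    (redB r) (trB B f) n
  have h2 := groupCohomology.map_comp (A := Rep.trivial ℤ H ℤ) (B := Rep.trivial ℤ G ℤ) f
    (MonoidHom.id G) (tr f) (redB r) n
  have h3 : groupCohomology.map ((MonoidHom.id H).comp f)
      ((Rep.resFunctor f).map (redB r) ≫ trB B f) n =
      groupCohomology.map (f.comp (MonoidHom.id G))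
      ((Rep.resFunctor (MonoidHom.id G)).map (tr f) ≫ redB r) n := by
    apply groupCohomology.map_congr
    · rfl
    · rfl
  rw [h1, h2] at h3
  exact congrArg (fun F => F.hom x) h3

theorem d_trivB {G : Type} [Group G] {m : ℕ} (c : (Fin m → G) → B) (g : Fin (m + 1) → G) :
    (inhomogeneousCochains.d (Rep.trivial ℤ G B) m c : (Fin (m + 1) → G) → B) g =
      c (fun i => g i.succ) + ∑ j : Fin (m + 1),
        (-1 : ℤ) ^ ((j : ℕ) + 1) • c (Fin.contractNth j (· * ·) g) :=
  inhomogeneousCochains.d_hom_apply _ _ _ _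

end gen

/-- Reduction modulo `e`. -/
noncomputable abbrev redE (G : Type) [Group G] (e : ℕ) :
    Rep.trivial ℤ G ℤ ⟶ Rep.trivial ℤ G (ZMod e) :=
  redB (Int.castAddHom (ZMod e))

theorem redE_surj (G : Type) [Group G] (e : ℕ) : Function.Surjective (redE G e).hom := by
  intro x
  obtain ⟨m, hm⟩ := ZMod.intCast_surjective x
  exact ⟨m, hm⟩

/-- The sequence given by multiplication by `e`. -/
noncomputable def XE (G : Type) [Group G] (e : ℕ) : ShortComplex (Rep ℤ G) :=
  ShortComplex.mk ((e : ℤ) • 𝟙 (Rep.trivial ℤ G ℤ)) (redE G e) (by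
    ext
    show (((e : ℤ) • (1 : ℤ) : ℤ) : ZMod e) = 0
    rw [smul_eq_mul]
    push_cast
    simp)

theorem XE_shortExact (G : Type) [Group G] (e : ℕ) (he : 0 < e) : (XE G e).ShortExact := by
  have h1 : Mono ((e : ℤ) • 𝟙 (Rep.trivial ℤ G ℤ)) := by
    rw [Rep.mono_iff_injective]
    intro a b hab
    have h : (e : ℤ) * (a : ℤ) = (e : ℤ) * (b : ℤ) := hab
    have he2 : (e : ℤ) ≠ 0 := by exact_mod_cast he.ne'
    exact mul_left_cancel₀ he2 h
  have h2 : Epi (redE G e) := by
    rw [Rep.epi_iff_surjective]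
    exact redE_surj G e
  refine { exact := ?_, mono_f := h1, epi_g := h2 }
  apply rep_exact
  intro x hx
  let x' : ℤ := x
  have hx2 : ((x' : ℤ) : ZMod e) = 0 := hx
  rw [ZMod.intCast_zmod_eq_zero_iff_dvd] at hx2
  obtain ⟨y, hy⟩ := hx2
  refine ⟨y, ?_⟩
  show (e : ℤ) • y = x'
  rw [hy, smul_eq_mul]

theorem red_zero {G : Type} [Group G] (e : ℕ) (he : 0 < e) (n : ℕ) (x : HZ G n)
    (h : cmap (redE G e) n x = 0) : ∃ y : HZ G n, x = (e : ℤ) • y := by
  have h2 := mapShortComplex₂_exact (XE_shortExact G e he) n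
  rw [ShortComplex.moduleCat_exact_iff] at h2
  obtain ⟨z, hz⟩ := h2 x h
  have hz2 : cmap ((e : ℤ) • 𝟙 (Rep.trivial ℤ G ℤ)) n z = x := hz
  refine ⟨z, ?_⟩
  rw [← hz2, cmap_int_smul, cmap_id]
  rfl

theorem res_mod {G : Type} [Group G] (n : ℕ)
    (h : ∀ M : Rep ℤ G, Limits.IsZero (groupCohomology M (n + 1))) (ho : Ori n G = ⊤)
    (S : Subgroup G) [S.FiniteIndex] (e : ℕ) (he : e ∣ S.index)
    (z : groupCohomology (Rep.trivial ℤ G (ZMod e)) n) : pullB (ZMod e) S.subtype n z = 0 := by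
  obtain ⟨x, rfl⟩ := top_surj (redE G e) (redE_surj G e) n h z
  obtain ⟨c', hc'⟩ := res_divisible n h (le_top : S ≤ ⊤) (by rw [ho])
    (pull (⊤ : Subgroup G).subtype n x)
  rw [← pull_comp] at hc'
  have h1 : pull S.subtype n x = (S.relIndex ⊤ : ℤ) • c' := hc'
  rw [Subgroup.relIndex_top_right] at h1
  obtain ⟨m, hm⟩ := he
  show pullB (ZMod e) S.subtype n (cmap (redE G e) n x) = 0
  rw [pullB_red, h1, hm]
  have h2 : cmap (redB (G := S) (Int.castAddHom (ZMod e))) n (((e * m : ℕ) : ℤ) • c') =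
      cmap (((e * m : ℕ) : ℤ) • redB (G := S) (Int.castAddHom (ZMod e))) n c' := by
    rw [cmap_int_smul, map_zsmul]
  rw [h2]
  have h3 : ((e * m : ℕ) : ℤ) • redB (G := S) (Int.castAddHom (ZMod e)) = 0 := by
    ext
    show ((e * m : ℕ) : ℤ) • (Int.castAddHom (ZMod e) 1) = 0
    rw [zsmul_eq_mul]
    push_cast
    simp
  rw [h3, cmap_zero]
  rfl

end EssMap
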