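import Pool.Agent.EssMap.CoreT

/-!
# Assembly
-/

open CategoryTheory groupCohomology

namespace EssMap

/-- The restriction of an endomorphism to an invariant subgroup. -/
def rst {Q : Type*} [Group Q] (φ : Q →* Q) (G : Subgroup Q) (hG : ∀ x ∈ G, φ x ∈ G) : G →* G :=
  (φ.comp G.subtype).codRestrict G (fun x => hG x.1 x.2)

theorem rst_coe {Q : Type*} [Group Q] (φ : Q →* Q) (G : Subgroup Q) (hG : ∀ x ∈ G, φ x ∈ G)
    (x : G) : ((rst φ G hG x : G) : Q) = φ x := rfl

theorem itr_rst {Q : Type*} [Group Q] (φ : Q →* Q) (G : Subgroup Q) (hG : ∀ x ∈ G, φ x ∈ G)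
    (k : ℕ) (x : G) : ((itr (rst φ G hG) k x : G) : Q) = itr φ k x := by
  induction k with
  | zero => rfl
  | succ k ih => rw [itr_succ, itr_succ, rst_coe, ih]

theorem rst_inj {Q : Type*} [Group Q] {φ : Q →* Q} (h : Function.Injective φ) (G : Subgroup Q)
    (hG : ∀ x ∈ G, φ x ∈ G) : Function.Injective (rst φ G hG) := by
  intro a b hab
  apply Subtype.ext
  apply h
  exact congrArg Subtype.val hab

theorem rst_fin {Q : Type*} [Group Q] {φ : Q →* Q} (h : Function.Injective φ)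
    (hf : φ.range.FiniteIndex) (G : Subgroup Q) (hGf : G.FiniteIndex)
    (hG : ∀ x ∈ G, φ x ∈ G) : (rst φ G hG).range.FiniteIndex := by
  have h1 : (rst φ G hG).range.map G.subtype = G.map φ := by
    ext x
    constructor
    · rintro ⟨_, ⟨y, rfl⟩, rfl⟩
      exact ⟨y, y.2, rfl⟩
    · rintro ⟨y, hy, rfl⟩
      exact ⟨_, ⟨⟨y, hy⟩, rfl⟩, rfl⟩
  have h2 := Subgroup.index_map_subtype (rst φ G hG).range
  rw [h1, Subgroup.index_map_of_injective _ h] at h2
  constructor
  intro h0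
  rw [h0, zero_mul] at h2
  exact mul_ne_zero hGf.index_ne_zero hf.index_ne_zero h2

/-- The duality hypotheses in dimension `n`. -/
structure Dual (n : ℕ) (G : Type) [Group G] : Prop where
  fg : Group.FG G
  cd : ∀ M : Rep ℤ G, Limits.IsZero (groupCohomology M (n + 1))
  top : Nonempty (groupCohomology (Rep.leftRegular ℤ G) n ≃+ ℤ)
  low : ∀ j : ℕ, j + 1 = n → Limits.IsZero (groupCohomology (Rep.leftRegular ℤ G) j)

theorem zero_of_equiv {A B : ModuleCat ℤ} (e : A ≃+ B) (h : Limits.IsZero B) :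
    Limits.IsZero A := by
  have h1 : Subsingleton B := ModuleCat.subsingleton_of_isZero h
  have h2 : Subsingleton A := e.toEquiv.subsingleton
  exact ModuleCat.isZero_of_subsingleton A

theorem Dual.sub {n : ℕ} {Q : Type} [Group Q] (hQ : Dual n Q) (S : Subgroup Q)
    [S.FiniteIndex] : Dual n S where
  fg := by
    have := hQ.fg
    infer_instance
  cd := inh_zero S (n + 1) hQ.cd
  top := by
    obtain ⟨e⟩ := hQ.top
    obtain ⟨e'⟩ := inh_equiv S n
    exact ⟨e'.trans e⟩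
  low := fun j hj => by
    obtain ⟨e'⟩ := inh_equiv S j
    exact zero_of_equiv e' (hQ.low j hj)

theorem reduce {Q : Type} [Group Q] {n : ℕ} (hQ : Dual n Q) (φ : Q →* Q) (H : Subgroup Q)
    (hH : H.FiniteIndex) : ∃ G : Subgroup Q, G.FiniteIndex ∧ G ≤ H ∧ (∀ x ∈ G, φ x ∈ G) ∧
      Ori n G = ⊤ := by
  have := hQ.fg
  obtain ⟨e⟩ := hQ.top
  have hO := ori_finiteIndex n e
  obtain ⟨G, h1, h2, h3⟩ := exists_invariant φ (H ⊓ Ori n Q) inferInstance
  exact ⟨G, h1, h2.trans inf_le_left, h3, ori_top G n hQ.cd (h2.trans inf_le_right)⟩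

end EssMap
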