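import Pool.Agent.EssMap.ModP

/-!
# Integral homomorphisms and reduction modulo p
-/

namespace EssMap

variable {H : Type} [Group H]

theorem addf_fd {K : Type} [Field K] [Group.FG H] : FiniteDimensional K (Addf H K) := by
  obtain ⟨m, q, hq⟩ := fg_fin (G := H)
  have hγ : Function.Surjective (FreeGroup.lift (fun i => q (FreeGroup.of i))) := by
    have : FreeGroup.lift (fun i => q (FreeGroup.of i)) = q := by
      ext i
      rw [FreeGroup.lift_apply_of]
    rw [this]
    exact hq
  exact addf_finite _ hγ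

theorem ind_of_det {n : ℕ} (b : Fin n → (H →* Multiplicative ℤ)) (x : Fin n → H)
    (h : (Matrix.of fun i j => (b j (x i)).toAdd).det ≠ 0) : Ind b := by
  intro c hc
  by_contra hne
  apply h
  apply Matrix.exists_mulVec_eq_zero_iff.1
  refine ⟨c, hne, ?_⟩
  funext i
  have h1 := hc (x i)
  rw [Pi.zero_apply, ← h1]
  show ∑ j, (b j (x i)).toAdd * c j = _
  exact Finset.sum_congr rfl (fun j _ => mul_comm _ _)

theorem exists_det [Group.FG H] (n : ℕ) (hn : n ≤ Module.finrank ℂ (Addf H ℂ)) :
    ∃ (b : Fin n → (H →* Multiplicative ℤ)) (x : Fin n → H),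
      (Matrix.of fun i j => (b j (x i)).toAdd).det ≠ 0 := by
  have := addf_fd (H := H) (K := ℂ)
  induction n with
  | zero => exact ⟨Fin.elim0, Fin.elim0, by rw [Matrix.det_fin_zero]; exact one_ne_zero⟩
  | succ n ih =>
    obtain ⟨b, x, hb⟩ := ih (by omega)
    let L : Addf H ℂ →ₗ[ℂ] (Fin n → ℂ) :=
      { toFun := fun f i => f.1 (x i)
        map_add' := fun _ _ => rfl
        map_smul' := fun _ _ => rfl }
    have hL : LinearMap.ker L ≠ ⊥ := by
      intro h0
      have h1 := LinearMap.finrank_range_add_finrank_ker L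
      rw [h0, finrank_bot, add_zero] at h1
      have h2 := Submodule.finrank_le (LinearMap.range L)
      rw [Module.finrank_fin_fun] at h2
      omega
    obtain ⟨f, hf, hf0⟩ := (Submodule.ne_bot_iff _).1 hL
    have hy : ∃ y, f.1 y ≠ 0 := by
      by_contra hcon
      push Not at hcon
      exact hf0 (Subtype.ext (funext hcon))
    obtain ⟨y, hy⟩ := hy
    obtain ⟨c, hc1, hc2⟩ := exists_int_hom f y hy
    refine ⟨Fin.cons c b, Fin.cons y x, ?_⟩
    rw [Matrix.det_succ_column_zero, Finset.sum_eq_single 0]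
    · simp only [Fin.val_zero, pow_zero, one_mul, Matrix.of_apply, Fin.cons_zero]
      apply mul_ne_zero hc1
      have h1 : (Matrix.of fun i j => ((Fin.cons c b : Fin (n + 1) → (H →* Multiplicative ℤ)) j
          ((Fin.cons y x : Fin (n + 1) → H) i)).toAdd).submatrix (Fin.succAbove 0) Fin.succ =
          Matrix.of fun i j => (b j (x i)).toAdd := by
        ext i j
        simp [Matrix.submatrix_apply, Matrix.of_apply, Fin.succAbove_zero]
      rw [h1]
      exact hb
    · intro i _ hi
      obtain ⟨k, rfl⟩ := Fin.exists_succ_eq.2 hi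
      have h1 : (c (x k)).toAdd = 0 := hc2 (x k) (congrFun hf k)
      simp [Matrix.of_apply, h1]
    · intro h
      exact absurd (Finset.mem_univ _) h

/-- Reduction of an integral homomorphism. -/
def toP (p : ℕ) [Fact p.Prime] (a : H →* Multiplicative ℤ) : Addf H (ZMod p) :=
  ⟨fun g => (((a g).toAdd : ℤ) : ZMod p), fun x y => by
    show (((a (x * y)).toAdd : ℤ) : ZMod p) = (((a x).toAdd : ℤ) : ZMod p) +
      (((a y).toAdd : ℤ) : ZMod p)
    rw [map_mul, toAdd_mul, Int.cast_add]⟩

theorem toP_apply (p : ℕ) [Fact p.Prime] (a : H →* Multiplicative ℤ) (g : H) :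
    (toP p a).1 g = (((a g).toAdd : ℤ) : ZMod p) := rfl

/-- Integral combinations. -/
def comb {n : ℕ} (c : Fin n → ℤ) (b : Fin n → (H →* Multiplicative ℤ)) : H →* Multiplicative ℤ :=
  MonoidHom.mk' (fun g => Multiplicative.ofAdd (∑ j, c j * (b j g).toAdd)) (by
    intro x y
    rw [← ofAdd_add, ← Finset.sum_add_distrib]
    congr 1
    apply Finset.sum_congr rfl
    intro j _
    rw [map_mul, toAdd_mul]
    ring)

theorem comb_apply {n : ℕ} (c : Fin n → ℤ) (b : Fin n → (H →* Multiplicative ℤ)) (g : H) :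
    (comb c b g).toAdd = ∑ j, c j * (b j g).toAdd := rfl

theorem toP_comb (p : ℕ) [Fact p.Prime] {n : ℕ} (c : Fin n → ℤ)
    (b : Fin n → (H →* Multiplicative ℤ)) :
    toP p (comb c b) = ∑ j, ((c j : ℤ) : ZMod p) • toP p (b j) := by
  apply Subtype.ext
  funext g
  rw [toP_apply, comb_apply, Submodule.coe_sum, Finset.sum_apply, Int.cast_sum]
  apply Finset.sum_congr rfl
  intro j _
  rw [Int.cast_mul]
  rfl

/-- Division by `p`. -/
theorem exists_div (p : ℕ) [Fact p.Prime] (a : H →* Multiplicative ℤ) (h : toP p a = 0) :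
    ∃ a' : H →* Multiplicative ℤ, ∀ g, (a g).toAdd = p * (a' g).toAdd := by
  have h1 : ∀ g, ∃ n : ℤ, (a g).toAdd = p * n := by
    intro g
    have h2 : (((a g).toAdd : ℤ) : ZMod p) = 0 := congrFun (congrArg Subtype.val h) g
    exact (ZMod.intCast_zmod_eq_zero_iff_dvd _ _).1 h2
  choose n hn using h1
  have hp : (p : ℤ) ≠ 0 := by exact_mod_cast (Fact.out : p.Prime).ne_zero
  refine ⟨MonoidHom.mk' (fun g => Multiplicative.ofAdd (n g)) ?_, fun g => hn g⟩
  intro x y
  rw [← ofAdd_add]
  congr 1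
  apply mul_left_cancel₀ hp
  rw [mul_add, ← hn, ← hn, ← hn, map_mul, toAdd_mul]

theorem exists_modp [Group.FG H] (p : ℕ) [Fact p.Prime] (n : ℕ)
    (hn : n ≤ Module.finrank ℂ (Addf H ℂ)) :
    ∃ b : Fin n → (H →* Multiplicative ℤ), LinearIndependent (ZMod p) (fun j => toP p (b j)) := by
  classical
  obtain ⟨b₀, x, hb₀⟩ := exists_det n hn
  have hex : ∃ N : ℕ, ∃ b : Fin n → (H →* Multiplicative ℤ),
      (Matrix.of fun i j => (b j (x i)).toAdd).det ≠ 0 ∧
      (Matrix.of fun i j => (b j (x i)).toAdd).det.natAbs = N := ⟨_, b₀, hb₀, rfl⟩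
  obtain ⟨b, hb, hbN⟩ := Nat.find_spec hex
  have hmin : ∀ m, m < Nat.find hex → ¬ ∃ b : Fin n → (H →* Multiplicative ℤ),
      (Matrix.of fun i j => (b j (x i)).toAdd).det ≠ 0 ∧
      (Matrix.of fun i j => (b j (x i)).toAdd).det.natAbs = m := fun m hm => Nat.find_min hex hm
  refine ⟨b, ?_⟩
  rw [Fintype.linearIndependent_iff]
  intro c hc
  by_contra hne
  push Not at hne
  obtain ⟨j₀, hj₀⟩ := hne
  have hp : p.Prime := Fact.out
  let ĉ : Fin n → ℤ := fun j => ((c j).val : ℤ)
  have h1 : toP p (comb ĉ b) = 0 := by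
    rw [toP_comb, ← hc]
    apply Finset.sum_congr rfl
    intro j _
    congr 1
    show (((c j).val : ℤ) : ZMod p) = c j
    rw [Int.cast_natCast, ZMod.natCast_zmod_val]
  obtain ⟨h, hh⟩ := exists_div p (comb ĉ b) h1
  let A : Matrix (Fin n) (Fin n) ℤ := Matrix.of fun i j => (b j (x i)).toAdd
  let b' : Fin n → (H →* Multiplicative ℤ) := Function.update b j₀ h
  let A' : Matrix (Fin n) (Fin n) ℤ := Matrix.of fun i j => (b' j (x i)).toAdd
  have h2 : (p : ℤ) * A'.det = ĉ j₀ * A.det := by
    have h3 : A' = A.updateCol j₀ (fun i => (h (x i)).toAdd) := by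
      ext i j
      by_cases hj : j = j₀
      · subst hj
        rw [Matrix.updateCol_self]
        show ((Function.update b j h) j (x i)).toAdd = _
        rw [Function.update_self]
      · rw [Matrix.updateCol_ne hj]
        show ((Function.update b j₀ h) j (x i)).toAdd = (b j (x i)).toAdd
        rw [Function.update_of_ne hj]
    have h4 : A.mulVec ĉ = (p : ℤ) • (fun i => (h (x i)).toAdd) := by
      funext i
      rw [Pi.smul_apply, smul_eq_mul, ← hh (x i), comb_apply]
      show ∑ j, (b j (x i)).toAdd * ĉ j = _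
      exact Finset.sum_congr rfl (fun j _ => mul_comm _ _)
    have h5 : A.cramer (A.mulVec ĉ) = A.det • ĉ := by
      rw [Matrix.cramer_eq_adjugate_mulVec, Matrix.mulVec_mulVec, Matrix.adjugate_mul,
        Matrix.smul_mulVec, Matrix.one_mulVec]
    have h6 := congrFun h5 j₀
    rw [h4, map_smul, Pi.smul_apply, Matrix.cramer_apply, ← h3, Pi.smul_apply, smul_eq_mul,
      smul_eq_mul, mul_comm A.det] at h6
    exact h6
  have hĉ1 : 0 < ĉ j₀ := by
    have : (c j₀).val ≠ 0 := fun h3 => hj₀ ((ZMod.val_eq_zero _).1 h3)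
    show 0 < (((c j₀).val : ℕ) : ℤ)
    exact_mod_cast Nat.pos_of_ne_zero this
  have hĉ2 : ĉ j₀ < p := by
    show (((c j₀).val : ℕ) : ℤ) < p
    exact_mod_cast ZMod.val_lt (c j₀)
  have hA : A.det ≠ 0 := hb
  have hA' : A'.det ≠ 0 := by
    intro h3
    rw [h3, mul_zero] at h2
    exact (mul_ne_zero hĉ1.ne' hA) h2.symm
  have h3 : A'.det.natAbs < Nat.find hex := by
    rw [← hbN]
    have h4 : (p : ℤ).natAbs * A'.det.natAbs = (ĉ j₀).natAbs * A.det.natAbs := by
      rw [← Int.natAbs_mul, ← Int.natAbs_mul, h2]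
    have h5 : (ĉ j₀).natAbs < (p : ℤ).natAbs := by omega
    have h6 : 0 < A.det.natAbs := Int.natAbs_pos.2 hA
    by_contra h7
    push Not at h7
    have h8 : (ĉ j₀).natAbs * A.det.natAbs < (p : ℤ).natAbs * A'.det.natAbs :=
      lt_of_lt_of_le (Nat.mul_lt_mul_of_pos_right h5 h6) (Nat.mul_le_mul le_rfl h7)
    omega
  exact hmin _ h3 ⟨b', hA', rfl⟩

/-- Every homomorphism to the integers modulo `p` lifts to the integers. -/
def LiftP (p : ℕ) [Fact p.Prime] (H : Type) [Group H] : Prop :=
  ∀ χ : Addf H (ZMod p), ∃ a : H →* Multiplicative ℤ, χ = toP p a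

theorem lift_of_le [Group.FG H] (p : ℕ) [Fact p.Prime]
    (h : Module.finrank (ZMod p) (Addf H (ZMod p)) ≤ Module.finrank ℂ (Addf H ℂ)) :
    LiftP p H := by
  have := addf_fd (H := H) (K := ZMod p)
  obtain ⟨b, hb⟩ := exists_modp p _ h
  have hspan := hb.span_eq_top_of_card_eq_finrank' (by rw [Fintype.card_fin])
  intro χ
  have h1 : χ ∈ Submodule.span (ZMod p) (Set.range fun j => toP p (b j)) := by
    rw [hspan]
    trivial
  rw [Submodule.mem_span_range_iff_exists_fun] at h1
  obtain ⟨c, hc⟩ := h1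
  refine ⟨comb (fun j => ((c j).val : ℤ)) b, ?_⟩
  rw [toP_comb, ← hc]
  apply Finset.sum_congr rfl
  intro j _
  congr 1
  rw [Int.cast_natCast, ZMod.natCast_zmod_val]

theorem ind_of_modp (p : ℕ) [Fact p.Prime] {n : ℕ} (b : Fin n → (H →* Multiplicative ℤ))
    (hb : LinearIndependent (ZMod p) (fun j => toP p (b j))) : Ind b := by
  have hp : p.Prime := Fact.out
  have key : ∀ (N : ℕ) (c : Fin n → ℤ), (∀ g, ∑ j, c j * (b j g).toAdd = 0) →
      ∀ j, (c j).natAbs ≤ N → c j = 0 := by
    intro N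
    induction N with
    | zero => intro c _ j hj; omega
    | succ N ih =>
      intro c hc j hj
      by_contra hne
      have h1 : toP p (comb c b) = 0 := by
        apply Subtype.ext
        funext g
        rw [toP_apply, comb_apply, hc, Int.cast_zero]
        rfl
      rw [toP_comb] at h1
      have h2 := Fintype.linearIndependent_iff.1 hb _ h1
      have h3 : ∀ j, ∃ m : ℤ, c j = p * m := fun j =>
        (ZMod.intCast_zmod_eq_zero_iff_dvd _ _).1 (h2 j)
      choose m hm using h3
      have hp0 : (p : ℤ) ≠ 0 := by exact_mod_cast hp.ne_zero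
      have h4 : ∀ g, ∑ j, m j * (b j g).toAdd = 0 := by
        intro g
        apply mul_left_cancel₀ hp0
        rw [mul_zero, ← hc g, Finset.mul_sum]
        apply Finset.sum_congr rfl
        intro j _
        rw [hm j, mul_assoc]
      have h5 : (m j).natAbs ≤ N := by
        have h6 : (c j).natAbs = p * (m j).natAbs := by
          rw [hm j, Int.natAbs_mul, Int.natAbs_natCast]
        have h7 : 0 < (m j).natAbs := by
          apply Int.natAbs_pos.2
          intro h8
          apply hne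
          rw [hm j, h8, mul_zero]
        have h8 := hp.two_le
        nlinarith
      apply hne
      rw [hm j, ih m h4 j h5, mul_zero]
  intro c hc
  funext j
  exact key _ c hc j le_rfl

theorem exists_ind_of_lift [Group.FG H] (p : ℕ) [Fact p.Prime] (h : LiftP p H) :
    ∃ b : Fin (Module.finrank (ZMod p) (Addf H (ZMod p))) → (H →* Multiplicative ℤ), Ind b := by
  have := addf_fd (H := H) (K := ZMod p)
  let B := Module.finBasis (ZMod p) (Addf H (ZMod p))
  choose b hb using fun j => h (B j)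
  refine ⟨b, ind_of_modp p b ?_⟩
  have h1 : (fun j => toP p (b j)) = B := by
    funext j
    rw [← hb]
  rw [h1]
  exact B.linearIndependent

theorem le_finrank_of_ind [Group.FG H] {n : ℕ} (b : Fin n → (H →* Multiplicative ℤ))
    (hb : Ind b) : n ≤ Module.finrank ℂ (Addf H ℂ) := by
  classical
  have := addf_fd (H := H) (K := ℂ)
  obtain ⟨m, q, hq⟩ := fg_fin (G := H)
  have hγ : Function.Surjective (FreeGroup.lift (fun i => q (FreeGroup.of i))) := by
    have : FreeGroup.lift (fun i => q (FreeGroup.of i)) = q := by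
      ext i
      rw [FreeGroup.lift_apply_of]
    rw [this]
    exact hq
  obtain ⟨θ, hθ⟩ := exists_minor _ (indep_gen _ hγ b hb)
  let v : Fin n → Addf H ℂ := fun j => ⟨fun g => (((b j g).toAdd : ℤ) : ℂ), fun x y => by
    show (((b j (x * y)).toAdd : ℤ) : ℂ) = (((b j x).toAdd : ℤ) : ℂ) + (((b j y).toAdd : ℤ) : ℂ)
    rw [map_mul, toAdd_mul, Int.cast_add]⟩
  have hv : LinearIndependent ℂ v := by
    rw [Fintype.linearIndependent_iff]
    intro c hc
    have h1 : (Matrix.of fun i j => (((b j (q (FreeGroup.of (θ i)))).toAdd : ℤ) : ℂ)).det ≠ 0 := by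
      intro h2
      apply hθ
      have h3 : (Matrix.of fun i j => (((b j (q (FreeGroup.of (θ i)))).toAdd : ℤ) : ℂ)).det =
          (((Matrix.of fun i j => (b j (q (FreeGroup.of (θ i)))).toAdd).det : ℤ) : ℂ) := by
        rw [Int.cast_det]
        congr 1
      have h4 : (Matrix.of fun i j => (((b j (q (FreeGroup.of (θ i)))).toAdd : ℤ) : ℚ)).det =
          (((Matrix.of fun i j => (b j (q (FreeGroup.of (θ i)))).toAdd).det : ℤ) : ℚ) := by
        rw [Int.cast_det]
        congr 1
      rw [h3] at h2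
      rw [h4]
      have h5 : (Matrix.of fun i j => (b j (q (FreeGroup.of (θ i)))).toAdd).det = 0 := by
        exact_mod_cast h2
      rw [h5, Int.cast_zero]
    have h2 : (Matrix.of fun i j => (((b j (q (FreeGroup.of (θ i)))).toAdd : ℤ) : ℂ)).mulVec c
        = 0 := by
      funext i
      have h3 := congrFun (congrArg Subtype.val hc) (q (FreeGroup.of (θ i)))
      rw [Submodule.coe_sum, Finset.sum_apply] at h3
      have h4 : ∑ j, c j * (((b j (q (FreeGroup.of (θ i)))).toAdd : ℤ) : ℂ) = 0 := h3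
      show ∑ j, (((b j (q (FreeGroup.of (θ i)))).toAdd : ℤ) : ℂ) * c j = 0
      rw [← h4]
      exact Finset.sum_congr rfl (fun j _ => mul_comm _ _)
    have h3 : c = 0 := by
      by_contra h4
      exact h1 (Matrix.exists_mulVec_eq_zero_iff.1 ⟨c, h4, h2⟩)
    intro j
    rw [h3]
    rfl
  have h1 := hv.fintype_card_le_finrank
  rw [Fintype.card_fin] at h1
  exact h1

end EssMap
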