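import Pool.Agent.EssMap.Grow

/-!
# The bound modulo p
-/

namespace EssMap

theorem nil_bound {K V : Type} [Field K] [AddCommGroup V] [Module K V]
    [FiniteDimensional K V] (T : Module.End K V) (n : ℕ) (hT : T ^ n = 0) :
    Module.finrank K V ≤ n * Module.finrank K (LinearMap.ker T) := by
  have h1 : ∀ k : ℕ, Module.finrank K (LinearMap.ker (T ^ k)) ≤
      k * Module.finrank K (LinearMap.ker T) := by
    intro k
    induction k with
    | zero =>
      rw [pow_zero, zero_mul]
      have : LinearMap.ker (1 : Module.End K V) = ⊥ := LinearMap.ker_id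
      rw [this, finrank_bot]
    | succ k ih =>
      let f : LinearMap.ker (T ^ (k + 1)) →ₗ[K] LinearMap.ker T :=
        ((T ^ k).comp (LinearMap.ker (T ^ (k + 1))).subtype).codRestrict (LinearMap.ker T) (by
          intro x
          rw [LinearMap.mem_ker]
          have h2 : (T ^ (k + 1)) x.1 = 0 := x.2
          have h3 : ∀ v : V, (T ^ (k + 1)) v = T ((T ^ k) v) := fun v => by rw [pow_succ']; rfl
          rw [h3] at h2
          exact h2)
      have h2 := LinearMap.finrank_range_add_finrank_ker f
      have h3 : Module.finrank K (LinearMap.range f) ≤ Module.finrank K (LinearMap.ker T) :=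
        Submodule.finrank_le _
      have h4 : Module.finrank K (LinearMap.ker f) ≤ Module.finrank K (LinearMap.ker (T ^ k)) := by
        let g : LinearMap.ker f →ₗ[K] LinearMap.ker (T ^ k) :=
          ((LinearMap.ker (T ^ (k + 1))).subtype.comp (LinearMap.ker f).subtype).codRestrict
            (LinearMap.ker (T ^ k)) (by
              intro x
              rw [LinearMap.mem_ker]
              exact congrArg Subtype.val x.2)
        have hg : Function.Injective g := by
          intro x y hxy
          apply Subtype.ext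
          apply Subtype.ext
          have h5 : ((g x : LinearMap.ker (T ^ k)) : V) = ((g y : LinearMap.ker (T ^ k)) : V) := by
            rw [hxy]
          exact h5
        exact LinearMap.finrank_le_finrank_of_injective hg
      rw [add_mul, one_mul]
      omega
  have h2 := h1 n
  rw [hT] at h2
  have h3 : LinearMap.ker (0 : Module.End K V) = ⊤ := LinearMap.ker_zero
  rw [h3, finrank_top] at h2
  exact h2

variable {G : Type} [Group G]

theorem prc_pow {K : Type} [Field K] {H : Type} [Group H] (φ : H →* H) (n : ℕ) (f : Addf H K)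
    (x : H) : (((prc (K := K) φ : Module.End K (Addf H K)) ^ n) f).1 x = f.1 (φ^[n] x) := by
  induction n generalizing x with
  | zero => rfl
  | succ n ih =>
    rw [pow_succ']
    show (((prc (K := K) φ : Module.End K (Addf H K)) ^ n) f).1 (φ x) = _
    rw [ih, Function.iterate_succ_apply]

theorem cj_iter (a : G →* Multiplicative ℤ) (p : ℕ) (t : G) (n : ℕ) (x : Hp a p) :
    (((cj a p t)^[n] x : Hp a p) : G) = t ^ n * x.1 * (t ^ n)⁻¹ := by
  induction n with
  | zero => simp
  | succ n ih =>
    rw [Function.iterate_succ_apply', cj_coe, ih, pow_succ' t n]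
    group

theorem addf_inv {K : Type} [Field K] {H : Type} [Group H] (h : Addf H K) (x : H) :
    h.1 x⁻¹ = -h.1 x := by
  have h1 := h.2 x x⁻¹
  rw [mul_inv_cancel, addf_one] at h1
  linear_combination -h1

theorem modp_bound {p : ℕ} [Fact p.Prime] (a : G →* Multiplicative ℤ) (t : G)
    (ht : (a t).toAdd = 1) [FiniteDimensional (ZMod p) (Addf G (ZMod p))]
    [FiniteDimensional (ZMod p) (Addf (Hp a p) (ZMod p))] :
    Module.finrank (ZMod p) (Addf (Hp a p) (ZMod p)) + p ≤
      p * Module.finrank (ZMod p) (Addf G (ZMod p)) + 1 := by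
  classical
  have hp : p.Prime := Fact.out
  let F := ZMod p
  let W := Addf (Hp a p) F
  let σ : Module.End F W := prc (cj a p t)
  let T : Module.End F W := σ - 1
  have htp : t ^ p ∈ Hp a p := by
    rw [mem_Hp, map_pow a, toAdd_pow, ht, nsmul_eq_mul, mul_one]
  let tp : Hp a p := ⟨t ^ p, htp⟩
  -- the action has order dividing p
  have hσ : σ ^ p = 1 := by
    apply LinearMap.ext
    intro f
    apply Subtype.ext
    funext x
    show ((σ ^ p) f).1 x = f.1 x
    rw [prc_pow]
    have h1 : (cj a p t)^[p] x = tp * x * tp⁻¹ := by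
      apply Subtype.ext
      rw [cj_iter]
      rfl
    rw [h1, f.2, f.2, addf_inv]
    ring
  have hT : T ^ p = 0 := by
    rcases subsingleton_or_nontrivial W with hW | hW
    · exact Subsingleton.elim _ _
    · have : CharP (Module.End F W) p :=
        charP_of_injective_algebraMap (algebraMap F (Module.End F W)).injective p
      show (σ - 1) ^ p = 0
      rw [sub_pow_char_of_commute _ (Commute.one_right σ), hσ, one_pow, sub_self]
  -- the functional
  let ℓ : W →ₗ[F] F :=
    { toFun := fun f => f.1 tp
      map_add' := fun _ _ => rfl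
      map_smul' := fun _ _ => rfl }
  let W0 := LinearMap.ker ℓ
  have h1 : Module.finrank F W ≤ Module.finrank F W0 + 1 := by
    have h2 : Module.finrank F (LinearMap.range ℓ) + Module.finrank F W0 =
      Module.finrank F W := LinearMap.finrank_range_add_finrank_ker ℓ
    have h3 : Module.finrank F (LinearMap.range ℓ) ≤ 1 := by
      have := Submodule.finrank_le (LinearMap.range ℓ)
      rw [Module.finrank_self] at this
      exact this
    omega
  have hTW : ∀ f : W, ℓ (T f) = 0 := by
    intro f
    show f.1 (cj a p t tp) - f.1 tp = 0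
    have h2 : cj a p t tp = tp := by
      apply Subtype.ext
      rw [cj_coe]
      show t * t ^ p * t⁻¹ = t ^ p
      rw [← pow_succ', pow_succ, mul_inv_cancel_right]
    rw [h2, sub_self]
  let T0 : Module.End F W0 := (T.comp W0.subtype).codRestrict W0 (fun f => hTW f.1)
  have hT0c : ∀ (n : ℕ) (f : W0), (((T0 ^ n) f : W0) : W) = (T ^ n) f.1 := by
    intro n
    induction n with
    | zero => intro f; rfl
    | succ n ih =>
      intro f
      rw [pow_succ', pow_succ']
      show T (((T0 ^ n) f : W0) : W) = T ((T ^ n) f.1)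
      rw [ih]
  have hT0 : T0 ^ p = 0 := by
    apply LinearMap.ext
    intro f
    apply Subtype.ext
    rw [hT0c, hT]
    rfl
  have h2 := nil_bound T0 p hT0
  -- the kernel embeds
  let ev : Addf G F →ₗ[F] F :=
    { toFun := fun f => f.1 t
      map_add' := fun _ _ => rfl
      map_smul' := fun _ _ => rfl }
  have hev : Function.Surjective ev := by
    intro c
    let χ : Addf G F := ⟨fun g => (((a g).toAdd : ℤ) : F), fun x y => by
      show (((a (x * y)).toAdd : ℤ) : F) = (((a x).toAdd : ℤ) : F) + (((a y).toAdd : ℤ) : F)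
      rw [map_mul, toAdd_mul, Int.cast_add]⟩
    refine ⟨c • χ, ?_⟩
    show c * (((a t).toAdd : ℤ) : F) = c
    rw [ht, Int.cast_one, mul_one]
  have h3 : Module.finrank F (LinearMap.ker ev) + 1 = Module.finrank F (Addf G F) := by
    have h4 := LinearMap.finrank_range_add_finrank_ker ev
    rw [LinearMap.range_eq_top.2 hev, finrank_top, Module.finrank_self] at h4
    omega
  have hker : ∀ g, a (g * t ^ (-(a g).toAdd)) = 1 := by
    intro g
    apply Multiplicative.toAdd.injective
    rw [map_mul, map_zpow, toAdd_mul, toAdd_zpow, ht, toAdd_one, smul_eq_mul]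
    ring
  have hkH : ∀ g, g * t ^ (-(a g).toAdd) ∈ Hp a p := by
    intro g
    rw [mem_Hp, hker, toAdd_one]
    exact dvd_zero _
  have h4 : Module.finrank F (LinearMap.ker T0) ≤ Module.finrank F (LinearMap.ker ev) := by
    -- invariance under all powers of t
    have hinv : ∀ (f : LinearMap.ker T0) (n : ℤ) (x : G) (hx : x ∈ Hp a p)
        (hx' : t ^ n * x * (t ^ n)⁻¹ ∈ Hp a p), f.1.1.1 ⟨t ^ n * x * (t ^ n)⁻¹, hx'⟩ =
          f.1.1.1 ⟨x, hx⟩ := by
      intro f
      have hf1 : ∀ x : Hp a p, f.1.1.1 (cj a p t x) = f.1.1.1 x := by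
        intro x
        have h5 : T f.1.1 = 0 := congrArg Subtype.val f.2
        have h6 : f.1.1.1 (cj a p t x) - f.1.1.1 x = 0 := congrFun (congrArg Subtype.val h5) x
        exact sub_eq_zero.1 h6
      have hfn : ∀ (n : ℕ) (x : Hp a p), f.1.1.1 ((cj a p t)^[n] x) = f.1.1.1 x := by
        intro n
        induction n with
        | zero => intro x; rfl
        | succ n ih => intro x; rw [Function.iterate_succ_apply', hf1, ih]
      intro n x hx hx'
      obtain ⟨m, rfl | rfl⟩ := n.eq_nat_or_neg
      · rw [← hfn m ⟨x, hx⟩]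
        refine congrArg f.1.1.1 (Subtype.ext ?_)
        rw [cj_iter]
        show t ^ (m : ℤ) * x * (t ^ (m : ℤ))⁻¹ = t ^ m * x * (t ^ m)⁻¹
        rw [zpow_natCast]
      · rw [← hfn m ⟨_, hx'⟩]
        refine congrArg f.1.1.1 (Subtype.ext ?_)
        rw [cj_iter]
        show t ^ m * (t ^ (-(m : ℤ)) * x * (t ^ (-(m : ℤ)))⁻¹) * (t ^ m)⁻¹ = x
        rw [zpow_neg, zpow_natCast]
        group
    let Φ : LinearMap.ker T0 →ₗ[F] LinearMap.ker ev :=
      { toFun := fun f => ⟨⟨fun g => f.1.1.1 ⟨g * t ^ (-(a g).toAdd), hkH g⟩, by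
            intro x y
            show f.1.1.1 ⟨x * y * t ^ (-(a (x * y)).toAdd), hkH (x * y)⟩ =
              f.1.1.1 ⟨x * t ^ (-(a x).toAdd), hkH x⟩ + f.1.1.1 ⟨y * t ^ (-(a y).toAdd), hkH y⟩
            have hm : t ^ (a x).toAdd * (y * t ^ (-(a y).toAdd)) * (t ^ (a x).toAdd)⁻¹ ∈
                Hp a p := by
              rw [mem_Hp, a_conj]
              exact hkH y
            rw [← hinv f (a x).toAdd (y * t ^ (-(a y).toAdd)) (hkH y) hm, ← f.1.1.2]
            refine congrArg f.1.1.1 (Subtype.ext ?_)
            show x * y * t ^ (-(a (x * y)).toAdd) = x * t ^ (-(a x).toAdd) *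
              (t ^ (a x).toAdd * (y * t ^ (-(a y).toAdd)) * (t ^ (a x).toAdd)⁻¹)
            rw [map_mul, toAdd_mul, neg_add, zpow_add, zpow_neg, zpow_neg]
            have h2 : Commute (t ^ (a x).toAdd)⁻¹ (t ^ (a y).toAdd)⁻¹ := by
              apply Commute.inv_inv
              exact (Commute.refl t).zpow_zpow _ _
            rw [h2.eq]
            simp only [mul_assoc, inv_mul_cancel_left]⟩, by
            show f.1.1.1 ⟨t * t ^ (-(a t).toAdd), hkH t⟩ = 0
            have h5 : (⟨t * t ^ (-(a t).toAdd), hkH t⟩ : Hp a p) = 1 := by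
              apply Subtype.ext
              show t * t ^ (-(a t).toAdd) = 1
              rw [ht, zpow_neg, zpow_one, mul_inv_cancel]
            rw [h5, addf_one]⟩
        map_add' := fun _ _ => rfl
        map_smul' := fun _ _ => rfl }
    have hΦ : Function.Injective Φ := by
      rw [injective_iff_map_eq_zero]
      intro f hf
      apply Subtype.ext
      apply Subtype.ext
      apply Subtype.ext
      funext x
      obtain ⟨m, hm⟩ := (mem_Hp a p x.1).1 x.2
      have h5 : f.1.1.1 ⟨x.1 * t ^ (-(a x.1).toAdd), hkH x.1⟩ = 0 :=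
        congrFun (congrArg Subtype.val (congrArg Subtype.val hf)) x.1
      have h6 : (⟨x.1 * t ^ (-(a x.1).toAdd), hkH x.1⟩ : Hp a p) = x * (tp ^ m)⁻¹ := by
        apply Subtype.ext
        show x.1 * t ^ (-(a x.1).toAdd) = x.1 * ((t ^ p) ^ m)⁻¹
        rw [hm, zpow_neg, zpow_mul, zpow_natCast]
      have h7 : f.1.1.1 tp = 0 := f.1.2
      have h8 : ∀ n : ℤ, f.1.1.1 (tp ^ n) = 0 := by
        intro n
        obtain ⟨k, rfl | rfl⟩ := n.eq_nat_or_neg
        · rw [zpow_natCast, addf_pow, h7, mul_zero]
        · rw [zpow_neg, zpow_natCast, addf_inv, addf_pow, h7, mul_zero, neg_zero]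
      rw [h6, f.1.1.2, addf_inv, h8, neg_zero, add_zero] at h5
      exact h5
    exact LinearMap.finrank_le_finrank_of_injective hΦ
  have h5 : Module.finrank F W0 ≤ p * Module.finrank F (LinearMap.ker ev) :=
    h2.trans (Nat.mul_le_mul le_rfl h4)
  have h6 : p * Module.finrank F (Addf G F) = p * Module.finrank F (LinearMap.ker ev) + p := by
    rw [← h3, mul_add, mul_one]
  show Module.finrank F W + p ≤ p * Module.finrank F (Addf G F) + 1
  omega

end EssMap
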