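import Pool.Agent.EssMap.Fin

/-!
# Affine groups of a module with a unit
-/

open CategoryTheory groupCohomology

namespace EssMap

/-- Pairs of a vector and an integer, the integers acting through powers of a unit. -/
@[ext] structure AG (R M : Type) [CommRing R] [AddCommGroup M] [Module R M] (u : Rˣ) where
  /-- vector part -/
  v : M
  /-- integer part -/
  i : ℤ

namespace AG

variable {R M : Type} [CommRing R] [AddCommGroup M] [Module R M] {u : Rˣ}

instance : Mul (AG R M u) := ⟨fun x y => ⟨x.v + (u ^ x.i) • y.v, x.i + y.i⟩⟩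
instance : One (AG R M u) := ⟨⟨0, 0⟩⟩
instance : Inv (AG R M u) := ⟨fun x => ⟨-((u ^ (-x.i)) • x.v), -x.i⟩⟩

theorem mk_i (v : M) (i : ℤ) : (AG.mk v i : AG R M u).i = i := rfl
theorem mk_v (v : M) (i : ℤ) : (AG.mk v i : AG R M u).v = v := rfl
theorem mul_v (x y : AG R M u) : (x * y).v = x.v + (u ^ x.i) • y.v := rfl
theorem mul_i (x y : AG R M u) : (x * y).i = x.i + y.i := rfl
theorem one_v : (1 : AG R M u).v = 0 := rfl
theorem one_i : (1 : AG R M u).i = 0 := rfl
theorem inv_v (x : AG R M u) : (x⁻¹).v = -((u ^ (-x.i)) • x.v) := rfl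
theorem inv_i (x : AG R M u) : (x⁻¹).i = -x.i := rfl

instance : Group (AG R M u) :=
  Group.ofLeftAxioms
    (fun x y z => by
      ext
      · rw [mul_v, mul_v, mul_i, mul_v, mul_v, smul_add, smul_smul, ← zpow_add, add_assoc]
      · rw [mul_i, mul_i, mul_i, mul_i, add_assoc])
    (fun x => by
      ext
      · rw [mul_v, one_v, one_i, zpow_zero, one_smul, zero_add]
      · rw [mul_i, one_i, zero_add])
    (fun x => by
      ext
      · rw [mul_v, inv_v, inv_i, one_v]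
        abel
      · rw [mul_i, inv_i, one_i, neg_add_cancel])

/-- The integer part. -/
def toZ : AG R M u →* Multiplicative ℤ where
  toFun x := Multiplicative.ofAdd x.i
  map_one' := rfl
  map_mul' _ _ := rfl

theorem pow_i (x : AG R M u) (n : ℕ) : (x ^ n).i = n * x.i := by
  induction n with
  | zero => rw [pow_zero, one_i, Nat.cast_zero, zero_mul]
  | succ n ih => rw [pow_succ, mul_i, ih]; push_cast; ring

theorem pow_v (x : AG R M u) (hx : x.i = 0) (n : ℕ) : (x ^ n).v = n • x.v := by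
  induction n with
  | zero => rw [pow_zero, one_v, zero_smul]
  | succ n ih => rw [pow_succ, mul_v, ih, pow_i, hx, mul_zero, zpow_zero, one_smul, succ_nsmul]

theorem torFree (hM : ∀ (m : ℕ) (v : M), 0 < m → m • v = 0 → v = 0) : TorFree (AG R M u) := by
  intro x m hm h
  have h1 : (m : ℤ) * x.i = 0 := by rw [← pow_i, h, one_i]
  have h2 : x.i = 0 := by
    rcases mul_eq_zero.1 h1 with h3 | h3
    · have : m = 0 := by exact_mod_cast h3
      omega
    · exact h3
  have h3 : m • x.v = 0 := by rw [← pow_v x h2, h, one_v]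
  ext
  · exact hM m _ hm h3
  · exact h2

end AG

open PowerSeries

/-- The truncated power series ring. -/
def PR (k : ℕ) : Type := ℤ⟦X⟧ ⧸ Ideal.span {(X : ℤ⟦X⟧) ^ (k + 1)}

noncomputable instance (k : ℕ) : CommRing (PR k) :=
  inferInstanceAs (CommRing (ℤ⟦X⟧ ⧸ Ideal.span {(X : ℤ⟦X⟧) ^ (k + 1)}))

/-- The class of a power series. -/
noncomputable def mq (k : ℕ) : ℤ⟦X⟧ →+* PR k :=
  Ideal.Quotient.mk (Ideal.span {(X : ℤ⟦X⟧) ^ (k + 1)})

theorem mq_surj (k : ℕ) : Function.Surjective (mq k) := Ideal.Quotient.mk_surjective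

theorem mq_eq_zero (k : ℕ) (f : ℤ⟦X⟧) : mq k f = 0 ↔ ∀ j, j ≤ k → coeff j f = 0 := by
  have h : mq k f = 0 ↔ f ∈ Ideal.span {(X : ℤ⟦X⟧) ^ (k + 1)} := Ideal.Quotient.eq_zero_iff_mem
  rw [h, Ideal.mem_span_singleton, X_pow_dvd_iff]
  constructor
  · intro h j hj
    exact h j (by omega)
  · intro h j hj
    exact h j (by omega)

/-- The unit `1 + X`. -/
noncomputable def us : (ℤ⟦X⟧)ˣ :=
  (PowerSeries.isUnit_iff_constantCoeff.2 (by simp : IsUnit (constantCoeff (1 + X : ℤ⟦X⟧)))).unit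

theorem us_val : ((us : (ℤ⟦X⟧)ˣ) : ℤ⟦X⟧) = 1 + X := rfl

theorem us_zpow_const (i : ℤ) : constantCoeff (((us ^ i : (ℤ⟦X⟧)ˣ) : ℤ⟦X⟧)) = 1 := by
  have h1 : Units.map (constantCoeff (R := ℤ)).toMonoidHom us = 1 := by
    apply Units.ext
    show constantCoeff (1 + X : ℤ⟦X⟧) = 1
    simp
  have h2 := congrArg (fun z : ℤˣ => ((z ^ i : ℤˣ) : ℤ)) h1
  simp only [one_zpow, Units.val_one] at h2
  rw [← map_zpow] at h2
  exact h2

/-- The image of `1 + X` in the truncated power series ring. -/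
noncomputable def uk (k : ℕ) : (PR k)ˣ := Units.map (mq k).toMonoidHom us

theorem uk_zpow (k : ℕ) (i : ℤ) : ((uk k ^ i : (PR k)ˣ) : PR k) =
    mq k ((us ^ i : (ℤ⟦X⟧)ˣ) : ℤ⟦X⟧) := by
  unfold uk
  rw [← map_zpow]
  rfl

/-- The towers of nilpotent groups. -/
abbrev TK (k : ℕ) : Type := AG (PR k) (PR k) (uk k)

theorem tk_torFree (k : ℕ) : TorFree (TK k) := by
  apply AG.torFree
  intro m v hm h
  obtain ⟨f, rfl⟩ := mq_surj k v
  rw [← map_nsmul, mq_eq_zero] at h
  rw [mq_eq_zero]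
  intro j hj
  have h1 := h j hj
  rw [map_nsmul, nsmul_eq_mul] at h1
  rcases mul_eq_zero.1 h1 with h2 | h2
  · have : m = 0 := by exact_mod_cast h2
    omega
  · exact h2

/-- The restriction from one level to the previous one. -/
noncomputable def dn (k : ℕ) : PR (k + 1) →+* PR k :=
  Ideal.Quotient.lift (Ideal.span {(X : ℤ⟦X⟧) ^ (k + 1 + 1)}) (mq k) (by
    intro f hf
    rw [mq_eq_zero]
    rw [Ideal.mem_span_singleton, X_pow_dvd_iff] at hf
    intro j hj
    exact hf j (by omega))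

theorem dn_mq (k : ℕ) (f : ℤ⟦X⟧) : dn k (mq (k + 1) f) = mq k f := rfl

attribute [irreducible] PR

theorem uk_zero (i : ℤ) : (uk 0 ^ i : (PR 0)ˣ) = 1 := by
  apply Units.ext
  rw [uk_zpow, Units.val_one, ← map_one (mq 0), ← sub_eq_zero, ← map_sub, mq_eq_zero]
  intro j hj
  have : j = 0 := by omega
  subst this
  rw [map_sub, coeff_zero_eq_constantCoeff_apply, us_zpow_const]
  simp

theorem uk_smul_sub (k : ℕ) (i : ℤ) (v : PR (k + 1)) (hv : dn k v = 0) :
    (uk (k + 1) ^ i) • v = v := by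
  obtain ⟨g, rfl⟩ := mq_surj (k + 1) v
  rw [dn_mq, mq_eq_zero] at hv
  rw [Units.smul_def, smul_eq_mul, uk_zpow, ← map_mul, ← sub_eq_zero, ← map_sub, mq_eq_zero]
  obtain ⟨h, hh⟩ := (X_pow_dvd_iff (n := k + 1) (φ := g)).2 (fun j hj => hv j (by omega))
  obtain ⟨w, hw⟩ := (X_dvd_iff (φ := ((us ^ i : (ℤ⟦X⟧)ˣ) : ℤ⟦X⟧) - 1)).2 (by
    rw [map_sub, us_zpow_const]
    simp)
  have h3 : ((us ^ i : (ℤ⟦X⟧)ˣ) : ℤ⟦X⟧) * g - g = X ^ (k + 2) * (w * h) := by
    have h4 : ((us ^ i : (ℤ⟦X⟧)ˣ) : ℤ⟦X⟧) * g - g =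
      (((us ^ i : (ℤ⟦X⟧)ˣ) : ℤ⟦X⟧) - 1) * g := by ring
    rw [h4, hw, hh]
    ring
  have h5 : (X : ℤ⟦X⟧) ^ (k + 2) ∣ ((us ^ i : (ℤ⟦X⟧)ˣ) : ℤ⟦X⟧) * g - g := ⟨_, h3⟩
  intro j hj
  exact (X_pow_dvd_iff.1 h5) j (by omega)

theorem dn_smul (k : ℕ) (i : ℤ) (v : PR (k + 1)) :
    dn k ((uk (k + 1) ^ i) • v) = (uk k ^ i) • dn k v := by
  rw [Units.smul_def, smul_eq_mul, Units.smul_def, smul_eq_mul, map_mul, uk_zpow, uk_zpow, dn_mq]

/-- The map from one group to the previous one. -/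
noncomputable def td (k : ℕ) : TK (k + 1) →* TK k where
  toFun x := ⟨dn k x.v, x.i⟩
  map_one' := by
    ext
    · exact map_zero _
    · rfl
  map_mul' x y := by
    ext
    · rw [AG.mul_v, AG.mul_v, map_add, dn_smul]
    · rfl

theorem td_v (k : ℕ) (x : TK (k + 1)) : (td k x).v = dn k x.v :=
  AG.mk_v (u := uk k) (dn k x.v) x.i

theorem td_i (k : ℕ) (x : TK (k + 1)) : (td k x).i = x.i :=
  AG.mk_i (u := uk k) (dn k x.v) x.i

theorem td_ker (k : ℕ) : (td k).ker ≤ Subgroup.center (TK (k + 1)) := by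
  intro x hx
  rw [MonoidHom.mem_ker] at hx
  have h1 : dn k x.v = 0 := by rw [← td_v, hx, AG.one_v]
  have h2 : x.i = 0 := by rw [← td_i, hx, AG.one_i]
  rw [Subgroup.mem_center_iff]
  intro y
  ext
  · rw [AG.mul_v, AG.mul_v, h2, zpow_zero, one_smul, uk_smul_sub k y.i x.v h1, add_comm x.v y.v]
  · rw [AG.mul_i, AG.mul_i, add_comm y.i x.i]

theorem tk_nilp (k : ℕ) : Group.IsNilpotent (TK k) := by
  induction k with
  | zero =>
    have hc : ∀ x y : TK 0, x * y = y * x := by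
      intro x y
      ext
      · rw [AG.mul_v, AG.mul_v, uk_zero, uk_zero, one_smul, one_smul, add_comm]
      · rw [AG.mul_i, AG.mul_i, add_comm]
    let : CommGroup (TK 0) := { (inferInstance : Group (TK 0)) with mul_comm := hc }
    exact CommGroup.isNilpotent
  | succ k ih => exact Subgroup.isNilpotent_of_ker_le_center (td k) (td_ker k)

end EssMap
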