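import Pool.Agent.EssMap.Her

/-!
# The augmentation ideal and the top cohomology with coefficients in it
-/

open CategoryTheory groupCohomology

namespace EssMap

theorem rep_exact {k H : Type} [CommRing k] [Group H] (S : ShortComplex (Rep k H))
    (h : ∀ x : S.X₂, S.g.hom x = 0 → ∃ y : S.X₁, S.f.hom y = x) : S.Exact := by
  rw [← ShortComplex.exact_map_iff_of_faithful S (forget₂ (Rep k H) (ModuleCat k))]
  rw [ShortComplex.moduleCat_exact_iff]
  intro x hx
  exact h x hx

variable (G : Type) [Group G]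

/-- The augmentation. -/
noncomputable def eps : Rep.leftRegular ℤ G ⟶ Rep.trivial ℤ G ℤ :=
  Rep.leftRegularHom (Rep.trivial ℤ G ℤ) (1 : ℤ)

theorem eps_single (g : G) (m : ℤ) :
    (eps G).hom (MonoidAlgebra.single g m) = m := by
  unfold eps
  rw [Rep.leftRegularHom_hom_single]
  show m • (1 : ℤ) = m
  rw [smul_eq_mul, mul_one]

/-- The augmentation ideal. -/
noncomputable def IW : Submodule ℤ (Rep.leftRegular ℤ G) :=
  LinearMap.ker (eps G).hom.toLinearMap

theorem IW_le (g : G) : IW G ≤ (IW G).comap ((Rep.leftRegular ℤ G).ρ g) := by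
  intro x hx
  have h1 : (eps G).hom x = 0 := hx
  show (eps G).hom ((Rep.leftRegular ℤ G).ρ g x) = 0
  rw [Rep.hom_comm_apply, h1, map_zero]

/-- The augmentation ideal as a module. -/
noncomputable abbrev IG : Rep ℤ G :=
  Rep.subrepresentation (Rep.leftRegular ℤ G) (IW G) (IW_le G)

/-- The inclusion of the augmentation ideal. -/
noncomputable def inc : IG G ⟶ Rep.leftRegular ℤ G :=
  Rep.subtype (Rep.leftRegular ℤ G) (IW G) (IW_le G)

theorem inc_apply (x : IG G) : (inc G).hom x = x.1 := rfl

theorem inc_eps : inc G ≫ eps G = 0 := by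
  ext x
  show (eps G).hom ((inc G).hom x) = 0
  exact x.2

/-- The augmentation sequence. -/
noncomputable def XG : ShortComplex (Rep ℤ G) := ShortComplex.mk (inc G) (eps G) (inc_eps G)

theorem XG_shortExact : (XG G).ShortExact := by
  have h1 : Mono (inc G) := (Rep.mono_iff_injective _).2 Subtype.val_injective
  have h2 : Epi (eps G) := by
    rw [Rep.epi_iff_surjective]
    intro m
    exact ⟨MonoidAlgebra.single 1 m, eps_single G 1 m⟩
  refine { exact := ?_, mono_f := h1, epi_g := h2 }
  apply rep_exact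
  intro x hx
  exact ⟨⟨x, hx⟩, rfl⟩

/-- The element `g - 1`. -/
noncomputable def gm (g : G) : IG G :=
  ⟨(MonoidAlgebra.single g 1 - MonoidAlgebra.single 1 1 : MonoidAlgebra ℤ G), by
    show (eps G).hom ((MonoidAlgebra.single g 1 : Rep.leftRegular ℤ G) -
      (MonoidAlgebra.single 1 1 : Rep.leftRegular ℤ G)) = 0
    rw [map_sub, eps_single, eps_single, sub_self]⟩

/-- The map of the group ring to the augmentation ideal sending `1` to `g - 1`. -/
noncomputable def kg (g : G) : Rep.leftRegular ℤ G ⟶ IG G := Rep.leftRegularHom (IG G) (gm G g)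

theorem kg_one (g : G) : (kg G g).hom (MonoidAlgebra.single 1 1) = gm G g := by
  unfold kg
  rw [Rep.leftRegularHom_hom_single, one_smul, map_one]
  rfl

theorem kg_single (g h : G) : (kg G g).hom (MonoidAlgebra.single h 1) = (IG G).ρ h (gm G g) := by
  unfold kg
  rw [Rep.leftRegularHom_hom_single, one_smul]

theorem gm_mul (g h : G) : gm G (g * h) = (IG G).ρ g (gm G h) + gm G g := by
  apply Subtype.ext
  show (MonoidAlgebra.single (g * h) 1 - MonoidAlgebra.single 1 1 : MonoidAlgebra ℤ G) =
    (Rep.leftRegular ℤ G).ρ g ((MonoidAlgebra.single h 1 : Rep.leftRegular ℤ G) -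
      (MonoidAlgebra.single 1 1 : Rep.leftRegular ℤ G)) +
      ((MonoidAlgebra.single g 1 : Rep.leftRegular ℤ G) -
      (MonoidAlgebra.single 1 1 : Rep.leftRegular ℤ G))
  rw [map_sub, lr_rho, lr_rho, mul_one]
  abel

theorem kg_mul (g h : G) : kg G (g * h) = rt g ≫ kg G h + kg G g := by
  apply lr_ext
  rw [kg_one, gm_mul]
  have h1 : (rt g ≫ kg G h + kg G g).hom (MonoidAlgebra.single 1 1) =
      (kg G h).hom ((rt g).hom (MonoidAlgebra.single 1 1)) +
      (kg G g).hom (MonoidAlgebra.single 1 1) := rfl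
  rw [h1, rt_single, one_mul, kg_single, kg_one]

theorem kg_inc (g : G) : kg G g ≫ inc G = rt g - 𝟙 _ := by
  apply lr_ext
  show ((kg G g).hom (MonoidAlgebra.single 1 1)).1 = (rt g).hom (MonoidAlgebra.single 1 1) -
    (MonoidAlgebra.single 1 1)
  rw [kg_one, rt_single, one_mul]
  rfl

end EssMap
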