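import Pool.Agent.EssMap.TopI

/-!
# Homomorphisms to the integers and the augmentation ideal
-/

open CategoryTheory groupCohomology

namespace EssMap

variable {G : Type} [Group G]

/-- The linear extension of a homomorphism to the integers. -/
noncomputable def La (a : G →* Multiplicative ℤ) : MonoidAlgebra ℤ G →+ ℤ :=
  (Finsupp.liftAddHom (fun g : G => AddMonoidHom.mulRight (a g).toAdd)).comp
    MonoidAlgebra.coeffAddEquiv.toAddMonoidHom

theorem La_single (a : G →* Multiplicative ℤ) (g : G) (m : ℤ) :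
    La a (MonoidAlgebra.single g m) = m * (a g).toAdd := by
  unfold La
  simp

theorem La_rho (a : G →* Multiplicative ℤ) (g : G) (x : MonoidAlgebra ℤ G) :
    La a ((Rep.leftRegular ℤ G).ρ g (x : Rep.leftRegular ℤ G)) =
      La a x + (eps G).hom (x : Rep.leftRegular ℤ G) * (a g).toAdd := by
  induction x using MonoidAlgebra.induction_linear with
  | zero =>
    have h1 : (Rep.leftRegular ℤ G).ρ g ((0 : MonoidAlgebra ℤ G) : Rep.leftRegular ℤ G) =
      (0 : MonoidAlgebra ℤ G) := map_zero _
    have h2 : (eps G).hom ((0 : MonoidAlgebra ℤ G) : Rep.leftRegular ℤ G) = (0 : ℤ) := map_zero _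
    rw [h1, h2]
    simp
  | add x y hx hy =>
    have h1 : (Rep.leftRegular ℤ G).ρ g ((x + y : MonoidAlgebra ℤ G) : Rep.leftRegular ℤ G) =
      ((Rep.leftRegular ℤ G).ρ g (x : Rep.leftRegular ℤ G) +
      (Rep.leftRegular ℤ G).ρ g (y : Rep.leftRegular ℤ G) : MonoidAlgebra ℤ G) := map_add _ _ _
    have h2 : (eps G).hom ((x + y : MonoidAlgebra ℤ G) : Rep.leftRegular ℤ G) =
      ((eps G).hom (x : Rep.leftRegular ℤ G) + (eps G).hom (y : Rep.leftRegular ℤ G) : ℤ) :=
      map_add _ _ _
    rw [h1, h2, map_add, map_add, hx, hy]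
    ring
  | single h m =>
    rw [lr_rho, eps_single, La_single, La_single, map_mul, toAdd_mul]
    ring

/-- The module map from the augmentation ideal given by a homomorphism to the integers. -/
noncomputable def chi (a : G →* Multiplicative ℤ) : IG G ⟶ Rep.trivial ℤ G ℤ :=
  Rep.ofHom
    { toFun := fun x => La a (x.1 : MonoidAlgebra ℤ G)
      map_add' := fun x y => by
        show La a ((x.1 : MonoidAlgebra ℤ G) + (y.1 : MonoidAlgebra ℤ G)) = _
        rw [map_add]
      map_smul' := fun m x => by
        show La a ((m • x.1 : Rep.leftRegular ℤ G) : MonoidAlgebra ℤ G) = m * La a x.1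
        have h1 : ((m • x.1 : Rep.leftRegular ℤ G) : MonoidAlgebra ℤ G) =
          (m • (x.1 : MonoidAlgebra ℤ G)) := int_smul_eq_zsmul _ _ _
        rw [h1, map_zsmul, smul_eq_mul]
      isIntertwining' := fun g => by
        apply LinearMap.ext
        intro x
        show La a ((Rep.leftRegular ℤ G).ρ g (x.1 : Rep.leftRegular ℤ G)) = La a x.1
        rw [La_rho]
        have h1 : (eps G).hom ((x.1 : MonoidAlgebra ℤ G) : Rep.leftRegular ℤ G) = (0 : ℤ) := x.2
        rw [h1, zero_mul, add_zero] }

theorem chi_apply (a : G →* Multiplicative ℤ) (x : IG G) :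
    (chi a).hom x = La a (x.1 : MonoidAlgebra ℤ G) := rfl

theorem chi_gm (a : G →* Multiplicative ℤ) (g : G) : (chi a).hom (gm G g) = (a g).toAdd := by
  rw [chi_apply]
  show La a (MonoidAlgebra.single g 1 - MonoidAlgebra.single 1 1 : MonoidAlgebra ℤ G) = _
  rw [map_sub, La_single, La_single, map_one]
  simp

theorem kg_chi (a : G →* Multiplicative ℤ) (g : G) :
    kg G g ≫ chi a = (a g).toAdd • eps G := by
  apply lr_ext
  show (chi a).hom ((kg G g).hom (MonoidAlgebra.single 1 1)) =
    (a g).toAdd • (eps G).hom (MonoidAlgebra.single 1 1)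
  rw [kg_one, chi_gm, eps_single, smul_eq_mul, mul_one]

end EssMap
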