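import Pool.Agent.EssMap.Ag

/-!
# Two dimensional classes
-/

open CategoryTheory groupCohomology

namespace EssMap

/-- The class of an integral two-cocycle. -/
noncomputable def c2 {T : Type} [Group T] (c : T → T → ℤ)
    (hc : ∀ x y z, c (x * y) z + c x y = c y z + c x (y * z)) : HZ T 2 :=
  H2π (Rep.trivial ℤ T ℤ) ⟨fun p => c p.1 p.2, by
    rw [mem_cocycles₂_iff]
    exact hc⟩

theorem pull_c2 {G T : Type} [Group G] [Group T] (f : G →* T) (c : T → T → ℤ)
    (hc : ∀ x y z, c (x * y) z + c x y = c y z + c x (y * z)) :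
    pull f 2 (c2 c hc) = c2 (fun x y => c (f x) (f y))
      (fun x y z => by rw [map_mul, map_mul]; exact hc _ _ _) := by
  unfold pull c2
  have h := H2π_comp_map_apply f (tr f)
    (⟨fun p => c p.1 p.2, by rw [mem_cocycles₂_iff]; exact hc⟩ : cocycles₂ (Rep.trivial ℤ T ℤ))
  refine Eq.trans h ?_
  congr 1

theorem smul_c2 {T : Type} [Group T] (c : T → T → ℤ)
    (hc : ∀ x y z, c (x * y) z + c x y = c y z + c x (y * z)) (m : ℤ) (h : m • c2 c hc = 0) :
    ∃ β : T → ℤ, ∀ x y, m * c x y = β y - β (x * y) + β x := by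
  unfold c2 at h
  rw [← map_zsmul] at h
  have h2 := (H2π_eq_zero_iff _).1 h
  obtain ⟨β, hβ⟩ := h2
  refine ⟨β, fun x y => ?_⟩
  have h3 := congrFun hβ (x, y)
  exact h3.symm

end EssMap
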