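import Pool.Agent.EssMap.ModE
import Pool.Agent.EssMap.Two

/-!
# Homomorphisms to an abelian group and the augmentation ideal
-/

open CategoryTheory groupCohomology

namespace EssMap

variable {G : Type} [Group G] {B : Type} [AddCommGroup B]

/-- The linear extension of a homomorphism to an abelian group. -/
noncomputable def LaB (a : G →* Multiplicative B) : MonoidAlgebra ℤ G →+ B :=
  (Finsupp.liftAddHom (fun g : G => zmultiplesHom B (a g).toAdd)).comp
    MonoidAlgebra.coeffAddEquiv.toAddMonoidHom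

theorem LaB_single (a : G →* Multiplicative B) (g : G) (m : ℤ) :
    LaB a (MonoidAlgebra.single g m) = m • (a g).toAdd := by
  unfold LaB
  simp

theorem LaB_rho (a : G →* Multiplicative B) (g : G) (x : MonoidAlgebra ℤ G) :
    LaB a ((Rep.leftRegular ℤ G).ρ g (x : Rep.leftRegular ℤ G)) =
      LaB a x + ((eps G).hom (x : Rep.leftRegular ℤ G) : ℤ) • (a g).toAdd := by
  induction x using MonoidAlgebra.induction_linear with
  | zero =>
    have h1 : (Rep.leftRegular ℤ G).ρ g ((0 : MonoidAlgebra ℤ G) : Rep.leftRegular ℤ G) =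
      (0 : MonoidAlgebra ℤ G) := map_zero _
    have h2 : (eps G).hom ((0 : MonoidAlgebra ℤ G) : Rep.leftRegular ℤ G) = (0 : ℤ) := map_zero _
    rw [h1, h2, map_zero, zero_add]
    exact (zero_zsmul _).symm
  | add x y hx hy =>
    have h1 : (Rep.leftRegular ℤ G).ρ g ((x + y : MonoidAlgebra ℤ G) : Rep.leftRegular ℤ G) =
      ((Rep.leftRegular ℤ G).ρ g (x : Rep.leftRegular ℤ G) +
      (Rep.leftRegular ℤ G).ρ g (y : Rep.leftRegular ℤ G) : MonoidAlgebra ℤ G) := map_add _ _ _
    have h2 : (eps G).hom ((x + y : MonoidAlgebra ℤ G) : Rep.leftRegular ℤ G) =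
      ((eps G).hom (x : Rep.leftRegular ℤ G) + (eps G).hom (y : Rep.leftRegular ℤ G) : ℤ) :=
      map_add _ _ _
    rw [h1, h2, map_add, map_add, hx, hy, add_zsmul]
    abel
  | single h m =>
    rw [lr_rho, eps_single, LaB_single, LaB_single, map_mul, toAdd_mul, zsmul_add]
    abel

/-- The module map from the augmentation ideal given by a homomorphism. -/
noncomputable def chiB (a : G →* Multiplicative B) : IG G ⟶ Rep.trivial ℤ G B :=
  Rep.ofHom
    { toFun := fun x => LaB a (x.1 : MonoidAlgebra ℤ G)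
      map_add' := fun x y => by
        show LaB a ((x.1 : MonoidAlgebra ℤ G) + (y.1 : MonoidAlgebra ℤ G)) = _
        rw [map_add]
      map_smul' := fun m x => by
        show LaB a ((m • x.1 : Rep.leftRegular ℤ G) : MonoidAlgebra ℤ G) = m • LaB a x.1
        have h1 : ((m • x.1 : Rep.leftRegular ℤ G) : MonoidAlgebra ℤ G) =
          (m • (x.1 : MonoidAlgebra ℤ G)) := int_smul_eq_zsmul _ _ _
        rw [h1, map_zsmul]
      isIntertwining' := fun g => by
        apply LinearMap.ext
        intro x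
        show LaB a ((Rep.leftRegular ℤ G).ρ g (x.1 : Rep.leftRegular ℤ G)) = LaB a x.1
        rw [LaB_rho]
        have h1 : (eps G).hom ((x.1 : MonoidAlgebra ℤ G) : Rep.leftRegular ℤ G) = (0 : ℤ) := x.2
        rw [h1]
        refine Eq.trans (congrArg (fun b => LaB a (x.1 : MonoidAlgebra ℤ G) + b)
          (zero_zsmul _)) (add_zero _) }

theorem chiB_apply (a : G →* Multiplicative B) (x : IG G) :
    (chiB a).hom x = LaB a (x.1 : MonoidAlgebra ℤ G) := rfl

theorem chiB_gm (a : G →* Multiplicative B) (g : G) : (chiB a).hom (gm G g) = (a g).toAdd := by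
  rw [chiB_apply]
  show LaB a (MonoidAlgebra.single g 1 - MonoidAlgebra.single 1 1 : MonoidAlgebra ℤ G) = _
  rw [map_sub, LaB_single, LaB_single, map_one]
  simp

theorem kg_chiB (a : G →* Multiplicative B) (g : G) :
    kg G g ≫ chiB a = eps G ≫ redB (zmultiplesHom B (a g).toAdd) := by
  apply lr_ext
  show (chiB a).hom ((kg G g).hom (MonoidAlgebra.single 1 1)) =
    (redB (zmultiplesHom B (a g).toAdd)).hom ((eps G).hom (MonoidAlgebra.single 1 1))
  rw [kg_one, chiB_gm, eps_single, redB_apply, zmultiplesHom_apply, one_zsmul]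

/-- The product of a homomorphism and an integral cochain. -/
def cupB (a : G →* Multiplicative B) {j : ℕ} (c : (Fin j → G) → ℤ) : (Fin (j + 1) → G) → B :=
  fun g => c (fun i => g i.succ) • (a (g 0)).toAdd

theorem d_cupB (a : G →* Multiplicative B) {j : ℕ} (c : (Fin j → G) → ℤ)
    (g : Fin (j + 2) → G) :
    (inhomogeneousCochains.d (Rep.trivial ℤ G B) (j + 1) (cupB a c) : (Fin (j + 2) → G) → B) g =
      -((inhomogeneousCochains.d (Rep.trivial ℤ G ℤ) j c :
        (Fin (j + 1) → G) → ℤ) (fun i => g i.succ) • (a (g 0)).toAdd) := by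
  rw [d_trivB, d_triv, Fin.sum_univ_succ]
  have h1 : cupB a c (fun i => g i.succ) = c (fun i => g i.succ.succ) • (a (g 1)).toAdd := rfl
  have h2 : cupB a c (Fin.contractNth 0 (· * ·) g) =
      c (fun i => g i.succ.succ) • ((a (g 0)).toAdd + (a (g 1)).toAdd) := by
    unfold cupB
    rw [contract_zero_zero, map_mul, toAdd_mul]
    congr 2
  have h3 : ∀ i : Fin (j + 1), cupB a c (Fin.contractNth i.succ (· * ·) g) =
      c (Fin.contractNth i (· * ·) (fun l => g l.succ)) • (a (g 0)).toAdd := by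
    intro i
    unfold cupB
    rw [contract_succ_zero]
    congr 2
    funext k
    exact contract_succ_succ i g k
  rw [h1, h2, add_zsmul, Finset.sum_smul, neg_add, ← Finset.sum_neg_distrib, ← add_assoc]
  congr 1
  · simp
  · apply Finset.sum_congr rfl
    intro i _
    rw [h3, Fin.val_succ, pow_succ, mul_neg_one, neg_smul, smul_eq_mul, mul_smul]

theorem cupB_cocycle (a : G →* Multiplicative B) {j : ℕ} (c : (Fin j → G) → ℤ)
    (hc : inhomogeneousCochains.d (Rep.trivial ℤ G ℤ) j c = 0) :
    inhomogeneousCochains.d (Rep.trivial ℤ G B) (j + 1) (cupB a c) = 0 := by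
  funext g
  refine (d_cupB a c g).trans ?_
  rw [hc]
  show -((0 : ℤ) • (a (g 0)).toAdd) = 0
  rw [zero_zsmul, neg_zero]

theorem ccoch_chiB (a : G →* Multiplicative B) {j : ℕ} (c : (Fin j → G) → ℤ)
    (g : Fin (j + 1) → G) : (chiB a).hom (ccoch c g) = cupB a c g := by
  unfold ccoch cupB
  rw [map_zsmul, chiB_gm]

/-- The class of a cocycle with values in an abelian group. -/
noncomputable def clsB {j : ℕ} (c : (Fin j → G) → B)
    (hc : inhomogeneousCochains.d (Rep.trivial ℤ G B) j c = 0) :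
    groupCohomology (Rep.trivial ℤ G B) j :=
  π (Rep.trivial ℤ G B) j (cocyclesMk c hc)

theorem chiB_delta (a : G →* Multiplicative B) {j : ℕ} (c : (Fin j → G) → ℤ)
    (hc : inhomogeneousCochains.d (Rep.trivial ℤ G ℤ) j c = 0) :
    cmap (chiB a) (j + 1) (δ (XG_shortExact G) j (j + 1) rfl (cls c hc)) =
      clsB (cupB a c) (cupB_cocycle a c hc) := by
  have hz : (inhomogeneousCochains (XG G).X₃).d j (j + 1) c = 0 := by
    rw [inhomogeneousCochains.d_def]
    exact hc
  have h1 := δ_apply (XG_shortExact G) (rfl : j + 1 = j + 1) c hz (clift c)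
    (by
      funext g
      exact clift_eps c g) (ccoch c) (ccoch_cocycle c hc)
  unfold clsB
  unfold cls
  refine (congrArg (cmap (chiB a) (j + 1)) h1).trans ?_
  unfold cmap
  apply map_mk
  intro g
  exact ccoch_chiB a c g

theorem pull_clsB {T : Type} [Group T] (f : G →* T) {j : ℕ} (c : (Fin j → T) → B)
    (hc : inhomogeneousCochains.d (Rep.trivial ℤ T B) j c = 0)
    (hc' : inhomogeneousCochains.d (Rep.trivial ℤ G B) j (fun g => c (f ∘ g)) = 0) :
    pullB B f j (clsB c hc) = clsB (fun g => c (f ∘ g)) hc' := by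
  unfold pullB clsB
  apply map_mk
  intro g
  rfl

/-- Two dimensional classes. -/
theorem c2_eq_cls (c : G → G → ℤ)
    (hc : ∀ x y z, c (x * y) z + c x y = c y z + c x (y * z)) :
    ∃ hc', c2 c hc = cls (fun g : Fin 2 → G => c (g 0) (g 1)) hc' := by
  let x : cocycles₂ (Rep.trivial ℤ G ℤ) := ⟨fun p => c p.1 p.2, by
    rw [mem_cocycles₂_iff]
    exact hc⟩
  have h1 := cocyclesMk₂_eq (Rep.trivial ℤ G ℤ) x
  refine ⟨?_, ?_⟩
  · have h3 := d_iCocycles _ 2 ((isoCocycles₂ (Rep.trivial ℤ G ℤ)).inv x)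
    rw [← h1, iCocycles_mk] at h3
    exact h3
  · unfold c2 cls H2π
    exact congrArg (π (Rep.trivial ℤ G ℤ) 2) h1.symm

end EssMap
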