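import Pool.Agent.EssMap.Chi

/-!
# The classes attached to group elements
-/

open CategoryTheory groupCohomology

namespace EssMap

variable {G : Type} [Group G] (n : ℕ)

theorem cmap_int_smul {A B : Rep ℤ G} (f : A ⟶ B) (m : ℤ) (x : groupCohomology A n) :
    cmap (m • f) n x = m • cmap f n x := by
  let F : (A ⟶ B) →+ groupCohomology B n :=
    { toFun := fun f => cmap f n x
      map_zero' := by rw [cmap_zero]; rfl
      map_add' := fun f g => by rw [cmap_add]; rfl }
  exact map_zsmul F m f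

/-- The class attached to a group element. -/
noncomputable def cl (u : groupCohomology (Rep.leftRegular ℤ G) n) (g : G) :
    groupCohomology (IG G) n := cmap (kg G g) n u

theorem cl_mul (ho : Ori n G = ⊤) (u : groupCohomology (Rep.leftRegular ℤ G) n) (g h : G) :
    cl n u (g * h) = cl n u g + cl n u h := by
  unfold cl
  rw [kg_mul, cmap_add, LinearMap.add_apply, cmap_comp]
  have h1 : g ∈ Ori n G := by
    rw [ho]
    exact Subgroup.mem_top g
  rw [h1 u, add_comm]

/-- The classes of group elements form a homomorphism. -/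
noncomputable def clHom (ho : Ori n G = ⊤) (u : groupCohomology (Rep.leftRegular ℤ G) n) :
    G →* Multiplicative (groupCohomology (IG G) n) :=
  MonoidHom.mk' (fun g => Multiplicative.ofAdd (cl n u g)) (fun g h => by
    rw [cl_mul n ho]
    rfl)

/-- The range of a morphism. -/
def rgF {A B : Rep ℤ G} (f : A ⟶ B) : AddSubgroup B where
  carrier := Set.range f.hom
  zero_mem' := ⟨0, map_zero _⟩
  add_mem' := by
    rintro _ _ ⟨x, rfl⟩ ⟨y, rfl⟩
    exact ⟨x + y, map_add _ _ _⟩
  neg_mem' := by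
    rintro _ ⟨x, rfl⟩
    exact ⟨-x, map_neg _ _⟩

theorem rgF_rho {A B : Rep ℤ G} (f : A ⟶ B) (g : G) (x : B) (hx : x ∈ rgF f) :
    B.ρ g x ∈ rgF f := by
  obtain ⟨y, rfl⟩ := hx
  exact ⟨A.ρ g y, Rep.hom_comm_apply f g y⟩

theorem surj_of_gen {r : ℕ} (f : Rep.free ℤ G (Fin r) ⟶ IG G) (g : Fin r → G)
    (hg : Subgroup.closure (Set.range g) = ⊤) (hf : ∀ i, f.hom (fb G i) = gm G (g i)) :
    Function.Surjective f.hom := by
  intro x
  have h1 : x ∈ rgF f := by
    apply aug_all G (rgF f)
    apply gm_all G (rgF f) (rgF_rho f) _ hg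
    rintro _ ⟨i, rfl⟩
    exact ⟨fb G i, hf i⟩
  exact h1

theorem exists_gens [Group.FG G] : ∃ (r : ℕ) (g : Fin r → G),
    Subgroup.closure (Set.range g) = ⊤ := by
  obtain ⟨Y, hY, hYfin⟩ := (Group.fg_iff (G := G)).1 inferInstance
  obtain ⟨r, ⟨eq⟩⟩ := hYfin.exists_equiv_fin
  refine ⟨r, fun i => (eq.symm i : G), ?_⟩
  have : Set.range (fun i => (eq.symm i : G)) = Y := by
    ext y
    constructor
    · rintro ⟨i, rfl⟩
      exact (eq.symm i).2
    · intro hy
      exact ⟨eq ⟨y, hy⟩, by simp⟩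
  rw [this, hY]

theorem cl_surjective [Group.FG G]
    (e : groupCohomology (Rep.leftRegular ℤ G) n ≃+ ℤ)
    (h : ∀ M : Rep ℤ G, Limits.IsZero (groupCohomology M (n + 1)))
    (ho : Ori n G = ⊤) (z : groupCohomology (IG G) n) : ∃ g : G, z = cl n (e.symm 1) g := by
  obtain ⟨r, g, hg⟩ := exists_gens (G := G)
  obtain ⟨w, hw⟩ := top_gen G n h (IG G) (fun i => gm G (g i))
    (surj_of_gen _ g hg (fun i => free_hom_fb G (fun i => gm G (g i)) i)) z
  have h1 : ∀ i, cmap (Rep.leftRegularHom (IG G) (gm G (g i))) n (w i) =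
      e (w i) • cl n (e.symm 1) (g i) := by
    intro i
    unfold cl
    rw [← map_zsmul, ← key_gen n e (w i)]
    rfl
  rw [Finset.sum_congr rfl (fun i _ => h1 i)] at hw
  have h2 : Multiplicative.ofAdd z ∈ (clHom n ho (e.symm 1)).range := by
    rw [hw, ofAdd_sum]
    apply Subgroup.prod_mem
    intro i _
    rw [ofAdd_zsmul]
    have h3 : Multiplicative.ofAdd (cl n (e.symm 1) (g i)) ∈ (clHom n ho (e.symm 1)).range :=
      ⟨g i, rfl⟩
    exact Subgroup.zpow_mem _ h3 _
  obtain ⟨g', hg'⟩ := h2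
  exact ⟨g', (Multiplicative.ofAdd.injective hg').symm⟩

theorem eps_injective [Group.FG G]
    (e : groupCohomology (Rep.leftRegular ℤ G) n ≃+ ℤ)
    (h : ∀ M : Rep ℤ G, Limits.IsZero (groupCohomology M (n + 1)))
    (ho : Ori n G = ⊤) (x : groupCohomology (Rep.leftRegular ℤ G) n)
    (hx : cmap (eps G) n x = 0) : x = 0 := by
  have h2 := mapShortComplex₂_exact (XG_shortExact G) n
  rw [ShortComplex.moduleCat_exact_iff] at h2
  obtain ⟨z, hz⟩ := h2 x hx
  have hz2 : cmap (inc G) n z = x := hz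
  obtain ⟨g, rfl⟩ := cl_surjective n e h ho z
  unfold cl at hz2
  rw [← cmap_comp, kg_inc] at hz2
  have h3 : cmap (rt g - 𝟙 (Rep.leftRegular ℤ G)) n (e.symm 1) = 0 := by
    have h4 := cmap_add (rt g - 𝟙 (Rep.leftRegular ℤ G)) (𝟙 _) n
    rw [sub_add_cancel, cmap_id] at h4
    have h5 := congrArg (fun f => f (e.symm 1)) h4
    have h6 : cmap (rt g) n (e.symm 1) =
      cmap (rt g - 𝟙 (Rep.leftRegular ℤ G)) n (e.symm 1) + e.symm 1 := h5
    have h7 : g ∈ Ori n G := by
      rw [ho]
      exact Subgroup.mem_top g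
    rw [h7] at h6
    exact (right_eq_add.1 h6)
  rw [← hz2, h3]

/-- An element killed by all homomorphisms to the integers has a power in the commutator
subgroup. -/
theorem pow_mem_commutator [Group.FG G] (g : G)
    (hg : ∀ a : G →* Multiplicative ℤ, a g = 1) : ∃ m : ℕ, 0 < m ∧ g ^ m ∈ commutator G := by
  have h1 : Group.FG (Abelianization G) :=
    Group.fg_of_surjective (f := Abelianization.of) (QuotientGroup.mk'_surjective _)
  have h2 : AddGroup.FG (Additive (Abelianization G)) := inferInstance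
  have h3 : Module.Finite ℤ (Additive (Abelianization G)) := Module.Finite.iff_addGroup_fg.2 h2
  let A := Additive (Abelianization G)
  let M := A ⧸ Submodule.torsion ℤ A
  have h4 : Module.Free ℤ M := Module.free_of_finite_type_torsion_free'
  let x : A := Additive.ofMul (Abelianization.of g)
  let q : A →ₗ[ℤ] M := (Submodule.torsion ℤ A).mkQ
  have h5 : q x = 0 := by
    rw [← Module.forall_dual_apply_eq_zero_iff ℤ (q x)]
    intro f
    let F : A →+ ℤ := (f.comp q).toAddMonoidHom
    let a : G →* Multiplicative ℤ := MonoidHom.mk'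
      (fun g => Multiplicative.ofAdd (F (Additive.ofMul (Abelianization.of g)))) (fun g h => by
        rw [map_mul, ofMul_mul, map_add, ofAdd_add])
    have h6 := hg a
    have h7 : F (Additive.ofMul (Abelianization.of g)) = 0 := Multiplicative.ofAdd.injective h6
    exact h7
  have h8 : x ∈ Submodule.torsion ℤ A := (Submodule.Quotient.mk_eq_zero _).1 h5
  rw [Submodule.mem_torsion_iff] at h8
  obtain ⟨⟨m, hm⟩, hm2⟩ := h8
  have hm0 : m ≠ 0 := nonZeroDivisors.ne_zero hm
  have h9 : m • x = 0 := hm2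
  have h10 : (Abelianization.of g) ^ m = 1 := by
    have h11 : Additive.ofMul ((Abelianization.of g) ^ m) = 0 := by
      rw [ofMul_zpow]
      exact h9
    exact Additive.ofMul.injective h11
  have h12 : g ^ m ∈ commutator G := by
    rw [← map_zpow] at h10
    exact (QuotientGroup.eq_one_iff _).1 h10
  refine ⟨m.natAbs, Int.natAbs_pos.2 hm0, ?_⟩
  rcases Int.natAbs_eq m with h | h
  · rw [h, zpow_natCast] at h12
    exact h12
  · rw [h, zpow_neg, zpow_natCast] at h12
    exact inv_mem_iff.1 h12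

theorem cl_torsion [Group.FG G]
    (e : groupCohomology (Rep.leftRegular ℤ G) n ≃+ ℤ)
    (h : ∀ M : Rep ℤ G, Limits.IsZero (groupCohomology M (n + 1)))
    (ho : Ori n G = ⊤) (z : groupCohomology (IG G) n)
    (hz : ∀ a : G →* Multiplicative ℤ, ∃ m : ℤ, m ≠ 0 ∧ m • cmap (chi a) n z = 0) :
    ∃ m : ℤ, m ≠ 0 ∧ m • z = 0 := by
  obtain ⟨g, rfl⟩ := cl_surjective n e h ho z
  have h1 : ∀ a : G →* Multiplicative ℤ, a g = 1 := by
    intro a
    obtain ⟨m, hm, hm2⟩ := hz a
    unfold cl at hm2
    rw [← cmap_comp, kg_chi, cmap_int_smul] at hm2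
    have h2 : cmap (eps G) n ((m * (a g).toAdd) • e.symm 1) = 0 := by
      rw [map_zsmul, mul_smul]
      exact hm2
    have h3 := eps_injective n e h ho _ h2
    have h4 := congrArg e h3
    rw [map_zsmul, e.apply_symm_apply, map_zero, smul_eq_mul, mul_one] at h4
    have h5 : (a g).toAdd = 0 := by
      rcases mul_eq_zero.1 h4 with h6 | h6
      · exact absurd h6 hm
      · exact h6
    exact Multiplicative.toAdd.injective h5
  obtain ⟨m, hm, hm2⟩ := pow_mem_commutator g h1
  refine ⟨m, by exact_mod_cast hm.ne', ?_⟩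
  let A := Multiplicative (groupCohomology (IG G) n)
  have h7 : clHom n ho (e.symm 1) (g ^ m) = 1 := by
    have h8 : commutator G ≤ (clHom n ho (e.symm 1)).ker := Abelianization.commutator_subset_ker _
    exact h8 hm2
  rw [map_pow] at h7
  have h9 : (m : ℤ) • cl n (e.symm 1) g = 0 := by
    have h10 : Multiplicative.ofAdd ((m : ℤ) • cl n (e.symm 1) g) = 1 := by
      rw [natCast_zsmul, ofAdd_nsmul]
      exact h7
    exact Multiplicative.ofAdd.injective h10
  exact h9

end EssMap
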