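import Mathlib

/-!
# Restriction in the top degree of a duality group

Group cohomology facts used for strongly scale-invariant Poincare duality groups.
-/

open CategoryTheory groupCohomology

namespace EssMap

/-- Integral cohomology of a group. -/
noncomputable abbrev HZ (G : Type) [Group G] (n : ℕ) : ModuleCat ℤ :=
  groupCohomology (Rep.trivial ℤ G ℤ) n

/-- The identity of the integers, as a map of the restricted trivial module to the
trivial module. -/
noncomputable def tr {G H : Type} [Group G] [Group H] (f : G →* H) :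
    Rep.res f (Rep.trivial ℤ H ℤ) ⟶ Rep.trivial ℤ G ℤ :=
  Rep.ofHom ⟨LinearMap.id, fun _ => rfl⟩

/-- The pull back map in integral cohomology of a homomorphism of groups. -/
noncomputable def pull {G H : Type} [Group G] [Group H] (f : G →* H) (n : ℕ) :
    HZ H n →ₗ[ℤ] HZ G n :=
  (groupCohomology.map f (tr f) n).hom

theorem pull_comp {G H K : Type} [Group G] [Group H] [Group K] (f : H →* K) (g : G →* H)
    (n : ℕ) (x : HZ K n) : pull (f.comp g) n x = pull g n (pull f n x) := by
  unfold pull
  have h := groupCohomology.map_comp f g (tr f) (tr g) n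
  have h2 : groupCohomology.map (f.comp g) (tr (f.comp g)) n =
      groupCohomology.map f (tr f) n ≫ groupCohomology.map g (tr g) n := by
    rw [← h]
    exact groupCohomology.map_congr rfl rfl n
  rw [h2]
  rfl

section Shapiro

variable {Q : Type} [Group Q] (S : Subgroup Q)

/-- The coinduced module of the trivial module. -/
noncomputable abbrev MS : Rep ℤ Q := Rep.coind S.subtype (Rep.trivial ℤ S ℤ)

/-- Evaluation at the base point. -/
noncomputable def ev : Rep.res S.subtype (MS S) ⟶ Rep.trivial ℤ S ℤ :=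
  (Rep.resCoindHomEquiv.{0} S.subtype (MS S) (Rep.trivial ℤ S ℤ)).symm (𝟙 (MS S))

theorem ev_apply (f : MS S) : (ev S).hom f = f.1 1 := rfl

/-- The Shapiro map. -/
noncomputable def sh (n : ℕ) : groupCohomology (MS S) n →ₗ[ℤ] HZ S n :=
  (groupCohomology.map S.subtype (ev S) n).hom

theorem exists_rho : ∃ r : Q → S, (∀ (s : S) (q : Q), r (s * q) = s * r q) ∧
    ∀ s : S, r s = s := by
  let := QuotientGroup.rightRel S
  choose! i hi using Quotient.mk'_surjective (α := Q)
  let γ (g : Q) : S := ⟨g * (i (Quotient.mk' g))⁻¹,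
    (QuotientGroup.rightRel_apply.1 (Quotient.eq'.1 (hi (Quotient.mk' g))))⟩
  have hmk (s : S) (g : Q) : Quotient.mk' (s.1 * g) = Quotient.mk' g :=
    Quotient.eq'.2 (QuotientGroup.rightRel_apply.2 (by simp))
  have hγ (s : S) (g : Q) : γ (s.1 * g) = s * γ g := by ext; simp [mul_assoc, γ, hmk]
  refine ⟨fun q => γ q * (γ 1)⁻¹, fun s q => ?_, fun s => ?_⟩
  · show γ (s.1 * q) * (γ 1)⁻¹ = s * (γ q * (γ 1)⁻¹)
    rw [hγ, mul_assoc]
  · have := hγ s 1
    rw [mul_one] at this
    show γ s.1 * (γ 1)⁻¹ = s
    rw [this]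
    group

/-- The sequence of increments of `r` along the products of `a`, started at `x`. -/
def bseq {m : ℕ} (r : Q → S) (x : Q) (a : Fin m → Q) : Fin m → S := fun i =>
  (r (x * Fin.partialProd a i.castSucc))⁻¹ * r (x * Fin.partialProd a i.succ)

/-- The products, started at `r x`. -/
theorem partialProd_bseq {m : ℕ} (r : Q → S) (x : Q) (a : Fin m → Q) (i : Fin (m + 1)) :
    r x * Fin.partialProd (bseq S r x a) i = r (x * Fin.partialProd a i) := by
  induction i using Fin.induction with
  | zero => simp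
  | succ i ih =>
    rw [Fin.partialProd_succ, ← mul_assoc, ih]
    unfold bseq
    rw [mul_inv_cancel_left]

theorem eq_of_partialProd {m : ℕ} {G : Type} [Group G] (a b : Fin m → G)
    (h : ∀ i, Fin.partialProd a i = Fin.partialProd b i) : a = b := by
  funext i
  rw [← Fin.partialProd_right_inv a i, ← Fin.partialProd_right_inv b i, h, h]

theorem bseq_contractNth {m : ℕ} (r : Q → S) (x : Q) (a : Fin (m + 1) → Q) (j : Fin (m + 1)) :
    Fin.contractNth j (· * ·) (bseq S r x a) = bseq S r x (Fin.contractNth j (· * ·) a) := by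
  apply eq_of_partialProd
  intro i
  have h1 := congrFun (Fin.partialProd_contractNth (bseq S r x a) j) i
  have h2 := congrFun (Fin.partialProd_contractNth a j) i
  have h3 := partialProd_bseq S r x (Fin.contractNth j (· * ·) a) i
  have h4 := partialProd_bseq S r x a (j.succ.succAbove i)
  rw [h1]
  rw [h2] at h3
  simp only [Function.comp_apply] at h3 ⊢
  rw [← h3] at h4
  exact mul_left_cancel h4

theorem bseq_succ {m : ℕ} (r : Q → S) (x : Q) (a : Fin (m + 1) → Q) :
    (fun i : Fin m => bseq S r x a i.succ) = bseq S r (x * a 0) (fun i => a i.succ) := by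
  funext i
  unfold bseq
  rw [Fin.castSucc_succ, Fin.partialProd_succ', Fin.partialProd_succ', mul_assoc, mul_assoc]
  rfl

theorem bseq_left {m : ℕ} (r : Q → S) (hr : ∀ (s : S) (q : Q), r (s * q) = s * r q)
    (s : S) (x : Q) (a : Fin m → Q) : bseq S r (s * x) a = bseq S r x a := by
  funext i
  unfold bseq
  rw [mul_assoc, mul_assoc, hr, hr]
  group

theorem bseq_base {m : ℕ} (r : Q → S) (hr : ∀ s : S, r s = s) (a : Fin m → S) :
    bseq S r 1 (fun i => (a i : Q)) = a := by
  have h : ∀ i, Fin.partialProd (fun i => (a i : Q)) i = ((Fin.partialProd a i : S) : Q) := by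
    intro i
    induction i using Fin.induction with
    | zero => simp
    | succ i ih => rw [Fin.partialProd_succ, Fin.partialProd_succ, ih]; rfl
  funext i
  unfold bseq
  rw [h, h, one_mul, one_mul, hr, hr, Fin.partialProd_right_inv]

/-- The inverse of the Shapiro map on cochains. -/
noncomputable def lift {m : ℕ} (r : Q → S) (hr : ∀ (s : S) (q : Q), r (s * q) = s * r q)
    (c : (Fin m → S) → ℤ) (a : Fin m → Q) : MS S :=
  ⟨fun x => c (bseq S r x a), by
    intro g h
    show c (bseq S r (g.1 * h) a) = c (bseq S r h a)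
    rw [bseq_left S r hr]⟩

theorem d_triv {G : Type} [Group G] {m : ℕ} (c : (Fin m → G) → ℤ) (g : Fin (m + 1) → G) :
    (inhomogeneousCochains.d (Rep.trivial ℤ G ℤ) m c : (Fin (m + 1) → G) → ℤ) g =
      c (fun i => g i.succ) + ∑ j : Fin (m + 1),
        (-1 : ℤ) ^ ((j : ℕ) + 1) • c (Fin.contractNth j (· * ·) g) :=
  inhomogeneousCochains.d_hom_apply _ _ _ _

theorem lift_d {m : ℕ} (r : Q → S) (hr : ∀ (s : S) (q : Q), r (s * q) = s * r q)
    (c : (Fin m → S) → ℤ) :
    inhomogeneousCochains.d (MS S) m (lift S r hr c) =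
      lift S r hr (inhomogeneousCochains.d (Rep.trivial ℤ S ℤ) m c) := by
  funext a
  apply Subtype.ext
  funext x
  have e1 : ((inhomogeneousCochains.d (MS S) m (lift S r hr c) a : MS S)).1 x =
      (lift S r hr c (fun i => a i.succ)).1 (x * a 0) + ∑ j : Fin (m + 1),
        (-1 : ℤ) ^ ((j : ℕ) + 1) • (lift S r hr c (Fin.contractNth j (· * ·) a)).1 x := by
    rw [inhomogeneousCochains.d_hom_apply]
    simp
  rw [e1]
  show c (bseq S r (x * a 0) (fun i => a i.succ)) + ∑ j : Fin (m + 1),
        (-1 : ℤ) ^ ((j : ℕ) + 1) • c (bseq S r x (Fin.contractNth j (· * ·) a)) =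
    (inhomogeneousCochains.d (Rep.trivial ℤ S ℤ) m c : (Fin (m + 1) → S) → ℤ) (bseq S r x a)
  rw [d_triv, bseq_succ]
  congr 1
  apply Finset.sum_congr rfl
  intro j _
  rw [bseq_contractNth]

theorem iCocycles_inj {G : Type} [Group G] (A : Rep ℤ G) (n : ℕ) :
    Function.Injective (iCocycles A n) :=
  (ModuleCat.mono_iff_injective _).1 inferInstance

theorem d_iCocycles {G : Type} [Group G] (A : Rep ℤ G) (n : ℕ) (z : cocycles A n) :
    inhomogeneousCochains.d A n (iCocycles A n z) = 0 := by
  have h := (inhomogeneousCochains A).iCycles_d n (n + 1)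
  rw [inhomogeneousCochains.d_def] at h
  have h2 := congrArg (fun f => f.hom z) h
  exact h2

theorem eq_cocyclesMk {G : Type} [Group G] (A : Rep ℤ G) (n : ℕ) (z : cocycles A n) :
    z = cocyclesMk (iCocycles A n z) (d_iCocycles A n z) := by
  apply iCocycles_inj
  rw [iCocycles_mk]

theorem map_mk {G H : Type} [Group G] [Group H] {A : Rep ℤ H} {B : Rep ℤ G} (f : G →* H)
    (φ : Rep.res f A ⟶ B) (n : ℕ) (y : (Fin n → H) → A)
    (hy : inhomogeneousCochains.d A n y = 0) (c : (Fin n → G) → B)
    (hc : inhomogeneousCochains.d B n c = 0) (h : ∀ g : Fin n → G, φ.hom (y (f ∘ g)) = c g) :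
    (groupCohomology.map f φ n).hom (π A n (cocyclesMk y hy)) = π B n (cocyclesMk c hc) := by
  have h1 : cocyclesMap f φ n (cocyclesMk y hy) = cocyclesMk c hc := by
    apply iCocycles_inj
    rw [iCocycles_mk]
    have h2 := HomologicalComplex.cyclesMap_i (cochainsMap f φ) n
    have h3 := congrArg (fun F => F.hom (cocyclesMk y hy)) h2
    have h4 : iCocycles B n (cocyclesMap f φ n (cocyclesMk y hy)) =
      (cochainsMap f φ).f n (iCocycles A n (cocyclesMk y hy)) := h3
    rw [h4, iCocycles_mk]
    funext g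
    exact h g
  have h5 := congrArg (fun F => F.hom (cocyclesMk y hy)) (π_map (A := A) (B := B) f φ n)
  have h6 : (groupCohomology.map f φ n).hom (π A n (cocyclesMk y hy)) =
    π B n (cocyclesMap f φ n (cocyclesMk y hy)) := h5
  rw [h6, h1]

theorem sh_surjective (n : ℕ) : Function.Surjective (sh S n) := by
  obtain ⟨r, hr, hr2⟩ := exists_rho S
  intro z
  induction z using groupCohomology_induction_on with
  | h z =>
    have hz := eq_cocyclesMk _ n z
    have hdc := d_iCocycles _ n z
    set c : (Fin n → S) → ℤ := iCocycles (Rep.trivial ℤ S ℤ) n z with hc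
    have hy : inhomogeneousCochains.d (MS S) n (lift S r hr c) = 0 := by
      rw [lift_d, hdc]
      funext a
      apply Subtype.ext
      funext x
      rfl
    refine ⟨π (MS S) n (cocyclesMk (lift S r hr c) hy), ?_⟩
    unfold sh
    rw [hz]
    apply map_mk
    intro g
    show c (bseq S r 1 (fun i => (g i : Q))) = c g
    rw [bseq_base S r hr2]

end Shapiro

end EssMap
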