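import Pool.Agent.EssMap.Cyc

/-!
# Linear algebra: coordinates, determinants of products
-/

namespace EssMap

/-- A subspace is determined by few coordinates. -/
theorem coords {K ι : Type} [Field K] [Fintype ι] [DecidableEq ι] (n : ℕ)
    (Z : Submodule K (ι → K)) (hZ : Module.finrank K Z = n) :
    ∃ J : Finset ι, J.card ≤ n ∧ ∀ v ∈ Z, (∀ j ∈ J, v j = 0) → v = 0 := by
  induction n generalizing Z with
  | zero =>
    refine ⟨∅, le_rfl, fun v hv _ => ?_⟩
    rw [Submodule.finrank_eq_zero] at hZ
    rw [hZ] at hv
    exact (Submodule.mem_bot K).1 hv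
  | succ n ih =>
    have hne : Z ≠ ⊥ := by
      rintro rfl
      rw [finrank_bot] at hZ
      omega
    obtain ⟨v, hv, hv0⟩ := (Submodule.ne_bot_iff Z).1 hne
    obtain ⟨i, hi⟩ := Function.ne_iff.1 hv0
    let f : Z →ₗ[K] K := (LinearMap.proj i).comp Z.subtype
    have hf : Function.Surjective f := by
      intro c
      refine ⟨(c * (v i)⁻¹) • ⟨v, hv⟩, ?_⟩
      show (c * (v i)⁻¹) * v i = c
      rw [mul_assoc, inv_mul_cancel₀ hi, mul_one]
    have h1 := LinearMap.finrank_range_add_finrank_ker f
    rw [LinearMap.range_eq_top.2 hf, finrank_top, Module.finrank_self, hZ] at h1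
    have h2 : Module.finrank K ((LinearMap.ker f).map Z.subtype) = n := by
      rw [Submodule.finrank_map_subtype_eq]
      omega
    obtain ⟨J, hJ, hJ2⟩ := ih _ h2
    refine ⟨insert i J, (Finset.card_insert_le _ _).trans (by omega), fun w hw hwJ => ?_⟩
    apply hJ2 w
    · exact ⟨⟨w, hw⟩, hwJ i (Finset.mem_insert_self _ _), rfl⟩
    · exact fun j hj => hwJ j (Finset.mem_insert_of_mem hj)

/-- A product through a smaller index set has determinant zero. -/
theorem det_mul_small {R : Type} [CommRing R] {B : ℕ} {J : Type} [Fintype J]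
    (hJ : Fintype.card J < B) (M : Matrix (Fin B) J R) (N : Matrix J (Fin B) R) :
    (M * N).det = 0 := by
  classical
  have hcard : Fintype.card J ≤ Fintype.card (Fin B) := by rw [Fintype.card_fin]; omega
  obtain ⟨e⟩ := Function.Embedding.nonempty_of_card_le hcard
  have hns : ¬ Function.Surjective e := by
    intro hs
    have := Fintype.card_le_of_surjective e hs
    rw [Fintype.card_fin] at this
    omega
  unfold Function.Surjective at hns
  push Not at hns
  obtain ⟨c, hc⟩ := hns
  let M' : Matrix (Fin B) (Fin B) R := fun i k => ∑ j, if e j = k then M i j else 0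
  let N' : Matrix (Fin B) (Fin B) R := fun k l => ∑ j, if e j = k then N j l else 0
  have h1 : M * N = M' * N' := by
    ext i l
    rw [Matrix.mul_apply, Matrix.mul_apply]
    have hM : ∀ j, M' i (e j) = M i j := by
      intro j
      show ∑ j', (if e j' = e j then M i j' else 0) = M i j
      rw [Finset.sum_eq_single j]
      · rw [if_pos rfl]
      · intro j' _ hj'
        rw [if_neg (fun h => hj' (e.injective h))]
      · intro h
        exact absurd (Finset.mem_univ j) h
    have hN : ∀ j, N' (e j) l = N j l := by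
      intro j
      show ∑ j', (if e j' = e j then N j' l else 0) = N j l
      rw [Finset.sum_eq_single j]
      · rw [if_pos rfl]
      · intro j' _ hj'
        rw [if_neg (fun h => hj' (e.injective h))]
      · intro h
        exact absurd (Finset.mem_univ j) h
    have h0 : ∀ k, k ∉ Finset.univ.map e → M' i k * N' k l = 0 := by
      intro k hk
      have : M' i k = 0 := by
        show ∑ j, (if e j = k then M i j else 0) = 0
        apply Finset.sum_eq_zero
        intro j _
        rw [if_neg]
        intro h
        exact hk (Finset.mem_map.2 ⟨j, Finset.mem_univ _, h⟩)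
      rw [this, zero_mul]
    rw [← Finset.sum_subset (Finset.subset_univ (Finset.univ.map e)) (fun k _ hk => h0 k hk),
      Finset.sum_map]
    apply Finset.sum_congr rfl
    intro j _
    rw [hM, hN]
  rw [h1, Matrix.det_mul]
  have h2 : M'.det = 0 := by
    apply Matrix.det_eq_zero_of_column_eq_zero c
    intro i
    show ∑ j, (if e j = c then M i j else 0) = 0
    apply Finset.sum_eq_zero
    intro j _
    rw [if_neg (hc j)]
  rw [h2, zero_mul]

/-- Independent vectors have a nonzero minor. -/
theorem exists_minor {K ι : Type} [Field K] [Fintype ι] [DecidableEq ι] {B : ℕ}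
    (V : Fin B → ι → K) (hV : LinearIndependent K V) :
    ∃ θ : Fin B → ι, (Matrix.of fun i j => V j (θ i)).det ≠ 0 := by
  classical
  have h1 : Module.finrank K (Submodule.span K (Set.range V)) = B := by
    rw [finrank_span_eq_card hV, Fintype.card_fin]
  obtain ⟨J, hJ, hJ2⟩ := coords B _ h1
  obtain ⟨θ, hθ⟩ : ∃ θ : Fin B → ι, ∀ j ∈ J, ∃ i, θ i = j := by
    rcases isEmpty_or_nonempty ι with h | h
    · have : B = 0 := by
        by_contra hB
        have h2 := hV.ne_zero (⟨0, Nat.pos_of_ne_zero hB⟩ : Fin B)
        exact h2 (Subsingleton.elim _ _)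
      subst this
      exact ⟨Fin.elim0, fun j => h.elim j⟩
    · obtain ⟨e⟩ : Nonempty (J ↪ Fin B) := Function.Embedding.nonempty_of_card_le (by
        rw [Fintype.card_coe, Fintype.card_fin]; exact hJ)
      refine ⟨fun i => if h : ∃ j : J, e j = i then (h.choose : ι) else Classical.arbitrary ι, ?_⟩
      intro j hj
      refine ⟨e ⟨j, hj⟩, ?_⟩
      have h2 : ∃ j' : J, e j' = e ⟨j, hj⟩ := ⟨⟨j, hj⟩, rfl⟩
      show (if h : ∃ j' : J, e j' = e ⟨j, hj⟩ then (h.choose : ι) else Classical.arbitrary ι) = j
      rw [dif_pos h2]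
      exact congrArg Subtype.val (e.injective h2.choose_spec)
  refine ⟨θ, fun hdet => ?_⟩
  obtain ⟨c, hc0, hc⟩ := Matrix.exists_mulVec_eq_zero_iff.2 hdet
  let v : ι → K := ∑ j, c j • V j
  have hv : v ∈ Submodule.span K (Set.range V) :=
    Submodule.sum_mem _ (fun j _ => Submodule.smul_mem _ _ (Submodule.subset_span ⟨j, rfl⟩))
  have hv0 : v = 0 := by
    apply hJ2 v hv
    intro j hj
    obtain ⟨i, rfl⟩ := hθ j hj
    have h3 := congrFun hc i
    rw [Matrix.mulVec, Pi.zero_apply] at h3
    show (∑ j, c j • V j) (θ i) = 0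
    rw [Finset.sum_apply, ← h3]
    show ∑ j, c j * V j (θ i) = ∑ j, V j (θ i) * c j
    exact Finset.sum_congr rfl (fun j _ => mul_comm _ _)
  apply hc0
  funext j
  exact Fintype.linearIndependent_iff.1 hV c hv0 j

end EssMap
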