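import Pool.Agent.EssMap.Lin

/-!
# Nilpotent groups are equationally Noetherian
-/

namespace EssMap

open Subgroup
open scoped commutatorElement

theorem fg_map {P P' : Type*} [Group P] [Group P'] (H : Subgroup P) (h : H.FG) (f : P →* P') :
    (H.map f).FG := by
  classical
  obtain ⟨S, hS⟩ := h
  exact ⟨S.image f, by rw [Finset.coe_image, ← MonoidHom.map_closure, hS]⟩

theorem central_fg {P : Type*} [Group P] (Z : Subgroup P) (hc : Z ≤ center P) (hZ : Z.FG)
    (H : Subgroup P) (hH : H ≤ Z) : H.FG := by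
  let _ : CommGroup Z := { (inferInstance : Group Z) with
    mul_comm := fun a b => Subtype.ext ((mem_center_iff.1 (hc a.2) b).symm) }
  have h1 : Group.FG Z := (Group.fg_iff_subgroup_fg Z).2 hZ
  have h2 : AddGroup.FG (Additive Z) := inferInstance
  have h3 : Module.Finite ℤ (Additive Z) := Module.Finite.iff_addGroup_fg.2 h2
  have h4 : IsNoetherian ℤ (Additive Z) := inferInstance
  have h5 : (AddSubgroup.toIntSubmodule (Subgroup.toAddSubgroup (H.subgroupOf Z))).FG :=
    IsNoetherian.noetherian _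
  rw [Submodule.fg_iff_addSubgroup_fg] at h5
  have h6 : (H.subgroupOf Z).FG := by
    rw [Subgroup.fg_iff_add_fg]
    exact h5
  have h7 : (H.subgroupOf Z).map Z.subtype = H := by
    rw [Subgroup.subgroupOf_map_subtype, inf_eq_left.2 hH]
  rw [← h7]
  exact fg_map _ h6 _

theorem fg_of_extension {P : Type*} [Group P] (N : Subgroup P) [N.Normal]
    (h1 : ∀ H : Subgroup P, H ≤ N → H.FG) (h2 : ∀ H : Subgroup (P ⧸ N), H.FG)
    (H : Subgroup P) : H.FG := by
  classical
  obtain ⟨S, hS⟩ := h1 (H ⊓ N) inf_le_right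
  obtain ⟨T, hT⟩ := h2 (H.map (QuotientGroup.mk' N))
  have h3 : ∀ t ∈ T, ∃ x ∈ H, QuotientGroup.mk' N x = t := by
    intro t ht
    have h4 : t ∈ H.map (QuotientGroup.mk' N) := by
      rw [← hT]
      exact subset_closure ht
    exact h4
  choose! g hg1 hg2 using h3
  refine ⟨S ∪ T.image g, le_antisymm ?_ ?_⟩
  · rw [closure_le]
    intro x hx
    rw [Finset.coe_union, Set.mem_union] at hx
    rcases hx with hx | hx
    · have h5 : x ∈ H ⊓ N := by
        rw [← hS]
        exact subset_closure hx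
      exact h5.1
    · rw [Finset.coe_image] at hx
      obtain ⟨t, ht, rfl⟩ := hx
      exact hg1 t ht
  · intro x hx
    have h6 : QuotientGroup.mk' N x ∈ (closure (T.image g : Set P)).map (QuotientGroup.mk' N) := by
      rw [MonoidHom.map_closure]
      have h7 : (QuotientGroup.mk' N) '' (T.image g : Set P) = (T : Set (P ⧸ N)) := by
        rw [Finset.coe_image, ← Set.image_comp]
        ext t
        constructor
        · rintro ⟨t', ht', rfl⟩
          show QuotientGroup.mk' N (g t') ∈ (T : Set (P ⧸ N))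
          rw [hg2 t' ht']
          exact ht'
        · intro ht
          exact ⟨t, ht, hg2 t ht⟩
      rw [h7, hT]
      exact mem_map_of_mem _ hx
    obtain ⟨y, hy, hyx⟩ := h6
    have hyH : y ∈ H := by
      have h8 : closure (T.image g : Set P) ≤ H := by
        rw [closure_le, Finset.coe_image]
        rintro _ ⟨t, ht, rfl⟩
        exact hg1 t ht
      exact h8 hy
    have h9 : y⁻¹ * x ∈ N := QuotientGroup.eq.1 hyx
    have h10 : y⁻¹ * x ∈ closure (S : Set P) := by
      rw [hS]
      exact ⟨H.mul_mem (H.inv_mem hyH) hx, h9⟩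
    have h11 : x = y * (y⁻¹ * x) := by group
    rw [h11]
    apply mul_mem
    · exact closure_mono (by rw [Finset.coe_union]; exact Set.subset_union_right) hy
    · exact closure_mono (by rw [Finset.coe_union]; exact Set.subset_union_left) h10

theorem comm_mul_right {P : Type*} [Group P] (x y y' : P) (h : ⁅x, y'⁆ ∈ center P) :
    ⁅x, y * y'⁆ = ⁅x, y⁆ * ⁅x, y'⁆ := by
  have h1 := mem_center_iff.1 h y
  have h2 : ⁅x, y * y'⁆ = ⁅x, y⁆ * (y * ⁅x, y'⁆ * y⁻¹) := by
    simp only [commutatorElement_def]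
    group
  rw [h2, h1]
  group

theorem comm_mul_left {P : Type*} [Group P] (x x' y : P) (h : ⁅x', y⁆ ∈ center P) :
    ⁅x * x', y⁆ = ⁅x', y⁆ * ⁅x, y⁆ := by
  have h1 := mem_center_iff.1 h x
  have h2 : ⁅x * x', y⁆ = (x * ⁅x', y⁆ * x⁻¹) * ⁅x, y⁆ := by
    simp only [commutatorElement_def]
    group
  rw [h2, h1]
  group

/-- A subgroup `Z = [L, P]` that is central is finitely generated if `L` is so modulo `Z`. -/
theorem comm_fg {P : Type*} [Group P] [Group.FG P] (L : Subgroup P) [L.Normal]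
    (hZ : ⁅L, (⊤ : Subgroup P)⁆ ≤ center P) (X : Set P) (hX : X.Finite) (hXL : X ⊆ L)
    (hL : L ≤ closure X ⊔ ⁅L, (⊤ : Subgroup P)⁆) : (⁅L, (⊤ : Subgroup P)⁆).FG := by
  obtain ⟨Y, hY, hYfin⟩ := (Group.fg_iff (G := P)).1 inferInstance
  let D : Set P := (fun p : P × P => ⁅p.1, p.2⁆) '' (X ×ˢ Y)
  have hD : D.Finite := (hX.prod hYfin).image _
  have hDZ : closure D ≤ ⁅L, (⊤ : Subgroup P)⁆ := by
    rw [closure_le]
    rintro _ ⟨⟨x, y⟩, ⟨hx, -⟩, rfl⟩
    exact commutator_mem_commutator (hXL hx) (mem_top _)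
  have hc : ∀ x ∈ L, ∀ y, ⁅x, y⁆ ∈ center P := fun x hx y =>
    hZ (commutator_mem_commutator hx (mem_top _))
  have h1 : ∀ x ∈ X, ∀ y, ⁅x, y⁆ ∈ closure D := by
    intro x hx y
    have hy : y ∈ closure Y := by rw [hY]; exact mem_top _
    induction hy using closure_induction with
    | mem y hy => exact subset_closure ⟨(x, y), ⟨hx, hy⟩, rfl⟩
    | one => simp
    | mul a b _ _ ha hb =>
      rw [comm_mul_right _ _ _ (hc x (hXL hx) b)]
      exact mul_mem ha hb
    | inv a _ ha =>
      have h2 := comm_mul_right x a a⁻¹ (hc x (hXL hx) a⁻¹)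
      rw [mul_inv_cancel, commutatorElement_one_right] at h2
      have h3 : ⁅x, a⁻¹⁆ = ⁅x, a⁆⁻¹ := by
        rw [eq_inv_iff_mul_eq_one, ← mem_center_iff.1 (hc x (hXL hx) a⁻¹) ⁅x, a⁆]
        exact h2.symm
      rw [h3]
      exact inv_mem ha
  have h4 : ∀ x ∈ closure X, ∀ y, ⁅x, y⁆ ∈ closure D := by
    intro x hx y
    have hXL' : closure X ≤ L := (closure_le L).2 hXL
    induction hx using closure_induction with
    | mem x hx => exact h1 x hx y
    | one => simp
    | mul a b ha' hb' ha hb =>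
      rw [comm_mul_left _ _ _ (hc b (hXL' hb') y)]
      exact mul_mem hb ha
    | inv a ha' ha =>
      have h2 := comm_mul_left a a⁻¹ y (hc a⁻¹ (inv_mem (hXL' ha')) y)
      rw [mul_inv_cancel, commutatorElement_one_left] at h2
      have h3 : ⁅a⁻¹, y⁆ = ⁅a, y⁆⁻¹ := by
        rw [eq_inv_iff_mul_eq_one]
        exact h2.symm
      rw [h3]
      exact inv_mem ha
  have h5 : ⁅L, (⊤ : Subgroup P)⁆ ≤ closure D := by
    rw [commutator_le]
    intro x hx y _
    obtain ⟨a, ha, z, hz, rfl⟩ := mem_sup_of_normal_right.1 (hL hx)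
    have h6 : ⁅z, y⁆ = 1 := by
      rw [commutatorElement_eq_one_iff_mul_comm]
      exact (mem_center_iff.1 (hZ hz) y).symm
    rw [comm_mul_left _ _ _ (by rw [h6]; exact one_mem _), h6, one_mul]
    exact h4 a ha y
  rw [le_antisymm h5 hDZ]
  exact ⟨hD.toFinset, by rw [Set.Finite.coe_toFinset]⟩

theorem lifts_fg {P : Type*} [Group P] (N L : Subgroup P) [N.Normal]
    (h : (L.map (QuotientGroup.mk' N)).FG) :
    ∃ X : Set P, X.Finite ∧ X ⊆ L ∧ L ≤ closure X ⊔ N := by
  classical
  obtain ⟨T, hT⟩ := h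
  have h3 : ∀ t ∈ T, ∃ x ∈ L, QuotientGroup.mk' N x = t := by
    intro t ht
    have h4 : t ∈ L.map (QuotientGroup.mk' N) := by
      rw [← hT]
      exact subset_closure ht
    exact h4
  choose! g hg1 hg2 using h3
  refine ⟨g '' (T : Set (P ⧸ N)), T.finite_toSet.image g, ?_, ?_⟩
  · rintro _ ⟨t, ht, rfl⟩
    exact hg1 t ht
  · intro x hx
    have h6 : QuotientGroup.mk' N x ∈ (closure (g '' (T : Set (P ⧸ N)))).map
        (QuotientGroup.mk' N) := by
      rw [MonoidHom.map_closure]
      have h7 : (QuotientGroup.mk' N) '' (g '' (T : Set (P ⧸ N))) = (T : Set (P ⧸ N)) := by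
        rw [← Set.image_comp]
        ext t
        constructor
        · rintro ⟨t', ht', rfl⟩
          show QuotientGroup.mk' N (g t') ∈ (T : Set (P ⧸ N))
          rw [hg2 t' ht']
          exact ht'
        · intro ht
          exact ⟨t, ht, hg2 t ht⟩
      rw [h7, hT]
      exact mem_map_of_mem _ hx
    obtain ⟨y, hy, hyx⟩ := h6
    have h9 : y⁻¹ * x ∈ N := QuotientGroup.eq.1 hyx
    have h11 : x = y * (y⁻¹ * x) := by group
    rw [h11]
    exact mul_mem_sup hy h9

theorem nilp_sub_fg (c : ℕ) : ∀ (P : Type) [Group P] [Group.FG P],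
    (⊤ : Subgroup P).lowerCentralSeries c = ⊥ → ∀ H : Subgroup P, H.FG := by
  induction c with
  | zero =>
    intro P _ _ hP H
    rw [Subgroup.lowerCentralSeries_zero] at hP
    have h1 : H = ⊥ := by
      rw [eq_bot_iff, ← hP]
      exact le_top
    rw [h1]
    exact ⟨∅, by simp⟩
  | succ c ih =>
    intro P _ _ hP H
    set Z : Subgroup P := (⊤ : Subgroup P).lowerCentralSeries c with hZdef
    have hZc : Z ≤ center P := by
      rw [Subgroup.lowerCentralSeries_succ, commutator_eq_bot_iff_le_centralizer] at hP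
      intro z hz
      rw [mem_center_iff]
      intro g
      exact (mem_centralizer_iff.1 (hP hz)) g (mem_top g)
    have h2 : ∀ H : Subgroup (P ⧸ Z), H.FG := by
      apply ih
      have h3 := map_lowerCentralSeries (⊤ : Subgroup P) (QuotientGroup.mk' Z) c
      rw [Subgroup.map_top_of_surjective _ (QuotientGroup.mk'_surjective Z)] at h3
      rw [← h3, ← hZdef, Subgroup.map_eq_bot_iff, QuotientGroup.ker_mk']
    have hZfg : Z.FG := by
      cases c with
      | zero =>
        rw [hZdef, Subgroup.lowerCentralSeries_zero]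
        exact Group.fg_def.1 inferInstance
      | succ c' =>
        obtain ⟨X, hX, hXL, hL⟩ := lifts_fg Z ((⊤ : Subgroup P).lowerCentralSeries c') (h2 _)
        have h5 : Z = ⁅(⊤ : Subgroup P).lowerCentralSeries c', (⊤ : Subgroup P)⁆ := by
          rw [hZdef, Subgroup.lowerCentralSeries_succ]
        rw [h5]
        rw [h5] at hZc hL
        exact comm_fg _ hZc X hX hXL hL
    exact fg_of_extension Z (central_fg Z hZc hZfg) h2 H

/-- If the subgroup generated by a set is finitely generated, finitely many elements of the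
set suffice. -/
theorem exists_finite_sub {F P : Type*} [Group F] [Group P] (S : Set F) (f : F →* P)
    (h : (closure (f '' S)).FG) : ∃ S₀ : Set F, S₀ ⊆ S ∧ S₀.Finite ∧
      closure (f '' S₀) = closure (f '' S) := by
  classical
  obtain ⟨T, hT⟩ := h
  have h1 : ∀ t ∈ closure (f '' S), ∃ S₀ : Set F, S₀ ⊆ S ∧ S₀.Finite ∧ t ∈ closure (f '' S₀) := by
    intro t ht
    induction ht using closure_induction with
    | mem t ht =>
      obtain ⟨w, hw, rfl⟩ := ht
      exact ⟨{w}, Set.singleton_subset_iff.2 hw, Set.finite_singleton w,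
        subset_closure ⟨w, rfl, rfl⟩⟩
    | one => exact ⟨∅, Set.empty_subset S, Set.finite_empty, one_mem _⟩
    | mul a b _ _ ha hb =>
      obtain ⟨A, hA, hA2, hA3⟩ := ha
      obtain ⟨B, hB, hB2, hB3⟩ := hb
      exact ⟨A ∪ B, Set.union_subset hA hB, hA2.union hB2,
        mul_mem (closure_mono (Set.image_mono Set.subset_union_left) hA3)
          (closure_mono (Set.image_mono Set.subset_union_right) hB3)⟩
    | inv a _ ha =>
      obtain ⟨A, hA, hA2, hA3⟩ := ha
      exact ⟨A, hA, hA2, inv_mem hA3⟩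
  have h2 : ∀ t ∈ T, ∃ S₀ : Set F, S₀ ⊆ S ∧ S₀.Finite ∧ t ∈ closure (f '' S₀) := by
    intro t ht
    apply h1
    rw [← hT]
    exact subset_closure ht
  choose! A hA1 hA2 hA3 using h2
  refine ⟨⋃ t ∈ T, A t, Set.iUnion₂_subset hA1, T.finite_toSet.biUnion hA2,
    le_antisymm (closure_mono (Set.image_mono (Set.iUnion₂_subset hA1))) ?_⟩
  rw [← hT, closure_le]
  intro t ht
  exact closure_mono (Set.image_mono (Set.subset_biUnion_of_mem (u := A) ht)) (hA3 t ht)

/-- Nilpotent groups are equationally Noetherian. -/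
theorem eqNoeth_nilpotent {T : Type*} [Group T] (hT : Group.IsNilpotent T) : EqNoeth T := by
  obtain ⟨c, hc⟩ := Subgroup.nilpotent_iff_lowerCentralSeries.1 hT
  intro m S
  let F := FreeGroup (Fin m)
  let N : Subgroup F := (⊤ : Subgroup F).lowerCentralSeries c
  have hP : (⊤ : Subgroup (F ⧸ N)).lowerCentralSeries c = ⊥ := by
    have h3 := map_lowerCentralSeries (⊤ : Subgroup F) (QuotientGroup.mk' N) c
    rw [Subgroup.map_top_of_surjective _ (QuotientGroup.mk'_surjective N)] at h3
    rw [← h3, Subgroup.map_eq_bot_iff, QuotientGroup.ker_mk']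
  have hfg := nilp_sub_fg c (F ⧸ N) hP (closure ((QuotientGroup.mk' N) '' S))
  obtain ⟨S₀, hS₀, hfin, hcl⟩ := exists_finite_sub S (QuotientGroup.mk' N) hfg
  refine ⟨S₀, hS₀, hfin, fun v hv w hw => ?_⟩
  have hN : N ≤ (FreeGroup.lift v).ker := by
    have h4 := map_lowerCentralSeries (⊤ : Subgroup F) (FreeGroup.lift v) c
    rw [← Subgroup.map_eq_bot_iff, h4, eq_bot_iff, ← hc]
    exact Subgroup.lowerCentralSeries_mono c le_top
  let q : F ⧸ N →* T := QuotientGroup.lift N (FreeGroup.lift v) hN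
  have h5 : closure ((QuotientGroup.mk' N) '' S) ≤ q.ker := by
    rw [← hcl, closure_le]
    rintro _ ⟨w', hw', rfl⟩
    show q (QuotientGroup.mk' N w') = 1
    exact hv w' hw'
  exact h5 (subset_closure ⟨w, hw, rfl⟩)

end EssMap
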