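import Pool.Agent.EssMap.Nondeg
import Pool.Agent.EssMap.Nil

/-!
# The main argument
-/

open CategoryTheory groupCohomology

namespace EssMap

theorem itr_index {G : Type*} [Group G] {φ : G →* G} (h : Function.Injective φ) (k : ℕ) :
    (itr φ k).range.index = φ.range.index ^ k := by
  induction k with
  | zero =>
    have : (itr φ 0).range = ⊤ := by
      show (MonoidHom.id G).range = ⊤
      exact MonoidHom.range_eq_top.2 Function.surjective_id
    rw [this, Subgroup.index_top, pow_zero]
  | succ k ih =>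
    have h1 : (itr φ (k + 1)).range = (itr φ k).range.map φ := by
      show (φ.comp (itr φ k)).range = _
      rw [MonoidHom.range_comp]
    rw [h1, Subgroup.index_map_of_injective _ h, ih, pow_succ]

section

variable {G : Type} [Group G] (N : Subgroup G) [N.Normal] (φ : G →* G)
  (hN : ∀ x, φ x ∈ N ↔ x ∈ N)

/-- The induced endomorphism of the quotient. -/
def qb : G ⧸ N →* G ⧸ N := QuotientGroup.map N N φ (fun x hx => (hN x).2 hx)

theorem qb_mk (x : G) : qb N φ hN (QuotientGroup.mk' N x) = QuotientGroup.mk' N (φ x) := rfl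

theorem qb_inj : Function.Injective (qb N φ hN) := by
  rw [injective_iff_map_eq_one]
  intro y hy
  obtain ⟨x, rfl⟩ := QuotientGroup.mk'_surjective N y
  rw [qb_mk] at hy
  have h1 : φ x ∈ N := (QuotientGroup.eq_one_iff _).1 hy
  exact (QuotientGroup.eq_one_iff _).2 ((hN x).1 h1)

theorem itr_qb (k : ℕ) (x : G) :
    itr (qb N φ hN) k (QuotientGroup.mk' N x) = QuotientGroup.mk' N (itr φ k x) := by
  induction k with
  | zero => rfl
  | succ k ih => rw [itr_succ, ih, itr_succ, qb_mk]

/-- The subgroup `φᵏ(G) N`. -/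
def Sk (k : ℕ) : Subgroup G := (itr (qb N φ hN) k).range.comap (QuotientGroup.mk' N)

theorem range_le_Sk (k : ℕ) : (itr φ k).range ≤ Sk N φ hN k := by
  rintro _ ⟨x, rfl⟩
  exact ⟨QuotientGroup.mk' N x, itr_qb N φ hN k x⟩

theorem N_le_Sk (k : ℕ) : N ≤ Sk N φ hN k := by
  intro x hx
  refine ⟨1, ?_⟩
  rw [map_one]
  exact ((QuotientGroup.eq_one_iff x).2 hx).symm

/-- The homomorphism from `φᵏ(G) N` to the quotient. -/
noncomputable def Fk (k : ℕ) : Sk N φ hN k →* G ⧸ N :=
  (MonoidHom.ofInjective (itr_inj (qb_inj N φ hN) k)).symm.toMonoidHom.comp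
    ((QuotientGroup.mk' N).subgroupComap (itr (qb N φ hN) k).range)

theorem Fk_apply (k : ℕ) (x : G) (h : itr φ k x ∈ Sk N φ hN k) :
    Fk N φ hN k ⟨itr φ k x, h⟩ = QuotientGroup.mk' N x := by
  unfold Fk
  show (MonoidHom.ofInjective (itr_inj (qb_inj N φ hN) k)).symm
    (((QuotientGroup.mk' N).subgroupComap (itr (qb N φ hN) k).range) ⟨itr φ k x, h⟩) = _
  rw [MulEquiv.symm_apply_eq]
  apply Subtype.ext
  show QuotientGroup.mk' N (itr φ k x) = itr (qb N φ hN) k (QuotientGroup.mk' N x)
  rw [itr_qb]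

theorem relIndex_Sk (hinj : Function.Injective φ) (hfin : φ.range.FiniteIndex) (k : ℕ) :
    (itr φ k).range.relIndex (Sk N φ hN k) =
      ((itr φ 1).range.relIndex (Sk N φ hN 1)) ^ k := by
  have key : ∀ l, (itr φ l).range.relIndex (Sk N φ hN l) * (qb N φ hN).range.index ^ l =
      φ.range.index ^ l := by
    intro l
    have h1 := Subgroup.relIndex_mul_index (range_le_Sk N φ hN l)
    have h2 : (Sk N φ hN l).index = (qb N φ hN).range.index ^ l := by
      unfold Sk
      rw [Subgroup.index_comap_of_surjective _ (QuotientGroup.mk'_surjective N),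
        itr_index (qb_inj N φ hN)]
    rw [h2, itr_index hinj] at h1
    exact h1
  have h1 := key 1
  have hk := key k
  rw [pow_one, pow_one] at h1
  rw [← h1, mul_pow] at hk
  have hd : (qb N φ hN).range.index ≠ 0 := by
    intro h0
    rw [h0, mul_zero] at h1
    exact hfin.index_ne_zero h1.symm
  exact Nat.eq_of_mul_eq_mul_right (Nat.pos_of_ne_zero (pow_ne_zero k hd)) hk

include hN in
/-- The central statement: an invariant normal subgroup whose quotient sees the top class is
contained in all the images of the iterates. -/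
theorem core (n : ℕ) [Group.FG G]
    (e : groupCohomology (Rep.leftRegular ℤ G) n ≃+ ℤ)
    (h : ∀ M : Rep ℤ G, Limits.IsZero (groupCohomology M (n + 1)))
    (ho : Ori n G = ⊤)
    (hinj : Function.Injective φ) (hfin : φ.range.FiniteIndex)
    (τ : HZ (G ⧸ N) n) (hτ : ∀ m : ℤ, m ≠ 0 → m • pull (QuotientGroup.mk' N) n τ ≠ 0) :
    N ≤ φ.range := by
  have hcyc : ∀ y : HZ G n, ∃ m : ℤ, y = m • cmap (eps G) n (e.symm 1) := by
    intro y
    have hs : Function.Surjective (eps G).hom := fun m => ⟨MonoidAlgebra.single 1 m,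
      eps_single G 1 m⟩
    obtain ⟨x, rfl⟩ := top_surj (eps G) hs n h y
    refine ⟨e x, ?_⟩
    rw [← map_zsmul, ← key_gen n e x]
    rfl
  have hinf : ∀ m : ℤ, m • cmap (eps G) n (e.symm 1) = 0 → m = 0 := by
    intro m hm
    rw [← map_zsmul] at hm
    have h1 := congrArg e (eps_injective n e h ho _ hm)
    rw [map_zsmul, e.apply_symm_apply, map_zero, smul_eq_mul, mul_one] at h1
    exact h1
  obtain ⟨t, ht⟩ := hcyc (pull (QuotientGroup.mk' N) n τ)
  have ht0 : t ≠ 0 := by
    rintro rfl
    apply hτ 1 one_ne_zero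
    rw [ht, zero_smul, zsmul_zero]
  set d := (itr φ 1).range.relIndex (Sk N φ hN 1) with hd
  have hdiv : ∀ k : ℕ, ((d ^ k : ℕ) : ℤ) ∣ t := by
    intro k
    have := itr_range_finiteIndex hinj hfin k
    have hle := range_le_Sk N φ hN k
    obtain ⟨c', hc'⟩ := res_divisible n h hle (by rw [ho]; exact le_top)
      (pull (Fk N φ hN k) n τ)
    have h1 : QuotientGroup.mk' N = (Fk N φ hN k).comp
        ((Subgroup.inclusion hle).comp (itr φ k).rangeRestrict) := by
      ext x
      exact (Fk_apply N φ hN k x _).symm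
    have h2 : pull (QuotientGroup.mk' N) n τ =
        pull (itr φ k).rangeRestrict n (pull (Subgroup.inclusion hle) n
          (pull (Fk N φ hN k) n τ)) := by
      rw [← pull_comp, ← pull_comp, ← h1]
    rw [hc', map_zsmul] at h2
    obtain ⟨s, hs⟩ := hcyc (pull (itr φ k).rangeRestrict n c')
    rw [ht, hs, ← mul_smul] at h2
    have h3 := hinf (t - ((itr φ k).range.relIndex (Sk N φ hN k) : ℤ) * s) (by
      rw [sub_zsmul, h2, add_neg_cancel])
    rw [relIndex_Sk N φ hN hinj hfin k, ← hd] at h3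
    exact ⟨s, sub_eq_zero.1 h3⟩
  have hd1 : d = 1 := by
    by_contra hne
    have hd0 : d ≠ 0 := by
      intro h0
      have h1 := hdiv 1
      rw [h0] at h1
      simp at h1
      exact ht0 h1
    have hd2 : 2 ≤ d := by omega
    have h2 := hdiv t.natAbs
    have h3 := Int.natAbs_dvd_natAbs.2 h2
    rw [Int.natAbs_natCast] at h3
    have h4 := Nat.le_of_dvd (Int.natAbs_pos.2 ht0) h3
    have h5 : t.natAbs < 2 ^ t.natAbs := Nat.lt_two_pow_self
    have h6 : 2 ^ t.natAbs ≤ d ^ t.natAbs := Nat.pow_le_pow_left hd2 _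
    omega
  have h7 : Sk N φ hN 1 ≤ (itr φ 1).range := Subgroup.relIndex_eq_one.1 (hd ▸ hd1)
  intro x hx
  obtain ⟨y, hy⟩ := h7 (N_le_Sk N φ hN 1 hx)
  exact ⟨y, hy⟩

end

end EssMap
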