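import Pool.Agent.EssMap.Core

/-!
# The residual with respect to a torsion-free equationally Noetherian group
-/

open CategoryTheory groupCohomology

namespace EssMap

/-- The residual of `G` with respect to `T`: the elements killed by all homomorphisms. -/
def resid (G T : Type*) [Group G] [Group T] : Subgroup G := ⨅ h : G →* T, h.ker

theorem mem_resid {G T : Type*} [Group G] [Group T] (x : G) :
    x ∈ resid G T ↔ ∀ h : G →* T, h x = 1 := by
  unfold resid
  rw [Subgroup.mem_iInf]
  rfl

instance resid_normal (G T : Type*) [Group G] [Group T] : (resid G T).Normal :=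
  ⟨fun x hx g => by
    rw [mem_resid] at hx ⊢
    intro h
    rw [map_mul, map_mul, hx h, mul_one, map_inv, mul_inv_cancel]⟩

theorem core_T {G : Type} [Group G] [Group.FG G] (n : ℕ)
    (e : groupCohomology (Rep.leftRegular ℤ G) n ≃+ ℤ)
    (h : ∀ M : Rep ℤ G, Limits.IsZero (groupCohomology M (n + 1)))
    (ho : Ori n G = ⊤) (φ : G →* G)
    (hinj : Function.Injective φ) (hfin : φ.range.FiniteIndex)
    (T : Type) [Group T] (hT : EqNoeth T) (hT2 : TorFree T) (f : G →* T)
    (τ : HZ T n) (hτ : ∀ m : ℤ, m ≠ 0 → m • pull f n τ ≠ 0)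
    (x : G) (hx : ∀ h : G →* T, h x = 1) (k : ℕ) : ∃ y, itr φ k y = x := by
  have hN : ∀ x, φ x ∈ resid G T ↔ x ∈ resid G T := by
    intro x
    rw [mem_resid, mem_resid]
    constructor
    · intro hx h
      exact residual_preimage hT hT2 hinj hfin x hx h
    · intro hx h
      exact hx (h.comp φ)
  have hf : resid G T ≤ f.ker := fun x hx => (mem_resid x).1 hx f
  have h1 : ∀ m : ℤ, m ≠ 0 → m • pull (QuotientGroup.mk' (resid G T)) n
      (pull (QuotientGroup.lift (resid G T) f hf) n τ) ≠ 0 := by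
    intro m hm
    rw [← pull_comp]
    have h2 : (QuotientGroup.lift (resid G T) f hf).comp (QuotientGroup.mk' (resid G T)) = f := by
      ext x
      rfl
    rw [h2]
    exact hτ m hm
  have h3 := core (resid G T) φ hN n e h ho hinj hfin _ h1
  have key : ∀ k, ∀ x ∈ resid G T, ∃ y ∈ resid G T, itr φ k y = x := by
    intro k
    induction k with
    | zero => exact fun x hx => ⟨x, hx, rfl⟩
    | succ k ih =>
      intro x hx
      obtain ⟨y, hy⟩ := h3 hx
      have hy2 : y ∈ resid G T := by
        rw [← hN, hy]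
        exact hx
      obtain ⟨z, hz, hz2⟩ := ih y hy2
      exact ⟨z, hz, by rw [itr_succ, hz2, hy]⟩
  obtain ⟨y, -, hy⟩ := key k x ((mem_resid x).2 hx)
  exact ⟨y, hy⟩

theorem sh_injective' {Q : Type} [Group Q] (S : Subgroup Q) (m : ℕ)
    (hf : Module.Finite ℤ (HZ S m)) : Function.Injective (sh S m) := by
  let i : groupCohomology (MS S) m ≃ₗ[ℤ] HZ S m :=
    (groupCohomology.coindIso (Rep.trivial ℤ S ℤ) m).toLinearEquiv
  have hf2 : Module.Finite ℤ (groupCohomology (MS S) m) := Module.Finite.equiv i.symm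
  have h1 : Function.Surjective (i.symm.toLinearMap.comp (sh S m)) :=
    i.symm.surjective.comp (sh_surjective S m)
  have h2 := OrzechProperty.injective_of_surjective_endomorphism _ h1
  intro a b hab
  apply h2
  show i.symm (sh S m a) = i.symm (sh S m b)
  rw [hab]

theorem torsion_of_res' {Q : Type} [Group Q] (n : ℕ)
    {S' S : Subgroup Q} (hS : S' ≤ S) [S'.FiniteIndex] (hf : Module.Finite ℤ (HZ S' n))
    (c : HZ S n) (m : ℤ) (hm : m ≠ 0)
    (hc : m • pull (Subgroup.inclusion hS) n c = 0) : ∃ m' : ℤ, m' ≠ 0 ∧ m' • c = 0 := by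
  classical
  have : S.FiniteIndex := Subgroup.finiteIndex_of_le hS
  have : (S'.subgroupOf S).FiniteIndex := inferInstance
  have := (S'.subgroupOf S).fintypeQuotientOfFiniteIndex
  obtain ⟨y, rfl⟩ := sh_surjective S n c
  rw [res_sh, ← map_zsmul] at hc
  have h1 : m • cmap (io hS) n y = 0 := by
    apply sh_injective' S' n hf
    rw [hc, map_zero]
  have h2 : m • (Fintype.card (S ⧸ S'.subgroupOf S) • y) = 0 := by
    have h3 := congrArg (cmap (su (S := S) (S' := S')) n) h1
    rw [map_zsmul, ← cmap_comp, io_su, cmap_zsmul, cmap_id, map_zero] at h3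
    exact h3
  refine ⟨m * (Fintype.card (S ⧸ S'.subgroupOf S) : ℤ), ?_, ?_⟩
  · apply mul_ne_zero hm
    exact_mod_cast Fintype.card_ne_zero
  · rw [mul_smul, natCast_zsmul, ← map_nsmul, ← map_zsmul, h2, map_zero]

/-- The cohomology in codegree one is finitely generated. -/
theorem finite_codeg {G : Type} [Group G] [Group.FG G] {j : ℕ}
    (e : groupCohomology (Rep.leftRegular ℤ G) (j + 1) ≃+ ℤ)
    (h : ∀ M : Rep ℤ G, Limits.IsZero (groupCohomology M (j + 1 + 1)))
    (h3 : Limits.IsZero (groupCohomology (Rep.leftRegular ℤ G) j))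
    (ho : Ori (j + 1) G = ⊤) : Module.Finite ℤ (HZ G j) := by
  have h1 : Group.FG (Multiplicative (groupCohomology (IG G) (j + 1))) :=
    Group.fg_of_surjective (f := clHom (j + 1) ho (e.symm 1)) (fun z => by
      obtain ⟨g, hg⟩ := cl_surjective (j + 1) e h ho z.toAdd
      exact ⟨g, congrArg Multiplicative.ofAdd hg.symm⟩)
  have h2 : AddGroup.FG (groupCohomology (IG G) (j + 1)) := AddGroup.fg_iff_mul_fg.2 h1
  have h4 : Module.Finite ℤ (groupCohomology (IG G) (j + 1)) := by
    have h5 := Module.Finite.iff_addGroup_fg.2 h2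
    have h6 : (groupCohomology (IG G) (j + 1)).isModule = AddCommGroup.toIntModule _ :=
      Subsingleton.elim _ _
    rw [h6]
    exact h5
  have hd : Mono (δ (XG_shortExact G) j (j + 1) rfl) :=
    mono_δ_of_isZero (XG_shortExact G) j h3
  have hd2 := (ModuleCat.mono_iff_injective _).1 hd
  have h7 : IsNoetherian ℤ (groupCohomology (IG G) (j + 1)) := isNoetherian_of_isNoetherianRing_of_finite ℤ _
  have h8 : IsNoetherian ℤ (groupCohomology (XG G).X₁ (j + 1)) := h7
  exact Module.Finite.of_injective (δ (XG_shortExact G) j (j + 1) rfl).hom hd2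

end EssMap
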