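import Pool.Agent.EssMap.Lam

/-!
# Crossed homomorphisms with finite permutation coefficients
-/

open Matrix

namespace EssMap

/-- Pairs. -/
@[ext]
structure CG (X : Type) where
  /-- the function -/
  v : X → ℂ
  /-- the element -/
  i : X

namespace CG

variable {X : Type} [Group X]

instance : Mul (CG X) := ⟨fun a b => ⟨fun x => a.v x + b.v (x * a.i), a.i * b.i⟩⟩
instance : One (CG X) := ⟨⟨fun _ => 0, 1⟩⟩
instance : Inv (CG X) := ⟨fun a => ⟨fun x => -a.v (x * a.i⁻¹), a.i⁻¹⟩⟩

theorem mul_v (a b : CG X) (x : X) : (a * b).v x = a.v x + b.v (x * a.i) := rfl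
theorem mul_i (a b : CG X) : (a * b).i = a.i * b.i := rfl
theorem one_v (x : X) : (1 : CG X).v x = 0 := rfl
theorem one_i : (1 : CG X).i = 1 := rfl
theorem inv_v (a : CG X) (x : X) : (a⁻¹).v x = -a.v (x * a.i⁻¹) := rfl
theorem inv_i (a : CG X) : (a⁻¹).i = a.i⁻¹ := rfl

instance : Group (CG X) := Group.ofLeftAxioms
  (fun a b c => by
    apply CG.ext
    · funext x
      rw [mul_v, mul_v, mul_v, mul_v, mul_i, add_assoc, mul_assoc]
    · rw [mul_i, mul_i, mul_i, mul_i, mul_assoc])
  (fun a => by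
    apply CG.ext
    · funext x
      rw [mul_v, one_v, one_i, mul_one, zero_add]
    · rw [mul_i, one_i, one_mul])
  (fun a => by
    apply CG.ext
    · funext x
      rw [mul_v, inv_v, inv_i, one_v, neg_add_cancel]
    · rw [mul_i, inv_i, one_i, inv_mul_cancel])

/-- The second coordinate. -/
def toI : CG X →* X where
  toFun a := a.i
  map_one' := rfl
  map_mul' _ _ := rfl

end CG

variable {G : Type} [Group G] {ι ρ : Type} (q : FreeGroup ι →* G) (R0 : ρ → FreeGroup ι)

section

variable {X : Type} [Group X] (π : G →* X)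

/-- Crossed homomorphisms. -/
def IsCoz (z : FreeGroup ι → X → ℂ) : Prop :=
  ∀ w w' x, z (w * w') x = z w x + z w' (x * π (q w))

/-- Crossed homomorphisms vanishing on the relators. -/
def Zx : Submodule ℂ (FreeGroup ι → X → ℂ) where
  carrier := {z | IsCoz q π z ∧ ∀ r x, z (R0 r) x = 0}
  zero_mem' := ⟨fun w w' x => (add_zero 0).symm, fun _ _ => rfl⟩
  add_mem' := by
    rintro z z' ⟨h1, h2⟩ ⟨h3, h4⟩
    refine ⟨fun w w' x => ?_, fun r x => ?_⟩
    · show z (w * w') x + z' (w * w') x = z w x + z' w x + (z w' _ + z' w' _)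
      rw [h1, h3]
      ring
    · show z (R0 r) x + z' (R0 r) x = 0
      rw [h2, h4, add_zero]
  smul_mem' := by
    rintro c z ⟨h1, h2⟩
    refine ⟨fun w w' x => ?_, fun r x => ?_⟩
    · show c * z (w * w') x = c * z w x + c * z w' _
      rw [h1]
      ring
    · show c * z (R0 r) x = 0
      rw [h2, mul_zero]

variable {q π}

theorem IsCoz.one {z : FreeGroup ι → X → ℂ} (hz : IsCoz q π z) (x : X) : z 1 x = 0 := by
  have h := hz 1 1 x
  rw [one_mul, map_one, map_one, mul_one] at h
  exact left_eq_add.1 h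

theorem IsCoz.inv {z : FreeGroup ι → X → ℂ} (hz : IsCoz q π z) (w : FreeGroup ι) (x : X) :
    z w⁻¹ x = -z w (x * (π (q w))⁻¹) := by
  have h := hz w⁻¹ w x
  rw [inv_mul_cancel, hz.one, map_inv, map_inv] at h
  exact eq_neg_of_add_eq_zero_left h.symm

variable (q π)

theorem exists_coz (v : ι → X → ℂ) : ∃ z, IsCoz q π z ∧ ∀ j, z (FreeGroup.of j) = v j := by
  let F : FreeGroup ι →* CG X := FreeGroup.lift (fun j => ⟨v j, π (q (FreeGroup.of j))⟩)
  have hF : CG.toI.comp F = π.comp q := by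
    ext j
    rw [MonoidHom.comp_apply, MonoidHom.comp_apply, FreeGroup.lift_apply_of]
    rfl
  have hF2 : ∀ w, (F w).i = π (q w) := fun w => DFunLike.congr_fun hF w
  refine ⟨fun w => (F w).v, fun w w' x => ?_, fun j => ?_⟩
  · show (F (w * w')).v x = _
    rw [map_mul, CG.mul_v, hF2]
  · show (F (FreeGroup.of j)).v = v j
    rw [FreeGroup.lift_apply_of]

end

theorem exists_fox [Fintype ι] [DecidableEq ι] (w : FreeGroup ι) :
    ∃ c : ι → MonoidAlgebra ℤ G,
      ∀ (X : Type) [Group X] [Fintype X] [DecidableEq X] (π : G →* X) (z : FreeGroup ι → X → ℂ),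
        IsCoz q π z → ∀ x : X,
          z w x = ∑ j, ∑ y, ((lmx π (c j) x y : ℤ) : ℂ) * z (FreeGroup.of j) y := by
  have hof : ∀ (i : ι) (g : G) (n : ℤ) (X : Type) [Group X] [Fintype X] [DecidableEq X]
      (π : G →* X) (v : ι → X → ℂ) (x : X),
      ∑ j, ∑ y, ((lmx π ((Pi.single i (MonoidAlgebra.single g n) : ι → MonoidAlgebra ℤ G) j) x y :
        ℤ) : ℂ) * v j y = n * v i (x * π g) := by
    intro i g n X _ _ _ π v x
    rw [Finset.sum_eq_single i]
    · rw [Pi.single_eq_same, Finset.sum_eq_single (x * π g)]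
      · rw [lmx_single, if_pos rfl]
      · intro y _ hy
        rw [lmx_single, if_neg (Ne.symm hy), Int.cast_zero, zero_mul]
      · intro h
        exact absurd (Finset.mem_univ _) h
    · intro j _ hj
      apply Finset.sum_eq_zero
      intro y _
      rw [Pi.single_eq_of_ne hj, map_zero, Matrix.zero_apply, Int.cast_zero, zero_mul]
    · intro h
      exact absurd (Finset.mem_univ _) h
  induction w using FreeGroup.induction_on with
  | C1 =>
    refine ⟨0, fun X _ _ _ π z hz x => ?_⟩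
    rw [hz.one]
    symm
    apply Finset.sum_eq_zero
    intro j _
    apply Finset.sum_eq_zero
    intro y _
    rw [Pi.zero_apply, map_zero, Matrix.zero_apply, Int.cast_zero, zero_mul]
  | of i =>
    refine ⟨Pi.single i (MonoidAlgebra.single 1 1), fun X _ _ _ π z hz x => ?_⟩
    rw [hof i 1 1 X π (fun j => z (FreeGroup.of j)) x, map_one, mul_one, Int.cast_one, one_mul]
  | inv_of i _ =>
    refine ⟨Pi.single i (MonoidAlgebra.single (q (FreeGroup.of i))⁻¹ (-1)),
      fun X _ _ _ π z hz x => ?_⟩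
    rw [hof i _ (-1) X π (fun j => z (FreeGroup.of j)) x, hz.inv, map_inv, Int.cast_neg,
      Int.cast_one, neg_one_mul]
  | mul w w' hw hw' =>
    obtain ⟨c, hc⟩ := hw
    obtain ⟨c', hc'⟩ := hw'
    refine ⟨fun j => c j + MonoidAlgebra.single (q w) 1 * c' j, fun X _ _ _ π z hz x => ?_⟩
    rw [hz w w' x, hc X π z hz x, hc' X π z hz, ← Finset.sum_add_distrib]
    apply Finset.sum_congr rfl
    intro j _
    rw [← Finset.sum_add_distrib]
    apply Finset.sum_congr rfl
    intro y _
    rw [map_add, Matrix.add_apply, lmx_mul_left, Int.cast_add, add_mul]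

/-- The relation matrix. -/
noncomputable def Dx {X : Type} [Group X] [Fintype X] [DecidableEq X] (π : G →* X)
    (c : ρ → ι → MonoidAlgebra ℤ G) : Matrix (ρ × X) (ι × X) ℤ :=
  Matrix.of fun r j => lmx π (c r.1 j.1) r.2 j.2

theorem finrank_Zx [Fintype ι] [DecidableEq ι] {X : Type} [Group X] [Fintype X]
    [DecidableEq X] (π : G →* X) (c : ρ → ι → MonoidAlgebra ℤ G)
    (hc : ∀ r (z : FreeGroup ι → X → ℂ), IsCoz q π z → ∀ x : X,
      z (R0 r) x = ∑ j, ∑ y, ((lmx π (c r j) x y : ℤ) : ℂ) * z (FreeGroup.of j) y) :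
    Module.finrank ℂ (Zx q R0 π) =
      Module.finrank ℂ (LinearMap.ker ((Dx π c).map (Int.cast : ℤ → ℂ)).mulVecLin) := by
  have hc' : ∀ r (z : FreeGroup ι → X → ℂ), IsCoz q π z → ∀ x : X,
      z (R0 r) x = ((Dx π c).map (Int.cast : ℤ → ℂ)).mulVec
        (fun j => z (FreeGroup.of j.1) j.2) (r, x) := by
    intro r z hz x
    rw [hc r z hz x, Matrix.mulVec]
    show _ = ∑ j : ι × X, _
    rw [Fintype.sum_prod_type]
    rfl
  let ev : Zx q R0 π →ₗ[ℂ] LinearMap.ker ((Dx π c).map (Int.cast : ℤ → ℂ)).mulVecLin :=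
    { toFun := fun z => ⟨fun j => z.1 (FreeGroup.of j.1) j.2, by
        rw [LinearMap.mem_ker, Matrix.mulVecLin_apply]
        funext rx
        have h := hc' rx.1 z.1 z.2.1 rx.2
        rw [z.2.2] at h
        exact h.symm⟩
      map_add' := fun _ _ => rfl
      map_smul' := fun _ _ => rfl }
  apply LinearEquiv.finrank_eq
  apply LinearEquiv.ofBijective ev
  constructor
  · rw [injective_iff_map_eq_zero]
    intro z hz
    have h1 : ∀ j x, z.1 (FreeGroup.of j) x = 0 := fun j x =>
      congrFun (congrArg Subtype.val hz) (j, x)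
    apply Subtype.ext
    funext w
    induction w using FreeGroup.induction_on with
    | C1 => funext x; exact z.2.1.one x
    | of i => funext x; exact h1 i x
    | inv_of i _ =>
      funext x
      rw [z.2.1.inv, h1, neg_zero]
      rfl
    | mul w w' hw hw' =>
      funext x
      rw [z.2.1, hw, hw']
      exact add_zero 0
  · rintro ⟨v, hv⟩
    obtain ⟨z, hz, hz2⟩ := exists_coz q π (fun j x => v (j, x))
    rw [LinearMap.mem_ker, Matrix.mulVecLin_apply] at hv
    have hz3 : (fun j : ι × X => z (FreeGroup.of j.1) j.2) = v := by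
      funext j
      rw [hz2]
    refine ⟨⟨z, hz, fun r x => ?_⟩, ?_⟩
    · rw [hc' r z hz x, hz3, hv]
      rfl
    · apply Subtype.ext
      exact hz3

/-- The combinatorial Laplacian. -/
theorem exists_lap [Fintype ι] [DecidableEq ι] [Fintype ρ] :
    ∃ A : Matrix ι ι (MonoidAlgebra ℤ G),
      ∀ (X : Type) [Group X] [Fintype X] [DecidableEq X] (π : G →* X),
        ∃ D : Matrix (ρ × X) (ι × X) ℤ, thx π A = Dᵀ * D ∧
          Module.finrank ℂ (Zx q R0 π) =
            Module.finrank ℂ (LinearMap.ker (D.map (Int.cast : ℤ → ℂ)).mulVecLin) := by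
  choose c hc using fun r => exists_fox q (R0 r)
  choose c' hc' using fun (r : ρ) (j : ι) => exists_transpose (c r j)
  refine ⟨Matrix.of fun i j => ∑ r, c' r i * c r j, fun X _ _ _ π => ⟨Dx π c, ?_, ?_⟩⟩
  · ext ⟨i, x⟩ ⟨j, y⟩
    rw [thx_apply, Matrix.of_apply, map_sum, Matrix.sum_apply, Matrix.mul_apply,
      Fintype.sum_prod_type]
    apply Finset.sum_congr rfl
    intro r _
    rw [map_mul, hc', Matrix.mul_apply]
    rfl
  · exact finrank_Zx q R0 π c (fun r z hz x => hc r X π z hz x)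

end EssMap
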