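import Pool.Agent.EssMap.Cls

/-!
# Products with homomorphisms to the integers
-/

open CategoryTheory groupCohomology

namespace EssMap

variable {G : Type} [Group G]

/-- The product of a homomorphism to the integers and a cochain. -/
def cupc (a : G →* Multiplicative ℤ) {j : ℕ} (c : (Fin j → G) → ℤ) : (Fin (j + 1) → G) → ℤ :=
  fun g => (a (g 0)).toAdd * c (fun i => g i.succ)

theorem contract_succ_zero {m : ℕ} (i : Fin (m + 1)) (g : Fin (m + 2) → G) :
    Fin.contractNth i.succ (· * ·) g 0 = g 0 := by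
  rw [Fin.contractNth_apply_of_lt]
  · rfl
  · simp

theorem contract_succ_succ {m : ℕ} (i : Fin (m + 1)) (g : Fin (m + 2) → G) (k : Fin m) :
    Fin.contractNth i.succ (· * ·) g k.succ =
      Fin.contractNth i (· * ·) (fun l => g l.succ) k := by
  rcases lt_trichotomy (k : ℕ) (i : ℕ) with h | h | h
  · rw [Fin.contractNth_apply_of_lt, Fin.contractNth_apply_of_lt _ _ _ _ h]
    · rfl
    · simpa using h
  · rw [Fin.contractNth_apply_of_eq, Fin.contractNth_apply_of_eq _ _ _ _ h]
    · rfl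
    · simpa using h
  · rw [Fin.contractNth_apply_of_gt, Fin.contractNth_apply_of_gt _ _ _ _ h]
    simpa using h

theorem contract_zero_zero {m : ℕ} (g : Fin (m + 2) → G) :
    Fin.contractNth 0 (· * ·) g 0 = g 0 * g 1 := by
  rw [Fin.contractNth_apply_of_eq]
  · rfl
  · simp

theorem contract_zero_succ {m : ℕ} (g : Fin (m + 2) → G) (k : Fin m) :
    Fin.contractNth 0 (· * ·) g k.succ = g k.succ.succ := by
  rw [Fin.contractNth_apply_of_gt]
  simp

theorem d_cupc (a : G →* Multiplicative ℤ) {j : ℕ} (c : (Fin j → G) → ℤ)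
    (g : Fin (j + 2) → G) :
    (inhomogeneousCochains.d (Rep.trivial ℤ G ℤ) (j + 1) (cupc a c) : (Fin (j + 2) → G) → ℤ) g =
      -((a (g 0)).toAdd * (inhomogeneousCochains.d (Rep.trivial ℤ G ℤ) j c :
        (Fin (j + 1) → G) → ℤ) (fun i => g i.succ)) := by
  rw [d_triv, d_triv, Fin.sum_univ_succ]
  have h1 : cupc a c (fun i => g i.succ) = (a (g 1)).toAdd * c (fun i => g i.succ.succ) := rfl
  have h2 : cupc a c (Fin.contractNth 0 (· * ·) g) =
      ((a (g 0)).toAdd + (a (g 1)).toAdd) * c (fun i => g i.succ.succ) := by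
    unfold cupc
    rw [contract_zero_zero, map_mul, toAdd_mul]
    congr 2
  have h3 : ∀ i : Fin (j + 1), cupc a c (Fin.contractNth i.succ (· * ·) g) =
      (a (g 0)).toAdd * c (Fin.contractNth i (· * ·) (fun l => g l.succ)) := by
    intro i
    unfold cupc
    rw [contract_succ_zero]
    congr 2
    funext k
    exact contract_succ_succ i g k
  rw [h1, h2, mul_add, Finset.mul_sum, neg_add, ← Finset.sum_neg_distrib, ← add_assoc]
  congr 1
  · simp
    ring
  · apply Finset.sum_congr rfl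
    intro i _
    rw [h3, smul_eq_mul, smul_eq_mul, Fin.val_succ, pow_succ]
    ring

theorem cupc_cocycle (a : G →* Multiplicative ℤ) {j : ℕ} (c : (Fin j → G) → ℤ)
    (hc : inhomogeneousCochains.d (Rep.trivial ℤ G ℤ) j c = 0) :
    inhomogeneousCochains.d (Rep.trivial ℤ G ℤ) (j + 1) (cupc a c) = 0 := by
  funext g
  refine (d_cupc a c g).trans ?_
  rw [hc]
  show -((a (g 0)).toAdd * (0 : ℤ)) = 0
  ring

/-- The cochain `g ↦ c(g₁, ..., gⱼ) (g₀ - 1)`. -/
noncomputable def ccoch {j : ℕ} (c : (Fin j → G) → ℤ) : (Fin (j + 1) → G) → IG G :=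
  fun g => c (fun i => g i.succ) • gm G (g 0)

theorem ccoch_chi (a : G →* Multiplicative ℤ) {j : ℕ} (c : (Fin j → G) → ℤ)
    (g : Fin (j + 1) → G) : (chi a).hom (ccoch c g) = cupc a c g := by
  unfold ccoch cupc
  rw [map_zsmul, chi_gm, mul_comm]
  rfl

/-- The lift of an integral cochain to the group ring. -/
noncomputable def clift {j : ℕ} (c : (Fin j → G) → ℤ) : (Fin j → G) → Rep.leftRegular ℤ G :=
  fun g => MonoidAlgebra.single 1 (c g)

theorem clift_eps {j : ℕ} (c : (Fin j → G) → ℤ) (g : Fin j → G) :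
    (eps G).hom (clift c g) = c g := eps_single G 1 (c g)

theorem gm_smul_val (m : ℤ) (g : G) : ((m • gm G g).1 : MonoidAlgebra ℤ G) =
    MonoidAlgebra.single g m - MonoidAlgebra.single 1 m := by
  have h1 : ((m • gm G g).1 : MonoidAlgebra ℤ G) =
      m • (MonoidAlgebra.single g 1 - MonoidAlgebra.single 1 1 : MonoidAlgebra ℤ G) := by
    have h4 := map_zsmul (IW G).subtype m (gm G g)
    refine h4.trans ?_
    exact (int_smul_eq_zsmul inferInstance _ _).symm
  rw [h1, smul_sub, MonoidAlgebra.smul_single, MonoidAlgebra.smul_single, smul_eq_mul,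
    mul_one]

theorem clift_d {j : ℕ} (c : (Fin j → G) → ℤ)
    (hc : inhomogeneousCochains.d (Rep.trivial ℤ G ℤ) j c = 0) (g : Fin (j + 1) → G) :
    (inhomogeneousCochains.d (Rep.leftRegular ℤ G) j (clift c) :
      (Fin (j + 1) → G) → Rep.leftRegular ℤ G) g = (ccoch c g).1 := by
  rw [d_gen]
  have h0 : c (fun i => g i.succ) + ∑ i : Fin (j + 1),
      (-1 : ℤ) ^ ((i : ℕ) + 1) • c (Fin.contractNth i (· * ·) g) = 0 := by
    rw [← d_triv, hc]
    rfl
  let sg : ℤ →+ Rep.leftRegular ℤ G :=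
    { toFun := fun m => MonoidAlgebra.single 1 m
      map_zero' := MonoidAlgebra.single_zero _
      map_add' := fun a b => MonoidAlgebra.single_add _ _ _ }
  have h1 : ∑ i : Fin (j + 1), (-1 : ℤ) ^ ((i : ℕ) + 1) • clift c (Fin.contractNth i (· * ·) g) =
      sg (∑ i : Fin (j + 1), (-1 : ℤ) ^ ((i : ℕ) + 1) • c (Fin.contractNth i (· * ·) g)) := by
    rw [map_sum]
    apply Finset.sum_congr rfl
    intro i _
    rw [map_zsmul]
    rfl
  have h2 : ∑ i : Fin (j + 1), (-1 : ℤ) ^ ((i : ℕ) + 1) • c (Fin.contractNth i (· * ·) g) =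
      -c (fun i => g i.succ) := by
    rw [← sub_eq_zero, sub_neg_eq_add, add_comm]
    exact h0
  rw [h1, h2, map_neg]
  have h3 : (Rep.leftRegular ℤ G).ρ (g 0) (clift c (fun i => g i.succ)) =
      MonoidAlgebra.single (g 0) (c (fun i => g i.succ)) := by
    unfold clift
    rw [lr_rho, mul_one]
  have h4 : ((ccoch c g).1 : MonoidAlgebra ℤ G) =
      MonoidAlgebra.single (g 0) (c (fun i => g i.succ)) -
        MonoidAlgebra.single 1 (c (fun i => g i.succ)) := gm_smul_val _ _
  rw [h3]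
  refine Eq.trans ?_ h4.symm
  rw [sub_eq_add_neg]
  rfl

theorem ccoch_cocycle {j : ℕ} (c : (Fin j → G) → ℤ)
    (hc : inhomogeneousCochains.d (Rep.trivial ℤ G ℤ) j c = 0) :
    (inc G).hom ∘ (ccoch c) = (inhomogeneousCochains (Rep.leftRegular ℤ G)).d j (j + 1)
      (clift c) := by
  funext g
  rw [inhomogeneousCochains.d_def]
  exact (clift_d c hc g).symm

end EssMap
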