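import Pool.Agent.EssMap.Root

/-!
# The cyclic cover
-/

namespace EssMap

theorem exists_int_hom {H : Type} [Group H] [Group.FG H] (b : Addf H ℂ) (x : H)
    (hx : b.1 x ≠ 0) :
    ∃ c : H →* Multiplicative ℤ, (c x).toAdd ≠ 0 ∧ ∀ y, b.1 y = 0 → (c y).toAdd = 0 := by
  obtain ⟨m, q, hq⟩ := fg_fin (G := H)
  have hγ : Function.Surjective (FreeGroup.lift (fun i => q (FreeGroup.of i))) := by
    have : FreeGroup.lift (fun i => q (FreeGroup.of i)) = q := by
      ext i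
      rw [FreeGroup.lift_apply_of]
    rw [this]
    exact hq
  have h1 : ∃ ℓ : ℂ →ₗ[ℚ] ℚ, ℓ (b.1 x) ≠ 0 := by
    by_contra hcon
    push Not at hcon
    exact hx ((Module.forall_dual_apply_eq_zero_iff ℚ (b.1 x)).1 hcon)
  obtain ⟨ℓ, hℓ⟩ := h1
  let h : Addf H ℚ := ⟨fun g => ℓ (b.1 g), fun x y => by
    show ℓ (b.1 (x * y)) = ℓ (b.1 x) + ℓ (b.1 y)
    rw [b.2, map_add]⟩
  obtain ⟨N, hN, hN2⟩ := exists_den _ hγ h
  obtain ⟨c, hc⟩ := exists_hom_of_int _ hN2
  have hc' : ∀ g, (N : ℚ) * ℓ (b.1 g) = ((c g).toAdd : ℚ) := hc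
  refine ⟨c, ?_, fun y hy => ?_⟩
  · intro h0
    have h2 := hc' x
    rw [h0, Int.cast_zero] at h2
    rcases mul_eq_zero.1 h2 with h3 | h3
    · exact absurd h3 (by exact_mod_cast hN.ne')
    · exact hℓ h3
  · have h2 := hc' y
    rw [hy, map_zero, mul_zero] at h2
    exact_mod_cast h2.symm

variable {G : Type} [Group G] (a : G →* Multiplicative ℤ)

/-- Twisted functions become homomorphisms on a cyclic cover. -/
theorem two_of_eig [Group.FG G] (t : G) (ht : (a t).toAdd = 1) (μ : ℂˣ) (m : ℕ) (hm : 0 < m)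
    (hμ : μ ^ m = 1) (f : VK a) (hf : f ≠ 0) (h : TT a t f = (μ : ℂ) • f) :
    ∃ H : Subgroup G, H.FiniteIndex ∧ Two H := by
  have : NeZero m := ⟨hm.ne'⟩
  let π : G →* Multiplicative (ZMod m) :=
    (AddMonoidHom.toMultiplicative (Int.castAddHom (ZMod m))).comp a
  let H : Subgroup G := π.ker
  have hHf : H.FiniteIndex := inferInstance
  have hH : ∀ g, g ∈ H ↔ (m : ℤ) ∣ (a g).toAdd := by
    intro g
    rw [MonoidHom.mem_ker, ← ZMod.intCast_zmod_eq_zero_iff_dvd]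
    exact Iff.rfl
  refine ⟨H, hHf, ?_⟩
  have hat : ∀ k : ℤ, (a (t ^ k)).toAdd = k := by
    intro k
    rw [map_zpow, toAdd_zpow, ht, smul_eq_mul, mul_one]
  have hker : ∀ g, a (g * t ^ (-(a g).toAdd)) = 1 := by
    intro g
    apply Multiplicative.toAdd.injective
    rw [map_mul, toAdd_mul, hat, toAdd_one]
    ring
  have hμ1 : ∀ n : ℤ, (m : ℤ) ∣ n → μ ^ n = 1 := by
    rintro n ⟨k, rfl⟩
    rw [zpow_mul, zpow_natCast, hμ, one_zpow]
  let b : Addf H ℂ := ⟨fun g => f.1 (g.1 * t ^ (-(a g.1).toAdd)), fun x y => by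
    show f.1 ((x.1 * y.1) * t ^ (-(a (x.1 * y.1)).toAdd)) =
      f.1 (x.1 * t ^ (-(a x.1).toAdd)) + f.1 (y.1 * t ^ (-(a y.1).toAdd))
    have h1 := eig_zpow a t f μ h (a x.1).toAdd (y.1 * t ^ (-(a y.1).toAdd))
    rw [hμ1 _ ((hH x.1).1 x.2), Units.val_one, one_mul] at h1
    rw [← h1, ← f.2.1 _ _ (hker _) (by
      apply Multiplicative.toAdd.injective
      rw [map_mul a, map_mul a, map_inv a, hker, toAdd_mul, toAdd_mul, toAdd_inv, toAdd_one]
      ring)]
    congr 1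
    rw [map_mul, toAdd_mul, neg_add, zpow_add, zpow_neg, zpow_neg]
    have h2 : Commute (t ^ (a x.1).toAdd)⁻¹ (t ^ (a y.1).toAdd)⁻¹ := by
      apply Commute.inv_inv
      exact (Commute.refl t).zpow_zpow _ _
    rw [h2.eq]
    simp only [mul_assoc, inv_mul_cancel_left]⟩
  obtain ⟨x, hx, hfx⟩ := VK_ne a f hf
  have hxH : x ∈ H := by
    rw [hH, hx, toAdd_one]
    exact dvd_zero _
  have hbx : b.1 ⟨x, hxH⟩ ≠ 0 := by
    show f.1 (x * t ^ (-(a x).toAdd)) ≠ 0
    rw [hx, toAdd_one, neg_zero, zpow_zero, mul_one]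
    exact hfx
  obtain ⟨c, hc, -⟩ := exists_int_hom b ⟨x, hxH⟩ hbx
  refine ⟨a.comp H.subtype, c, fun m₁ n₁ hmn => ?_⟩
  have h1 := hmn ⟨x, hxH⟩
  have h2 : ((a.comp H.subtype) ⟨x, hxH⟩).toAdd = 0 := by
    show (a x).toAdd = 0
    rw [hx, toAdd_one]
  rw [h2, mul_zero, zero_add] at h1
  have hn : n₁ = 0 := by
    rcases mul_eq_zero.1 h1 with h3 | h3
    · exact h3
    · exact absurd h3 hc
  have htH : t ^ (m : ℤ) ∈ H := by
    rw [hH, hat]
  have h3 := hmn ⟨t ^ (m : ℤ), htH⟩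
  have h4 : ((a.comp H.subtype) ⟨t ^ (m : ℤ), htH⟩).toAdd = m := hat m
  rw [hn, zero_mul, add_zero, h4] at h3
  refine ⟨?_, hn⟩
  rcases mul_eq_zero.1 h3 with h5 | h5
  · exact h5
  · exact absurd h5 (by exact_mod_cast hm.ne')

/-- The rational homology of the infinite cyclic cover produces two independent classes. -/
theorem exists_two [Group.FG G] (φ : G →* G) (hfin : φ.range.FiniteIndex) (t : G)
    (ht : (a t).toAdd = 1) (δ : ℤ) (hδ : 2 ≤ |δ|)
    (h : ∀ g, (a (φ g)).toAdd = δ * (a g).toAdd) (f₀ : VK a) (hf₀ : f₀ ≠ 0) :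
    ∃ H : Subgroup G, H.FiniteIndex ∧ Two H := by
  classical
  obtain ⟨m, q, hq⟩ := fg_fin (G := G)
  let γ : Option (Fin m) → G := fun x => x.elim t (fun i => q (FreeGroup.of i))
  have hγ : Function.Surjective (FreeGroup.lift γ) := by
    intro g
    obtain ⟨w, rfl⟩ := hq g
    refine ⟨FreeGroup.map some w, ?_⟩
    have h : (FreeGroup.lift γ).comp (FreeGroup.map some) = q := by
      ext i
      rw [MonoidHom.comp_apply, FreeGroup.map.of, FreeGroup.lift_apply_of]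
      rfl
    exact DFunLike.congr_fun h w
  by_cases hE : ∀ W : Option (Fin m) → FreeGroup (Option (Fin m)),
      (∀ i, FreeGroup.lift γ (W i) = 1) → (EE a γ none W).det = 0
  · obtain ⟨z, hz1, hz2, g, hz3⟩ := exists_cocycle (K := ℂ) 1 a γ hγ none hE
    let b : Addf G ℂ := ⟨fun g => (z g).v, fun x y => by
      show (z (x * y)).v = (z x).v + (z y).v
      rw [map_mul, AG.mul_v, one_zpow, one_smul]⟩
    obtain ⟨c, hc1, hc2⟩ := exists_int_hom b g hz3
    have h2 : Two G := by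
      refine ⟨a, c, fun m₁ n₁ hmn => ?_⟩
      have h3 := hmn t
      rw [ht, hc2 t hz2, mul_zero, add_zero, mul_one] at h3
      have h4 := hmn g
      rw [h3, zero_mul, zero_add] at h4
      refine ⟨h3, ?_⟩
      rcases mul_eq_zero.1 h4 with h5 | h5
      · exact h5
      · exact absurd h5 hc1
    refine ⟨⊤, inferInstance, h2.descend (⊤ : Subgroup G).subtype ?_⟩
    rw [Subgroup.range_subtype]
    infer_instance
  · push Not at hE
    obtain ⟨W, hW, hne⟩ := hE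
    obtain ⟨P, hP, hT⟩ := exists_poly a γ hγ none ht W hW hne
    obtain ⟨μ, n, f, hn, hμ, hf, hf2⟩ := exists_root_unity a φ hfin δ hδ h t ht P hP hT f₀ hf₀
    exact two_of_eig a t ht μ n hn hμ f hf hf2

end EssMap
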