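import Pool.Agent.EssMap.Van

/-!
# Many cocycles over every field
-/

namespace EssMap

variable {ι : Type} [Fintype ι] [DecidableEq ι] {G : Type} [Group G]

/-- If all minors vanish, there is a nonzero cocycle vanishing at a generator. -/
theorem exists_cocycle {K : Type} [Field K] (u : Kˣ) (a : G →* Multiplicative ℤ) (γ : ι → G)
    (hγ : Function.Surjective (FreeGroup.lift γ)) (i₀ : ι)
    (hE : ∀ W : ι → FreeGroup ι, (∀ i, FreeGroup.lift γ (W i) = 1) → (EE a γ i₀ W).det = 0) :
    ∃ z : G →* AG K K u, (∀ g, (z g).i = (a g).toAdd) ∧ (z (γ i₀)).v = 0 ∧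
      ∃ g, (z g).v ≠ 0 := by
  classical
  let J : Type := Option {w : FreeGroup ι // FreeGroup.lift γ w = 1}
  let V : J → (ι → K) := fun x => match x with
    | none => Pi.single i₀ 1
    | some w => fun j => evL u ((DD a γ w.1).v j)
  have hspan : Submodule.span K (Set.range V) ≠ ⊤ := by
    intro htop
    have hnone : LinearIndepOn K V {(none : J)} := by
      rw [linearIndepOn_singleton_iff]
      show (Pi.single i₀ 1 : ι → K) ≠ 0
      intro h
      have := congrFun h i₀
      rw [Pi.single_eq_same, Pi.zero_apply] at this
      exact one_ne_zero this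
    obtain ⟨b, -, hb1, hb2, hb3⟩ := exists_linearIndepOn_extension hnone (Set.subset_univ _)
    have hb1' : (none : J) ∈ b := hb1 rfl
    have hsp : ⊤ ≤ Submodule.span K (Set.range (fun x : b => V x)) := by
      rw [← htop, Submodule.span_le, ← Set.image_univ, ← Set.image_eq_range]
      exact hb2
    let B : Module.Basis b K (ι → K) := Module.Basis.mk hb3 hsp
    let e0 : ι ≃ b := (B.indexEquiv (Pi.basisFun K ι)).symm
    let e : ι ≃ b := (Equiv.swap i₀ (e0.symm ⟨none, hb1'⟩)).trans e0
    have he : e i₀ = ⟨none, hb1'⟩ := by
      show e0 (Equiv.swap i₀ (e0.symm ⟨none, hb1'⟩) i₀) = _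
      rw [Equiv.swap_apply_left, Equiv.apply_symm_apply]
    let W : ι → FreeGroup ι := fun i => match (e i).1 with
      | none => 1
      | some w => w.1
    have hW : ∀ i, FreeGroup.lift γ (W i) = 1 := by
      intro i
      show FreeGroup.lift γ (match (e i).1 with
        | none => 1
        | some w => w.1) = 1
      cases h : (e i).1 with
      | none => exact map_one _
      | some w => exact w.2
    have hrow : ((EE a γ i₀ W).map (evL u)).row = fun i => V (e i).1 := by
      funext i j
      show evL u ((EE a γ i₀ W) i j) = V (e i).1 j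
      by_cases hi : i = i₀
      · subst hi
        rw [he]
        have h3 : EE a γ i W i = Pi.single i 1 := if_pos rfl
        rw [h3]
        show evL u ((Pi.single i 1 : ι → LL) j) = (Pi.single i 1 : ι → K) j
        by_cases hj : j = i
        · subst hj
          rw [Pi.single_eq_same, Pi.single_eq_same, map_one]
        · rw [Pi.single_eq_of_ne hj, Pi.single_eq_of_ne hj, map_zero]
      · have h3 : EE a γ i₀ W i = (DD a γ (W i)).v := if_neg hi
        rw [h3]
        show evL u ((DD a γ (match (e i).1 with
          | none => 1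
          | some w => w.1)).v j) = V (e i).1 j
        cases h : (e i).1 with
        | none =>
          exfalso
          apply hi
          apply e.injective
          rw [he]
          exact Subtype.ext h
        | some w => rfl
    have hli : LinearIndependent K (fun i => V (e i).1) :=
      (linearIndependent_equiv e (f := fun x : b => V x)).2 hb3
    rw [← hrow, Matrix.linearIndependent_rows_iff_isUnit, Matrix.isUnit_iff_isUnit_det] at hli
    have h5 : ((EE a γ i₀ W).map (evL u)).det = 0 := by
      have h6 : evL u (EE a γ i₀ W).det = ((EE a γ i₀ W).map (evL u)).det := RingHom.map_det _ _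
      rw [← h6, hE W hW, map_zero]
    rw [h5] at hli
    exact not_isUnit_zero hli
  obtain ⟨f, hf, hf2⟩ := Submodule.exists_le_ker_of_lt_top _ (lt_top_iff_ne_top.2 hspan)
  let v : ι → K := fun j => f (Pi.single j 1)
  have hfv : ∀ x : ι → K, f x = ∑ j, x j * v j := by
    intro x
    conv_lhs => rw [← Finset.univ_sum_single x]
    rw [map_sum]
    apply Finset.sum_congr rfl
    intro j _
    have : (Pi.single j (x j) : ι → K) = x j • Pi.single j 1 := by
      rw [← Pi.single_smul, smul_eq_mul, mul_one]
    rw [this, map_smul, smul_eq_mul]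
  have hrel : ∀ w, FreeGroup.lift γ w = 1 → pv u v (DD a γ w).v = 0 := by
    intro w hw
    have hm : V (some ⟨w, hw⟩ : J) ∈ Set.range V := ⟨(some ⟨w, hw⟩ : J), rfl⟩
    have h7 : V (some ⟨w, hw⟩ : J) ∈ LinearMap.ker f := hf2 (Submodule.subset_span hm)
    rw [LinearMap.mem_ker, hfv] at h7
    exact h7
  obtain ⟨z, hz1, hz2⟩ := exists_hom a γ u hγ v hrel
  refine ⟨z, hz1, ?_, ?_⟩
  · rw [hz2]
    have hm : V (none : J) ∈ Set.range V := ⟨(none : J), rfl⟩
    have h8 : V (none : J) ∈ LinearMap.ker f := hf2 (Submodule.subset_span hm)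
    exact h8
  · by_contra hcon
    push Not at hcon
    apply hf
    apply LinearMap.ext
    intro x
    rw [hfv, LinearMap.zero_apply]
    apply Finset.sum_eq_zero
    intro j _
    rw [← hz2, hcon, mul_zero]

end EssMap
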