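import Pool.Agent.EssMap.Nons

/-!
# Dimension three
-/

open CategoryTheory groupCohomology

namespace EssMap

theorem nil_class {Q : Type} [Group Q] (hQ : Dual 3 Q) (φ : Q →* Q)
    (hinj : Function.Injective φ) (hfin : φ.range.FiniteIndex)
    (hcap : ∀ q : Q, (∀ k : ℕ, q ∈ Set.range (φ^[k])) → q = 1)
    (hno : ¬ ∃ N : Subgroup Q, N.FiniteIndex ∧ Group.IsNilpotent N)
    (G : Subgroup Q) (hG : G.FiniteIndex) (k : ℕ) (f : G →* TK k) (τ : HZ (TK k) 2) :
    ¬ NonTors (pull f 2 τ) := by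
  intro hτ
  have hnt : Nontrivial (⊤ : Subgroup (TK k)) := by
    refine ⟨⟨⟨⟨0, 1⟩, trivial⟩, 1, ?_⟩⟩
    intro h
    have h1 : ((⟨0, 1⟩ : TK k)).i = (1 : TK k).i := congrArg (fun x => AG.i x.1) h
    rw [AG.mk_i, AG.one_i] at h1
    exact one_ne_zero h1
  have htf : TorFree (⊤ : Subgroup (TK k)) := by
    intro t m hm ht
    apply Subtype.ext
    exact tk_torFree k t.1 m hm (congrArg Subtype.val ht)
  have hen : EqNoeth (⊤ : Subgroup (TK k)) :=
    EqNoeth.of_injective (⊤ : Subgroup (TK k)).subtype (Subgroup.subtype_injective _)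
      (eqNoeth_nilpotent (tk_nilp k))
  have hnil : Group.IsNilpotent (⊤ : Subgroup (TK k)) := by
    have := tk_nilp k
    infer_instance
  obtain ⟨N, hN, -, hN2, -⟩ := final hQ φ hinj hfin hcap G hG (TK k) f ⊤ inferInstance hnt htf hen
    2 (Or.inr rfl) τ hτ
  exact hno ⟨N, hN, hN2 hnil⟩

/-- The contradiction for one subgroup. -/
theorem no_dim3 {G : Type} [Group G] [Group.FG G] (φ : G →* G) (hfin : φ.range.FiniteIndex)
    (H : ∀ (k : ℕ) (f : G →* TK k) (τ : HZ (TK k) 2), ¬ NonTors (pull f 2 τ))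
    (a b : G →* Multiplicative ℤ) (t : G) (ht : (a t).toAdd = 1)
    (hab : ¬ ∃ n : ℤ, ∀ g, (b g).toAdd = n * (a g).toAdd) (p : ℕ) (hp : p.Prime)
    (hap : ∀ g, (p : ℤ) ∣ (a (φ g)).toAdd) : False := by
  classical
  obtain ⟨m, q, hq⟩ := fg_fin (G := G)
  let γ : Option (Fin m) → G := fun x => x.elim t (fun i => q (FreeGroup.of i))
  have hγ : Function.Surjective (FreeGroup.lift γ) := by
    intro g
    obtain ⟨w, rfl⟩ := hq g
    refine ⟨FreeGroup.map some w, ?_⟩
    have h : (FreeGroup.lift γ).comp (FreeGroup.map some) = q := by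
      ext i
      rw [MonoidHom.comp_apply, FreeGroup.map.of, FreeGroup.lift_apply_of]
      rfl
    exact DFunLike.congr_fun h w
  have hE : ∀ W : Option (Fin m) → FreeGroup (Option (Fin m)),
      (∀ i, FreeGroup.lift γ (W i) = 1) → (EE a γ none W).det = 0 :=
    fun W hW => vanish a b γ hγ none ht hab H W hW
  have hζ := Complex.isPrimitiveRoot_exp p hp.ne_zero
  let ζ : ℂˣ := (hζ.isUnit hp.ne_zero).unit
  have hζp : ζ ^ p = 1 := by
    apply Units.ext
    rw [Units.val_pow_eq_pow_val, Units.val_one]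
    exact hζ.pow_eq_one
  have hζ1 : ζ ≠ 1 := by
    intro h
    have h1 : Complex.exp (2 * Real.pi * Complex.I / p) = 1 := congrArg Units.val h
    exact hζ.ne_one hp.one_lt h1
  obtain ⟨z, hz1, hz2, g, hz3⟩ := exists_cocycle (K := ℂ) ζ a γ hγ none hE
  exact hz3 (no_twist γ hγ φ hfin a t ht p hap ζ hζp hζ1 z hz1 hz2 g)

/-- The rational rank of the group of homomorphisms to the integers is at least two. -/
def Two (G : Type) [Group G] : Prop :=
  ∃ b c : G →* Multiplicative ℤ, ∀ m n : ℤ,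
    (∀ g, m * (b g).toAdd + n * (c g).toAdd = 0) → m = 0 ∧ n = 0

theorem Two.descend {A B : Type} [Group A] [Group B] (j : B →* A) (hj : j.range.FiniteIndex)
    (h : Two A) : Two B := by
  obtain ⟨b, c, hbc⟩ := h
  refine ⟨b.comp j, c.comp j, fun m n hmn => hbc m n (fun g => ?_)⟩
  obtain ⟨N, hN, -, y, hy⟩ := Subgroup.exists_pow_mem_of_index_ne_zero hj.index_ne_zero g
  have h1 := hmn y
  rw [MonoidHom.comp_apply, MonoidHom.comp_apply, hy, map_pow b, map_pow c, toAdd_pow, toAdd_pow,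
    nsmul_eq_mul, nsmul_eq_mul] at h1
  have h2 : (N : ℤ) * (m * (b g).toAdd + n * (c g).toAdd) = 0 := by
    rw [← h1]
    ring
  rcases mul_eq_zero.1 h2 with h3 | h3
  · exact absurd h3 (by exact_mod_cast hN.ne')
  · exact h3

theorem Two.exists_indep {A : Type} [Group A] (h : Two A) (a : A →* Multiplicative ℤ) :
    ∃ b : A →* Multiplicative ℤ, ¬ ∃ n : ℤ, ∀ g, (b g).toAdd = n * (a g).toAdd := by
  obtain ⟨b, c, hbc⟩ := h
  by_contra hcon
  push Not at hcon
  obtain ⟨n1, h1⟩ := hcon b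
  obtain ⟨n2, h2⟩ := hcon c
  have h3 := hbc n2 (-n1) (fun g => by rw [h1, h2]; ring)
  have h4 : n1 = 0 := by have := h3.2; omega
  have h5 := hbc 1 0 (fun g => by rw [h1, h4]; ring)
  exact one_ne_zero h5.1

theorem dim_three {Q : Type} [Group Q] (hQ : Dual 3 Q) (φ : Q →* Q)
    (hinj : Function.Injective φ) (hfin : φ.range.FiniteIndex)
    (hcap : ∀ q : Q, (∀ k : ℕ, q ∈ Set.range (φ^[k])) → q = 1)
    (G : Subgroup Q) (hG : G.FiniteIndex) (hφ : ∀ x ∈ G, φ x ∈ G)
    (hns : ∃ c : G →* Multiplicative ℤ, ∀ e : G →* Multiplicative ℤ,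
      ∃ g : G, e ⟨φ g, hφ g g.2⟩ ≠ c g)
    (H : Subgroup Q) (hH : H.FiniteIndex) (hH2 : Two H) :
    ∃ N : Subgroup Q, N.FiniteIndex ∧ Group.IsNilpotent N := by
  by_contra hno
  have hfg := hQ.fg
  obtain ⟨K, hK1, hK2, hK3⟩ := exists_invariant φ (G ⊓ H) inferInstance
  have hKG : K ≤ G := hK2.trans inf_le_left
  have hKH : K ≤ H := hK2.trans inf_le_right
  have fgG : Group.FG G := inferInstance
  have fgK : Group.FG K := inferInstance
  obtain ⟨m, q, hq⟩ := fg_fin (G := G)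
  obtain ⟨m', q', hq'⟩ := fg_fin (G := K)
  have hqe : ∀ (m : ℕ) (A : Type) [Group A] (q : FreeGroup (Fin m) →* A),
      FreeGroup.lift (fun i => q (FreeGroup.of i)) = q := by
    intro m A _ q
    ext i
    rw [FreeGroup.lift_apply_of]
  have hγ : Function.Surjective (FreeGroup.lift (fun i => q (FreeGroup.of i))) := by
    rw [hqe]; exact hq
  have hγ' : Function.Surjective (FreeGroup.lift (fun i => q' (FreeGroup.of i))) := by
    rw [hqe]; exact hq'
  have hfG : (rst φ G hφ).range.FiniteIndex := rst_fin hinj hfin G hG hφ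
  have hfK : (rst φ K hK3).range.FiniteIndex := rst_fin hinj hfin K hK1 hK3
  obtain ⟨c, hc⟩ := hns
  obtain ⟨h, hh1, hh2⟩ := exists_nonint _ hγ (rst φ G hφ) hfG c (by
    intro e he
    obtain ⟨g, hg⟩ := hc e
    exact hg (DFunLike.congr_fun he g))
  have hdesc : ¬ ∀ h : Addf K ℚ, IsInt (prc (rst φ K hK3) h) → IsInt h := by
    intro hall
    have hj : (Subgroup.inclusion hKG).range.FiniteIndex := by
      rw [Subgroup.inclusion_range]
      infer_instance
    exact hh2 (descend _ hγ (rst φ G hφ) hfG (rst φ K hK3) hfK (Subgroup.inclusion hKG) hj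
      (fun x => rfl) hall h hh1)
  push Not at hdesc
  obtain ⟨h', hh1', hh2'⟩ := hdesc
  obtain ⟨a, t, p, ht, hp, hap⟩ := exists_prime _ hγ' (rst φ K hK3) h' hh1' hh2'
  have hjH : (Subgroup.inclusion hKH).range.FiniteIndex := by
    rw [Subgroup.inclusion_range]
    infer_instance
  obtain ⟨b, hb⟩ := (hH2.descend _ hjH).exists_indep a
  exact no_dim3 (rst φ K hK3) hfK
    (fun k f τ => nil_class hQ φ hinj hfin hcap hno K hK1 k f τ) a b t ht hb p hp hap

end EssMap
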