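import Pool.Agent.EssMap.Cyc

/-!
# Dimension three, final form
-/

open CategoryTheory groupCohomology

namespace EssMap

/-- The surjection and the prime on a smaller invariant subgroup. -/
theorem setup {Q : Type} [Group Q] (hfg : Group.FG Q) (φ : Q →* Q)
    (hinj : Function.Injective φ) (hfin : φ.range.FiniteIndex)
    (G : Subgroup Q) (hG : G.FiniteIndex) (hφ : ∀ x ∈ G, φ x ∈ G)
    (hns : ∃ c : G →* Multiplicative ℤ, ∀ e : G →* Multiplicative ℤ,
      ∃ g : G, e ⟨φ g, hφ g g.2⟩ ≠ c g)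
    (K : Subgroup Q) (hK1 : K.FiniteIndex) (hKG : K ≤ G) (hK3 : ∀ x ∈ K, φ x ∈ K) :
    ∃ (a : K →* Multiplicative ℤ) (t : K) (p : ℕ), (a t).toAdd = 1 ∧ p.Prime ∧
      ∀ g, (p : ℤ) ∣ (a (rst φ K hK3 g)).toAdd := by
  have fgG : Group.FG G := inferInstance
  have fgK : Group.FG K := inferInstance
  obtain ⟨m, q, hq⟩ := fg_fin (G := G)
  obtain ⟨m', q', hq'⟩ := fg_fin (G := K)
  have hqe : ∀ (m : ℕ) (A : Type) [Group A] (q : FreeGroup (Fin m) →* A),
      FreeGroup.lift (fun i => q (FreeGroup.of i)) = q := by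
    intro m A _ q
    ext i
    rw [FreeGroup.lift_apply_of]
  have hγ : Function.Surjective (FreeGroup.lift (fun i => q (FreeGroup.of i))) := by
    rw [hqe]; exact hq
  have hγ' : Function.Surjective (FreeGroup.lift (fun i => q' (FreeGroup.of i))) := by
    rw [hqe]; exact hq'
  have hfG : (rst φ G hφ).range.FiniteIndex := rst_fin hinj hfin G hG hφ
  have hfK : (rst φ K hK3).range.FiniteIndex := rst_fin hinj hfin K hK1 hK3
  obtain ⟨c, hc⟩ := hns
  obtain ⟨h, hh1, hh2⟩ := exists_nonint _ hγ (rst φ G hφ) hfG c (by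
    intro e he
    obtain ⟨g, hg⟩ := hc e
    exact hg (DFunLike.congr_fun he g))
  have hdesc : ¬ ∀ h : Addf K ℚ, IsInt (prc (rst φ K hK3) h) → IsInt h := by
    intro hall
    have hj : (Subgroup.inclusion hKG).range.FiniteIndex := by
      rw [Subgroup.inclusion_range]
      infer_instance
    exact hh2 (descend _ hγ (rst φ G hφ) hfG (rst φ K hK3) hfK (Subgroup.inclusion hKG) hj
      (fun x => rfl) hall h hh1)
  push Not at hdesc
  obtain ⟨h', hh1', hh2'⟩ := hdesc
  exact exists_prime _ hγ' (rst φ K hK3) h' hh1' hh2'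

theorem prop_of_not_two {A : Type} [Group A] (h : ¬ Two A) (a b : A →* Multiplicative ℤ) (t : A)
    (ht : (a t).toAdd = 1) (g : A) : (b g).toAdd = (b t).toAdd * (a g).toAdd := by
  by_contra hne
  apply h
  refine ⟨a, b, fun m n hmn => ?_⟩
  have h1 := hmn t
  have h2 := hmn g
  rw [ht, mul_one] at h1
  have h3 : n * ((b g).toAdd - (b t).toAdd * (a g).toAdd) = 0 := by
    linear_combination h2 - (a g).toAdd * h1
  have h4 : n = 0 := by
    rcases mul_eq_zero.1 h3 with h5 | h5
    · exact h5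
    · exact absurd (sub_eq_zero.1 h5) hne
  refine ⟨?_, h4⟩
  rw [h4, zero_mul, add_zero] at h1
  exact h1

theorem dim_three_final {Q : Type} [Group Q] (hQ : Dual 3 Q) (φ : Q →* Q)
    (hinj : Function.Injective φ) (hfin : φ.range.FiniteIndex)
    (hcap : ∀ q : Q, (∀ k : ℕ, q ∈ Set.range (φ^[k])) → q = 1)
    (G : Subgroup Q) (hG : G.FiniteIndex) (hφ : ∀ x ∈ G, φ x ∈ G)
    (hns : ∃ c : G →* Multiplicative ℤ, ∀ e : G →* Multiplicative ℤ,
      ∃ g : G, e ⟨φ g, hφ g g.2⟩ ≠ c g)
    (H : Subgroup Q) (hH : H.FiniteIndex) (a : H →* Multiplicative ℤ) (ha : a ≠ 1)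
    (f : a.ker →* Multiplicative ℚ) (hf : f ≠ 1) :
    ∃ N : Subgroup Q, N.FiniteIndex ∧ Group.IsNilpotent N := by
  classical
  by_contra hno
  have htwo : ∀ S : Subgroup Q, S.FiniteIndex → ¬ Two S := fun S hS h2 =>
    hno (dim_three hQ φ hinj hfin hcap G hG hφ hns S hS h2)
  have hfg := hQ.fg
  obtain ⟨K, hK1, hK2, hK3⟩ := exists_invariant φ (G ⊓ H) inferInstance
  have hKG : K ≤ G := hK2.trans inf_le_left
  have hKH : K ≤ H := hK2.trans inf_le_right
  have fgK : Group.FG K := inferInstance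
  obtain ⟨b, t, p, ht, hp, hbp⟩ := setup hfg φ hinj hfin G hG hφ hns K hK1 hKG hK3
  have hfK : (rst φ K hK3).range.FiniteIndex := rst_fin hinj hfin K hK1 hK3
  have hnK := htwo K hK1
  -- the map `b` is multiplied by an integer
  let δ : ℤ := (b (rst φ K hK3 t)).toAdd
  have hδ : ∀ g, (b (rst φ K hK3 g)).toAdd = δ * (b g).toAdd := fun g =>
    prop_of_not_two hnK b (b.comp (rst φ K hK3)) t ht g
  have hδ0 : δ ≠ 0 := by
    intro h0
    obtain ⟨n, hn, -, y, hy⟩ := Subgroup.exists_pow_mem_of_index_ne_zero hfK.index_ne_zero t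
    have h1 := hδ y
    rw [hy, map_pow b, toAdd_pow, ht, h0, zero_mul, nsmul_eq_mul, mul_one] at h1
    exact hn.ne' (by exact_mod_cast h1)
  have hδ2 : 2 ≤ |δ| := by
    have h1 : (p : ℤ) ≤ |δ| := Int.le_of_dvd (abs_pos.2 hδ0) ((dvd_abs _ _).2 (hbp t))
    have h2 : (2 : ℤ) ≤ p := by exact_mod_cast hp.two_le
    omega
  -- the restriction of `a`
  let α : K →* Multiplicative ℤ := a.comp (Subgroup.inclusion hKH)
  have hα : ∀ g, (α g).toAdd = (α t).toAdd * (b g).toAdd := prop_of_not_two hnK b α t ht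
  have hker : ∀ g : K, b g = 1 → a (Subgroup.inclusion hKH g) = 1 := by
    intro g hg
    apply Multiplicative.toAdd.injective
    have h1 := hα g
    rw [hg, toAdd_one, mul_zero] at h1
    exact h1
  let F : K → ℂ := fun g => if hg : b g = 1 then
    ((f ⟨Subgroup.inclusion hKH g, hker g hg⟩).toAdd : ℂ) else 0
  have hF1 : ∀ (g : K) (hg : b g = 1),
      F g = ((f ⟨Subgroup.inclusion hKH g, hker g hg⟩).toAdd : ℂ) := fun g hg => dif_pos hg
  let f₀ : VK b := ⟨F, by
    refine ⟨fun x y hx hy => ?_, fun x hx => dif_neg hx⟩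
    have hxy : b (x * y) = 1 := by rw [map_mul, hx, hy, one_mul]
    rw [hF1 _ hxy, hF1 _ hx, hF1 _ hy, ← Rat.cast_add, ← toAdd_mul, ← map_mul]
    rfl⟩
  have hf₀ : f₀ ≠ 0 := by
    intro h0
    apply hf
    ext x
    rw [MonoidHom.one_apply]
    obtain ⟨n, hn, -, hxn⟩ := Subgroup.exists_pow_mem_of_index_ne_zero
      (H := K.subgroupOf H) (inferInstance : (K.subgroupOf H).FiniteIndex).index_ne_zero x.1
    rw [Subgroup.mem_subgroupOf] at hxn
    let y : K := ⟨((x.1 ^ n : H) : Q), hxn⟩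
    have hy1 : Subgroup.inclusion hKH y = x.1 ^ n := rfl
    have hay : (α y).toAdd = 0 := by
      show (a (Subgroup.inclusion hKH y)).toAdd = 0
      rw [hy1, map_pow a, (MonoidHom.mem_ker).1 x.2, one_pow, toAdd_one]
    have hαt : (α t).toAdd ≠ 0 := by
      intro h3
      apply ha
      ext g
      rw [MonoidHom.one_apply]
      obtain ⟨n, hn, -, hgn⟩ := Subgroup.exists_pow_mem_of_index_ne_zero
        (H := K.subgroupOf H) (inferInstance : (K.subgroupOf H).FiniteIndex).index_ne_zero g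
      rw [Subgroup.mem_subgroupOf] at hgn
      have h4 := hα ⟨((g ^ n : H) : Q), hgn⟩
      rw [h3, zero_mul] at h4
      have h5 : (a (g ^ n)).toAdd = 0 := h4
      rw [map_pow a, toAdd_pow, nsmul_eq_mul] at h5
      apply Multiplicative.toAdd.injective
      rcases mul_eq_zero.1 h5 with h6 | h6
      · exact absurd h6 (by exact_mod_cast hn.ne')
      · exact h6
    have hby : b y = 1 := by
      apply Multiplicative.toAdd.injective
      have h3 := hα y
      rw [hay] at h3
      rcases mul_eq_zero.1 h3.symm with h4 | h4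
      · exact absurd h4 hαt
      · exact h4
    have h1 : F y = 0 := congrFun (congrArg Subtype.val h0) y
    rw [hF1 y hby] at h1
    have h2 : (⟨Subgroup.inclusion hKH y, hker y hby⟩ : a.ker) = x ^ n := Subtype.ext hy1
    rw [h2, map_pow f, toAdd_pow, nsmul_eq_mul] at h1
    have h3 : (n : ℚ) * (f x).toAdd = 0 := by exact_mod_cast h1
    apply Multiplicative.toAdd.injective
    rcases mul_eq_zero.1 h3 with h4 | h4
    · exact absurd h4 (by exact_mod_cast hn.ne')
    · exact h4
  obtain ⟨S, hS1, hS2⟩ := exists_two b (rst φ K hK3) hfK t ht δ hδ2 hδ f₀ hf₀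
  have hS3 : (S.map K.subtype).FiniteIndex := by
    constructor
    rw [Subgroup.index_map_subtype]
    exact mul_ne_zero hS1.index_ne_zero hK1.index_ne_zero
  apply htwo (S.map K.subtype) hS3
  apply hS2.descend
    (S.equivMapOfInjective K.subtype (Subgroup.subtype_injective K)).symm.toMonoidHom
  rw [MonoidHom.range_eq_top.2 (MulEquiv.surjective _)]
  infer_instance

end EssMap
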