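import Mathlib

/-!
# Subgroups of finite index in finitely presented groups
-/

namespace EssMap

theorem finite_of_fg (α : Type) (h : Group.FG (FreeGroup α)) : Finite α := by
  have h1 : Group.FG (Abelianization (FreeGroup α)) :=
    Group.fg_of_surjective (f := Abelianization.of) (QuotientGroup.mk'_surjective _)
  have h2 : AddGroup.FG (FreeAbelianGroup α) :=
    (inferInstance : AddGroup.FG (Additive (Abelianization (FreeGroup α))))
  have h3 : Module.Finite ℤ (FreeAbelianGroup α) := Module.Finite.iff_addGroup_fg.2 h2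
  exact Module.Finite.finite_basis (FreeAbelianGroup.basis α)

theorem fp_sub {Q : Type} [Group Q] (h : Group.IsFinitelyPresented Q) (H : Subgroup Q)
    (hH : H.FiniteIndex) : Group.IsFinitelyPresented H := by
  obtain ⟨n, q, hq, R, hRf, hR⟩ := h.out
  let FH : Subgroup (FreeGroup (Fin n)) := H.comap q
  have hFH : (H.comap q).FiniteIndex := by
    constructor
    rw [Subgroup.index_comap_of_surjective H hq]
    exact hH.index_ne_zero
  have hfg : Group.FG (H.comap q) := inferInstance
  have hfree : IsFreeGroup (H.comap q) := inferInstance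
  let e := IsFreeGroup.toFreeGroup (H.comap q)
  have hfin : Finite (IsFreeGroup.Generators (H.comap q)) := by
    apply finite_of_fg
    exact Group.fg_of_surjective (f := e.toMonoidHom) e.surjective
  have hfp : Group.IsFinitelyPresented (H.comap q) :=
    Group.IsFinitelyPresented.equiv e.symm
  let q' : (H.comap q) →* H := (q.comp (H.comap q).subtype).codRestrict H (fun x => x.2)
  have hq' : Function.Surjective q' := by
    intro x
    obtain ⟨y, hy⟩ := hq x.1
    exact ⟨⟨y, by rw [Subgroup.mem_comap, hy]; exact x.2⟩, Subtype.ext hy⟩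
  refine Group.IsFinitelyPresented.of_surjective q' hq' ?_
  -- the finite set of conjugates
  have hRk : ∀ r ∈ R, q r = 1 := by
    intro r hr
    have h1 : r ∈ q.ker := by
      rw [← hR]
      exact Subgroup.subset_normalClosure hr
    exact h1
  let c : (Quotient (QuotientGroup.rightRel (H.comap q))) → FreeGroup (Fin n) := fun x => x.out
  have hfinq : Finite (Quotient (QuotientGroup.rightRel (H.comap q))) :=
    Finite.of_equiv _ (QuotientGroup.quotientRightRelEquivQuotientLeftRel (H.comap q)).symm
  let S : Set (H.comap q) := {s | ∃ x, ∃ r ∈ R, (s : FreeGroup (Fin n)) = c x * r * (c x)⁻¹}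
  have hSfin : S.Finite := by
    have h1 : ((H.comap q).subtype '' S).Finite := by
      refine ((Set.finite_univ (α := Quotient (QuotientGroup.rightRel (H.comap q)))).prod
        hRf).image (fun y => c y.1 * y.2 * (c y.1)⁻¹) |>.subset ?_
      rintro _ ⟨s, ⟨x, r, hr, hs⟩, rfl⟩
      exact ⟨(x, r), ⟨trivial, hr⟩, hs.symm⟩
    exact Set.Finite.of_finite_image h1 (Subgroup.subtype_injective _).injOn
  refine ⟨S, hSfin, le_antisymm ?_ ?_⟩
  · apply Subgroup.normalClosure_le_normal
    rintro s ⟨x, r, hr, hs⟩
    show q' s = 1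
    apply Subtype.ext
    show q s.1 = 1
    rw [hs, map_mul, map_mul, hRk r hr, map_inv, mul_one, mul_inv_cancel]
  · intro s hs
    have h1 : q s.1 = 1 := congrArg Subtype.val (show q' s = 1 from hs)
    have h2 : (s : FreeGroup (Fin n)) ∈ Subgroup.normalClosure R := by
      rw [hR]
      exact h1
    have h3 : Subgroup.normalClosure R ≤
        (Subgroup.normalClosure S).map (H.comap q).subtype := by
      unfold Subgroup.normalClosure
      rw [Subgroup.closure_le]
      intro y hy
      rw [Group.mem_conjugatesOfSet_iff] at hy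
      obtain ⟨r, hr, hry⟩ := hy
      rw [isConj_iff] at hry
      obtain ⟨g, rfl⟩ := hry
      let x : Quotient (QuotientGroup.rightRel (H.comap q)) := Quotient.mk'' g
      have h4 : g * (c x)⁻¹ ∈ H.comap q := by
        have h5 : Quotient.mk'' (c x) = x := Quotient.out_eq' x
        have h6 := Quotient.exact' h5
        exact QuotientGroup.rightRel_apply.1 h6
      have h7 : c x * r * (c x)⁻¹ ∈ H.comap q := by
        rw [Subgroup.mem_comap, map_mul, map_mul, hRk r hr, map_inv, mul_one, mul_inv_cancel]
        exact H.one_mem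
      let s₀ : H.comap q := ⟨c x * r * (c x)⁻¹, h7⟩
      let u : H.comap q := ⟨g * (c x)⁻¹, h4⟩
      have h8 : s₀ ∈ Subgroup.normalClosure S := Subgroup.subset_normalClosure ⟨x, r, hr, rfl⟩
      have h9 : u * s₀ * u⁻¹ ∈ Subgroup.normalClosure S :=
        Subgroup.normalClosure_normal.conj_mem _ h8 u
      refine ⟨u * s₀ * u⁻¹, h9, ?_⟩
      show g * (c x)⁻¹ * (c x * r * (c x)⁻¹) * (g * (c x)⁻¹)⁻¹ = g * r * g⁻¹
      group
    obtain ⟨s', hs', hs2⟩ := h3 h2
    have h4 : s' = s := Subtype.ext hs2
    rw [← h4]
    exact hs'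

end EssMap
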