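import Pool.Agent.EssMap.Hbf
import Pool.Agent.EssMap.PGr
import Pool.Agent.EssMap.Dim3

/-!
# Two independent homomorphisms on a subgroup of finite index
-/

namespace EssMap

section lzl

variable {ι : Type} {W : Type} [Group W] (c : ι → ℤ)

theorem lz_pot (g : ℤ → W) (w : FreeGroup ι) (κ : ℤ) :
    (lz c (fun i κ => (g κ)⁻¹ * g (κ + c i)) w).v κ = (g κ)⁻¹ * g (κ + (shf c w).toAdd) := by
  induction w using FreeGroup.induction_on generalizing κ with
  | C1 => rw [map_one, map_one, toAdd_one, add_zero, inv_mul_cancel]; rfl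
  | of i =>
    rw [lz_of]
    unfold shf
    rw [FreeGroup.lift_apply_of]
    rfl
  | inv_of i _ =>
    rw [map_inv, lz_of, LX.inv_v, map_inv]
    unfold shf
    rw [FreeGroup.lift_apply_of]
    show ((g (κ - c i))⁻¹ * g (κ - c i + c i))⁻¹ = (g κ)⁻¹ * g (κ + -(c i))
    rw [sub_add_cancel, mul_inv_rev, inv_inv, ← sub_eq_add_neg]
  | mul w w' hw hw' =>
    rw [map_mul, LX.mul_v, hw, hw', lz_i, map_mul, toAdd_mul, ← add_assoc, mul_assoc,
      mul_inv_cancel_left]

theorem lz_hom {A : Type} [Group A] (σ : A →* W) (f : ι → ℤ → A) (w : FreeGroup ι) (κ : ℤ) :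
    (lz c (fun i κ => σ (f i κ)) w).v κ = σ ((lz c f w).v κ) := by
  induction w using FreeGroup.induction_on generalizing κ with
  | C1 => rw [map_one, map_one, LX.one_v, LX.one_v, map_one]
  | of i => rw [lz_of, lz_of]
  | inv_of i _ => rw [map_inv, map_inv, lz_of, lz_of, LX.inv_v, LX.inv_v, map_inv]
  | mul w w' hw hw' => rw [map_mul, map_mul, LX.mul_v, LX.mul_v, hw, hw', lz_i, lz_i, map_mul]

theorem lz_shift (s : ℤ) (f : ι → ℤ → W) (w : FreeGroup ι) (κ : ℤ) :
    (lz c (fun i κ => f i (κ + s)) w).v κ = (lz c f w).v (κ + s) := by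
  induction w using FreeGroup.induction_on generalizing κ with
  | C1 => rw [map_one, map_one]; rfl
  | of i => rw [lz_of, lz_of]
  | inv_of i _ =>
    rw [map_inv, map_inv, lz_of, lz_of, LX.inv_v, LX.inv_v]
    show (f i (κ - c i + s))⁻¹ = (f i (κ + s - c i))⁻¹
    rw [show κ - c i + s = κ + s - c i by ring]
  | mul w w' hw hw' =>
    rw [map_mul, map_mul, LX.mul_v, LX.mul_v, hw, hw', lz_i, lz_i]
    rw [show κ + (shf c w).toAdd + s = κ + s + (shf c w).toAdd by ring]

end lzl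

section

variable {A : Type} [CommGroup A]

/-- The wreath product. -/
abbrev WR (A : Type) [CommGroup A] : Type := LX (Multiplicative ℤ) (Additive A)

/-- The generator of the base. -/
noncomputable def tau (A : Type) [CommGroup A] : WR A := by
  classical
  exact ⟨fun x => Multiplicative.ofAdd (if x = 0 then (1 : ℤ) else 0), 0⟩

open Classical in
theorem tau_v (x : Additive A) : (tau A).v x = Multiplicative.ofAdd (if x = 0 then (1 : ℤ) else 0) :=
  rfl

theorem tau_i : (tau A).i = 0 := rfl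

/-- The top group. -/
def sig (A : Type) [CommGroup A] : A →* WR A where
  toFun a := ⟨fun _ => 1, Additive.ofMul a⟩
  map_one' := rfl
  map_mul' a b := by
    apply LX.ext
    · funext x
      show (1 : Multiplicative ℤ) = 1 * 1
      rw [mul_one]
    · rfl

theorem sig_i (a : A) : (sig A a).i = Additive.ofMul a := rfl

/-- The total A-component. -/
def tot (A : Type) [CommGroup A] : WR A →* A where
  toFun x := x.i.toMul
  map_one' := rfl
  map_mul' _ _ := rfl

theorem tot_tau : tot A (tau A) = 1 := rfl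
theorem tot_sig (a : A) : tot A (sig A a) = a := rfl

theorem conj_tau (x : WR A) : (x * tau A * x⁻¹).i = 0 ∧
    ∀ y, (x * tau A * x⁻¹).v y = (tau A).v (y + x.i) := by
  constructor
  · rw [LX.mul_i, LX.mul_i, LX.inv_i, tau_i, add_zero, add_neg_cancel]
  · intro y
    rw [LX.mul_v, LX.mul_v, LX.inv_v, LX.mul_i, tau_i, add_zero, add_sub_cancel_right,
      mul_comm (x.v y), mul_inv_cancel_right]

end

theorem howie {H : Type} [Group H] {ι : Type} [Finite ι] (q : FreeGroup ι →* H) (o : ι)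
    (χ : H →* Multiplicative ℤ) (ht : χ (q (FreeGroup.of o)) = Multiplicative.ofAdd 1)
    {A : Type} [CommGroup A] [Finite A] (hq : Function.Surjective q) (R : Set (FreeGroup ι))
    (hR : R.Finite) (hRq : Subgroup.normalClosure R = q.ker) (hinf : Infinite (χ.ker →* A)) :
    ∃ (n : ℕ) (S : Subgroup (Hp χ n)), 0 < n ∧ S.FiniteIndex ∧ Two S := by
  classical
  have hRq1 : ∀ r ∈ R, q r = 1 := by
    intro r hr
    have h1 : r ∈ q.ker := by
      rw [← hRq]
      exact Subgroup.subset_normalClosure hr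
    exact h1
  obtain ⟨f, N, hf1, hf2, ⟨i₀, κ₀, hf3⟩, hf4⟩ := fin_supp q o χ ht hq R hR hRq1 hinf
  obtain ⟨L0, hL0⟩ := exists_window_fin (cc q χ) R hR
  obtain ⟨L1, hL1⟩ : ∃ L1 : ℕ, ∀ i, |cc q χ i| ≤ L1 := by
    have : Fintype ι := Fintype.ofFinite ι
    refine ⟨Finset.univ.sup (fun i => (cc q χ i).natAbs), fun i => ?_⟩
    have h1 := Finset.le_sup (f := fun i => (cc q χ i).natAbs) (Finset.mem_univ i)
    rw [← Int.natCast_natAbs]
    exact_mod_cast h1
  let L : ℕ := L0 + L1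
  let h : ℕ := N + 3 * L + 1
  have hh : (h : ℤ) = N + 3 * L + 1 := by
    show ((N + 3 * L + 1 : ℕ) : ℤ) = _
    push_cast
    ring
  have hLc : (L : ℤ) = L0 + L1 := by
    show ((L0 + L1 : ℕ) : ℤ) = _
    push_cast
    ring
  let n : ℕ := 2 * h
  have hn : (n : ℤ) = 2 * h := by
    show ((2 * h : ℕ) : ℤ) = _
    push_cast
    ring
  have hn0 : 0 < n := by omega
  have hnz : (n : ℤ) ≠ 0 := by omega
  let b : ℤ → ℤ := fun κ => (κ + h) / n
  let ρ : ℤ → ℤ := fun κ => (κ + h) % n - h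
  have hbρ : ∀ κ, κ = ρ κ + n * b κ := by
    intro κ
    have h1 := Int.emod_add_mul_ediv (κ + h) n
    show κ = (κ + h) % n - h + n * ((κ + h) / n)
    linarith
  have hρ1 : ∀ κ, -(h : ℤ) ≤ ρ κ := by
    intro κ
    have h1 := Int.emod_nonneg (κ + h) hnz
    show -(h : ℤ) ≤ (κ + h) % n - h
    linarith
  have hρ2 : ∀ κ, ρ κ < h := by
    intro κ
    have h1 := Int.emod_lt_of_pos (κ + h) (show (0 : ℤ) < n by exact_mod_cast hn0)
    show (κ + h) % n - h < h
    linarith
  have hb : ∀ κ j : ℤ, -(h : ℤ) ≤ κ → κ < h → b (κ + n * j) = j ∧ ρ (κ + n * j) = κ := by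
    intro κ j h1 h2
    have h3 := hbρ (κ + n * j)
    have h4 := hρ1 (κ + n * j)
    have h5 := hρ2 (κ + n * j)
    have h6 : b (κ + n * j) = j := by
      by_contra hne
      rcases lt_or_gt_of_ne hne with h7 | h7
      · have h8 : (n : ℤ) * b (κ + n * j) ≤ n * (j - 1) := by
          apply mul_le_mul_of_nonneg_left (by omega) (by omega)
        have h9 : (n : ℤ) * (j - 1) = n * j - n := by ring
        linarith
      · have h8 : (n : ℤ) * (j + 1) ≤ n * b (κ + n * j) := by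
          apply mul_le_mul_of_nonneg_left (by omega) (by omega)
        have h9 : (n : ℤ) * (j + 1) = n * j + n := by ring
        linarith
    refine ⟨h6, ?_⟩
    rw [h6] at h3
    linarith
  have hbn : ∀ κ, b (κ + n) = b κ + 1 ∧ ρ (κ + n) = ρ κ := by
    intro κ
    have h1 := hb (ρ κ) (b κ + 1) (hρ1 κ) (hρ2 κ)
    have h2 : ρ κ + n * (b κ + 1) = κ + n := by
      have := hbρ κ
      linarith
    rw [h2] at h1
    exact h1
  let F : ι → ℤ → WR A := fun i κ =>
    ((tau A) ^ b κ)⁻¹ * (tau A) ^ b (κ + cc q χ i) * sig A (f i (ρ κ))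
  have hFn : ∀ i κ, F i (κ + n) = F i κ := by
    intro i κ
    show ((tau A) ^ b (κ + n))⁻¹ * (tau A) ^ b (κ + n + cc q χ i) * sig A (f i (ρ (κ + n))) =
      ((tau A) ^ b κ)⁻¹ * (tau A) ^ b (κ + cc q χ i) * sig A (f i (ρ κ))
    rw [(hbn κ).1, (hbn κ).2, show κ + n + cc q χ i = κ + cc q χ i + n by ring, (hbn _).1,
      zpow_add, zpow_add, zpow_one, mul_inv_rev, mul_assoc (_)⁻¹ ((tau A ^ b κ)⁻¹)]
    congr 1
    have h1 : (tau A)⁻¹ * ((tau A ^ b κ)⁻¹ * (tau A ^ b (κ + cc q χ i) * tau A)) =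
        (tau A ^ b κ)⁻¹ * tau A ^ b (κ + cc q χ i) := by
      group
    exact h1
  have hrel : ∀ r ∈ R, lz (cc q χ) F r = 1 := by
    intro r hr
    have hs : (shf (cc q χ) r).toAdd = 0 := by
      rw [shf_cc, hRq1 r hr, map_one, toAdd_one]
    apply LX.ext
    · funext κ
      rw [LX.one_v]
      by_cases hκ : |ρ κ| ≤ N + L
      · -- the middle region
        have hloc := hL0 r hr (WR A) F (fun i κ' => sig A (f i (κ' + (-(n * b κ))))) κ
          (fun i κ' hκ' => by
            have h1 := hbρ κ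
            have h2 := abs_le.1 hκ'
            have h3 := abs_le.1 hκ
            have h4 := abs_le.1 (hL1 i)
            have h5 := hb (κ' + (-(n * b κ))) (b κ) (by linarith [h2.1, h3.1, h4.1])
              (by linarith [h2.2, h3.2, h4.2])
            have h6 := hb (κ' + cc q χ i + (-(n * b κ))) (b κ) (by linarith [h2.1, h3.1, h4.1])
              (by linarith [h2.2, h3.2, h4.2])
            rw [neg_add_cancel_right] at h5 h6
            show ((tau A) ^ b κ')⁻¹ * (tau A) ^ b (κ' + cc q χ i) * sig A (f i (ρ κ')) = _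
            rw [h5.1, h5.2, h6.1, inv_mul_cancel, one_mul])
        rw [hloc, lz_hom (cc q χ) (sig A) (fun i κ' => f i (κ' + (-(n * b κ)))) r κ,
          lz_shift, hf4 r hr, map_one]
      · -- near the walls
        have hloc := hL0 r hr (WR A) F
          (fun i κ' => ((tau A) ^ b κ')⁻¹ * (tau A) ^ b (κ' + cc q χ i)) κ
          (fun i κ' hκ' => by
            have h1 : f i (ρ κ') = 1 := by
              apply hf1
              by_contra hcon
              push Not at hcon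
              apply hκ
              have h2 := abs_le.1 hκ'
              have h3 := abs_le.1 hcon
              have h4 := hbρ κ'
              have h5 := hb (ρ κ' + (κ - κ')) (b κ') (by linarith [h2.1, h3.1])
                (by linarith [h2.2, h3.2])
              have h6 : ρ κ' + (κ - κ') + n * b κ' = κ := by linarith
              rw [h6] at h5
              rw [h5.2, abs_le]
              constructor
              · linarith [h2.2, h3.1]
              · linarith [h2.1, h3.2]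
            show ((tau A) ^ b κ')⁻¹ * (tau A) ^ b (κ' + cc q χ i) * sig A (f i (ρ κ')) = _
            rw [h1, map_one, mul_one])
        rw [hloc, lz_pot (cc q χ) (fun κ => (tau A) ^ b κ) r κ, hs, add_zero, inv_mul_cancel]
    · rw [lz_i, hs]
      rfl
  have hker : q.ker ≤ (lz (cc q χ) F).ker := by
    rw [← hRq]
    apply Subgroup.normalClosure_le_normal
    intro r hr
    exact hrel r hr
  let Z : H →* LX (WR A) ℤ := q.liftOfSurjective hq ⟨lz (cc q χ) F, hker⟩
  have hZ : ∀ w, Z (q w) = lz (cc q χ) F w := fun w =>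
    MonoidHom.liftOfRightInverse_comp_apply q _ _ ⟨lz (cc q χ) F, hker⟩ w
  have hZi : ∀ g, (Z g).i = (χ g).toAdd := by
    intro g
    obtain ⟨w, rfl⟩ := hq g
    rw [hZ, lz_i, shf_cc]
  have hper1 : ∀ g κ, (Z g).v (κ + n) = (Z g).v κ := by
    intro g κ
    obtain ⟨w, rfl⟩ := hq g
    rw [hZ, ← lz_shift (cc q χ) (n : ℤ) F w κ]
    have h1 : (fun i κ => F i (κ + n)) = F := by
      funext i κ
      exact hFn i κ
    rw [h1]
  have hper : ∀ g κ (m : ℤ), (Z g).v (κ + n * m) = (Z g).v κ := by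
    intro g κ m
    induction m using Int.induction_on with
    | zero => rw [mul_zero, add_zero]
    | succ k ih => rw [mul_add, mul_one, ← add_assoc, hper1, ih]
    | pred k ih =>
      rw [← ih, ← hper1 g (κ + n * (-(k : ℤ) - 1))]
      congr 1
      ring
  -- the homomorphism to the wreath product
  let Θ : Hp χ n →* WR A := MonoidHom.mk' (fun g => (Z g.1).v 0) (by
    intro g g'
    show (Z (g.1 * g'.1)).v 0 = (Z g.1).v 0 * (Z g'.1).v 0
    rw [map_mul, LX.mul_v, hZi]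
    obtain ⟨m, hm⟩ := (mem_Hp χ n g.1).1 g.2
    rw [hm, hper])
  have hΘ : ∀ g : Hp χ n, Θ g = (Z g.1).v 0 := fun _ => rfl
  let S : Subgroup (Hp χ n) := ((tot A).comp Θ).ker
  have hS : S.FiniteIndex := inferInstance
  have hmem : ∀ g : Hp χ n, g ∈ S ↔ (Θ g).i = 0 := by
    intro g
    show tot A (Θ g) = 1 ↔ _
    exact Iff.rfl
  refine ⟨n, S, hn0, hS, ?_⟩
  let wx : Additive A → (S →* Multiplicative ℤ) := fun x =>
    MonoidHom.mk' (fun g => (Θ g.1).v x) (by
      intro g g'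
      show (Θ (g.1 * g'.1)).v x = (Θ g.1).v x * (Θ g'.1).v x
      rw [map_mul, LX.mul_v, (hmem g.1).1 g.2, add_zero])
  -- powers of t
  have hZt : Z (q (FreeGroup.of o)) = ⟨fun κ => ((tau A) ^ b κ)⁻¹ * (tau A) ^ b (κ + 1), 1⟩ := by
    rw [hZ, lz_of]
    have h1 : cc q χ o = 1 := by
      unfold cc
      rw [ht, toAdd_ofAdd]
    apply LX.ext
    · funext κ
      show ((tau A) ^ b κ)⁻¹ * (tau A) ^ b (κ + cc q χ o) * sig A (f o (ρ κ)) = _
      rw [h1, hf2, map_one, mul_one]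
    · exact h1
  have hZtn : ∀ (j : ℕ) κ, (Z (q (FreeGroup.of o) ^ j)).v κ =
      ((tau A) ^ b κ)⁻¹ * (tau A) ^ b (κ + j) := by
    intro j
    induction j with
    | zero =>
      intro κ
      rw [pow_zero, map_one, Nat.cast_zero, add_zero, inv_mul_cancel]
      rfl
    | succ j ih =>
      intro κ
      have h1 : (χ (q (FreeGroup.of o) ^ j)).toAdd = j := by
        rw [map_pow, ht, toAdd_pow, toAdd_ofAdd, nsmul_eq_mul, mul_one]
      rw [pow_succ, map_mul, LX.mul_v, ih, hZi, h1, hZt]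
      show ((tau A) ^ b κ)⁻¹ * (tau A) ^ b (κ + j) *
        (((tau A) ^ b (κ + j))⁻¹ * (tau A) ^ b (κ + j + 1)) = _
      rw [Nat.cast_succ, ← add_assoc]
      group
  have hT0 : q (FreeGroup.of o) ^ n ∈ Hp χ n := by
    rw [mem_Hp, map_pow, ht, toAdd_pow, toAdd_ofAdd, nsmul_eq_mul, mul_one]
  let T0 : Hp χ n := ⟨q (FreeGroup.of o) ^ n, hT0⟩
  have hΘT0 : Θ T0 = tau A := by
    rw [hΘ]
    show (Z (q (FreeGroup.of o) ^ n)).v 0 = _
    rw [hZtn, (hbn 0).1, zpow_add, zpow_one, ← mul_assoc, inv_mul_cancel, one_mul]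
  -- the A-component
  let α : H → ℤ → A := fun g κ => tot A ((Z g).v κ)
  have hα : ∀ g g' κ, α (g * g') κ = α g κ * α g' (κ + (χ g).toAdd) := by
    intro g g' κ
    show tot A ((Z (g * g')).v κ) = tot A ((Z g).v κ) * tot A ((Z g').v (κ + (χ g).toAdd))
    rw [map_mul, LX.mul_v, hZi, map_mul]
  have hα1 : ∀ κ, α 1 κ = 1 := by
    intro κ
    show tot A ((Z 1).v κ) = 1
    rw [map_one, LX.one_v, map_one]
  have hαt : ∀ (m : ℤ) κ, α (q (FreeGroup.of o) ^ m) κ = 1 := by
    have hnat : ∀ (m : ℕ) κ, α (q (FreeGroup.of o) ^ m) κ = 1 := by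
      intro m κ
      show tot A ((Z (q (FreeGroup.of o) ^ m)).v κ) = 1
      rw [hZtn, map_mul, map_inv, map_zpow, map_zpow, tot_tau, one_zpow, one_zpow, inv_one,
        one_mul]
    intro m κ
    rcases Int.eq_nat_or_neg m with ⟨k, rfl | rfl⟩
    · rw [zpow_natCast]
      exact hnat k κ
    · have h1 := hα (q (FreeGroup.of o) ^ (-(k : ℤ))) (q (FreeGroup.of o) ^ k) κ
      rw [← zpow_natCast, ← zpow_add, neg_add_cancel, zpow_zero, hα1, zpow_natCast, hnat,
        mul_one] at h1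
      exact h1.symm
  let x0 : H := q (FreeGroup.of o) ^ κ₀ * q (FreeGroup.of i₀) *
    (q (FreeGroup.of o) ^ (κ₀ + (χ (q (FreeGroup.of i₀))).toAdd))⁻¹
  have hx0 : χ x0 = 1 := (MonoidHom.mem_ker).1 (mem_kk q o χ ht κ₀ (q (FreeGroup.of i₀)))
  have hx0m : x0 ∈ Hp χ n := by
    rw [mem_Hp, hx0, toAdd_one]
    exact dvd_zero _
  let X0 : Hp χ n := ⟨x0, hx0m⟩
  have hκ₀ : |κ₀| ≤ N := by
    by_contra hcon
    exact hf3 (hf1 i₀ κ₀ (not_le.1 hcon))
  have hρκ : ρ κ₀ = κ₀ := by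
    have h1 := abs_le.1 hκ₀
    have h2 := hb κ₀ 0 (by linarith [h1.1]) (by linarith [h1.2])
    rw [mul_zero, add_zero] at h2
    exact h2.2
  have hαx : α x0 0 = f i₀ κ₀ := by
    show α (q (FreeGroup.of o) ^ κ₀ * q (FreeGroup.of i₀) *
      (q (FreeGroup.of o) ^ (κ₀ + (χ (q (FreeGroup.of i₀))).toAdd))⁻¹) 0 = _
    rw [hα, hα, hαt, ← zpow_neg, hαt, mul_one, one_mul]
    show tot A ((Z (q (FreeGroup.of i₀))).v (0 + (χ (q (FreeGroup.of o) ^ κ₀)).toAdd)) = _
    rw [map_zpow, ht, toAdd_zpow, toAdd_ofAdd, smul_eq_mul, mul_one, zero_add, hZ, lz_of]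
    show tot A (((tau A) ^ b κ₀)⁻¹ * (tau A) ^ b (κ₀ + cc q χ i₀) * sig A (f i₀ (ρ κ₀))) = _
    rw [map_mul, map_mul, map_inv, map_zpow, map_zpow, tot_tau, one_zpow, one_zpow, inv_one,
      one_mul, one_mul, tot_sig, hρκ]
  let a0 : Additive A := (Θ X0).i
  have ha0 : a0 ≠ 0 := by
    intro h0
    apply hf3
    rw [← hαx]
    exact h0
  have hT0S : T0 ∈ S := by
    rw [hmem, hΘT0]
    rfl
  have hconj : Θ (X0 * T0 * X0⁻¹) = Θ X0 * tau A * (Θ X0)⁻¹ := by
    rw [map_mul, map_mul, map_inv, hΘT0]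
  have hT1S : X0 * T0 * X0⁻¹ ∈ S := by
    rw [hmem, hconj]
    exact (conj_tau (Θ X0)).1
  refine ⟨wx 0, wx (-a0), fun m k hmk => ?_⟩
  have h1 := hmk ⟨T0, hT0S⟩
  have h2 := hmk ⟨X0 * T0 * X0⁻¹, hT1S⟩
  have e1 : (wx 0 ⟨T0, hT0S⟩).toAdd = 1 := by
    show ((Θ T0).v 0).toAdd = 1
    rw [hΘT0, tau_v, if_pos rfl, toAdd_ofAdd]
  have e2 : (wx (-a0) ⟨T0, hT0S⟩).toAdd = 0 := by
    show ((Θ T0).v (-a0)).toAdd = 0
    rw [hΘT0, tau_v, if_neg (neg_ne_zero.2 ha0), toAdd_ofAdd]
  have e3 : (wx 0 ⟨X0 * T0 * X0⁻¹, hT1S⟩).toAdd = 0 := by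
    show ((Θ (X0 * T0 * X0⁻¹)).v 0).toAdd = 0
    rw [hconj, (conj_tau (Θ X0)).2, zero_add, tau_v, if_neg ha0, toAdd_ofAdd]
  have e4 : (wx (-a0) ⟨X0 * T0 * X0⁻¹, hT1S⟩).toAdd = 1 := by
    show ((Θ (X0 * T0 * X0⁻¹)).v (-a0)).toAdd = 1
    rw [hconj, (conj_tau (Θ X0)).2, neg_add_cancel, tau_v, if_pos rfl, toAdd_ofAdd]
  rw [e1, e2, mul_one, mul_zero, add_zero] at h1
  rw [e3, e4, mul_one, mul_zero, zero_add] at h2
  exact ⟨h1, h2⟩

end EssMap
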