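import Pool.Agent.EssMap.KAb
import Pool.Agent.EssMap.Hbt
import Pool.Agent.EssMap.FPs
import Pool.Agent.EssMap.DimT

/-!
# Dimension three, the homology criterion
-/

open CategoryTheory groupCohomology

namespace EssMap

/-- No subgroup of finite index has two independent homomorphisms to the integers. -/
def NTwo (G : Type) [Group G] : Prop :=
  ∀ (X : Type) [Group X] (j : X →* G), Function.Injective j → j.range.FiniteIndex → ¬ Two X

/-- The kernels of homomorphisms of subgroups of finite index to the integers have no rational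
homomorphisms. -/
def NoF (G : Type) [Group G] : Prop :=
  ∀ (X : Type) [Group X] (j : X →* G), Function.Injective j → j.range.FiniteIndex →
    ∀ (a : X →* Multiplicative ℤ), a ≠ 1 → ∀ f : a.ker →* Multiplicative ℚ, f = 1

theorem NTwo.comp {A B : Type} [Group A] [Group B] (i : A →* B) (hi : Function.Injective i)
    (hi2 : i.range.FiniteIndex) (h : NTwo B) : NTwo A := by
  intro X _ j hj hj2
  exact h X (i.comp j) (hi.comp hj) (range_comp_fin j i hi hj2 hi2)

theorem NoF.comp {A B : Type} [Group A] [Group B] (i : A →* B) (hi : Function.Injective i)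
    (hi2 : i.range.FiniteIndex) (h : NoF B) : NoF A := by
  intro X _ j hj hj2
  exact h X (i.comp j) (hi.comp hj) (range_comp_fin j i hi hj2 hi2)

theorem range_sub {G : Type} [Group G] (S : Subgroup G) (hS : S.FiniteIndex) :
    S.subtype.range.FiniteIndex := by
  rw [Subgroup.range_subtype]
  exact hS

theorem mem_comm_of {A B : Type} [Group A] [Group B] (ι : A →* B) (ι' : B →* A)
    (h : ∀ x, ι' (ι x) = x) (x : A) (hx : ι x ∈ commutator B) : x ∈ commutator A := by
  have h1 : (Abelianization.of.comp ι') (ι x) = 1 := Abelianization.commutator_subset_ker _ hx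
  rw [MonoidHom.comp_apply, h] at h1
  exact (QuotientGroup.eq_one_iff _).1 h1

theorem core3 {G : Type} [Group G] (hG : Dual 3 G) (hfp : Group.IsFinitelyPresented G)
    (ho : Ori 3 G = ⊤) (h2 : NTwo G) (hF : NoF G) (a : G →* Multiplicative ℤ) (t : G)
    (ht : a t = Multiplicative.ofAdd 1) (w : a.ker) (hw : w ∉ commutator a.ker) : False := by
  have := hG.fg
  have ha1 : a ≠ 1 := by
    rintro rfl
    have h1 : (0 : ℤ) = 1 := Multiplicative.ofAdd.injective ht
    omega
  have hid : (MonoidHom.id G).range.FiniteIndex := by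
    rw [MonoidHom.range_eq_top.2 Function.surjective_id]
    infer_instance
  obtain ⟨e, he, hK⟩ := exists_exp a t ht (hF G (MonoidHom.id G) Function.injective_id hid a ha1)
  have hne : NeZero e := ⟨he.ne'⟩
  obtain ⟨v, hv⟩ := exists_charE (Abelianization.of (G := a.ker)) e he (fun x => by
      rw [← map_pow]
      exact (QuotientGroup.eq_one_iff _).2 (hK x)) w
    (fun h => hw ((QuotientGroup.eq_one_iff _).1 h))
  by_cases hfin : Finite (a.ker →* Multiplicative (ZMod e))
  · obtain ⟨m, hm, hfix⟩ := exists_pow_fix a t hfin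
    have hm0 : (m : ℤ) ≠ 0 := by exact_mod_cast hm.ne'
    have hHf := Hp_fin a m hm
    have hdiv : ∀ x : Hp a m, ∃ k : ℤ, (m : ℤ) * k = (a x).toAdd := by
      intro x
      obtain ⟨k, hk⟩ := (mem_Hp a m x.1).1 x.2
      exact ⟨k, hk.symm⟩
    choose k hk using hdiv
    let a' : Hp a m →* Multiplicative ℤ := MonoidHom.mk' (fun x => Multiplicative.ofAdd (k x))
      (fun x y => by
        rw [← ofAdd_add]
        congr 1
        apply mul_left_cancel₀ hm0
        rw [mul_add, hk, hk, hk, ← toAdd_mul, ← map_mul a]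
        rfl)
    have ha' : ∀ x : Hp a m, a' x = 1 ↔ a x = 1 := by
      intro x
      constructor
      · intro h
        have h1 : k x = 0 := Multiplicative.ofAdd.injective h
        apply Multiplicative.toAdd.injective
        rw [← hk, h1, mul_zero, toAdd_one]
      · intro h
        have h1 := hk x
        rw [h, toAdd_one] at h1
        rcases mul_eq_zero.1 h1 with h3 | h3
        · exact absurd h3 hm0
        · show Multiplicative.ofAdd (k x) = 1
          rw [h3]
          rfl
    have htm : t ^ m ∈ Hp a m := by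
      rw [mem_Hp, map_pow a, ht, toAdd_pow]
      show (m : ℤ) ∣ m • (1 : ℤ)
      rw [nsmul_eq_mul, mul_one]
    have hKm : ∀ x ∈ a.ker, x ∈ Hp a m := by
      intro x hx
      have hx2 : a x = 1 := hx
      rw [mem_Hp, hx2, toAdd_one]
      exact dvd_zero _
    have ht' : a' ⟨t ^ m, htm⟩ = Multiplicative.ofAdd 1 := by
      show Multiplicative.ofAdd (k ⟨t ^ m, htm⟩) = _
      congr 1
      apply mul_left_cancel₀ hm0
      rw [hk]
      show (a (t ^ m)).toAdd = _
      rw [map_pow a, ht, toAdd_pow, mul_one]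
      show m • (1 : ℤ) = m
      rw [nsmul_eq_mul, mul_one]
    let ι : a'.ker →* a.ker := MonoidHom.mk' (fun x => ⟨((x : Hp a m) : G), (ha' x.1).1 x.2⟩)
      (fun x y => rfl)
    let ι' : a.ker →* a'.ker := MonoidHom.mk'
      (fun x => ⟨⟨x.1, hKm x.1 x.2⟩, (ha' _).2 x.2⟩) (fun x y => rfl)
    refine link (hG.sub (Hp a m)) (ori_top (Hp a m) 3 hG.cd (by rw [ho]; exact le_top)) a'
      ⟨t ^ m, htm⟩ ht' e he ?_ ?_ (v.comp ι) (ι' w) hv
    · intro x
      apply mem_comm_of ι ι' (fun _ => rfl)
      rw [map_pow]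
      exact hK _
    · intro v' x y hxy
      exact hfix (v'.comp ι') (ι x) (ι y) (congrArg Subtype.val hxy)
  · have hinf := not_finite_iff_infinite.1 hfin
    obtain ⟨ι, hι, q, o, R, hq, hqo, hR, hRq⟩ := exists_pres hfp t
    obtain ⟨n, S, hn, hS, hS2⟩ := howie q o a (by rw [hqo]; exact ht) hq R hR hRq hinf
    have hHf := Hp_fin a n hn
    exact h2 S ((Hp a n).subtype.comp S.subtype)
      ((Subgroup.subtype_injective _).comp (Subgroup.subtype_injective _))
      (range_comp_fin _ _ (Subgroup.subtype_injective _) (range_sub S hS)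
        (range_sub (Hp a n) hHf)) hS2

theorem zpowers_char {K B : Type} [Group K] [Group B] (y : B) (ρ : K →* B)
    (hρ : ∀ x, ρ x ∈ Subgroup.zpowers y) (w : K) (hw : ρ w ≠ 1) : w ∉ commutator K := by
  intro h
  have hcomm : ∀ b c : Subgroup.zpowers y, b * c = c * b := by
    rintro ⟨_, m, rfl⟩ ⟨_, n, rfl⟩
    apply Subtype.ext
    exact (Commute.refl y).zpow_zpow m n
  let inst : CommGroup (Subgroup.zpowers y) := { (inferInstance : Group (Subgroup.zpowers y)) with
    mul_comm := hcomm }
  let ρ' : K →* Subgroup.zpowers y := ρ.codRestrict _ hρ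
  have h1 : ρ' w = 1 := Abelianization.commutator_subset_ker (A := Subgroup.zpowers y) ρ' h
  exact hw (congrArg Subtype.val h1)

/-- The main theorem in dimension three. -/
theorem dim_three_full {Q : Type} [Group Q] (hQ : Dual 3 Q)
    (hfp : Group.IsFinitelyPresented Q) (φ : Q →* Q)
    (hinj : Function.Injective φ) (hfin : φ.range.FiniteIndex)
    (hcap : ∀ q : Q, (∀ k : ℕ, q ∈ Set.range (φ^[k])) → q = 1)
    (G : Subgroup Q) (hG : G.FiniteIndex) (hφ : ∀ x ∈ G, φ x ∈ G)
    (hns : ∃ c : G →* Multiplicative ℤ, ∀ e : G →* Multiplicative ℤ,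
      ∃ g : G, e ⟨φ g, hφ g g.2⟩ ≠ c g) :
    ∃ N : Subgroup Q, N.FiniteIndex ∧ Group.IsNilpotent N := by
  by_contra hno
  have hfg := hQ.fg
  have h2 : NTwo Q := by
    intro X _ j hj hjf hX
    apply hno
    apply dim_three hQ φ hinj hfin hcap G hG hφ hns j.range hjf
    apply hX.descend (MonoidHom.ofInjective hj).symm.toMonoidHom
    rw [MonoidHom.range_eq_top.2 (MulEquiv.surjective _)]
    infer_instance
  have hF : NoF Q := by
    intro X _ j hj hjf a ha f
    by_contra hf
    apply hno
    let ε : X ≃* j.range := MonoidHom.ofInjective hj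
    let a' : j.range →* Multiplicative ℤ := a.comp ε.symm.toMonoidHom
    have ha' : a' ≠ 1 := by
      intro h
      apply ha
      ext x
      have h1 := DFunLike.congr_fun h (ε x)
      have h3 : a (ε.symm (ε x)) = 1 := h1
      rw [ε.symm_apply_apply] at h3
      exact h3
    let f' : a'.ker →* Multiplicative ℚ := f.comp (MonoidHom.mk'
      (fun x => (⟨ε.symm x.1, x.2⟩ : a.ker)) (fun x y => Subtype.ext (map_mul ε.symm _ _)))
    apply dim_three_final hQ φ hinj hfin hcap G hG hφ hns j.range hjf a' ha' f'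
    intro h
    apply hf
    ext x
    have hx : a' (ε x.1) = 1 := by
      show a (ε.symm (ε x.1)) = 1
      rw [ε.symm_apply_apply]
      exact x.2
    have h1 := DFunLike.congr_fun h ⟨ε x.1, hx⟩
    have h3 : f ⟨ε.symm (ε x.1), hx⟩ = 1 := h1
    have h4 : (⟨ε.symm (ε x.1), hx⟩ : a.ker) = x := Subtype.ext (ε.symm_apply_apply x.1)
    rw [h4] at h3
    exact h3
  obtain ⟨H, hH1, hH2, hH3, hH4⟩ := reduce hQ φ G hG
  obtain ⟨a, t, p, ht, hp, -⟩ := setup hfg φ hinj hfin G hG hφ hns H hH1 hH2 hH3
  by_cases hker : ∀ x : H, a x = 1 → x = 1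
  · apply hno
    have hcomm : ∀ x y : H, x * y = y * x := by
      intro x y
      rw [← commutatorElement_eq_one_iff_mul_comm]
      apply hker
      rw [map_commutatorElement, commutatorElement_eq_one_iff_mul_comm, mul_comm]
    let inst : CommGroup H := { (inferInstance : Group H) with mul_comm := hcomm }
    exact ⟨H, hH1, CommGroup.isNilpotent⟩
  push Not at hker
  obtain ⟨x, hx, hx1⟩ := hker
  obtain ⟨k, hk⟩ : ∃ k : ℕ, (x : Q) ∉ Set.range (φ^[k]) := by
    by_contra hcon
    push Not at hcon
    exact hx1 (Subtype.ext (hcap x hcon))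
  have hr := itr_range_finiteIndex hinj hfin k
  let L : Subgroup H := ((itr φ k).range.subgroupOf H).normalCore
  have hL : L.FiniteIndex := inferInstanceAs
    (((itr φ k).range.subgroupOf H).normalCore).FiniteIndex
  have hLn : L.Normal := Subgroup.normalCore_normal _
  have hxL : x ∉ L := by
    intro h
    have h1 : x ∈ (itr φ k).range.subgroupOf H := Subgroup.normalCore_le _ h
    rw [Subgroup.mem_subgroupOf] at h1
    obtain ⟨y, hy⟩ := h1
    exact hk ⟨y, by rw [← itr_eq_iterate, hy]⟩
  let y : H ⧸ L := QuotientGroup.mk' L x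
  let H₀ : Subgroup H := (Subgroup.zpowers y).comap (QuotientGroup.mk' L)
  have hxH : x ∈ H₀ := Subgroup.mem_zpowers y
  have hLH : L ≤ H₀ := by
    intro z hz
    have h1 : QuotientGroup.mk' L z = 1 := (QuotientGroup.eq_one_iff z).2 hz
    show QuotientGroup.mk' L z ∈ Subgroup.zpowers y
    rw [h1]
    exact (Subgroup.zpowers y).one_mem
  have hH0 : H₀.FiniteIndex := Subgroup.finiteIndex_of_le hLH
  have hne : a.comp H₀.subtype ≠ 1 := by
    intro h
    obtain ⟨n, hn, -, htn⟩ := Subgroup.exists_pow_mem_of_index_ne_zero hH0.index_ne_zero t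
    have h1 := DFunLike.congr_fun h ⟨t ^ n, htn⟩
    have h3 : a (t ^ n) = 1 := h1
    have h4 := congrArg Multiplicative.toAdd h3
    rw [map_pow a, toAdd_pow, ht, toAdd_one, nsmul_eq_mul, mul_one] at h4
    exact hn.ne' (by exact_mod_cast h4)
  obtain ⟨a₀, t₀, r, hr0, ht₀, har⟩ := exists_norm (a.comp H₀.subtype) hne
  have hx0 : a₀ ⟨x, hxH⟩ = 1 := by
    have h1 := har ⟨x, hxH⟩
    have h3 : (a x).toAdd = r * (a₀ ⟨x, hxH⟩).toAdd := h1
    rw [hx, toAdd_one] at h3
    rcases mul_eq_zero.1 h3.symm with h4 | h4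
    · exact absurd h4 hr0
    · exact Multiplicative.toAdd.injective h4
  have hHd := hQ.sub H
  have hinc : (H.subtype.comp H₀.subtype).range.FiniteIndex :=
    range_comp_fin _ _ (Subgroup.subtype_injective _) (range_sub H₀ hH0) (range_sub H hH1)
  have hinj2 : Function.Injective (H.subtype.comp H₀.subtype) :=
    (Subgroup.subtype_injective _).comp (Subgroup.subtype_injective _)
  refine core3 (hHd.sub H₀) (fp_sub (fp_sub hfp H hH1) H₀ hH0)
    (ori_top H₀ 3 hHd.cd (by rw [hH4]; exact le_top)) (h2.comp _ hinj2 hinc)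
    (hF.comp _ hinj2 hinc) a₀ t₀ ht₀ ⟨⟨x, hxH⟩, hx0⟩ ?_
  apply zpowers_char y ((QuotientGroup.mk' L).comp (H₀.subtype.comp a₀.ker.subtype))
    (fun z => z.1.2)
  intro h
  exact hxL ((QuotientGroup.eq_one_iff x).1 h)

end EssMap
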