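import Pool.Agent.EssMap.Modl

/-!
# Functions on the kernel and the action of a lift of the generator
-/

namespace EssMap

variable {G : Type} [Group G] (a : G →* Multiplicative ℤ)

/-- Complex functions which are additive on the kernel of `a` and vanish outside. -/
def VK : Submodule ℂ (G → ℂ) where
  carrier := {f | (∀ x y, a x = 1 → a y = 1 → f (x * y) = f x + f y) ∧ ∀ x, a x ≠ 1 → f x = 0}
  zero_mem' := ⟨fun x y _ _ => by simp, fun x _ => rfl⟩
  add_mem' := by
    rintro f g ⟨hf, hf'⟩ ⟨hg, hg'⟩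
    refine ⟨fun x y hx hy => ?_, fun x hx => ?_⟩
    · rw [Pi.add_apply, Pi.add_apply, Pi.add_apply, hf x y hx hy, hg x y hx hy]
      ring
    · rw [Pi.add_apply, hf' x hx, hg' x hx, add_zero]
  smul_mem' := by
    rintro c f ⟨hf, hf'⟩
    refine ⟨fun x y hx hy => ?_, fun x hx => ?_⟩
    · rw [Pi.smul_apply, Pi.smul_apply, Pi.smul_apply, hf x y hx hy, smul_add]
    · rw [Pi.smul_apply, hf' x hx, smul_zero]

theorem a_conj (t g : G) : a (t * g * t⁻¹) = a g := by
  rw [map_mul, map_mul, map_inv, mul_comm (a t), mul_inv_cancel_right]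

/-- The action of an element by conjugation. -/
def TT (t : G) : VK a →ₗ[ℂ] VK a where
  toFun f := ⟨fun g => f.1 (t * g * t⁻¹), fun x y hx hy => by
    show f.1 (t * (x * y) * t⁻¹) = f.1 (t * x * t⁻¹) + f.1 (t * y * t⁻¹)
    rw [← f.2.1 _ _ (by rw [a_conj, hx]) (by rw [a_conj, hy])]
    congr 1
    group, fun x hx => by
    show f.1 (t * x * t⁻¹) = 0
    exact f.2.2 _ (by rw [a_conj]; exact hx)⟩
  map_add' _ _ := rfl
  map_smul' _ _ := rfl

theorem TT_pow (t : G) (n : ℕ) (f : VK a) (g : G) :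
    ((TT a t ^ n) f).1 g = f.1 (t ^ n * g * (t ^ n)⁻¹) := by
  induction n generalizing g with
  | zero => rw [pow_zero, pow_zero, one_mul, inv_one, mul_one]; rfl
  | succ n ih =>
    rw [pow_succ' (TT a t) n]
    show ((TT a t ^ n) f).1 (t * g * t⁻¹) = _
    rw [ih]
    congr 1
    rw [pow_succ]
    group

theorem VK_one (f : VK a) : f.1 1 = 0 := by
  have h := f.2.1 1 1 (map_one a) (map_one a)
  rw [mul_one] at h
  exact left_eq_add.1 h

/-- The cocycle of sequences. -/
noncomputable def zf (t : G) (ht : (a t).toAdd = 1) (f : VK a) : G →* AG LL SQ tL :=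
  MonoidHom.mk' (fun g => ⟨fun k : ℤ => f.1 (t ^ k * g * t ^ (-(a g).toAdd - k)), (a g).toAdd⟩) (by
    have hat : ∀ k : ℤ, a (t ^ k) = Multiplicative.ofAdd k := by
      intro k
      apply Multiplicative.toAdd.injective
      rw [map_zpow, toAdd_zpow, ht, smul_eq_mul, mul_one, toAdd_ofAdd]
    have hk : ∀ (g : G) (k : ℤ), a (t ^ k * g * t ^ (-(a g).toAdd - k)) = 1 := by
      intro g k
      apply Multiplicative.toAdd.injective
      rw [map_mul a, map_mul a, hat, hat, toAdd_mul, toAdd_mul, toAdd_ofAdd, toAdd_ofAdd,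
        toAdd_one]
      ring
    intro x y
    apply AG.ext
    · rw [AG.mul_v, AG.mk_v, AG.mk_v, AG.mk_v, AG.mk_i, tL_smul]
      funext k
      show f.1 (t ^ k * (x * y) * t ^ (-(a (x * y)).toAdd - k)) =
        f.1 (t ^ k * x * t ^ (-(a x).toAdd - k)) +
        f.1 (t ^ (k + (a x).toAdd) * y * t ^ (-(a y).toAdd - (k + (a x).toAdd)))
      rw [← f.2.1 _ _ (hk x k) (hk y _)]
      congr 1
      have h1 : t ^ k * x * t ^ (-(a x).toAdd - k) *
          (t ^ (k + (a x).toAdd) * y * t ^ (-(a y).toAdd - (k + (a x).toAdd))) =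
          t ^ k * x * (t ^ (-(a x).toAdd - k) * t ^ (k + (a x).toAdd)) * y *
            t ^ (-(a y).toAdd - (k + (a x).toAdd)) := by
        simp only [mul_assoc]
      rw [h1, ← zpow_add]
      have h2 : -(a x).toAdd - k + (k + (a x).toAdd) = 0 := by ring
      have h3 : -(a (x * y)).toAdd - k = -(a y).toAdd - (k + (a x).toAdd) := by
        rw [map_mul, toAdd_mul]
        ring
      rw [h2, h3, zpow_zero, mul_one]
      simp only [mul_assoc]
    · rw [AG.mul_i, AG.mk_i, AG.mk_i, AG.mk_i, map_mul, toAdd_mul])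

theorem zf_i (t : G) (ht : (a t).toAdd = 1) (f : VK a) (g : G) :
    (zf a t ht f g).i = (a g).toAdd := AG.mk_i (u := tL) _ _

theorem zf_v (t : G) (ht : (a t).toAdd = 1) (f : VK a) (g : G) (k : ℤ) :
    (zf a t ht f g).v k = f.1 (t ^ k * g * t ^ (-(a g).toAdd - k)) :=
  congrFun (AG.mk_v (R := LL) (M := SQ) (u := tL)
    (fun k : ℤ => f.1 (t ^ k * g * t ^ (-(a g).toAdd - k))) (a g).toAdd) k

theorem zf_t (t : G) (ht : (a t).toAdd = 1) (f : VK a) : (zf a t ht f t).v = 0 := by
  funext k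
  rw [zf_v, ht]
  show _ = (0 : ℂ)
  rw [← VK_one a f]
  congr 1
  nth_rewrite 2 [← zpow_one t]
  rw [← zpow_add, ← zpow_add]
  have : k + 1 + (-1 - k) = 0 := by ring
  rw [this, zpow_zero]

theorem zsmul_SQ (n : ℤ) (s : SQ) (k : ℤ) : (n • s : SQ) k = (n : ℂ) * s k := by
  refine Eq.trans ?_ (zsmul_eq_mul (s k) n)
  rfl

theorem poly_smul (P : Polynomial ℤ) (s : SQ) (k : ℤ) :
    (Polynomial.toLaurent P • s : SQ) k =
      ∑ i ∈ Finset.range (P.natDegree + 1), (P.coeff i : ℂ) * s (k + i) := by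
  conv_lhs => rw [P.as_sum_range_C_mul_X_pow]
  rw [map_sum, Finset.sum_smul]
  have hsum : ∀ (F : Finset ℕ) (h : ℕ → SQ), (∑ i ∈ F, h i : SQ) k = ∑ i ∈ F, (h i) k := by
    intro F h
    exact Finset.sum_apply k F h
  rw [hsum]
  apply Finset.sum_congr rfl
  intro i _
  rw [Polynomial.toLaurent_C_mul_X_pow, mul_smul]
  have h1 : (LaurentPolynomial.T (i : ℤ) : LL) • s = sft i s := by rw [smul_SQ, actL_T]
  rw [h1]
  have h2 : (LaurentPolynomial.C (P.coeff i) : LL) = ((P.coeff i : ℤ) : LL) := by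
    exact (eq_intCast LaurentPolynomial.C (P.coeff i))
  rw [h2, Int.cast_smul_eq_zsmul, zsmul_SQ, sft_apply]

variable {ι : Type} [Fintype ι] [DecidableEq ι] (γ : ι → G)

/-- A nonzero minor gives a polynomial which kills the action. -/
theorem exists_poly (hγ : Function.Surjective (FreeGroup.lift γ)) (i₀ : ι)
    (hi₀ : (a (γ i₀)).toAdd = 1) (W : ι → FreeGroup ι) (hW : ∀ i, FreeGroup.lift γ (W i) = 1)
    (hne : (EE a γ i₀ W).det ≠ 0) :
    ∃ P : Polynomial ℂ, P ≠ 0 ∧ Polynomial.aeval (TT a (γ i₀)) P = 0 := by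
  obtain ⟨n, P, hP⟩ := LaurentPolynomial.exists_T_pow (EE a γ i₀ W).det
  have hP0 : P ≠ 0 := by
    rintro rfl
    rw [map_zero] at hP
    apply hne
    have h4 : (EE a γ i₀ W).det = (EE a γ i₀ W).det * LaurentPolynomial.T n *
        LaurentPolynomial.T (-n) := by
      rw [mul_assoc, ← LaurentPolynomial.T_add, add_neg_cancel, LaurentPolynomial.T_zero, mul_one]
    rw [h4, ← hP, zero_mul]
  refine ⟨P.map (Int.castRingHom ℂ), ?_, ?_⟩
  · exact (Polynomial.map_ne_zero_iff (RingHom.injective_int _)).2 hP0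
  · apply LinearMap.ext
    intro f
    apply Subtype.ext
    funext g
    rw [LinearMap.zero_apply]
    show _ = (0 : ℂ)
    by_cases hg : a g = 1
    · have h1 := minors_mod a γ hγ (zf a (γ i₀) hi₀ f) (zf_i a _ hi₀ f) i₀ (zf_t a _ hi₀ f) W hW g
      have h2 : Polynomial.toLaurent P • (zf a (γ i₀) hi₀ f g).v = 0 := by
        rw [hP, mul_comm, mul_smul, h1, smul_zero]
      have h3 := congrFun h2 (0 : ℤ)
      have h3' : (Polynomial.toLaurent P • (zf a (γ i₀) hi₀ f g).v : SQ) 0 = 0 := h3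
      rw [poly_smul] at h3'
      rw [Polynomial.aeval_def, Polynomial.eval₂_map, Polynomial.eval₂_eq_sum_range,
        LinearMap.sum_apply]
      rw [← h3']
      have h4 : ∀ (F : Finset ℕ) (h : ℕ → VK a), (∑ i ∈ F, h i : VK a).1 g =
          ∑ i ∈ F, (h i).1 g := by
        intro F h
        rw [Submodule.coe_sum]
        exact Finset.sum_apply g F _
      rw [h4]
      apply Finset.sum_congr rfl
      intro i _
      rw [zf_v, hg, toAdd_one, zero_add]
      have h5 : (((algebraMap ℂ (Module.End ℂ (VK a))).comp (Int.castRingHom ℂ)) (P.coeff i) *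
          TT a (γ i₀) ^ i) f = ((P.coeff i : ℤ) : ℂ) • ((TT a (γ i₀) ^ i) f) := by
        rw [RingHom.comp_apply, Module.End.mul_apply, Module.algebraMap_end_apply]
        rfl
      rw [h5]
      show ((P.coeff i : ℤ) : ℂ) * ((TT a (γ i₀) ^ i) f).1 g = _
      rw [TT_pow, zpow_natCast, neg_zero, zero_sub, zpow_neg, zpow_natCast]
    · exact (Polynomial.aeval (TT a (γ i₀)) (P.map (Int.castRingHom ℂ)) f).2.2 g hg

end EssMap
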