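import Pool.Agent.EssMap.Main

/-!
# The final form
-/

open CategoryTheory groupCohomology

namespace EssMap

theorem exists_emb_ZM {T : Type*} [Group T] (hT : TorFree T) (t : T) (ht : t ≠ 1) :
    ∃ i : ZM →* T, ∀ z : ZM, z ≠ 1 → i z ≠ 1 := by
  refine ⟨zpowersHom T t, fun z hz h => hz ?_⟩
  rw [zpowersHom_apply] at h
  have h1 : z.toAdd = 0 := by
    by_contra hne
    have h2 : t ^ z.toAdd.natAbs = 1 := by
      rcases Int.natAbs_eq z.toAdd with h3 | h3
      · rw [← zpow_natCast, ← h3, h]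
      · rw [← zpow_natCast, ← inv_inj, ← zpow_neg, ← h3, h, inv_one]
    exact ht (hT t _ (Int.natAbs_pos.2 hne) h2)
  exact Multiplicative.toAdd.injective h1

theorem nilp_of_resid {G T : Type*} [Group G] [Group T]
    (h : ∀ g : G, g ≠ 1 → ∃ h : G →* T, h g ≠ 1) (hT : Group.IsNilpotent T) :
    Group.IsNilpotent G := by
  obtain ⟨c, hc⟩ := Subgroup.nilpotent_iff_lowerCentralSeries.1 hT
  rw [Subgroup.nilpotent_iff_lowerCentralSeries]
  refine ⟨c, ?_⟩
  rw [eq_bot_iff]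
  intro x hx
  rw [Subgroup.mem_bot]
  by_contra hne
  obtain ⟨f, hf⟩ := h x hne
  apply hf
  have h1 : f x ∈ ((⊤ : Subgroup G).lowerCentralSeries c).map f := Subgroup.mem_map_of_mem _ hx
  rw [Subgroup.map_lowerCentralSeries] at h1
  have h2 := Subgroup.lowerCentralSeries_mono c (le_top : (⊤ : Subgroup G).map f ≤ ⊤) h1
  have h3 : f x ∈ (⊤ : Subgroup T).lowerCentralSeries c := h2
  rw [hc, Subgroup.mem_bot] at h3
  exact h3

theorem solv_of_resid {G T : Type*} [Group G] [Group T]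
    (h : ∀ g : G, g ≠ 1 → ∃ h : G →* T, h g ≠ 1) (hT : Group.IsSolvable T) : Group.IsSolvable G := by
  obtain ⟨c, hc⟩ := hT.solvable
  refine ⟨⟨c, ?_⟩⟩
  rw [eq_bot_iff]
  intro x hx
  rw [Subgroup.mem_bot]
  by_contra hne
  obtain ⟨f, hf⟩ := h x hne
  apply hf
  have h1 : f x ∈ (derivedSeries G c).map f := Subgroup.mem_map_of_mem _ hx
  have h2 := map_derivedSeries_le_derivedSeries f c h1
  rw [hc, Subgroup.mem_bot] at h2
  exact h2

theorem final {Q : Type} [Group Q] {n : ℕ} (hQ : Dual n Q) (φ : Q →* Q)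
    (hinj : Function.Injective φ) (hfin : φ.range.FiniteIndex)
    (hcap : ∀ q : Q, (∀ k : ℕ, q ∈ Set.range (φ^[k])) → q = 1)
    (Q' : Subgroup Q) (hQ' : Q'.FiniteIndex) (T : Type) [Group T] (f : Q' →* T)
    (T₀ : Subgroup T) (hT₀ : T₀.FiniteIndex) (hnt : Nontrivial T₀) (hT2 : TorFree T₀)
    (hT : EqNoeth T₀) (j : ℕ) (hj : j = n ∨ j + 1 = n)
    (τ : HZ T j) (hτ : NonTors (pull f j τ)) :
    ∃ G : Subgroup Q, G.FiniteIndex ∧ (∀ g : G, g ≠ 1 → ∃ h : G →* T₀, h g ≠ 1) ∧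
      (Group.IsNilpotent T₀ → Group.IsNilpotent G) ∧ (Group.IsSolvable T₀ → Group.IsSolvable G) := by
  have key : ∃ G : Subgroup Q, G.FiniteIndex ∧ (∀ g : G, g ≠ 1 → ∃ h : G →* T₀, h g ≠ 1) := by
    rcases hj with rfl | rfl
    · obtain ⟨G, hG1, -, hG3⟩ := main_top hQ φ hinj hfin Q' hQ' T f T₀ hT₀ hT hT2 τ hτ
      refine ⟨G, hG1, fun g hg => ?_⟩
      by_contra hcon
      push Not at hcon
      apply hg
      apply Subtype.ext
      apply hcap
      intro k
      obtain ⟨y, hy⟩ := hG3 g hcon k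
      exact ⟨y, by rw [← itr_eq_iterate, hy]⟩
    · obtain ⟨G, hG1, -, hG3⟩ := main_codeg hQ φ hinj hfin Q' hQ' T f T₀ hT₀ hT hT2 τ hτ
      refine ⟨G, hG1, fun g hg => ?_⟩
      by_contra hcon
      push Not at hcon
      apply hg
      apply Subtype.ext
      apply hcap
      intro k
      obtain ⟨t, ht⟩ := exists_ne (1 : T₀)
      obtain ⟨i, hi⟩ := exists_emb_ZM hT2 t ht
      have h1 : ∀ h : G →* T₀ × ZM, h g = 1 := by
        intro h
        have h2 := hcon ((MonoidHom.fst T₀ ZM).comp h)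
        have h3 := hcon (i.comp ((MonoidHom.snd T₀ ZM).comp h))
        apply Prod.ext
        · exact h2
        · by_contra h4
          exact hi _ h4 h3
      obtain ⟨y, hy⟩ := hG3 g h1 k
      exact ⟨y, by rw [← itr_eq_iterate, hy]⟩
  obtain ⟨G, hG1, hG2⟩ := key
  exact ⟨G, hG1, hG2, nilp_of_resid hG2, solv_of_resid hG2⟩

end EssMap
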