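import Pool.Agent.EssMap.Tow

/-!
# Fox calculus and minors
-/

open PowerSeries

namespace EssMap

/-- Integral Laurent polynomials. -/
abbrev LL : Type := LaurentPolynomial ℤ

/-- The variable, as a unit. -/
noncomputable def tL : LLˣ where
  val := LaurentPolynomial.T 1
  inv := LaurentPolynomial.T (-1)
  val_inv := by rw [← LaurentPolynomial.T_add, add_neg_cancel, LaurentPolynomial.T_zero]
  inv_val := by rw [← LaurentPolynomial.T_add, neg_add_cancel, LaurentPolynomial.T_zero]

/-- Evaluation at a unit. -/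
noncomputable def evL {R : Type} [CommRing R] (u : Rˣ) : LL →+* R :=
  LaurentPolynomial.eval₂ (Int.castRingHom R) u

theorem evL_tL {R : Type} [CommRing R] (u : Rˣ) : Units.map (evL u).toMonoidHom tL = u := by
  apply Units.ext
  have h := LaurentPolynomial.eval₂_T (Int.castRingHom R) u 1
  rw [zpow_one] at h
  exact h

theorem evL_zpow {R : Type} [CommRing R] (u : Rˣ) (i : ℤ) :
    evL u ((tL ^ i : LLˣ) : LL) = ((u ^ i : Rˣ) : R) := by
  have h : Units.map (evL u).toMonoidHom (tL ^ i) = u ^ i := by rw [map_zpow, evL_tL]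
  exact congrArg Units.val h

theorem evL_us_inj (f : LL) (h : evL us f = 0) : f = 0 := by
  obtain ⟨n, P, hP⟩ := LaurentPolynomial.exists_T_pow f
  have h1 : evL us (Polynomial.toLaurent P) = 0 := by rw [hP, map_mul, h, zero_mul]
  unfold evL at h1
  rw [LaurentPolynomial.eval₂_toLaurent, us_val] at h1
  have h2 : Polynomial.coeToPowerSeries.ringHom (P.comp (Polynomial.X + Polynomial.C 1)) =
      (0 : ℤ⟦X⟧) := by
    rw [← h1]
    unfold Polynomial.comp
    rw [Polynomial.hom_eval₂]
    congr 1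
    · exact RingHom.ext_int _ _
    · rw [map_add, Polynomial.coeToPowerSeries.ringHom_apply,
        Polynomial.coeToPowerSeries.ringHom_apply, Polynomial.coe_X, map_one, Polynomial.coe_one,
        add_comm]
  have h3 : P.comp (Polynomial.X + Polynomial.C 1) = 0 := by
    rw [Polynomial.coeToPowerSeries.ringHom_apply] at h2
    exact_mod_cast h2
  rw [Polynomial.comp_X_add_C_eq_zero_iff] at h3
  rw [h3, map_zero] at hP
  have h4 : f = f * LaurentPolynomial.T n * LaurentPolynomial.T (-n) := by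
    rw [mul_assoc, ← LaurentPolynomial.T_add, add_neg_cancel, LaurentPolynomial.T_zero, mul_one]
  rw [h4, ← hP, zero_mul]

variable {ι : Type} [Fintype ι] [DecidableEq ι]

/-- The pairing with a vector. -/
noncomputable def pv {R : Type} [CommRing R] (u : Rˣ) (v : ι → R) (c : ι → LL) : R :=
  ∑ j, evL u (c j) * v j

/-- The induced homomorphism. -/
noncomputable def Ps {R : Type} [CommRing R] (u : Rˣ) (v : ι → R) :
    AG LL (ι → LL) tL →* AG R R u :=
  MonoidHom.mk' (fun x => ⟨pv u v x.v, x.i⟩) (by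
    intro x y
    apply AG.ext
    · show pv u v (x.v + (tL ^ x.i) • y.v) = pv u v x.v + ((u ^ x.i : Rˣ) : R) * pv u v y.v
      unfold pv
      rw [Finset.mul_sum, ← Finset.sum_add_distrib]
      apply Finset.sum_congr rfl
      intro j _
      rw [Pi.add_apply, Pi.smul_apply, Units.smul_def, smul_eq_mul, map_add, map_mul, evL_zpow]
      ring
    · rfl)

theorem Ps_v {R : Type} [CommRing R] (u : Rˣ) (v : ι → R) (x : AG LL (ι → LL) tL) :
    (Ps u v x).v = pv u v x.v := AG.mk_v (u := u) (pv u v x.v) x.i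

theorem Ps_i {R : Type} [CommRing R] (u : Rˣ) (v : ι → R) (x : AG LL (ι → LL) tL) :
    (Ps u v x).i = x.i := AG.mk_i (u := u) (pv u v x.v) x.i

variable {G : Type} [Group G] (a : G →* Multiplicative ℤ) (γ : ι → G)

/-- The universal cocycle on the free group. -/
noncomputable def DD : FreeGroup ι →* AG LL (ι → LL) tL :=
  FreeGroup.lift (fun i => ⟨Pi.single i 1, (a (γ i)).toAdd⟩)

theorem DD_of (i : ι) : DD a γ (FreeGroup.of i) = ⟨Pi.single i 1, (a (γ i)).toAdd⟩ :=
  FreeGroup.lift_apply_of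

theorem DD_i (w : FreeGroup ι) : (DD a γ w).i = (a (FreeGroup.lift γ w)).toAdd := by
  have h : (AG.toZ (R := LL) (M := ι → LL) (u := tL)).comp (DD a γ) =
      a.comp (FreeGroup.lift γ) := by
    ext i
    rw [MonoidHom.comp_apply, MonoidHom.comp_apply, DD_of, FreeGroup.lift_apply_of]
    rfl
  have h2 := congrArg Multiplicative.toAdd (DFunLike.congr_fun h w)
  exact h2

theorem pv_single {R : Type} [CommRing R] (u : Rˣ) (v : ι → R) (i : ι) :
    pv u v (Pi.single i 1) = v i := by
  unfold pv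
  rw [Finset.sum_eq_single i]
  · rw [Pi.single_eq_same, map_one, one_mul]
  · intro j _ hj
    rw [Pi.single_eq_of_ne hj, map_zero, zero_mul]
  · intro h
    exact absurd (Finset.mem_univ i) h

/-- The values of a homomorphism over `a`. -/
theorem hom_val {R : Type} [CommRing R] (u : Rˣ) (z : G →* AG R R u)
    (hz : ∀ g, (z g).i = (a g).toAdd) (w : FreeGroup ι) :
    (z (FreeGroup.lift γ w)).v = pv u (fun i => (z (γ i)).v) (DD a γ w).v := by
  have h : z.comp (FreeGroup.lift γ) = (Ps u (fun i => (z (γ i)).v)).comp (DD a γ) := by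
    ext i
    · rw [MonoidHom.comp_apply, MonoidHom.comp_apply, DD_of, FreeGroup.lift_apply_of, Ps_v,
        AG.mk_v, pv_single]
    · rw [MonoidHom.comp_apply, MonoidHom.comp_apply, DD_of, FreeGroup.lift_apply_of, Ps_i,
        AG.mk_i, hz]
  have h2 := congrArg AG.v (DFunLike.congr_fun h w)
  rw [MonoidHom.comp_apply, MonoidHom.comp_apply, Ps_v] at h2
  exact h2

theorem hom_rel {R : Type} [CommRing R] (u : Rˣ) (z : G →* AG R R u)
    (hz : ∀ g, (z g).i = (a g).toAdd) (w : FreeGroup ι) (hw : FreeGroup.lift γ w = 1) :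
    pv u (fun i => (z (γ i)).v) (DD a γ w).v = 0 := by
  rw [← hom_val a γ u z hz w, hw, map_one, AG.one_v]

/-- Existence of a homomorphism with prescribed values. -/
theorem exists_hom {R : Type} [CommRing R] (u : Rˣ) (hγ : Function.Surjective (FreeGroup.lift γ))
    (v : ι → R) (hv : ∀ w, FreeGroup.lift γ w = 1 → pv u v (DD a γ w).v = 0) :
    ∃ z : G →* AG R R u, (∀ g, (z g).i = (a g).toAdd) ∧ ∀ i, (z (γ i)).v = v i := by
  let F := (Ps u v).comp (DD a γ)
  have hF : (FreeGroup.lift γ).ker ≤ F.ker := by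
    intro w hw
    rw [MonoidHom.mem_ker] at hw ⊢
    apply AG.ext
    · show (Ps u v (DD a γ w)).v = (1 : AG R R u).v
      rw [Ps_v, hv w hw, AG.one_v]
    · show (Ps u v (DD a γ w)).i = (1 : AG R R u).i
      rw [Ps_i, DD_i, hw, map_one, AG.one_i]
      rfl
  let z := (FreeGroup.lift γ).liftOfSurjective hγ ⟨F, hF⟩
  have hz : ∀ w, z (FreeGroup.lift γ w) = F w := fun w =>
    MonoidHom.liftOfRightInverse_comp_apply (FreeGroup.lift γ) _ _ ⟨F, hF⟩ w
  refine ⟨z, fun g => ?_, fun i => ?_⟩
  · obtain ⟨w, rfl⟩ := hγ g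
    rw [hz]
    show (Ps u v (DD a γ w)).i = _
    rw [Ps_i, DD_i]
  · have h1 := hz (FreeGroup.of i)
    rw [FreeGroup.lift_apply_of] at h1
    rw [h1]
    show (Ps u v (DD a γ (FreeGroup.of i))).v = _
    rw [Ps_v, DD_of, AG.mk_v, pv_single]

/-- The matrix of relations, with one row replaced. -/
noncomputable def EE (i₀ : ι) (W : ι → FreeGroup ι) : Matrix ι ι LL :=
  Matrix.of fun i => if i = i₀ then Pi.single i₀ 1 else (DD a γ (W i)).v

theorem minors {R : Type} [CommRing R] (u : Rˣ) (i₀ : ι) (W : ι → FreeGroup ι)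
    (v v' : ι → R) (hv : ∀ i, pv u v (DD a γ (W i)).v = 0)
    (hv' : ∀ i, pv u v' (DD a γ (W i)).v = 0) (j : ι) :
    evL u (EE a γ i₀ W).det * (v i₀ * v' j - v' i₀ * v j) = 0 := by
  let E := (EE a γ i₀ W).map (evL u)
  let y : ι → R := fun j => v i₀ * v' j - v' i₀ * v j
  have h1 : E.mulVec y = 0 := by
    funext i
    rw [Matrix.mulVec, Pi.zero_apply]
    show ∑ j, E i j * y j = 0
    have h2 : ∑ j, E i j * y j = v i₀ * pv u v' (EE a γ i₀ W i) - v' i₀ * pv u v (EE a γ i₀ W i) := by
      unfold pv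
      rw [Finset.mul_sum, Finset.mul_sum, ← Finset.sum_sub_distrib]
      apply Finset.sum_congr rfl
      intro j _
      show evL u (EE a γ i₀ W i j) * (v i₀ * v' j - v' i₀ * v j) = _
      ring
    rw [h2]
    by_cases hi : i = i₀
    · have h3 : EE a γ i₀ W i = Pi.single i₀ 1 := if_pos hi
      rw [h3, pv_single, pv_single]
      ring
    · have h3 : EE a γ i₀ W i = (DD a γ (W i)).v := if_neg hi
      rw [h3, hv, hv']
      ring
  have h2 : (E.adjugate * E).mulVec y = 0 := by
    rw [← Matrix.mulVec_mulVec, h1, Matrix.mulVec_zero]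
  rw [Matrix.adjugate_mul, Matrix.smul_mulVec, Matrix.one_mulVec] at h2
  have h3 := congrFun h2 j
  rw [Pi.smul_apply, smul_eq_mul, Pi.zero_apply] at h3
  have h4 : evL u (EE a γ i₀ W).det = E.det := RingHom.map_det _ _
  rw [h4]
  exact h3

end EssMap
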