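import Pool.Agent.EssMap.Tors

/-!
# The Shapiro map with general coefficients
-/

open CategoryTheory groupCohomology

namespace EssMap

variable {Q : Type} [Group Q] (S : Subgroup Q) (A : Rep ℤ S)

/-- Evaluation at the base point. -/
noncomputable def evA : Rep.res S.subtype (Rep.coind S.subtype A) ⟶ A :=
  (Rep.resCoindHomEquiv.{0} S.subtype (Rep.coind S.subtype A) A).symm (𝟙 _)

theorem evA_apply (f : Rep.coind S.subtype A) : (evA S A).hom f = f.1 1 := rfl

/-- The Shapiro map. -/
noncomputable def shA (n : ℕ) :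
    groupCohomology (Rep.coind S.subtype A) n →ₗ[ℤ] groupCohomology A n :=
  (groupCohomology.map S.subtype (evA S A) n).hom

/-- The inverse of the Shapiro map on cochains. -/
noncomputable def liftA {m : ℕ} (r : Q → S) (hr : ∀ (s : S) (q : Q), r (s * q) = s * r q)
    (c : (Fin m → S) → A) (a : Fin m → Q) : Rep.coind S.subtype A :=
  ⟨fun x => A.ρ (r x) (c (bseq S r x a)), by
    intro g h
    show A.ρ (r (g.1 * h)) (c (bseq S r (g.1 * h) a)) = A.ρ g (A.ρ (r h) (c (bseq S r h a)))
    rw [bseq_left S r hr, hr, map_mul]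
    rfl⟩

theorem bseq_zero {m : ℕ} (r : Q → S) (x : Q) (a : Fin (m + 1) → Q) :
    r x * bseq S r x a 0 = r (x * a 0) := by
  have h := partialProd_bseq S r x a 1
  have h1 : Fin.partialProd (bseq S r x a) 1 = bseq S r x a 0 := by
    rw [← Fin.succ_zero_eq_one, Fin.partialProd_succ]
    simp
  have h2 : Fin.partialProd a 1 = a 0 := by
    rw [← Fin.succ_zero_eq_one, Fin.partialProd_succ]
    simp
  rw [h1, h2] at h
  exact h

theorem d_gen {G : Type} [Group G] (B : Rep ℤ G) {m : ℕ} (c : (Fin m → G) → B)
    (g : Fin (m + 1) → G) :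
    (inhomogeneousCochains.d B m c : (Fin (m + 1) → G) → B) g =
      B.ρ (g 0) (c (fun i => g i.succ)) + ∑ j : Fin (m + 1),
        (-1 : ℤ) ^ ((j : ℕ) + 1) • c (Fin.contractNth j (· * ·) g) := by
  refine (inhomogeneousCochains.d_hom_apply _ _ _ _).trans ?_
  congr 1
  apply Finset.sum_congr rfl
  intro j _
  exact int_smul_eq_zsmul _ _ _

/-- Evaluation of coinduced functions. -/
def evx (x : Q) : (Rep.coind S.subtype A) →+ A where
  toFun f := f.1 x
  map_zero' := rfl
  map_add' _ _ := rfl

theorem liftA_d {m : ℕ} (r : Q → S) (hr : ∀ (s : S) (q : Q), r (s * q) = s * r q)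
    (c : (Fin m → S) → A) :
    inhomogeneousCochains.d (Rep.coind S.subtype A) m (liftA S A r hr c) =
      liftA S A r hr (inhomogeneousCochains.d A m c) := by
  funext a
  apply Subtype.ext
  funext x
  have e1 : ((inhomogeneousCochains.d (Rep.coind S.subtype A) m (liftA S A r hr c) a :
      Rep.coind S.subtype A)).1 x =
      (liftA S A r hr c (fun i => a i.succ)).1 (x * a 0) + ∑ j : Fin (m + 1),
        (-1 : ℤ) ^ ((j : ℕ) + 1) • (liftA S A r hr c (Fin.contractNth j (· * ·) a)).1 x := by
    rw [d_gen]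
    show evx S A x (_ + _) = _
    rw [map_add, map_sum]
    congr 1
  rw [e1]
  show A.ρ (r (x * a 0)) (c (bseq S r (x * a 0) (fun i => a i.succ))) + ∑ j : Fin (m + 1),
        (-1 : ℤ) ^ ((j : ℕ) + 1) • A.ρ (r x) (c (bseq S r x (Fin.contractNth j (· * ·) a))) =
    A.ρ (r x) ((inhomogeneousCochains.d A m c : (Fin (m + 1) → S) → A) (bseq S r x a))
  rw [d_gen, map_add, map_sum, bseq_succ, ← bseq_zero S r x a, map_mul]
  congr 1
  apply Finset.sum_congr rfl
  intro j _
  rw [bseq_contractNth, map_zsmul]

theorem shA_surjective (n : ℕ) : Function.Surjective (shA S A n) := by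
  obtain ⟨r, hr, hr2⟩ := exists_rho S
  intro z
  induction z using groupCohomology_induction_on with
  | h z =>
    have hz := eq_cocyclesMk _ n z
    have hdc := d_iCocycles _ n z
    set c : (Fin n → S) → A := iCocycles A n z with hc
    have hy : inhomogeneousCochains.d (Rep.coind S.subtype A) n (liftA S A r hr c) = 0 := by
      rw [liftA_d, hdc]
      funext a
      apply Subtype.ext
      funext x
      exact map_zero _
    refine ⟨π (Rep.coind S.subtype A) n (cocyclesMk (liftA S A r hr c) hy), ?_⟩
    unfold shA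
    rw [hz]
    apply map_mk
    intro g
    show A.ρ (r 1) (c (bseq S r 1 (fun i => (g i : Q)))) = c g
    have h1 : r 1 = 1 := by
      have := hr2 1
      exact this
    rw [bseq_base S r hr2, h1, map_one]
    rfl

end EssMap
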