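import Pool.Agent.EssMap.Tdim

/-!
# Growth of the first Betti number in cyclic covers
-/

namespace EssMap

theorem sum_finrank_le {K V ι : Type} [Field K] [AddCommGroup V] [Module K V]
    [FiniteDimensional K V] [Fintype ι] (E : ι → Submodule K V) (hE : iSupIndep E) :
    ∑ j, Module.finrank K (E j) ≤ Module.finrank K V := by
  classical
  have h1 : ∀ s : Finset ι, ∑ j ∈ s, Module.finrank K (E j) =
      Module.finrank K (⨆ j ∈ (s : Set ι), E j : Submodule K V) := by
    intro s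
    induction s using Finset.induction_on with
    | empty => rw [Finset.sum_empty, Finset.coe_empty, iSup_emptyset, finrank_bot]
    | insert i s hi ih =>
      rw [Finset.sum_insert hi, ih, Finset.coe_insert, iSup_insert]
      have h2 := Submodule.finrank_sup_add_finrank_inf_eq (E i) (⨆ j ∈ (s : Set ι), E j)
      have h3 : Disjoint (E i) (⨆ j ∈ (s : Set ι), E j) :=
        hE.disjoint_biSup (by simpa using hi)
      rw [h3.eq_bot, finrank_bot, add_zero] at h2
      exact h2.symm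
  rw [h1 Finset.univ]
  exact Submodule.finrank_le _

variable {G : Type} [Group G]

/-- The cyclic cover. -/
def Hp (a : G →* Multiplicative ℤ) (p : ℕ) : Subgroup G where
  carrier := {g | (p : ℤ) ∣ (a g).toAdd}
  one_mem' := by
    show (p : ℤ) ∣ (a 1).toAdd
    rw [map_one, toAdd_one]
    exact dvd_zero _
  mul_mem' := by
    intro x y hx hy
    show (p : ℤ) ∣ (a (x * y)).toAdd
    rw [map_mul, toAdd_mul]
    exact dvd_add hx hy
  inv_mem' := by
    intro x hx
    show (p : ℤ) ∣ (a x⁻¹).toAdd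
    rw [map_inv, toAdd_inv]
    exact (dvd_neg).2 hx

theorem mem_Hp (a : G →* Multiplicative ℤ) (p : ℕ) (g : G) :
    g ∈ Hp a p ↔ (p : ℤ) ∣ (a g).toAdd := Iff.rfl

/-- Conjugation by an element. -/
def cj (a : G →* Multiplicative ℤ) (p : ℕ) (t : G) : Hp a p →* Hp a p where
  toFun x := ⟨t * x.1 * t⁻¹, by
    rw [mem_Hp, a_conj]
    exact x.2⟩
  map_one' := by
    apply Subtype.ext
    show t * 1 * t⁻¹ = 1
    group
  map_mul' x y := by
    apply Subtype.ext
    show t * (x.1 * y.1) * t⁻¹ = t * x.1 * t⁻¹ * (t * y.1 * t⁻¹)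
    group

theorem cj_coe (a : G →* Multiplicative ℤ) (p : ℕ) (t : G) (x : Hp a p) :
    ((cj a p t x : Hp a p) : G) = t * x.1 * t⁻¹ := rfl

/-- Restriction of twisted cocycles. -/
def Rj {K : Type} [Field K] (a : G →* Multiplicative ℤ) (p : ℕ) (u : Kˣ) (hu : u ^ p = 1) :
    Tw K u a →ₗ[K] Addf (Hp a p) K where
  toFun z := ⟨fun x => z.1 x.1, fun x y => by
    show z.1 (x.1 * y.1) = z.1 x.1 + z.1 y.1
    obtain ⟨m, hm⟩ := (mem_Hp a p x.1).1 x.2
    rw [z.2, hm, zpow_mul, zpow_natCast, hu, one_zpow, Units.val_one, one_mul]⟩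
  map_add' _ _ := rfl
  map_smul' _ _ := rfl

theorem Rj_eig {K : Type} [Field K] (a : G →* Multiplicative ℤ) (p : ℕ) (u : Kˣ)
    (hu : u ^ p = 1) (t : G) (ht : (a t).toAdd = 1) (z : Tw K u a) :
    prc (cj a p t) (Rj a p u hu z) = (u : K) • Rj a p u hu z := by
  apply Subtype.ext
  funext x
  show z.1 (t * x.1 * t⁻¹) = (u : K) * z.1 x.1
  obtain ⟨m, hm⟩ := (mem_Hp a p x.1).1 x.2
  have h1 : z.1 (t * t⁻¹) = z.1 t + (u : K) * z.1 t⁻¹ := by rw [z.2, ht, zpow_one]
  have h0 : z.1 1 = 0 := by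
    have h2 := z.2 1 1
    rw [mul_one, map_one, toAdd_one, zpow_zero, Units.val_one, one_mul] at h2
    exact left_eq_add.1 h2
  rw [mul_inv_cancel, h0] at h1
  have h3 : (u ^ (a (t * x.1)).toAdd : Kˣ) = u := by
    rw [map_mul, toAdd_mul, ht, hm, zpow_add, zpow_one, zpow_mul, zpow_natCast, hu, one_zpow,
      mul_one]
  rw [z.2, h3, z.2, ht, zpow_one]
  linear_combination -h1

theorem z_eq_zero {K : Type} [Field K] (a : G →* Multiplicative ℤ) (p : ℕ) (u : Kˣ)
    (t : G) (ht : (a t).toAdd = 1) (z : Tw K u a) (hz : ∀ x ∈ Hp a p, z.1 x = 0)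
    (hzt : z.1 t = 0) : z = 0 := by
  have h0 : z.1 1 = 0 := hz 1 (Hp a p).one_mem
  let Z : Subgroup G :=
    { carrier := {g | z.1 g = 0}
      one_mem' := h0
      mul_mem' := by
        intro x y hx hy
        have hx' : z.1 x = 0 := hx
        have hy' : z.1 y = 0 := hy
        show z.1 (x * y) = 0
        rw [z.2, hx', hy', mul_zero, add_zero]
      inv_mem' := by
        intro x hx
        have hx' : z.1 x = 0 := hx
        show z.1 x⁻¹ = 0
        have h1 := z.2 x x⁻¹
        rw [mul_inv_cancel, h0, hx', zero_add] at h1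
        rcases mul_eq_zero.1 h1.symm with h2 | h2
        · exact absurd h2 (Units.ne_zero _)
        · exact h2 }
  apply Subtype.ext
  funext g
  have h7 : g * (t ^ (a g).toAdd)⁻¹ ∈ Z := by
    apply hz
    rw [mem_Hp, map_mul a, map_inv a, map_zpow a, toAdd_mul, toAdd_inv, toAdd_zpow, ht]
    simp
  have h8 : t ^ (a g).toAdd ∈ Z := Z.zpow_mem hzt _
  have h9 := Z.mul_mem h7 h8
  rw [inv_mul_cancel_right] at h9
  exact h9

theorem finrank_Rj {K : Type} [Field K] (a : G →* Multiplicative ℤ) (p : ℕ) (u : Kˣ)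
    (hu : u ^ p = 1) (t : G) (ht : (a t).toAdd = 1) [FiniteDimensional K (Tw K u a)] :
    Module.finrank K (Tw K u a) ≤ Module.finrank K (LinearMap.range (Rj a p u hu)) + 1 := by
  have h1 := LinearMap.finrank_range_add_finrank_ker (Rj a p u hu)
  have h2 : Module.finrank K (LinearMap.ker (Rj a p u hu)) ≤ 1 := by
    let f : LinearMap.ker (Rj a p u hu) →ₗ[K] K :=
      { toFun := fun z => z.1.1 t
        map_add' := fun _ _ => rfl
        map_smul' := fun _ _ => rfl }
    have hf : Function.Injective f := by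
      rw [injective_iff_map_eq_zero]
      intro z hz
      apply Subtype.ext
      apply z_eq_zero a p u t ht z.1 _ hz
      intro x hx
      exact congrFun (congrArg Subtype.val z.2) ⟨x, hx⟩
    have h3 := LinearMap.finrank_le_finrank_of_injective hf
    rw [Module.finrank_self] at h3
    exact h3
  omega

theorem finrank_Rj_one {K : Type} [Field K] [CharZero K] (a : G →* Multiplicative ℤ) (p : ℕ)
    (hp : 0 < p) (t : G) (ht : (a t).toAdd = 1) [FiniteDimensional K (Tw K 1 a)] :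
    Module.finrank K (Tw K 1 a) ≤
      Module.finrank K (LinearMap.range (Rj (K := K) a p 1 (one_pow p))) := by
  have hinj : Function.Injective (Rj (K := K) a p 1 (one_pow p)) := by
    rw [injective_iff_map_eq_zero]
    intro z hz
    have hzH : ∀ x ∈ Hp a p, z.1 x = 0 := fun x hx => congrFun (congrArg Subtype.val hz) ⟨x, hx⟩
    apply z_eq_zero a p 1 t ht z hzH
    have hpow : ∀ n : ℕ, z.1 (t ^ n) = n * z.1 t := by
      intro n
      induction n with
      | zero => rw [pow_zero, hzH 1 (Hp a p).one_mem, Nat.cast_zero, zero_mul]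
      | succ n ih =>
        rw [pow_succ, z.2, ih, one_zpow, Units.val_one, one_mul]
        push_cast
        ring
    have h1 : z.1 (t ^ p) = 0 := by
      apply hzH
      rw [mem_Hp, map_pow a, toAdd_pow, ht, nsmul_eq_mul, mul_one]
    rw [hpow] at h1
    rcases mul_eq_zero.1 h1 with h2 | h2
    · exact absurd h2 (by exact_mod_cast hp.ne')
    · exact h2
  rw [LinearMap.finrank_range_of_inj hinj]

/-- Growth in a cyclic cover. -/
theorem growth {ι : Type} [Fintype ι] (a : G →* Multiplicative ℤ) (γ : ι → G)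
    (hγ : Function.Surjective (FreeGroup.lift γ)) {B : ℕ}
    (b : Fin B → (G →* Multiplicative ℤ)) (hb : Ind b)
    (H : ∀ (k : ℕ) (f : G →* TK k) (τ : HZ (TK k) 2), ¬ NonTors (pull f 2 τ))
    (t : G) (ht : (a t).toAdd = 1) (p : ℕ) (hp : 0 < p)
    [FiniteDimensional ℂ (Addf (Hp a p) ℂ)] :
    p * B + 1 ≤ Module.finrank ℂ (Addf (Hp a p) ℂ) + p := by
  classical
  have hζ := Complex.isPrimitiveRoot_exp p hp.ne'
  let ζ : ℂˣ := (hζ.isUnit hp.ne').unit
  have hζp : ζ ^ p = 1 := by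
    apply Units.ext
    rw [Units.val_pow_eq_pow_val, Units.val_one]
    exact hζ.pow_eq_one
  have hζ2 : IsPrimitiveRoot (ζ : ℂ) p := hζ
  have hu : ∀ j : Fin p, (ζ ^ (j : ℕ)) ^ p = 1 := by
    intro j
    rw [← pow_mul, mul_comm, pow_mul, hζp, one_pow]
  let σ : Module.End ℂ (Addf (Hp a p) ℂ) := prc (cj a p t)
  let E : Fin p → Submodule ℂ (Addf (Hp a p) ℂ) := fun j =>
    σ.eigenspace ((ζ ^ (j : ℕ) : ℂˣ) : ℂ)
  have hinj : Function.Injective (fun j : Fin p => ((ζ ^ (j : ℕ) : ℂˣ) : ℂ)) := by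
    intro i j hij
    apply Fin.ext
    have h1 : (ζ : ℂ) ^ (i : ℕ) = (ζ : ℂ) ^ (j : ℕ) := by
      have h2 : ((ζ ^ (i : ℕ) : ℂˣ) : ℂ) = ((ζ ^ (j : ℕ) : ℂˣ) : ℂ) := hij
      rw [Units.val_pow_eq_pow_val, Units.val_pow_eq_pow_val] at h2
      exact h2
    exact hζ2.pow_inj i.2 j.2 h1
  have hE : iSupIndep E := (Module.End.eigenspaces_iSupIndep σ).comp hinj
  have h1 := sum_finrank_le E hE
  have hle : ∀ j : Fin p, Module.finrank ℂ (LinearMap.range (Rj a p (ζ ^ (j : ℕ)) (hu j))) ≤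
      Module.finrank ℂ (E j) := by
    intro j
    apply Submodule.finrank_mono
    rintro _ ⟨z, rfl⟩
    rw [Module.End.mem_eigenspace_iff]
    exact Rj_eig a p _ (hu j) t ht z
  have hB : ∀ u : ℂˣ, B ≤ Module.finrank ℂ (Tw ℂ u a) := fun u => tw_dim u a γ hγ b hb H
  have h0 : ∀ j : Fin p, B ≤ Module.finrank ℂ (E j) + 1 := by
    intro j
    have := tw_finite (K := ℂ) (u := ζ ^ (j : ℕ)) a γ hγ
    have h2 := finrank_Rj a p (ζ ^ (j : ℕ)) (hu j) t ht
    have h3 := hle j
    have h4 := hB (ζ ^ (j : ℕ))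
    omega
  have hz : B ≤ Module.finrank ℂ (E ⟨0, hp⟩) := by
    have := tw_finite (K := ℂ) (u := 1) a γ hγ
    have h2 := finrank_Rj_one (K := ℂ) a p hp t ht
    have h4 := hB 1
    have h5 : LinearMap.range (Rj (K := ℂ) a p 1 (one_pow p)) ≤ E ⟨0, hp⟩ := by
      rintro _ ⟨z, rfl⟩
      rw [Module.End.mem_eigenspace_iff]
      have h6 := Rj_eig (K := ℂ) a p 1 (one_pow p) t ht z
      show σ _ = ((ζ ^ 0 : ℂˣ) : ℂ) • _
      rw [pow_zero]
      exact h6
    have h6 := Submodule.finrank_mono h5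
    omega
  have h2 : ∑ j : Fin p, B ≤ ∑ j : Fin p, (Module.finrank ℂ (E j) +
      if j = ⟨0, hp⟩ then 0 else 1) := by
    apply Finset.sum_le_sum
    intro j _
    by_cases hj : j = ⟨0, hp⟩
    · rw [if_pos hj, hj, add_zero]
      exact hz
    · rw [if_neg hj]
      exact h0 j
  rw [Finset.sum_const, Finset.card_univ, Fintype.card_fin, smul_eq_mul,
    Finset.sum_add_distrib] at h2
  have h3 : ∑ j : Fin p, (if j = ⟨0, hp⟩ then 0 else 1) + 1 = p := by
    have h4 : ∑ j : Fin p, ((if j = ⟨0, hp⟩ then 0 else 1) + if j = ⟨0, hp⟩ then 1 else 0) = p := by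
      rw [Finset.sum_congr rfl (g := fun _ => 1)]
      · simp
      · intro j _
        split_ifs <;> rfl
    rw [Finset.sum_add_distrib, Finset.sum_ite_eq' Finset.univ (⟨0, hp⟩ : Fin p) (fun _ => 1),
      if_pos (Finset.mem_univ _)] at h4
    exact h4
  omega

end EssMap
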