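import Mathlib

/-!
# Equationally Noetherian groups and endomorphisms with image of finite index
-/

namespace EssMap

/-- A group is equationally Noetherian if every system of equations in finitely many
variables (without constants) has the same solutions as one of its finite subsystems. -/
def EqNoeth (T : Type*) [Group T] : Prop :=
  ∀ (m : ℕ) (S : Set (FreeGroup (Fin m))), ∃ S₀ : Set (FreeGroup (Fin m)), S₀ ⊆ S ∧ S₀.Finite ∧
    ∀ v : Fin m → T, (∀ w ∈ S₀, FreeGroup.lift v w = 1) → ∀ w ∈ S, FreeGroup.lift v w = 1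

/-- Iteration of an endomorphism. -/
def itr {G : Type*} [Group G] (φ : G →* G) : ℕ → (G →* G)
  | 0 => MonoidHom.id G
  | (k + 1) => φ.comp (itr φ k)

theorem itr_zero {G : Type*} [Group G] (φ : G →* G) (x : G) : itr φ 0 x = x := rfl

theorem itr_succ {G : Type*} [Group G] (φ : G →* G) (k : ℕ) (x : G) :
    itr φ (k + 1) x = φ (itr φ k x) := rfl

theorem itr_succ' {G : Type*} [Group G] (φ : G →* G) (k : ℕ) (x : G) :
    itr φ (k + 1) x = itr φ k (φ x) := by
  induction k with
  | zero => rfl
  | succ k ih => rw [itr_succ, ih, itr_succ]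

theorem itr_add {G : Type*} [Group G] (φ : G →* G) (k l : ℕ) (x : G) :
    itr φ (k + l) x = itr φ k (itr φ l x) := by
  induction k with
  | zero => rw [zero_add]; rfl
  | succ k ih =>
    have : k + 1 + l = (k + l) + 1 := by omega
    rw [this, itr_succ, ih, itr_succ]

theorem itr_inj {G : Type*} [Group G] {φ : G →* G} (h : Function.Injective φ) (k : ℕ) :
    Function.Injective (itr φ k) := by
  induction k with
  | zero => exact Function.injective_id
  | succ k ih => exact h.comp ih

theorem itr_eq_iterate {G : Type*} [Group G] (φ : G →* G) (k : ℕ) (x : G) :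
    itr φ k x = (φ^[k]) x := by
  induction k with
  | zero => rfl
  | succ k ih => rw [itr_succ, ih, Function.iterate_succ_apply']

theorem itr_range_finiteIndex {G : Type*} [Group G] {φ : G →* G} (h : Function.Injective φ)
    (hf : φ.range.FiniteIndex) (k : ℕ) : (itr φ k).range.FiniteIndex := by
  induction k with
  | zero =>
    have : (itr φ 0).range = ⊤ := by
      show (MonoidHom.id G).range = ⊤
      exact MonoidHom.range_eq_top.2 Function.surjective_id
    rw [this]
    infer_instance
  | succ k ih =>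
    have h1 : (itr φ (k + 1)).range = (itr φ k).range.map φ := by
      show (φ.comp (itr φ k)).range = _
      rw [MonoidHom.range_comp]
    constructor
    rw [h1, Subgroup.index_map_of_injective _ h]
    exact mul_ne_zero ih.index_ne_zero hf.index_ne_zero

theorem finite_hom (Q F : Type*) [Group Q] [Group.FG Q] [Group F] [Finite F] :
    Finite (Q →* F) := by
  obtain ⟨S, hS, hfin⟩ := (Group.fg_iff (G := Q)).1 inferInstance
  have : Finite S := hfin
  apply Finite.of_injective (fun (h : Q →* F) (s : S) => h s)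
  intro a b hab
  apply MonoidHom.eq_of_eqOn_dense hS
  intro x hx
  exact congrFun hab ⟨x, hx⟩

/-- Every subgroup of finite index contains one that is mapped into itself. -/
theorem exists_invariant {Q : Type*} [Group Q] [Group.FG Q] (φ : Q →* Q) (H : Subgroup Q)
    (hH : H.FiniteIndex) :
    ∃ G : Subgroup Q, G.FiniteIndex ∧ G ≤ H ∧ ∀ x ∈ G, φ x ∈ G := by
  have : Finite (Q ⧸ H.normalCore) := inferInstance
  have := finite_hom Q (Q ⧸ H.normalCore)
  refine ⟨⨅ h : Q →* Q ⧸ H.normalCore, h.ker, ?_, ?_, ?_⟩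
  · apply Subgroup.finiteIndex_iInf
    intro h
    infer_instance
  · intro x hx
    have h1 := (Subgroup.mem_iInf.1 hx) (QuotientGroup.mk' H.normalCore)
    rw [QuotientGroup.ker_mk'] at h1
    exact Subgroup.normalCore_le H h1
  · intro x hx
    rw [Subgroup.mem_iInf] at hx ⊢
    intro h
    exact hx (h.comp φ)

theorem fg_fin {G : Type*} [Group G] [Group.FG G] :
    ∃ (m : ℕ) (p : FreeGroup (Fin m) →* G), Function.Surjective p := by
  obtain ⟨α, hα, p, hp⟩ := (Group.fg_iff_exists_freeGroup_hom_surjective_finite (G := G)).1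
    inferInstance
  obtain ⟨m, ⟨e⟩⟩ := Finite.exists_equiv_fin α
  exact ⟨m, p.comp (FreeGroup.freeGroupCongr e).symm,
    hp.comp (FreeGroup.freeGroupCongr e).symm.surjective⟩

theorem lift_of {G : Type*} [Group G] {m : ℕ} (q : FreeGroup (Fin m) →* G)
    (w : FreeGroup (Fin m)) : FreeGroup.lift (fun i => q (FreeGroup.of i)) w = q w := by
  have : FreeGroup.lift (fun i => q (FreeGroup.of i)) = q := by
    ext i
    simp
  rw [this]

theorem stab {T : Type*} [Group T] (hT : EqNoeth T) {G : Type*} [Group G] [Group.FG G]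
    (φ : G →* G) :
    ∃ i, ∀ x : G, (∀ h : G →* T, h (itr φ (i + 1) x) = 1) → ∀ h : G →* T, h (itr φ i x) = 1 := by
  obtain ⟨m, p, hp⟩ := fg_fin (G := G)
  let R : ℕ → Set (FreeGroup (Fin m)) := fun i => {w | ∀ h : G →* T, h (itr φ i (p w)) = 1}
  have hmono : ∀ i, R i ⊆ R (i + 1) := by
    intro i w hw h
    rw [itr_succ]
    exact hw (h.comp φ)
  have hmono2 : Monotone R := monotone_nat_of_le_succ hmono
  obtain ⟨S₀, hS₀, hfin, hS⟩ := hT m (⋃ i, R i)
  have h1 : ∃ i, S₀ ⊆ R i := by
    have h2 : ∀ w ∈ S₀, ∃ i, w ∈ R i := fun w hw => Set.mem_iUnion.1 (hS₀ hw)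
    choose! f hf using h2
    obtain ⟨M, hM⟩ := (hfin.image f).bddAbove
    exact ⟨M, fun w hw => hmono2 (hM (Set.mem_image_of_mem f hw)) (hf w hw)⟩
  obtain ⟨i, hi⟩ := h1
  refine ⟨i, fun x hx h => ?_⟩
  obtain ⟨w, rfl⟩ := hp x
  have h3 := hS (fun j => (h.comp ((itr φ i).comp p)) (FreeGroup.of j)) (fun w' hw' => by
    rw [lift_of]
    exact hi hw' h) w (Set.mem_iUnion.2 ⟨i + 1, hx⟩)
  rw [lift_of] at h3
  exact h3

/-- Torsion-free: no element different from `1` has a positive power equal to `1`. -/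
def TorFree (T : Type*) [Group T] : Prop := ∀ (t : T) (m : ℕ), 0 < m → t ^ m = 1 → t = 1

/-- The residual of `G` with respect to `T` is the full preimage of itself. -/
theorem residual_preimage {T : Type*} [Group T] (hT : EqNoeth T) (hT2 : TorFree T)
    {G : Type*} [Group G] [Group.FG G] {φ : G →* G} (hinj : Function.Injective φ)
    (hfin : φ.range.FiniteIndex) (x : G) (hx : ∀ h : G →* T, h (φ x) = 1) (h : G →* T) :
    h x = 1 := by
  obtain ⟨i, hi⟩ := stab hT φ
  have hr := itr_range_finiteIndex hinj hfin i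
  obtain ⟨m, hm, -, hm2⟩ := Subgroup.exists_pow_mem_of_index_ne_zero hr.index_ne_zero x
  obtain ⟨y, hy⟩ := hm2
  have h1 : ∀ h : G →* T, h (itr φ (i + 1) y) = 1 := by
    intro h
    rw [itr_succ, hy, map_pow, map_pow, hx h, one_pow]
  have h2 := hi y h1 h
  rw [hy, map_pow] at h2
  exact hT2 _ m hm h2

end EssMap
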