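import Pool.Agent.EssMap.Lxg

/-!
# Finitely supported data from infinitely many homomorphisms
-/

namespace EssMap

theorem lz_one {ι : Type} {W : Type} [Group W] (c : ι → ℤ) (w : FreeGroup ι) (κ : ℤ) :
    (lz c (fun _ _ => (1 : W)) w).v κ = 1 := by
  induction w using FreeGroup.induction_on generalizing κ with
  | C1 => rw [map_one]; rfl
  | of i => rw [lz_of]
  | inv_of i _ => rw [map_inv, lz_of, LX.inv_v, inv_one]
  | mul w w' hw hw' => rw [map_mul, LX.mul_v, hw, hw', one_mul]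

section

variable {H : Type} [Group H] {ι : Type} (q : FreeGroup ι →* H) (o : ι)
  (χ : H →* Multiplicative ℤ) (ht : χ (q (FreeGroup.of o)) = Multiplicative.ofAdd 1)

/-- The shifts of the generators. -/
def cc (i : ι) : ℤ := (χ (q (FreeGroup.of i))).toAdd

theorem shf_cc (w : FreeGroup ι) : shf (cc q χ) w = χ (q w) := by
  have h : shf (cc q χ) = χ.comp q := by
    ext i
    unfold shf
    rw [FreeGroup.lift_apply_of]
    rfl
  exact DFunLike.congr_fun h w

include ht in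
theorem mem_kk (κ : ℤ) (g : H) :
    q (FreeGroup.of o) ^ κ * g * (q (FreeGroup.of o) ^ (κ + (χ g).toAdd))⁻¹ ∈ χ.ker := by
  rw [MonoidHom.mem_ker, map_mul, map_mul, map_inv, map_zpow, map_zpow, ht]
  apply Multiplicative.toAdd.injective
  rw [toAdd_mul, toAdd_mul, toAdd_inv, toAdd_zpow, toAdd_zpow, toAdd_ofAdd, toAdd_one,
    smul_eq_mul, smul_eq_mul]
  ring

variable {A : Type} [CommGroup A]

/-- The crossed homomorphism of a homomorphism of the kernel. -/
def zk (v : χ.ker →* A) : H →* LX A ℤ :=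
  MonoidHom.mk' (fun g => ⟨fun κ => v ⟨_, mem_kk q o χ ht κ g⟩, (χ g).toAdd⟩) (by
    intro g g'
    apply LX.ext
    · funext κ
      rw [LX.mul_v]
      show v ⟨_, mem_kk q o χ ht κ (g * g')⟩ =
        v ⟨_, mem_kk q o χ ht κ g⟩ * v ⟨_, mem_kk q o χ ht (κ + (χ g).toAdd) g'⟩
      rw [← map_mul]
      congr 1
      apply Subtype.ext
      show q (FreeGroup.of o) ^ κ * (g * g') *
          (q (FreeGroup.of o) ^ (κ + (χ (g * g')).toAdd))⁻¹ =
        (q (FreeGroup.of o) ^ κ * g * (q (FreeGroup.of o) ^ (κ + (χ g).toAdd))⁻¹) *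
        (q (FreeGroup.of o) ^ (κ + (χ g).toAdd) * g' *
          (q (FreeGroup.of o) ^ (κ + (χ g).toAdd + (χ g').toAdd))⁻¹)
      rw [map_mul, toAdd_mul, ← add_assoc]
      group
    · show (χ (g * g')).toAdd = (χ g).toAdd + (χ g').toAdd
      rw [map_mul, toAdd_mul])

theorem zk_v (v : χ.ker →* A) (g : H) (κ : ℤ) :
    (zk q o χ ht v g).v κ = v ⟨_, mem_kk q o χ ht κ g⟩ := rfl

theorem zk_eq (v : χ.ker →* A) (w : FreeGroup ι) :
    zk q o χ ht v (q w) =
      lz (cc q χ) (fun i κ => v ⟨_, mem_kk q o χ ht κ (q (FreeGroup.of i))⟩) w := by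
  have h : (zk q o χ ht v).comp q =
      lz (cc q χ) (fun i κ => v ⟨_, mem_kk q o χ ht κ (q (FreeGroup.of i))⟩) := by
    apply FreeGroup.ext_hom
    intro i
    rw [MonoidHom.comp_apply, lz_of]
    rfl
  exact DFunLike.congr_fun h w

theorem zk_inj (hq : Function.Surjective q) (v v' : χ.ker →* A)
    (h : ∀ i κ, v ⟨_, mem_kk q o χ ht κ (q (FreeGroup.of i))⟩ =
      v' ⟨_, mem_kk q o χ ht κ (q (FreeGroup.of i))⟩) : v = v' := by
  ext k
  obtain ⟨w, hw⟩ := hq k.1
  have h1 : zk q o χ ht v (q w) = zk q o χ ht v' (q w) := by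
    rw [zk_eq, zk_eq]
    congr 1
    have h2 : (fun i κ => v ⟨_, mem_kk q o χ ht κ (q (FreeGroup.of i))⟩) =
        (fun i κ => v' ⟨_, mem_kk q o χ ht κ (q (FreeGroup.of i))⟩) := by
      funext i κ
      exact h i κ
    rw [h2]
  have h3 := congrFun (congrArg LX.v h1) 0
  rw [zk_v, zk_v] at h3
  have h4 : (⟨_, mem_kk q o χ ht 0 (q w)⟩ : χ.ker) = k := by
    apply Subtype.ext
    show q (FreeGroup.of o) ^ (0 : ℤ) * q w *
      (q (FreeGroup.of o) ^ ((0 : ℤ) + (χ (q w)).toAdd))⁻¹ = k.1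
    rw [hw, (MonoidHom.mem_ker).1 k.2, toAdd_one, add_zero, zpow_zero, inv_one, one_mul, mul_one]
  rw [h4] at h3
  exact h3

include ht in
theorem fin_supp [Finite ι] [Finite A] (hq : Function.Surjective q) (R : Set (FreeGroup ι))
    (hR : R.Finite) (hRq : ∀ r ∈ R, q r = 1) (hinf : Infinite (χ.ker →* A)) :
    ∃ (f : ι → ℤ → A) (N : ℕ), (∀ i κ, (N : ℤ) < |κ| → f i κ = 1) ∧ (∀ κ, f o κ = 1) ∧
      (∃ i κ, f i κ ≠ 1) ∧ ∀ r ∈ R, ∀ κ, (lz (cc q χ) f r).v κ = 1 := by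
  classical
  obtain ⟨L, hL⟩ := exists_window_fin (cc q χ) R hR
  let φ : (χ.ker →* A) → ι → ℤ → A := fun v i κ => v ⟨_, mem_kk q o χ ht κ (q (FreeGroup.of i))⟩
  let P : Type := ι × Bool × Fin (2 * L + 1) → A
  have hP : Finite P := inferInstance
  have : Fintype P := Fintype.ofFinite P
  obtain ⟨V, hV⟩ := Infinite.exists_subset_card_eq (χ.ker →* A) (Fintype.card P + 1)
  have hw : ∀ v v' : χ.ker →* A, ∃ κ : ℤ, v ≠ v' → ∃ i, φ v i κ ≠ φ v' i κ := by
    intro v v'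
    by_cases hvv : v = v'
    · exact ⟨0, fun h => absurd hvv h⟩
    · by_contra hcon
      push Not at hcon
      exact hvv (zk_inj q o χ ht hq v v' (fun i κ => (hcon κ).2 i))
  choose wt hwt using hw
  obtain ⟨N, hN⟩ : ∃ N : ℕ, ∀ v ∈ V, ∀ v' ∈ V, |wt v v'| ≤ N := by
    refine ⟨(V ×ˢ V).sup (fun x => (wt x.1 x.2).natAbs), fun v hv v' hv' => ?_⟩
    have h1 := Finset.le_sup (f := fun x : (χ.ker →* A) × (χ.ker →* A) => (wt x.1 x.2).natAbs)
      (Finset.mk_mem_product hv hv')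
    rw [← Int.natCast_natAbs]
    exact_mod_cast h1
  let pat : (χ.ker →* A) → P := fun v x =>
    φ v x.1 (if x.2.1 then (N : ℤ) - x.2.2.1 else -((N : ℤ) - x.2.2.1))
  obtain ⟨v, hv, v', hv', hvv, hpat⟩ := Finset.exists_ne_map_eq_of_card_lt_of_maps_to
    (s := V) (t := Finset.univ) (f := pat) (by rw [hV, Finset.card_univ]; exact Nat.lt_succ_self _)
    (fun _ _ => Finset.mem_coe.2 (Finset.mem_univ _))
  let u : χ.ker →* A := v / v'
  have hu : ∀ i κ, φ u i κ = φ v i κ / φ v' i κ := fun i κ => rfl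
  have hshell : ∀ i κ, (N : ℤ) - 2 * L ≤ |κ| → |κ| ≤ N → φ u i κ = 1 := by
    intro i κ h1 h2
    rw [hu, div_eq_one]
    have hj : (N - |κ|).toNat < 2 * L + 1 := by omega
    rcases abs_cases κ with ⟨h3, h4⟩ | ⟨h3, h4⟩
    · have h5 := congrFun hpat (i, true, ⟨(N - |κ|).toNat, hj⟩)
      have h6 : (N : ℤ) - ((N - |κ|).toNat : ℤ) = κ := by omega
      have h7 : φ v i ((N : ℤ) - ((N - |κ|).toNat : ℤ)) =
        φ v' i ((N : ℤ) - ((N - |κ|).toNat : ℤ)) := h5
      rw [h6] at h7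
      exact h7
    · have h5 := congrFun hpat (i, false, ⟨(N - |κ|).toNat, hj⟩)
      have h6 : -((N : ℤ) - ((N - |κ|).toNat : ℤ)) = κ := by omega
      have h7 : φ v i (-((N : ℤ) - ((N - |κ|).toNat : ℤ))) =
        φ v' i (-((N : ℤ) - ((N - |κ|).toNat : ℤ))) := h5
      rw [h6] at h7
      exact h7
  refine ⟨fun i κ => if |κ| ≤ N then φ u i κ else 1, N, ?_, ?_, ?_, ?_⟩
  · intro i κ hκ
    exact if_neg (not_le.2 hκ)
  · intro κ
    show (if |κ| ≤ (N : ℤ) then φ u o κ else 1) = 1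
    split_ifs with h
    · have h1 : (⟨_, mem_kk q o χ ht κ (q (FreeGroup.of o))⟩ : χ.ker) = 1 := by
        apply Subtype.ext
        show q (FreeGroup.of o) ^ κ * q (FreeGroup.of o) *
          (q (FreeGroup.of o) ^ (κ + (χ (q (FreeGroup.of o))).toAdd))⁻¹ = 1
        rw [ht, toAdd_ofAdd, zpow_add, zpow_one, mul_inv_cancel]
      show u ⟨_, mem_kk q o χ ht κ (q (FreeGroup.of o))⟩ = 1
      rw [h1, map_one]
    · rfl
  · obtain ⟨i, hi⟩ := hwt v v' hvv
    refine ⟨i, wt v v', ?_⟩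
    show (if |wt v v'| ≤ (N : ℤ) then φ u i (wt v v') else 1) ≠ 1
    rw [if_pos (hN v hv v' hv'), hu]
    exact fun h => hi (div_eq_one.1 h)
  · intro r hr κ
    by_cases hκ : |κ| + L ≤ N
    · rw [hL r hr A _ (φ u) κ (fun i κ' hκ' => by
        have h1 : |κ'| ≤ N := by
          have h2 := abs_add_le (κ' - κ) κ
          rw [sub_add_cancel] at h2
          linarith
        exact if_pos h1)]
      have h1 := zk_eq q o χ ht u r
      rw [hRq r hr, map_one] at h1
      rw [← h1]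
      rfl
    · rw [hL r hr A _ (fun _ _ => 1) κ (fun i κ' hκ' => by
        show (if |κ'| ≤ (N : ℤ) then φ u i κ' else 1) = 1
        split_ifs with h
        · apply hshell i κ' _ h
          have h2 := abs_add_le (κ - κ') κ'
          rw [sub_add_cancel, abs_sub_comm] at h2
          linarith
        · rfl)]
      exact lz_one _ r κ

end

end EssMap
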