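import Pool.Agent.EssMap.Gen

/-!
# Passing to subgroups of finite index
-/

open CategoryTheory groupCohomology

namespace EssMap

variable {Q : Type} [Group Q] (S : Subgroup Q)

/-- The module coinduced from the group ring of the subgroup. -/
noncomputable abbrev CS : Rep ℤ Q := Rep.coind S.subtype (Rep.leftRegular ℤ S)

open Classical in
/-- The basic function with values in the group ring of the subgroup. -/
noncomputable def dz (x : Q) : Rep.leftRegular ℤ S :=
  if h : x ∈ S then MonoidAlgebra.single ⟨x, h⟩ 1 else 0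

theorem lr_rho {G : Type} [Group G] (g h : G) (m : ℤ) :
    (Rep.leftRegular ℤ G).ρ g (MonoidAlgebra.single h m) = MonoidAlgebra.single (g * h) m := by
  simp

theorem dz_mul (g : S) (x : Q) : dz S (g * x) = (Rep.leftRegular ℤ S).ρ g (dz S x) := by
  unfold dz
  by_cases h : x ∈ S
  · have h1 : (g : Q) * x ∈ S := S.mul_mem g.2 h
    rw [dif_pos h1, dif_pos h, lr_rho]
    rfl
  · have h1 : ¬ ((g : Q) * x ∈ S) := fun h2 => h ((Subgroup.mul_mem_cancel_left S g.2).1 h2)
    rw [dif_neg h1, dif_neg h, map_zero]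

/-- The basic element. -/
noncomputable def de : CS S := ⟨dz S, fun g x => dz_mul S g x⟩

/-- The comparison map. -/
noncomputable def ka : Rep.leftRegular ℤ Q ⟶ CS S := Rep.leftRegularHom (CS S) (de S)

theorem ka_single (t x : Q) :
    ((ka S).hom (MonoidAlgebra.single t 1)).1 x = dz S (x * t) := by
  unfold ka
  rw [Rep.leftRegularHom_hom_single, one_smul]
  rfl

theorem ka_single' (t x : Q) (m : ℤ) :
    ((ka S).hom (MonoidAlgebra.single t m)).1 x = m • dz S (x * t) := by
  unfold ka
  rw [Rep.leftRegularHom_hom_single]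
  rfl

theorem ka_coeff (a : Rep.leftRegular ℤ Q) (x : Q) (s : S) :
    (((ka S).hom a).1 x : MonoidAlgebra ℤ S).coeff s =
      (a : MonoidAlgebra ℤ Q).coeff (x⁻¹ * s) := by
  classical
  induction a using MonoidAlgebra.induction_linear with
  | zero =>
    have h1 : (ka S).hom (0 : Rep.leftRegular ℤ Q) = 0 := map_zero _
    have h2 : (((ka S).hom (0 : MonoidAlgebra ℤ Q)).1 x : MonoidAlgebra ℤ S) = 0 := by
      have := congrArg (fun F : CS S => F.1 x) h1
      exact this
    rw [h2]
    rfl
  | add a b ha hb =>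
    have h1 : (ka S).hom ((a + b : MonoidAlgebra ℤ Q)) = (ka S).hom a + (ka S).hom b :=
      map_add _ _ _
    have h2 : (((ka S).hom ((a + b : MonoidAlgebra ℤ Q))).1 x : MonoidAlgebra ℤ S) =
        ((ka S).hom a).1 x + ((ka S).hom b).1 x := by
      have := congrArg (fun F : CS S => F.1 x) h1
      exact this
    rw [h2, MonoidAlgebra.coeff_add, MonoidAlgebra.coeff_add, Finsupp.add_apply,
      Finsupp.add_apply, ha, hb]
  | single t m =>
    rw [ka_single']
    unfold dz
    by_cases h : x * t ∈ S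
    · rw [dif_pos h]
      have h1 : (m • (MonoidAlgebra.single (⟨x * t, h⟩ : S) (1 : ℤ)) : MonoidAlgebra ℤ S) =
          MonoidAlgebra.single (⟨x * t, h⟩ : S) m := by
        rw [MonoidAlgebra.smul_single, smul_eq_mul, mul_one]
      have h2 : ((m • (MonoidAlgebra.single (⟨x * t, h⟩ : S) (1 : ℤ)) :
          Rep.leftRegular ℤ S) : MonoidAlgebra ℤ S) =
          MonoidAlgebra.single (⟨x * t, h⟩ : S) m := h1
      rw [h2, MonoidAlgebra.coeff_single, MonoidAlgebra.coeff_single, Finsupp.single_apply,
        Finsupp.single_apply]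
      have h3 : (⟨x * t, h⟩ : S) = s ↔ t = x⁻¹ * s := by
        constructor
        · rintro rfl
          simp
        · intro h4
          apply Subtype.ext
          show x * t = s
          rw [h4]
          simp
      simp only [h3]
    · rw [dif_neg h, smul_zero, MonoidAlgebra.coeff_single, Finsupp.single_apply, if_neg]
      · rfl
      · intro h4
        apply h
        rw [h4]
        simp

theorem ka_injective : Function.Injective (ka S).hom := by
  intro a b hab
  apply MonoidAlgebra.coeff_injective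
  ext q
  have h1 := ka_coeff S a q⁻¹ 1
  have h2 := ka_coeff S b q⁻¹ 1
  rw [hab, h2] at h1
  simpa using h1.symm

/-- The image of an element of the group ring of the subgroup, translated. -/
noncomputable def tl (t : Q) : MonoidAlgebra ℤ S →+ MonoidAlgebra ℤ Q where
  toFun b := MonoidAlgebra.ofCoeff (b.coeff.mapDomain (fun s : S => t * (s : Q)))
  map_zero' := by simp
  map_add' a b := by
    rw [MonoidAlgebra.coeff_add, Finsupp.mapDomain_add]
    rfl

theorem tl_coeff (t : Q) (b : MonoidAlgebra ℤ S) (s : S) :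
    (tl S t b).coeff (t * s) = b.coeff s := by
  show (b.coeff.mapDomain (fun s : S => t * (s : Q))) (t * (s : Q)) = _
  have hinj : Function.Injective (fun s : S => t * (s : Q)) := by
    intro a b hab
    exact Subtype.ext (mul_left_cancel hab)
  exact Finsupp.mapDomain_apply hinj _ _

theorem tl_coeff_zero (t : Q) (b : MonoidAlgebra ℤ S) (q : Q) (h : t⁻¹ * q ∉ S) :
    (tl S t b).coeff q = 0 := by
  show (b.coeff.mapDomain (fun s : S => t * (s : Q))) q = _
  apply Finsupp.mapDomain_of_notMem_range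
  rintro ⟨s, rfl⟩
  apply h
  simp

theorem rho_coeff {G : Type} [Group G] (g : G) (b : Rep.leftRegular ℤ G) (s : G) :
    (((Rep.leftRegular ℤ G).ρ g b : Rep.leftRegular ℤ G) : MonoidAlgebra ℤ G).coeff s =
      (b : MonoidAlgebra ℤ G).coeff (g⁻¹ * s) := by
  have h : (((Rep.leftRegular ℤ G).ρ g b : Rep.leftRegular ℤ G) : MonoidAlgebra ℤ G).coeff =
      (b : MonoidAlgebra ℤ G).coeff.mapDomain (g • ·) := rfl
  rw [h]
  have hinj : Function.Injective (fun x : G => g • x) := fun a b hab => mul_left_cancel hab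
  have h2 := Finsupp.mapDomain_apply hinj (b : MonoidAlgebra ℤ G).coeff (g⁻¹ * s)
  have h3 : g • (g⁻¹ * s) = s := by
    rw [smul_eq_mul]
    group
  rw [h3] at h2
  exact h2

theorem ka_surjective [S.FiniteIndex] : Function.Surjective (ka S).hom := by
  classical
  intro F
  have := S.fintypeQuotientOfFiniteIndex
  refine ⟨(∑ t : Q ⧸ S, tl S t.out (F.1 (t.out)⁻¹) : MonoidAlgebra ℤ Q), ?_⟩
  apply Subtype.ext
  funext x
  apply MonoidAlgebra.coeff_injective
  ext s
  rw [ka_coeff]
  have h0 : (∑ t : Q ⧸ S, tl S t.out (F.1 (t.out)⁻¹) : MonoidAlgebra ℤ Q).coeff (x⁻¹ * s) =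
      ∑ t : Q ⧸ S, (tl S t.out (F.1 (t.out)⁻¹)).coeff (x⁻¹ * s) := by
    rw [MonoidAlgebra.coeff_sum, Finsupp.finsetSum_apply]
  refine h0.trans ?_
  rw [Finset.sum_eq_single (QuotientGroup.mk x⁻¹ : Q ⧸ S)]
  · set t : Q := (QuotientGroup.mk x⁻¹ : Q ⧸ S).out with ht
    have h1 : (QuotientGroup.mk x⁻¹ : Q ⧸ S) = QuotientGroup.mk t := by
      rw [ht, QuotientGroup.out_eq']
    have h2 : x * t ∈ S := by
      rw [QuotientGroup.eq, inv_inv] at h1
      exact h1
    have h3 : x⁻¹ * s = t * ((⟨x * t, h2⟩ : S)⁻¹ * s : S) := by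
      push_cast
      group
    have h4 := F.2 ⟨x * t, h2⟩ t⁻¹
    have h5 : S.subtype ⟨x * t, h2⟩ * t⁻¹ = x := by
      show x * t * t⁻¹ = x
      group
    rw [h5] at h4
    rw [h3, tl_coeff, h4]
    exact (rho_coeff _ _ _).symm
  · intro t _ ht
    apply tl_coeff_zero
    intro h
    apply ht
    rw [← QuotientGroup.out_eq' t]
    symm
    rw [QuotientGroup.eq, inv_inv]
    have h6 := S.inv_mem h
    have h7 : x * t.out = s * ((t.out)⁻¹ * (x⁻¹ * s))⁻¹ := by group
    rw [h7]
    exact S.mul_mem s.2 h6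
  · intro h
    exact absurd (Finset.mem_univ _) h

end EssMap
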