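import Pool.Agent.EssMap.Link

/-!
# The abelianization of the kernel of a homomorphism to the integers
-/

namespace EssMap

theorem tors_of_no_hom {A : Type} [AddCommGroup A] (h : ∀ f : A →+ ℚ, f = 0) (x : A) :
    ∃ n : ℕ, 0 < n ∧ n • x = 0 := by
  by_contra hcon
  push Not at hcon
  have hinj : Function.Injective (zmultiplesHom A x) := by
    rw [injective_iff_map_eq_zero]
    intro m hm
    rw [zmultiplesHom_apply] at hm
    by_contra hm0
    apply hcon m.natAbs (Int.natAbs_pos.2 hm0)
    rcases Int.natAbs_eq m with h1 | h1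
    · rw [h1, natCast_zsmul] at hm
      exact hm
    · rw [h1, neg_zsmul, natCast_zsmul, neg_eq_zero] at hm
      exact hm
  obtain ⟨F, hF⟩ := (Module.Baer.of_divisible ℚ).extension_property_addMonoidHom
    (zmultiplesHom A x) hinj (Int.castAddHom ℚ)
  have h1 := DFunLike.congr_fun hF 1
  rw [h F] at h1
  have h2 : (0 : ℚ) = ((1 : ℤ) : ℚ) := h1
  norm_num at h2

section ker

variable {G : Type} [Group G] (a : G →* Multiplicative ℤ)

theorem exists_pow_comm (h : ∀ f : a.ker →* Multiplicative ℚ, f = 1) (x : a.ker) :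
    ∃ n : ℕ, 0 < n ∧ x ^ n ∈ commutator a.ker := by
  obtain ⟨n, hn, hn2⟩ := tors_of_no_hom (A := Additive (Abelianization a.ker)) (fun f => by
    let g : a.ker →* Multiplicative ℚ := MonoidHom.mk'
      (fun y => Multiplicative.ofAdd (f (Additive.ofMul (Abelianization.of y)))) (fun y z => by
        rw [← ofAdd_add, ← map_add, map_mul, ofMul_mul])
    have hg := h g
    apply AddMonoidHom.ext
    intro y
    obtain ⟨z, hz⟩ := QuotientGroup.mk'_surjective _ y.toMul
    have h1 : y = Additive.ofMul (Abelianization.of z) := by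
      show y = Additive.ofMul (QuotientGroup.mk' (commutator a.ker) z)
      rw [hz]
      rfl
    have h2 := DFunLike.congr_fun hg z
    rw [h1]
    exact Multiplicative.ofAdd.injective h2) (Additive.ofMul (Abelianization.of x))
  refine ⟨n, hn, ?_⟩
  rw [← ofMul_pow, ← map_pow] at hn2
  have h3 : Abelianization.of (x ^ n) = 1 := Additive.ofMul.injective hn2
  exact (QuotientGroup.eq_one_iff _).1 h3

/-- The elements of the kernel whose class in the abelianization is killed by `e`. -/
def Te (e : ℕ) : Subgroup G :=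
  (((powMonoidHom e : Abelianization a.ker →* Abelianization a.ker).comp
    Abelianization.of).ker).map a.ker.subtype

theorem mem_Te (e : ℕ) (x : a.ker) : (x : G) ∈ Te a e ↔ x ^ e ∈ commutator a.ker := by
  have h1 : x ^ e ∈ commutator a.ker ↔ (Abelianization.of x) ^ e = 1 := by
    rw [← map_pow]
    exact (QuotientGroup.eq_one_iff _).symm
  rw [h1]
  constructor
  · rintro ⟨y, hy, hyx⟩
    have h2 : y = x := Subtype.ext hyx
    rw [← h2]
    exact hy
  · intro h
    exact ⟨x, h, rfl⟩

theorem Te_conj (e : ℕ) (g x : G) (hx : x ∈ Te a e) : g * x * g⁻¹ ∈ Te a e := by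
  obtain ⟨y, hy, rfl⟩ := hx
  have h1 : y ^ e ∈ commutator a.ker := (mem_Te a e y).1 ⟨y, hy, rfl⟩
  have h2 : g * (y : G) * g⁻¹ = ((MulAut.conjNormal g y : a.ker) : G) := by
    rw [MulAut.conjNormal_apply]
  show g * (y : G) * g⁻¹ ∈ Te a e
  rw [h2, mem_Te, ← map_pow]
  have h3 : (commutator a.ker).Characteristic := inferInstance
  have h4 := h3.fixed (MulAut.conjNormal g)
  have h5 : y ^ e ∈ (commutator a.ker).comap (MulAut.conjNormal g).toMonoidHom := by
    rw [h4]
    exact h1
  exact h5

theorem exists_exp [Group.FG G] (t : G) (ht : a t = Multiplicative.ofAdd 1)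
    (h : ∀ f : a.ker →* Multiplicative ℚ, f = 1) :
    ∃ e : ℕ, 0 < e ∧ ∀ x : a.ker, x ^ e ∈ commutator a.ker := by
  classical
  obtain ⟨r, g, hg⟩ := exists_gens (G := G)
  have hker : ∀ g : G, g * t ^ (-(a g).toAdd) ∈ a.ker := by
    intro g
    rw [MonoidHom.mem_ker, map_mul a, map_zpow a, ht]
    apply Multiplicative.toAdd.injective
    rw [toAdd_mul, toAdd_zpow, toAdd_one]
    show (a g).toAdd + (-(a g).toAdd) • (1 : ℤ) = 0
    rw [smul_eq_mul, mul_one, add_neg_cancel]
  choose n hn hn2 using fun i : Fin r => exists_pow_comm a h ⟨_, hker (g i)⟩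
  refine ⟨∏ i, n i, Finset.prod_pos (fun i _ => hn i), ?_⟩
  set e := ∏ i, n i with he
  let U : Subgroup G :=
    { carrier := {x | x * t ^ (-(a x).toAdd) ∈ Te a e}
      one_mem' := by
        show 1 * t ^ (-(a 1).toAdd) ∈ Te a e
        rw [map_one, toAdd_one, neg_zero, zpow_zero, mul_one]
        exact (Te a e).one_mem
      mul_mem' := by
        intro x y hx hy
        have h1 : x * y * t ^ (-(a (x * y)).toAdd) = x * t ^ (-(a x).toAdd) *
            (t ^ (a x).toAdd * (y * t ^ (-(a y).toAdd)) * (t ^ (a x).toAdd)⁻¹) := by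
          rw [map_mul a, toAdd_mul, neg_add, zpow_add, zpow_neg, zpow_neg]
          group
        show x * y * t ^ (-(a (x * y)).toAdd) ∈ Te a e
        rw [h1]
        exact (Te a e).mul_mem hx (Te_conj a e _ _ hy)
      inv_mem' := by
        intro x hx
        have h1 : x⁻¹ * t ^ (-(a x⁻¹).toAdd) =
            (t ^ (a x).toAdd)⁻¹ * (x * t ^ (-(a x).toAdd))⁻¹ * ((t ^ (a x).toAdd)⁻¹)⁻¹ := by
          rw [map_inv a, toAdd_inv, neg_neg, zpow_neg]
          group
        show x⁻¹ * t ^ (-(a x⁻¹).toAdd) ∈ Te a e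
        rw [h1]
        exact Te_conj a e _ _ ((Te a e).inv_mem hx) }
  have hU : U = ⊤ := by
    rw [eq_top_iff, ← hg, Subgroup.closure_le]
    rintro _ ⟨i, rfl⟩
    show g i * t ^ (-(a (g i)).toAdd) ∈ Te a e
    have h1 := mem_Te a e ⟨_, hker (g i)⟩
    rw [h1, he, ← Finset.mul_prod_erase Finset.univ n (Finset.mem_univ i), pow_mul]
    exact (commutator a.ker).pow_mem (hn2 i) _
  intro x
  rw [← mem_Te]
  have h1 : (x : G) ∈ U := by
    rw [hU]
    exact Subgroup.mem_top _
  have h2 : (x : G) * t ^ (-(a x).toAdd) ∈ Te a e := h1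
  have hx : a x = 1 := x.2
  rw [hx, toAdd_one, neg_zero, zpow_zero, mul_one] at h2
  exact h2

/-- A power of `t` fixes all homomorphisms to a finite group, if there are finitely many. -/
theorem exists_pow_fix {M : Type} [CommGroup M] (t : G) (hfin : Finite (a.ker →* M)) :
    ∃ m : ℕ, 0 < m ∧ ∀ v : a.ker →* M, t ^ m ∈ Stb a v := by
  let Φ : G →* Equiv.Perm (a.ker →* M) :=
    { toFun := fun g =>
        { toFun := fun v => v.comp (MulAut.conjNormal g⁻¹ : MulAut a.ker).toMonoidHom
          invFun := fun v => v.comp (MulAut.conjNormal g : MulAut a.ker).toMonoidHom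
          left_inv := fun v => by
            ext x
            show v ((MulAut.conjNormal g⁻¹ : MulAut a.ker) ((MulAut.conjNormal g : MulAut a.ker) x)) = v x
            congr 1
            apply Subtype.ext
            rw [MulAut.conjNormal_apply, MulAut.conjNormal_apply]
            group
          right_inv := fun v => by
            ext x
            show v ((MulAut.conjNormal g : MulAut a.ker) ((MulAut.conjNormal g⁻¹ : MulAut a.ker) x)) = v x
            congr 1
            apply Subtype.ext
            rw [MulAut.conjNormal_apply, MulAut.conjNormal_apply]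
            group }
      map_one' := by
        ext v x
        show v ((MulAut.conjNormal (1 : G)⁻¹ : MulAut a.ker) x) = v x
        congr 1
        apply Subtype.ext
        simp
      map_mul' := by
        intro g h
        ext v x
        show v ((MulAut.conjNormal (g * h)⁻¹ : MulAut a.ker) x) =
          v ((MulAut.conjNormal h⁻¹ : MulAut a.ker) ((MulAut.conjNormal g⁻¹ : MulAut a.ker) x))
        congr 1
        apply Subtype.ext
        rw [MulAut.conjNormal_apply, MulAut.conjNormal_apply, MulAut.conjNormal_apply]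
        group }
  obtain ⟨m, hm, hm2⟩ := (isOfFinOrder_of_finite (Φ t)).exists_pow_eq_one
  refine ⟨m, hm, fun v x y hy => ?_⟩
  rw [← map_pow] at hm2
  have h1 := congrArg (fun F => F v y) hm2
  have h2 : v ((MulAut.conjNormal (t ^ m)⁻¹ : MulAut a.ker) y) = v y := h1
  rw [← h2]
  congr 1
  apply Subtype.ext
  rw [MulAut.conjNormal_apply, hy]
  group

end ker

theorem exists_norm {G : Type} [Group G] (a : G →* Multiplicative ℤ) (ha : a ≠ 1) :
    ∃ (a₀ : G →* Multiplicative ℤ) (t : G) (r : ℤ), r ≠ 0 ∧ a₀ t = Multiplicative.ofAdd 1 ∧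
      ∀ g, (a g).toAdd = r * (a₀ g).toAdd := by
  let R : AddSubgroup ℤ :=
    { carrier := {n | ∃ g, (a g).toAdd = n}
      zero_mem' := ⟨1, by rw [map_one, toAdd_one]⟩
      add_mem' := by
        rintro _ _ ⟨x, rfl⟩ ⟨y, rfl⟩
        exact ⟨x * y, by rw [map_mul, toAdd_mul]⟩
      neg_mem' := by
        rintro _ ⟨x, rfl⟩
        exact ⟨x⁻¹, by rw [map_inv, toAdd_inv]⟩ }
  obtain ⟨r, hr⟩ := Int.subgroup_cyclic R
  have hall : ∀ g, ∃ n : ℤ, r * n = (a g).toAdd := by
    intro g
    have h3 : (a g).toAdd ∈ R := ⟨g, rfl⟩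
    rw [hr, AddSubgroup.mem_closure_singleton] at h3
    obtain ⟨n, hn⟩ := h3
    exact ⟨n, by rw [← hn, smul_eq_mul, mul_comm]⟩
  have hrR : r ∈ R := by
    rw [hr]
    exact AddSubgroup.mem_closure_of_mem rfl
  obtain ⟨t, ht⟩ := hrR
  choose n hn using hall
  have hr0 : r ≠ 0 := by
    rintro rfl
    apply ha
    ext g
    have h1 := hn g
    rw [zero_mul] at h1
    exact Multiplicative.toAdd.injective h1.symm
  refine ⟨MonoidHom.mk' (fun g => Multiplicative.ofAdd (n g)) ?_, t, r, hr0, ?_,
    fun g => (hn g).symm⟩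
  · intro x y
    rw [← ofAdd_add]
    congr 1
    apply mul_left_cancel₀ hr0
    rw [mul_add, hn, hn, hn, map_mul, toAdd_mul]
  · show Multiplicative.ofAdd (n t) = _
    congr 1
    apply mul_left_cancel₀ hr0
    rw [hn, ht, mul_one]

theorem exists_pres {G : Type} [Group G] (h : Group.IsFinitelyPresented G) (t : G) :
    ∃ (ι : Type) (_ : Finite ι) (q : FreeGroup ι →* G) (o : ι) (R : Set (FreeGroup ι)),
      Function.Surjective q ∧ q (FreeGroup.of o) = t ∧ R.Finite ∧
      Subgroup.normalClosure R = q.ker := by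
  obtain ⟨n, q, hq, R, hRf, hR⟩ := h.out
  obtain ⟨wt, hwt⟩ := hq t
  let Q : FreeGroup (Option (Fin n)) →* G :=
    FreeGroup.lift (fun o => o.elim t (fun i => q (FreeGroup.of i)))
  let m : FreeGroup (Fin n) →* FreeGroup (Option (Fin n)) := FreeGroup.map some
  let r : FreeGroup (Option (Fin n)) →* FreeGroup (Fin n) :=
    FreeGroup.lift (fun o => o.elim wt FreeGroup.of)
  have hQn : Q (FreeGroup.of none) = t := by
    show FreeGroup.lift _ _ = _
    rw [FreeGroup.lift_apply_of]
    rfl
  have hQm : Q.comp m = q := by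
    ext i
    show Q (FreeGroup.map some (FreeGroup.of i)) = q (FreeGroup.of i)
    rw [FreeGroup.map.of]
    show FreeGroup.lift _ _ = _
    rw [FreeGroup.lift_apply_of]
    rfl
  have hqr : q.comp r = Q := by
    ext o
    show q (FreeGroup.lift _ (FreeGroup.of o)) = FreeGroup.lift _ (FreeGroup.of o)
    rw [FreeGroup.lift_apply_of, FreeGroup.lift_apply_of]
    cases o with
    | none => exact hwt
    | some i => rfl
  have hrn : r (FreeGroup.of none) = wt := by
    show FreeGroup.lift _ _ = _
    rw [FreeGroup.lift_apply_of]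
    rfl
  have hrs : ∀ i, r (FreeGroup.of (some i)) = FreeGroup.of i := by
    intro i
    show FreeGroup.lift _ _ = _
    rw [FreeGroup.lift_apply_of]
    rfl
  let R' : Set (FreeGroup (Option (Fin n))) := m '' R ∪ {(FreeGroup.of none)⁻¹ * m wt}
  have hker : ∀ w ∈ R, q w = 1 := by
    intro w hw
    have h1 : w ∈ q.ker := by
      rw [← hR]
      exact Subgroup.subset_normalClosure hw
    exact h1
  refine ⟨Option (Fin n), inferInstance, Q, none, R', ?_, hQn,
    (hRf.image _).union (Set.finite_singleton _), ?_⟩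
  · intro g
    obtain ⟨w, rfl⟩ := hq g
    exact ⟨m w, DFunLike.congr_fun hQm w⟩
  · apply le_antisymm
    · apply Subgroup.normalClosure_le_normal
      rintro _ (⟨w, hw, rfl⟩ | hw)
      · have h1 := DFunLike.congr_fun hQm w
        exact h1.trans (hker w hw)
      · rw [Set.mem_singleton_iff] at hw
        subst hw
        show Q _ = 1
        have h1 := DFunLike.congr_fun hQm wt
        have h2 : Q (m wt) = t := h1.trans hwt
        rw [map_mul, map_inv, hQn, h2, inv_mul_cancel]
    · intro w hw
      have h1 : (QuotientGroup.mk' (Subgroup.normalClosure R')).comp (m.comp r) =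
          QuotientGroup.mk' (Subgroup.normalClosure R') := by
        ext o
        show QuotientGroup.mk' _ (m (r (FreeGroup.of o))) = QuotientGroup.mk' _ (FreeGroup.of o)
        cases o with
        | none =>
          rw [hrn]
          symm
          apply QuotientGroup.eq.2
          exact Subgroup.subset_normalClosure (Or.inr rfl)
        | some i =>
          rw [hrs]
          show QuotientGroup.mk' _ (FreeGroup.map some (FreeGroup.of i)) = _
          rw [FreeGroup.map.of]
      have h2 : r w ∈ q.ker := by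
        rw [MonoidHom.mem_ker]
        have h3 := DFunLike.congr_fun hqr w
        exact h3.trans hw
      rw [← hR] at h2
      have h4 : Subgroup.normalClosure R ≤ (Subgroup.normalClosure R').comap m := by
        apply Subgroup.normalClosure_le_normal
        intro x hx
        exact Subgroup.subset_normalClosure (Or.inl ⟨x, hx, rfl⟩)
      have h5 : m (r w) ∈ Subgroup.normalClosure R' := h4 h2
      have h6 := DFunLike.congr_fun h1 w
      have h7 : QuotientGroup.mk' (Subgroup.normalClosure R') (m (r w)) = 1 :=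
        (QuotientGroup.eq_one_iff _).2 h5
      have h8 : QuotientGroup.mk' (Subgroup.normalClosure R') w = 1 := h6.symm.trans h7
      exact (QuotientGroup.eq_one_iff _).1 h8

end EssMap
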