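import Pool.Agent.EssMap.Coz
import Pool.Agent.EssMap.Lat

/-!
# Bounds for the spaces of crossed homomorphisms
-/

namespace EssMap

variable {G : Type} [Group G] {ι ρ : Type} (q : FreeGroup ι →* G) (R0 : ρ → FreeGroup ι)
variable {X : Type} [Group X] (π : G →* X)

theorem coz_zero (z : FreeGroup ι → X → ℂ) (hz : IsCoz q π z)
    (h : ∀ j x, z (FreeGroup.of j) x = 0) (w : FreeGroup ι) (x : X) : z w x = 0 := by
  induction w using FreeGroup.induction_on generalizing x with
  | C1 => exact hz.one x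
  | of i => exact h i x
  | inv_of i _ => rw [hz.inv, h, neg_zero]
  | mul w w' hw hw' => rw [hz, hw, hw', add_zero]

theorem Zx_fd [Fintype ι] [Fintype X] : FiniteDimensional ℂ (Zx q R0 π) := by
  let ev : Zx q R0 π →ₗ[ℂ] (ι → X → ℂ) :=
    { toFun := fun z j x => z.1 (FreeGroup.of j) x
      map_add' := fun _ _ => rfl
      map_smul' := fun _ _ => rfl }
  apply FiniteDimensional.of_injective ev
  rw [injective_iff_map_eq_zero]
  intro z hz
  apply Subtype.ext
  funext w x
  exact coz_zero q π z.1 z.2.1 (fun j x => congrFun (congrFun hz j) x) w x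

section lower

variable (s : X → G) (hs : ∀ x, π (s x) = x)

include hs in
theorem rr_mem (g : G) : g * (s (π g))⁻¹ ∈ π.ker := by
  rw [MonoidHom.mem_ker, map_mul, map_inv, hs, mul_inv_cancel]

/-- The function. -/
noncomputable def psi (f : π.ker → ℂ) (u : X → ℂ) (g : G) : ℂ :=
  f ⟨g * (s (π g))⁻¹, rr_mem π s hs g⟩ + u (π g)

theorem psi_mul (f : Addf π.ker ℂ) (u : X → ℂ) (n g : G) (hn : n ∈ π.ker) :
    psi π s hs f.1 u (n * g) = f.1 ⟨n, hn⟩ + psi π s hs f.1 u g := by
  have h1 : π (n * g) = π g := by rw [map_mul, (MonoidHom.mem_ker).1 hn, one_mul]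
  have h2 : (⟨n * g * (s (π (n * g)))⁻¹, rr_mem π s hs (n * g)⟩ : π.ker) =
      ⟨n, hn⟩ * ⟨g * (s (π g))⁻¹, rr_mem π s hs g⟩ := by
    apply Subtype.ext
    show n * g * (s (π (n * g)))⁻¹ = n * (g * (s (π g))⁻¹)
    rw [h1, mul_assoc]
  unfold psi
  rw [h2, f.2, h1, add_assoc]

/-- The associated crossed homomorphism. -/
noncomputable def zz (f : π.ker → ℂ) (u : X → ℂ) (w : FreeGroup ι) (x : X) : ℂ :=
  psi π s hs f u (s x * q w) - psi π s hs f u (s x)

theorem zz_coz (f : Addf π.ker ℂ) (u : X → ℂ) : IsCoz q π (zz q π s hs f.1 u) := by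
  intro w w' x
  have h1 : π (s x * q w) = x * π (q w) := by rw [map_mul, hs]
  have h2 : s x * q w = (s x * q w * (s (π (s x * q w)))⁻¹) * s (x * π (q w)) := by
    rw [h1, inv_mul_cancel_right]
  have h3 := psi_mul π s hs f u _ (s (x * π (q w))) (rr_mem π s hs (s x * q w))
  have h4 := psi_mul π s hs f u _ (s (x * π (q w)) * q w') (rr_mem π s hs (s x * q w))
  rw [← mul_assoc _ _ (q w'), ← h2] at h4
  rw [← h2] at h3
  show psi π s hs f.1 u (s x * q (w * w')) - psi π s hs f.1 u (s x) =
    (psi π s hs f.1 u (s x * q w) - psi π s hs f.1 u (s x)) +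
      (psi π s hs f.1 u (s (x * π (q w)) * q w') - psi π s hs f.1 u (s (x * π (q w))))
  rw [map_mul, ← mul_assoc, h3, h4]
  ring

end lower

theorem kap_lower [Fintype ι] [Fintype X] [Group.FG G] (hq : Function.Surjective q)
    (hπ : Function.Surjective π) (hR : ∀ r, q (R0 r) = 1) :
    Module.finrank ℂ (Addf π.ker ℂ) + Fintype.card X ≤ Module.finrank ℂ (Zx q R0 π) + 1 := by
  classical
  let s : X → G := Function.surjInv hπ
  have hs : ∀ x, π (s x) = x := Function.surjInv_eq hπ
  have hk : π.ker.FiniteIndex := inferInstance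
  have hfg : Group.FG π.ker := inferInstance
  have i1 := addf_fd (H := π.ker) (K := ℂ)
  have i2 := Zx_fd q R0 π
  let L : (Addf π.ker ℂ × (X → ℂ)) →ₗ[ℂ] (Zx q R0 π × ℂ) :=
    { toFun := fun p => (⟨zz q π s hs p.1.1 p.2, zz_coz q π s hs p.1 p.2, fun r x => by
        show psi π s hs p.1.1 p.2 (s x * q (R0 r)) - psi π s hs p.1.1 p.2 (s x) = 0
        rw [hR, mul_one, sub_self]⟩, p.2 1)
      map_add' := fun p p' => by
        apply Prod.ext
        · apply Subtype.ext
          funext w x
          show ((p.1.1 + p'.1.1) _ + (p.2 + p'.2) _) - ((p.1.1 + p'.1.1) _ + (p.2 + p'.2) _) =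
            ((p.1.1 _ + p.2 _) - (p.1.1 _ + p.2 _)) + ((p'.1.1 _ + p'.2 _) - (p'.1.1 _ + p'.2 _))
          simp only [Pi.add_apply]
          ring
        · rfl
      map_smul' := fun c p => by
        apply Prod.ext
        · apply Subtype.ext
          funext w x
          show (c * p.1.1 _ + c * p.2 _) - (c * p.1.1 _ + c * p.2 _) =
            c * ((p.1.1 _ + p.2 _) - (p.1.1 _ + p.2 _))
          ring
        · rfl }
  have hL : Function.Injective L := by
    rw [injective_iff_map_eq_zero]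
    rintro ⟨f, u⟩ h
    have h1 : ∀ w x, psi π s hs f.1 u (s x * q w) - psi π s hs f.1 u (s x) = 0 := fun w x =>
      congrFun (congrFun (congrArg (fun p => p.1.1) h) w) x
    have h2 : u 1 = 0 := congrArg Prod.snd h
    have hf1 : f.1 1 = 0 := by
      have h3 := f.2 1 1
      rw [mul_one] at h3
      exact left_eq_add.1 h3
    have hsx : ∀ x, psi π s hs f.1 u (s x) = u x := by
      intro x
      have h3 : (⟨s x * (s (π (s x)))⁻¹, rr_mem π s hs (s x)⟩ : π.ker) = 1 := by
        apply Subtype.ext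
        show s x * (s (π (s x)))⁻¹ = 1
        rw [hs, mul_inv_cancel]
      show f.1 _ + u (π (s x)) = u x
      rw [h3, hf1, zero_add, hs]
    have h0 : ∀ g, psi π s hs f.1 u g = 0 := by
      intro g
      obtain ⟨w, hw⟩ := hq ((s 1)⁻¹ * g)
      have h3 := h1 w 1
      rw [hw, mul_inv_cancel_left, hsx, h2, sub_zero] at h3
      exact h3
    have hu : u = 0 := by
      funext x
      rw [← hsx x, h0]
      rfl
    have hf : f = 0 := by
      apply Subtype.ext
      funext n
      have h3 := psi_mul π s hs f u n.1 (s 1) n.2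
      rw [h0, h0, add_zero] at h3
      exact h3.symm
    rw [hu, hf]
    rfl
  have h := LinearMap.finrank_le_finrank_of_injective hL
  rw [Module.finrank_prod, Module.finrank_prod, Module.finrank_fintype_fun_eq_card,
    Module.finrank_self] at h
  exact h

theorem kap_upper {κ : Type} [Fintype ι] [Fintype κ] [Fintype X] (hπ : Function.Surjective π)
    (hq : Function.Surjective q) (hR : ∀ r, q (R0 r) = 1) (P : Subgroup G) (hP : π.ker ≤ P)
    (w : κ → FreeGroup ι) (hw : ∀ j, q (w j) ∈ P)
    (hcl : P.comap q ≤ Subgroup.closure (Set.range w ∪ Set.range R0)) :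
    Module.finrank ℂ (Zx q R0 π) ≤
      Fintype.card X + Fintype.card κ * Nat.card (P.map π) := by
  classical
  have hsurj : Function.Surjective (π.comp q) := hπ.comp hq
  let τ : X → FreeGroup ι := Function.surjInv hsurj
  have hτ : ∀ x, π (q (τ x)) = x := Function.surjInv_eq hsurj
  have i0 : Fintype (P.map π) := Fintype.ofFinite _
  let L : Zx q R0 π →ₗ[ℂ] ((X → ℂ) × (κ × (P.map π) → ℂ)) :=
    { toFun := fun z => (fun x => z.1 (τ x) 1, fun jy => z.1 (w jy.1) jy.2.1)
      map_add' := fun _ _ => rfl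
      map_smul' := fun _ _ => rfl }
  have hL : Function.Injective L := by
    rw [injective_iff_map_eq_zero]
    intro z hz
    have h1 : ∀ x, z.1 (τ x) 1 = 0 := fun x => congrFun (congrArg Prod.fst hz) x
    have h2 : ∀ j, ∀ y ∈ P.map π, z.1 (w j) y = 0 := fun j y hy =>
      congrFun (congrArg Prod.snd hz) (j, ⟨y, hy⟩)
    let S : Subgroup (FreeGroup ι) :=
      { carrier := {u | q u ∈ P ∧ ∀ y ∈ P.map π, z.1 u y = 0}
        one_mem' := ⟨by rw [map_one]; exact P.one_mem, fun y _ => z.2.1.one y⟩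
        mul_mem' := by
          rintro u u' ⟨hu1, hu2⟩ ⟨hu3, hu4⟩
          refine ⟨by rw [map_mul]; exact P.mul_mem hu1 hu3, fun y hy => ?_⟩
          rw [z.2.1, hu2 y hy, hu4 _ ((P.map π).mul_mem hy (Subgroup.mem_map_of_mem π hu1)),
            add_zero]
        inv_mem' := by
          rintro u ⟨hu1, hu2⟩
          refine ⟨by rw [map_inv]; exact P.inv_mem hu1, fun y hy => ?_⟩
          rw [z.2.1.inv, hu2 _ ((P.map π).mul_mem hy
            ((P.map π).inv_mem (Subgroup.mem_map_of_mem π hu1))), neg_zero] }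
    have hS : P.comap q ≤ S := by
      refine hcl.trans ((Subgroup.closure_le S).2 ?_)
      rintro u (⟨j, rfl⟩ | ⟨r, rfl⟩)
      · exact ⟨hw j, h2 j⟩
      · exact ⟨by rw [hR]; exact P.one_mem, fun y _ => z.2.2 r y⟩
    apply Subtype.ext
    funext u x
    show z.1 u x = 0
    have h3 : z.1 (τ x * u * (τ (x * π (q u)))⁻¹) 1 = 0 := by
      refine (hS ?_).2 1 (Subgroup.one_mem _)
      rw [Subgroup.mem_comap]
      apply hP
      rw [MonoidHom.mem_ker, map_mul, map_mul, map_mul, map_mul, map_inv, map_inv, hτ, hτ,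
        mul_inv_cancel]
    rw [z.2.1, z.2.1, z.2.1.inv, h1, one_mul, hτ, map_mul, map_mul, hτ, hτ, one_mul,
      mul_inv_cancel, h1, neg_zero, add_zero, zero_add] at h3
    exact h3
  have h := LinearMap.finrank_le_finrank_of_injective hL
  rw [Module.finrank_prod, Module.finrank_fintype_fun_eq_card,
    Module.finrank_fintype_fun_eq_card, Fintype.card_prod] at h
  rw [Nat.card_eq_fintype_card]
  exact h

/-- Choice of relators. -/
theorem exists_relators [Fintype ι] (hq : Function.Surjective q) (P : Subgroup G)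
    (hP : P.FiniteIndex) {κ : Type} (γ : κ → G) (hγ : Subgroup.closure (Set.range γ) = P) :
    ∃ (ρ : Type) (_ : Fintype ρ) (R0 : ρ → FreeGroup ι) (w : κ → FreeGroup ι),
      (∀ r, q (R0 r) = 1) ∧ (∀ j, q (w j) ∈ P) ∧
      P.comap q ≤ Subgroup.closure (Set.range w ∪ Set.range R0) := by
  classical
  choose w hw using fun j => hq (γ j)
  have hfi : (P.comap q).FiniteIndex := by
    constructor
    rw [Subgroup.index_comap_of_surjective P hq]
    exact hP.index_ne_zero
  have hfg : Group.FG (P.comap q) := inferInstance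
  rw [Group.fg_iff_subgroup_fg] at hfg
  obtain ⟨S, hS⟩ := hfg
  have hmap : (Subgroup.closure (Set.range w)).map q = P := by
    rw [MonoidHom.map_closure, ← hγ]
    congr 1
    rw [← Set.range_comp]
    congr 1
    funext j
    exact hw j
  have h1 : ∀ u : S, ∃ v ∈ Subgroup.closure (Set.range w), q v = q u := by
    intro u
    have h2 : (u : FreeGroup ι) ∈ P.comap q := by
      rw [← hS]
      exact Subgroup.subset_closure u.2
    rw [Subgroup.mem_comap, ← hmap] at h2
    exact h2
  choose v hv1 hv2 using h1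
  refine ⟨S, inferInstance, fun u => (v u)⁻¹ * u, w, fun r => ?_, fun j => ?_, ?_⟩
  · rw [map_mul, map_inv, hv2, inv_mul_cancel]
  · rw [hw, ← hγ]
    exact Subgroup.subset_closure ⟨j, rfl⟩
  · rw [← hS, Subgroup.closure_le]
    intro u hu
    have h2 : v ⟨u, hu⟩ ∈ Subgroup.closure (Set.range w ∪
        Set.range (fun u : S => (v u)⁻¹ * (u : FreeGroup ι))) :=
      Subgroup.closure_mono Set.subset_union_left (hv1 ⟨u, hu⟩)
    have h3 : (v ⟨u, hu⟩)⁻¹ * u ∈ Subgroup.closure (Set.range w ∪
        Set.range (fun u : S => (v u)⁻¹ * (u : FreeGroup ι))) :=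
      Subgroup.subset_closure (Or.inr ⟨⟨u, hu⟩, rfl⟩)
    have h4 := Subgroup.mul_mem _ h2 h3
    rw [mul_inv_cancel_left] at h4
    exact h4

end EssMap
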