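import Mathlib

/-!
# Permutation matrices of finite quotients
-/

open Matrix

namespace EssMap

variable {G : Type} [Group G]

section lam

variable {X : Type} [Group X] [Fintype X] [DecidableEq X] (π : G →* X)

/-- The permutation representation. -/
def pmx : G →* Matrix X X ℤ where
  toFun g := Matrix.of fun x y => if x * π g = y then 1 else 0
  map_one' := by
    ext x y
    rw [Matrix.of_apply, map_one, mul_one, Matrix.one_apply]
  map_mul' g h := by
    ext x y
    rw [Matrix.mul_apply, Matrix.of_apply, map_mul, Finset.sum_eq_single (x * π g)]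
    · rw [Matrix.of_apply, Matrix.of_apply, if_pos rfl, one_mul, mul_assoc]
    · intro z _ hz
      rw [Matrix.of_apply, if_neg (Ne.symm hz), zero_mul]
    · intro h1
      exact absurd (Finset.mem_univ _) h1

theorem pmx_apply (g : G) (x y : X) : pmx π g x y = if x * π g = y then 1 else 0 := rfl

/-- The representation of the group ring. -/
noncomputable def lmx : MonoidAlgebra ℤ G →+* Matrix X X ℤ :=
  (MonoidAlgebra.lift ℤ (Matrix X X ℤ) G (pmx π)).toRingHom

theorem lmx_single (g : G) (n : ℤ) (x y : X) :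
    lmx π (MonoidAlgebra.single g n) x y = if x * π g = y then n else 0 := by
  have h : lmx π (MonoidAlgebra.single g n) = n • pmx π g :=
    MonoidAlgebra.lift_single (pmx π) g n
  rw [h, Matrix.smul_apply, pmx_apply, smul_eq_mul, mul_ite, mul_one, mul_zero]

theorem lmx_mul_left (g : G) (c : MonoidAlgebra ℤ G) (x y : X) :
    lmx π (MonoidAlgebra.single g 1 * c) x y = lmx π c (x * π g) y := by
  rw [map_mul, Matrix.mul_apply, Finset.sum_eq_single (x * π g)]
  · rw [lmx_single, if_pos rfl, one_mul]
  · intro z _ hz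
    rw [lmx_single, if_neg (Ne.symm hz), zero_mul]
  · intro h1
    exact absurd (Finset.mem_univ _) h1

theorem trace_single (g : G) (n : ℤ) :
    (lmx π (MonoidAlgebra.single g n)).trace = if π g = 1 then (Fintype.card X : ℤ) * n else 0 := by
  unfold Matrix.trace
  by_cases hg : π g = 1
  · rw [if_pos hg, Finset.sum_congr rfl (g := fun _ => n)]
    · rw [Finset.sum_const, Finset.card_univ, nsmul_eq_mul]
    · intro x _
      rw [Matrix.diag_apply, lmx_single, hg, mul_one, if_pos rfl]
  · rw [if_neg hg]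
    apply Finset.sum_eq_zero
    intro x _
    rw [Matrix.diag_apply, lmx_single, if_neg]
    intro h1
    exact hg (mul_eq_left.1 h1)

theorem trace_lmx (a : MonoidAlgebra ℤ G) (h : ∀ g ∈ a.coeff.support, g ≠ 1 → π g ≠ 1) :
    (lmx π a).trace = (Fintype.card X : ℤ) * a.coeff 1 := by
  classical
  have h1 : a = ∑ g ∈ a.coeff.support, MonoidAlgebra.single g (a.coeff g) := by
    apply MonoidAlgebra.coeff_injective
    rw [MonoidAlgebra.coeff_sum]
    exact (Finsupp.sum_single a.coeff).symm
  have h2 : (lmx π a).trace = ∑ g ∈ a.coeff.support,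
      (lmx π (MonoidAlgebra.single g (a.coeff g))).trace := by
    conv_lhs => rw [h1]
    rw [map_sum, Matrix.trace_sum]
  rw [h2]
  by_cases h3 : (1 : G) ∈ a.coeff.support
  · rw [Finset.sum_eq_single_of_mem 1 h3]
    · rw [trace_single, map_one, if_pos rfl]
    · intro g hg hg1
      rw [trace_single, if_neg (h g hg hg1)]
  · rw [Finsupp.notMem_support_iff.1 h3, mul_zero]
    apply Finset.sum_eq_zero
    intro g hg
    rw [trace_single, if_neg (h g hg (fun h4 => h3 (h4 ▸ hg)))]

end lam

theorem exists_transpose (a : MonoidAlgebra ℤ G) : ∃ a' : MonoidAlgebra ℤ G,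
    ∀ (X : Type) [Group X] [Fintype X] [DecidableEq X] (π : G →* X), lmx π a' = (lmx π a)ᵀ := by
  induction a using MonoidAlgebra.induction_linear with
  | zero => exact ⟨0, fun X _ _ _ π => by rw [map_zero, Matrix.transpose_zero]⟩
  | add x y hx hy =>
    obtain ⟨x', hx'⟩ := hx
    obtain ⟨y', hy'⟩ := hy
    exact ⟨x' + y', fun X _ _ _ π => by rw [map_add, map_add, Matrix.transpose_add, hx', hy']⟩
  | single g n =>
    refine ⟨MonoidAlgebra.single g⁻¹ n, fun X _ _ _ π => ?_⟩
    ext x y
    rw [Matrix.transpose_apply, lmx_single, lmx_single, map_inv]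
    congr 1
    rw [eq_iff_iff, mul_inv_eq_iff_eq_mul, eq_comm]

theorem exists_rowbound (a : MonoidAlgebra ℤ G) : ∃ k : ℕ,
    ∀ (X : Type) [Group X] [Fintype X] [DecidableEq X] (π : G →* X) (x : X),
      ∑ y, |lmx π a x y| ≤ k := by
  induction a using MonoidAlgebra.induction_linear with
  | zero =>
    refine ⟨0, fun X _ _ _ π x => ?_⟩
    rw [map_zero]
    simp
  | add x y hx hy =>
    obtain ⟨k, hk⟩ := hx
    obtain ⟨l, hl⟩ := hy
    refine ⟨k + l, fun X _ _ _ π z => ?_⟩
    rw [map_add, Nat.cast_add]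
    refine le_trans ?_ (add_le_add (hk X π z) (hl X π z))
    rw [← Finset.sum_add_distrib]
    exact Finset.sum_le_sum (fun _ _ => abs_add_le _ _)
  | single g n =>
    refine ⟨n.natAbs, fun X _ _ _ π x => ?_⟩
    rw [Finset.sum_eq_single (x * π g)]
    · rw [lmx_single, if_pos rfl, Int.natCast_natAbs]
    · intro z _ hz
      rw [lmx_single, if_neg (Ne.symm hz), abs_zero]
    · intro h1
      exact absurd (Finset.mem_univ _) h1

section big

variable {ι : Type} [Fintype ι] [DecidableEq ι]
variable {X : Type} [Group X] [Fintype X] [DecidableEq X] (π : G →* X)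

/-- The representation of matrices. -/
noncomputable def thx : Matrix ι ι (MonoidAlgebra ℤ G) →+* Matrix (ι × X) (ι × X) ℤ :=
  (Matrix.compRingEquiv ι X ℤ).toRingHom.comp (lmx π).mapMatrix

theorem thx_apply (A : Matrix ι ι (MonoidAlgebra ℤ G)) (i j : ι) (x y : X) :
    thx π A (i, x) (j, y) = lmx π (A i j) x y := rfl

theorem trace_thx (A : Matrix ι ι (MonoidAlgebra ℤ G))
    (h : ∀ i, ∀ g ∈ (A i i).coeff.support, g ≠ 1 → π g ≠ 1) :
    (thx π A).trace = (Fintype.card X : ℤ) * ∑ i, (A i i).coeff 1 := by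
  have h1 : (thx π A).trace = ∑ i, (lmx π (A i i)).trace := by
    unfold Matrix.trace
    rw [Fintype.sum_prod_type]
    rfl
  rw [h1, Finset.mul_sum]
  exact Finset.sum_congr rfl (fun i _ => trace_lmx π (A i i) (h i))

end big

theorem exists_bound {ι : Type} [Fintype ι] [DecidableEq ι]
    (A : Matrix ι ι (MonoidAlgebra ℤ G)) : ∃ K : ℕ,
    ∀ (X : Type) [Group X] [Fintype X] [DecidableEq X] (π : G →* X) (i : ι × X),
      ∑ j, |thx π A i j| ≤ K := by
  choose k hk using fun (i j : ι) => exists_rowbound (A i j)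
  refine ⟨∑ i, ∑ j, k i j, fun X _ _ _ π i => ?_⟩
  rw [Fintype.sum_prod_type]
  have h1 : ∀ j, ∑ y, |thx π A i (j, y)| ≤ k i.1 j := fun j => hk i.1 j X π i.2
  refine (Finset.sum_le_sum (fun j _ => h1 j)).trans ?_
  rw [← Nat.cast_sum]
  exact Nat.cast_le.2 (Finset.single_le_sum (f := fun i => ∑ j, k i j)
    (fun _ _ => Nat.zero_le _) (Finset.mem_univ i.1))

end EssMap
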