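import Pool.Agent.EssMap.Grp

/-!
# Linear groups are equationally Noetherian
-/

namespace EssMap

theorem EqNoeth.of_injective {T U : Type*} [Group T] [Group U] (f : T →* U)
    (hf : Function.Injective f) (hU : EqNoeth U) : EqNoeth T := by
  intro m S
  obtain ⟨S₀, h1, h2, h3⟩ := hU m S
  refine ⟨S₀, h1, h2, fun v hv w hw => ?_⟩
  have key : ∀ w, FreeGroup.lift (fun i => f (v i)) w = f (FreeGroup.lift v w) := by
    intro w
    have : FreeGroup.lift (fun i => f (v i)) = f.comp (FreeGroup.lift v) := by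
      ext i
      simp
    rw [this]
    rfl
  apply hf
  rw [map_one, ← key]
  apply h3 _ _ w hw
  intro w' hw'
  rw [key, hv w' hw', map_one]

theorem EqNoeth.prod {T U : Type*} [Group T] [Group U] (hT : EqNoeth T)
    (hU : EqNoeth U) : EqNoeth (T × U) := by
  intro m S
  obtain ⟨S₀, h1, h2, h3⟩ := hT m S
  obtain ⟨S₁, k1, k2, k3⟩ := hU m S
  refine ⟨S₀ ∪ S₁, Set.union_subset h1 k1, h2.union k2, fun v hv w hw => ?_⟩
  have keyT : ∀ w, FreeGroup.lift (fun i => (v i).1) w = (FreeGroup.lift v w).1 := by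
    intro w
    have : FreeGroup.lift (fun i => (v i).1) = (MonoidHom.fst T U).comp (FreeGroup.lift v) := by
      ext i
      simp
    rw [this]
    rfl
  have keyU : ∀ w, FreeGroup.lift (fun i => (v i).2) w = (FreeGroup.lift v w).2 := by
    intro w
    have : FreeGroup.lift (fun i => (v i).2) = (MonoidHom.snd T U).comp (FreeGroup.lift v) := by
      ext i
      simp
    rw [this]
    rfl
  apply Prod.ext
  · rw [← keyT]
    apply h3 _ _ w hw
    intro w' hw'
    rw [keyT, hv w' (Or.inl hw')]
    rfl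
  · rw [← keyU]
    apply k3 _ _ w hw
    intro w' hw'
    rw [keyU, hv w' (Or.inr hw')]
    rfl

section Linear

variable {A : Type*} [CommRing A] {m r : ℕ}

/-- The generic matrices. -/
noncomputable def gen (x : Fin m × Bool) :
    Matrix (Fin r) (Fin r) (MvPolynomial ((Fin m × Bool) × Fin r × Fin r) A) :=
  fun a c => MvPolynomial.X (x, a, c)

/-- The generic matrix of a word. -/
noncomputable def MW (w : FreeGroup (Fin m)) :
    Matrix (Fin r) (Fin r) (MvPolynomial ((Fin m × Bool) × Fin r × Fin r) A) :=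
  ((FreeGroup.toWord w).map gen).prod

/-- The point of affine space given by a tuple of matrices. -/
noncomputable def pt (v : Fin m → (Matrix (Fin r) (Fin r) A)ˣ) :
    (Fin m × Bool) × Fin r × Fin r → A :=
  fun x => ((cond x.1.2 (v x.1.1) (v x.1.1)⁻¹ : (Matrix (Fin r) (Fin r) A)ˣ) :
    Matrix (Fin r) (Fin r) A) x.2.1 x.2.2

theorem eval_MW (v : Fin m → (Matrix (Fin r) (Fin r) A)ˣ) (w : FreeGroup (Fin m)) :
    (MvPolynomial.eval (pt v)).mapMatrix (MW w) = (FreeGroup.lift v w : (Matrix (Fin r) (Fin r) A)ˣ) := by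
  have h1 : FreeGroup.lift v w =
      ((FreeGroup.toWord w).map fun x => cond x.2 (v x.1) (v x.1)⁻¹).prod := by
    conv_lhs => rw [← FreeGroup.mk_toWord (x := w)]
    rw [FreeGroup.lift_mk]
  rw [h1]
  unfold MW
  rw [map_list_prod]
  have h2 : (((((FreeGroup.toWord w).map fun x => cond x.2 (v x.1) (v x.1)⁻¹).prod :
      (Matrix (Fin r) (Fin r) A)ˣ)) : Matrix (Fin r) (Fin r) A) =
      (((FreeGroup.toWord w).map fun x => cond x.2 (v x.1) (v x.1)⁻¹).map
        (Units.coeHom (Matrix (Fin r) (Fin r) A))).prod := by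
    rw [← map_list_prod]
    rfl
  rw [h2, List.map_map, List.map_map]
  congr 1
  apply List.map_congr_left
  intro x _
  ext a c
  simp [gen, pt]

theorem eqNoeth_matrix [IsNoetherianRing A] : EqNoeth (Matrix (Fin r) (Fin r) A)ˣ := by
  intro m S
  let R := MvPolynomial ((Fin m × Bool) × Fin r × Fin r) A
  let E : Set R := {q | ∃ w ∈ S, ∃ a c : Fin r, q = (MW w - 1 : Matrix (Fin r) (Fin r) R) a c}
  have hfg : (Ideal.span E).FG := IsNoetherian.noetherian _
  obtain ⟨s', hs', hspan⟩ := (Submodule.fg_span_iff_fg_span_finset_subset E).1 hfg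
  have hch : ∀ q ∈ E, ∃ w ∈ S, ∃ a c : Fin r, q = (MW w - 1 : Matrix (Fin r) (Fin r) R) a c :=
    fun q hq => hq
  choose! g hg using hch
  refine ⟨g '' (s' : Set R), ?_, s'.finite_toSet.image g, ?_⟩
  · rintro w ⟨q, hq, rfl⟩
    exact (hg q (hs' hq)).1
  · intro v hv w hw
    have h0 : ∀ q ∈ E, MvPolynomial.eval (pt v) q = 0 := by
      have h1 : Ideal.span E ≤ RingHom.ker (MvPolynomial.eval (pt v)) := by
        have h2 : Ideal.span E = Ideal.span (s' : Set R) := hspan
        rw [h2, Ideal.span_le]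
        intro q hq
        obtain ⟨-, a, c, hqac⟩ := hg q (hs' hq)
        show MvPolynomial.eval (pt v) q = 0
        rw [hqac]
        have h3 := hv (g q) ⟨q, hq, rfl⟩
        have h4 := eval_MW v (g q)
        rw [h3] at h4
        have h5 := congrFun (congrFun h4 a) c
        rw [Matrix.sub_apply, map_sub]
        have h6 : MvPolynomial.eval (pt v) ((MW (g q) : Matrix (Fin r) (Fin r) R) a c) =
          ((1 : (Matrix (Fin r) (Fin r) A)ˣ) : Matrix (Fin r) (Fin r) A) a c := h5
        rw [h6, Units.val_one]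
        by_cases hac : a = c
        · subst hac
          simp
        · simp [Matrix.one_apply_ne hac]
      intro q hq
      exact h1 (Ideal.subset_span hq)
    apply Units.ext
    rw [← eval_MW]
    ext a c
    have h7 := h0 _ ⟨w, hw, a, c, rfl⟩
    rw [Matrix.sub_apply, map_sub, sub_eq_zero] at h7
    show MvPolynomial.eval (pt v) ((MW w : Matrix (Fin r) (Fin r) R) a c) = _
    rw [h7, Units.val_one]
    by_cases hac : a = c
    · subst hac
      simp
    · simp [Matrix.one_apply_ne hac]

end Linear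

end EssMap
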