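import Mathlib

/-!
# Kernels of integral positive matrices and traces
-/

open Matrix Polynomial

namespace EssMap

variable {n : Type} [Fintype n] [DecidableEq n]

theorem trace_pow_eig (M : Matrix n n ℂ) (hM : M.IsHermitian) (K : ℝ) (q : ℕ) :
    (((K : ℂ) • (1 : Matrix n n ℂ) - M) ^ q).trace =
      ((∑ i, (K - hM.eigenvalues i) ^ q : ℝ) : ℂ) := by
  have h1 : (K : ℂ) • (1 : Matrix n n ℂ) - M =
      Unitary.conjStarAlgAut ℂ _ hM.eigenvectorUnitary
        (diagonal (fun i => ((K - hM.eigenvalues i : ℝ) : ℂ))) := by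
    have h2 : (diagonal (fun i => ((K - hM.eigenvalues i : ℝ) : ℂ)) : Matrix n n ℂ) =
        (K : ℂ) • (1 : Matrix n n ℂ) - diagonal (RCLike.ofReal ∘ hM.eigenvalues) := by
      ext i j
      by_cases hij : i = j
      · subst hij
        simp
      · simp [hij]
    rw [h2, map_sub, map_smul, map_one, ← hM.spectral_theorem]
  rw [h1, ← map_pow, diagonal_pow, Unitary.conjStarAlgAut_apply, Matrix.trace_mul_comm,
    ← mul_assoc]
  rw [show (star (hM.eigenvectorUnitary : Matrix n n ℂ)) * (hM.eigenvectorUnitary : Matrix n n ℂ)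
    = 1 from Unitary.coe_star_mul_self _, one_mul, trace_diagonal]
  push_cast
  rfl

theorem ker_card (M : Matrix n n ℂ) (hM : M.IsHermitian) :
    Module.finrank ℂ (LinearMap.ker M.mulVecLin) =
      (Finset.univ.filter (fun i => hM.eigenvalues i = 0)).card := by
  have h1 := LinearMap.finrank_range_add_finrank_ker M.mulVecLin
  have h2 : Module.finrank ℂ (LinearMap.range M.mulVecLin) = M.rank := rfl
  rw [h2, hM.rank_eq_card_non_zero_eigs, Module.finrank_fintype_fun_eq_card,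
    Fintype.card_subtype] at h1
  have h3 := Finset.card_filter_add_card_filter_not (s := Finset.univ)
    (fun i => hM.eigenvalues i = 0)
  rw [Finset.card_univ] at h3
  have h4 : (Finset.univ.filter (fun i => ¬ hM.eigenvalues i = 0)).card =
      (Finset.univ.filter (fun i => hM.eigenvalues i ≠ 0)).card := rfl
  omega

theorem prod_eig (M₀ : Matrix n n ℤ) (hM : (M₀.map (Int.cast : ℤ → ℂ)).IsHermitian) :
    1 ≤ ∏ i ∈ Finset.univ.filter (fun i => ¬ hM.eigenvalues i = 0), |hM.eigenvalues i| := by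
  classical
  let S0 := Finset.univ.filter (fun i => hM.eigenvalues i = 0)
  let S1 := Finset.univ.filter (fun i => ¬ hM.eigenvalues i = 0)
  have h1 : (M₀.map (Int.cast : ℤ → ℂ)).charpoly = M₀.charpoly.map (Int.castRingHom ℂ) :=
    Matrix.charpoly_map M₀ (Int.castRingHom ℂ)
  have h2 := hM.charpoly_eq
  have h3 : ∏ i, (X - C ((hM.eigenvalues i : ℝ) : ℂ)) =
      X ^ S0.card * ∏ i ∈ S1, (X - C ((hM.eigenvalues i : ℝ) : ℂ)) := by
    rw [← Finset.prod_filter_mul_prod_filter_not Finset.univ (fun i => hM.eigenvalues i = 0)]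
    congr 1
    rw [Finset.prod_congr rfl (g := fun _ => X)]
    · rw [Finset.prod_const]
    · intro i hi
      rw [(Finset.mem_filter.1 hi).2, Complex.ofReal_zero, map_zero, sub_zero]
  have h4 : ((M₀.charpoly.coeff S0.card : ℤ) : ℂ) =
      ∏ i ∈ S1, (-((hM.eigenvalues i : ℝ) : ℂ)) := by
    have h5 : (M₀.charpoly.map (Int.castRingHom ℂ)).coeff S0.card =
        ((M₀.charpoly.coeff S0.card : ℤ) : ℂ) := by
      rw [Polynomial.coeff_map]
      rfl
    rw [← h5, ← h1, h2]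
    have h6 : (∏ i, (X - C ((hM.eigenvalues i : ℝ) : ℂ))).coeff S0.card =
        (∏ i ∈ S1, (X - C ((hM.eigenvalues i : ℝ) : ℂ))).coeff 0 := by
      rw [h3]
      have h7 := Polynomial.coeff_X_pow_mul (∏ i ∈ S1, (X - C ((hM.eigenvalues i : ℝ) : ℂ)))
        S0.card 0
      rw [zero_add] at h7
      exact h7
    have h8 : (∏ i ∈ S1, (X - C ((hM.eigenvalues i : ℝ) : ℂ))).coeff 0 =
        ∏ i ∈ S1, (-((hM.eigenvalues i : ℝ) : ℂ)) := by
      rw [Polynomial.coeff_zero_prod]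
      apply Finset.prod_congr rfl
      intro i _
      simp
    exact h6.trans h8
  have h5 : ∏ i ∈ S1, |hM.eigenvalues i| = |((M₀.charpoly.coeff S0.card : ℤ) : ℝ)| := by
    have h6 := congrArg (fun z : ℂ => ‖z‖) h4
    simp only [norm_prod, norm_neg, Complex.norm_intCast, Complex.norm_real,
      Real.norm_eq_abs] at h6
    exact h6.symm
  have h6 : M₀.charpoly.coeff S0.card ≠ 0 := by
    intro h7
    rw [h7, Int.cast_zero, abs_zero] at h5
    rw [Finset.prod_eq_zero_iff] at h5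
    obtain ⟨i, hi, hi0⟩ := h5
    exact (Finset.mem_filter.1 hi).2 (abs_eq_zero.1 hi0)
  show 1 ≤ ∏ i ∈ S1, |hM.eigenvalues i|
  rw [h5, ← Int.cast_abs]
  have h7 : 1 ≤ |M₀.charpoly.coeff S0.card| := Int.one_le_abs h6
  exact_mod_cast h7

theorem small_eig (M₀ : Matrix n n ℤ) (hM : (M₀.map (Int.cast : ℤ → ℂ)).IsHermitian)
    (hpos : ∀ i, 0 ≤ hM.eigenvalues i) (K T : ℕ) (hK : 2 ≤ K)
    (hle : ∀ i, hM.eigenvalues i ≤ K) :
    T * (Finset.univ.filter (fun i => ¬ hM.eigenvalues i = 0 ∧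
      hM.eigenvalues i < ((K : ℝ) ^ T)⁻¹)).card ≤ Fintype.card n := by
  classical
  let S1 := Finset.univ.filter (fun i => ¬ hM.eigenvalues i = 0)
  let S2 := Finset.univ.filter (fun i => ¬ hM.eigenvalues i = 0 ∧
    hM.eigenvalues i < ((K : ℝ) ^ T)⁻¹)
  have hsub : S2 ⊆ S1 := by
    intro i hi
    rw [Finset.mem_filter] at hi ⊢
    exact ⟨hi.1, hi.2.1⟩
  have hK1 : (1 : ℝ) < K := by exact_mod_cast (by omega : 1 < K)
  have hK0 : (0 : ℝ) < K := by linarith
  have h1 := prod_eig M₀ hM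
  have h2 : ∏ i ∈ S1, |hM.eigenvalues i| ≤
      ((K : ℝ) ^ T)⁻¹ ^ S2.card * (K : ℝ) ^ (S1 \ S2).card := by
    rw [← Finset.prod_sdiff hsub, mul_comm]
    apply mul_le_mul
    · rw [← Finset.prod_const]
      apply Finset.prod_le_prod
      · intro i _; exact abs_nonneg _
      · intro i hi
        rw [abs_of_nonneg (hpos i)]
        exact ((Finset.mem_filter.1 hi).2.2).le
    · rw [← Finset.prod_const]
      apply Finset.prod_le_prod
      · intro i _; exact abs_nonneg _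
      · intro i _
        rw [abs_of_nonneg (hpos i)]
        exact hle i
    · exact Finset.prod_nonneg (fun i _ => abs_nonneg _)
    · positivity
  have h3 : (1 : ℝ) ≤ ((K : ℝ) ^ T)⁻¹ ^ S2.card * (K : ℝ) ^ (S1 \ S2).card := h1.trans h2
  have h4 : (K : ℝ) ^ (T * S2.card) ≤ (K : ℝ) ^ (S1 \ S2).card := by
    rw [inv_pow, ← pow_mul] at h3
    have h5 : (0 : ℝ) < (K : ℝ) ^ (T * S2.card) := by positivity
    rw [inv_mul_eq_div, le_div_iff₀ h5, one_mul] at h3
    exact h3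
  have h5 : T * S2.card ≤ (S1 \ S2).card := (pow_le_pow_iff_right₀ hK1).1 h4
  have h6 : (S1 \ S2).card ≤ Fintype.card n := Finset.card_le_univ _
  exact h5.trans h6

theorem spec_lower (M : Matrix n n ℂ) (hM : M.IsHermitian)
    (K : ℕ) (hle : ∀ i, hM.eigenvalues i ≤ K) (q : ℕ) :
    (Module.finrank ℂ (LinearMap.ker M.mulVecLin) : ℝ) * (K : ℝ) ^ q ≤
      (((((K : ℝ) : ℂ) • (1 : Matrix n n ℂ) - M) ^ q).trace).re := by
  rw [trace_pow_eig M hM, Complex.ofReal_re, ker_card M hM]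
  rw [← Finset.sum_filter_add_sum_filter_not Finset.univ (fun i => hM.eigenvalues i = 0)]
  have h1 : ∑ i ∈ Finset.univ.filter (fun i => hM.eigenvalues i = 0),
      ((K : ℝ) - hM.eigenvalues i) ^ q =
      ((Finset.univ.filter (fun i => hM.eigenvalues i = 0)).card : ℝ) * (K : ℝ) ^ q := by
    rw [Finset.sum_congr rfl (g := fun _ => (K : ℝ) ^ q)]
    · rw [Finset.sum_const, nsmul_eq_mul]
    · intro i hi
      rw [(Finset.mem_filter.1 hi).2, sub_zero]
  rw [h1]
  have h2 : 0 ≤ ∑ i ∈ Finset.univ.filter (fun i => ¬ hM.eigenvalues i = 0),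
      ((K : ℝ) - hM.eigenvalues i) ^ q := by
    apply Finset.sum_nonneg
    intro i _
    exact pow_nonneg (sub_nonneg.2 (hle i)) q
  linarith

theorem spec_upper (M₀ : Matrix n n ℤ) (hM : (M₀.map (Int.cast : ℤ → ℂ)).IsHermitian)
    (hpos : ∀ i, 0 ≤ hM.eigenvalues i) (K T : ℕ) (hK : 2 ≤ K) (hT : 0 < T)
    (hle : ∀ i, hM.eigenvalues i ≤ K) (q : ℕ) :
    (((((K : ℝ) : ℂ) • (1 : Matrix n n ℂ) - M₀.map (Int.cast : ℤ → ℂ)) ^ q).trace).re ≤
      ((Module.finrank ℂ (LinearMap.ker (M₀.map (Int.cast : ℤ → ℂ)).mulVecLin) : ℝ) +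
        (Fintype.card n : ℝ) / T) * (K : ℝ) ^ q +
        (Fintype.card n : ℝ) * ((K : ℝ) - ((K : ℝ) ^ T)⁻¹) ^ q := by
  classical
  rw [trace_pow_eig _ hM, Complex.ofReal_re, ker_card _ hM]
  have hK1 : (1 : ℝ) < K := by exact_mod_cast (by omega : 1 < K)
  have hK0 : (0 : ℝ) < K := by linarith
  let S0 := Finset.univ.filter (fun i => hM.eigenvalues i = 0)
  let S2 := Finset.univ.filter (fun i => ¬ hM.eigenvalues i = 0 ∧
    hM.eigenvalues i < ((K : ℝ) ^ T)⁻¹)
  have hsmall : T * S2.card ≤ Fintype.card n := small_eig M₀ hM hpos K T hK hle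
  have hsmall' : (T : ℝ) * (S2.card : ℝ) ≤ (Fintype.card n : ℝ) := by
    have h := (Nat.cast_le (α := ℝ)).2 hsmall
    rw [Nat.cast_mul] at h
    exact h
  have h1 : ∀ i, ((K : ℝ) - hM.eigenvalues i) ^ q ≤
      (if i ∈ S0 then (K : ℝ) ^ q else 0) + (if i ∈ S2 then (K : ℝ) ^ q else 0) +
        ((K : ℝ) - ((K : ℝ) ^ T)⁻¹) ^ q := by
    intro i
    have hinv : ((K : ℝ) ^ T)⁻¹ ≤ K := by
      have h2 : ((K : ℝ) ^ T)⁻¹ ≤ 1 := inv_le_one_of_one_le₀ (one_le_pow₀ hK1.le)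
      linarith
    have h3 : 0 ≤ ((K : ℝ) - ((K : ℝ) ^ T)⁻¹) ^ q := pow_nonneg (by linarith) q
    have h4 : ((K : ℝ) - hM.eigenvalues i) ^ q ≤ (K : ℝ) ^ q :=
      pow_le_pow_left₀ (sub_nonneg.2 (hle i)) (by linarith [hpos i]) q
    have h5 : 0 ≤ (K : ℝ) ^ q := by positivity
    by_cases hi0 : i ∈ S0
    · rw [if_pos hi0]
      split_ifs <;> linarith
    · rw [if_neg hi0]
      by_cases hi2 : i ∈ S2
      · rw [if_pos hi2]
        linarith
      · rw [if_neg hi2, zero_add, zero_add]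
        apply pow_le_pow_left₀ (sub_nonneg.2 (hle i))
        have h6 : ¬ hM.eigenvalues i = 0 := fun h =>
          hi0 (Finset.mem_filter.2 ⟨Finset.mem_univ _, h⟩)
        have h7 : ¬ hM.eigenvalues i < ((K : ℝ) ^ T)⁻¹ := fun h =>
          hi2 (Finset.mem_filter.2 ⟨Finset.mem_univ _, h6, h⟩)
        push Not at h7
        linarith
  refine (Finset.sum_le_sum (fun i _ => h1 i)).trans ?_
  rw [Finset.sum_add_distrib, Finset.sum_add_distrib, Finset.sum_ite_mem, Finset.sum_ite_mem,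
    Finset.univ_inter, Finset.univ_inter, Finset.sum_const, Finset.sum_const, Finset.sum_const,
    Finset.card_univ, nsmul_eq_mul, nsmul_eq_mul, nsmul_eq_mul]
  have h2 : (S2.card : ℝ) ≤ (Fintype.card n : ℝ) / T := by
    rw [le_div_iff₀ (by exact_mod_cast hT), mul_comm]
    exact hsmall'
  have h3 : (0 : ℝ) ≤ (K : ℝ) ^ q := by positivity
  have h4 : (S2.card : ℝ) * (K : ℝ) ^ q ≤ (Fintype.card n : ℝ) / T * (K : ℝ) ^ q :=
    mul_le_mul_of_nonneg_right h2 h3
  rw [add_mul]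
  linarith

end EssMap
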