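import Pool.Agent.EssMap.Coz
import Pool.Agent.EssMap.Spec

/-!
# Approximation of kernel dimensions
-/

open Matrix
open scoped ComplexOrder

namespace EssMap

theorem eig_le {n : Type} [Fintype n] [DecidableEq n] (M₀ : Matrix n n ℤ)
    (hM : (M₀.map (Int.cast : ℤ → ℂ)).IsHermitian) (K : ℕ) (hK : ∀ i, ∑ j, |M₀ i j| ≤ K) (i : n) :
    hM.eigenvalues i ≤ K := by
  have h1 : ((hM.eigenvalues i : ℝ) : ℂ) ∈ spectrum ℂ (M₀.map (Int.cast : ℤ → ℂ)) :=
    spectrum.algebraMap_mem ℂ (hM.eigenvalues_mem_spectrum_real i)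
  rw [← Matrix.spectrum_toLin', ← Module.End.hasEigenvalue_iff_mem_spectrum] at h1
  obtain ⟨k, hk⟩ := eigenvalue_mem_ball h1
  rw [mem_closedBall_iff_norm] at hk
  have h2 : ‖((hM.eigenvalues i : ℝ) : ℂ)‖ ≤ ∑ j, ‖(M₀.map (Int.cast : ℤ → ℂ)) k j‖ := by
    rw [← Finset.add_sum_erase _ _ (Finset.mem_univ k)]
    have h3 := norm_add_le (((hM.eigenvalues i : ℝ) : ℂ) - (M₀.map (Int.cast : ℤ → ℂ)) k k)
      ((M₀.map (Int.cast : ℤ → ℂ)) k k)
    rw [sub_add_cancel] at h3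
    linarith
  have h4 : ∑ j, ‖(M₀.map (Int.cast : ℤ → ℂ)) k j‖ = ((∑ j, |M₀ k j| : ℤ) : ℝ) := by
    rw [Int.cast_sum]
    apply Finset.sum_congr rfl
    intro j _
    rw [Matrix.map_apply, Complex.norm_intCast, Int.cast_abs]
  have h5 : ((∑ j, |M₀ k j| : ℤ) : ℝ) ≤ K := by
    have := hK k
    exact_mod_cast this
  rw [Complex.norm_real, Real.norm_eq_abs] at h2
  have h6 := le_abs_self (hM.eigenvalues i)
  linarith

variable {G : Type} [Group G] {ι ρ : Type} [Fintype ι] [DecidableEq ι] [Fintype ρ]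

theorem cast_shift {n : Type} [Fintype n] [DecidableEq n] (K m : ℕ) (M₀ : Matrix n n ℤ) :
    ((((K : ℝ) : ℂ) • (1 : Matrix n n ℂ) - M₀.map (Int.cast : ℤ → ℂ)) ^ m).trace =
      ((((K : Matrix n n ℤ) - M₀) ^ m).trace : ℤ) := by
  have h1 : (((K : ℝ) : ℂ) • (1 : Matrix n n ℂ) - M₀.map (Int.cast : ℤ → ℂ)) =
      (Int.castRingHom ℂ).mapMatrix ((K : Matrix n n ℤ) - M₀) := by
    rw [map_sub, map_natCast, Complex.ofReal_natCast, Nat.cast_smul_eq_nsmul, nsmul_one]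
    rfl
  rw [h1, ← map_pow]
  exact (AddMonoidHom.map_trace (Int.castRingHom ℂ).toAddMonoidHom _).symm

theorem approx (q : FreeGroup ι →* G) (R0 : ρ → FreeGroup ι) :
    ∃ S : Finset G, ∀ (X : Type) [Group X] [Fintype X] (π : G →* X)
      (X' : Type) [Group X'] [Fintype X'] (π' : G →* X'),
      (∀ g ∈ S, g ≠ 1 → π g ≠ 1) → (∀ g ∈ S, g ≠ 1 → π' g ≠ 1) →
        (Module.finrank ℂ (Zx q R0 π) : ℝ) / Fintype.card X ≤
          (Module.finrank ℂ (Zx q R0 π') : ℝ) / Fintype.card X' + 1 / 2 := by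
  classical
  obtain ⟨A, hA⟩ := exists_lap q R0
  obtain ⟨K0, hK0⟩ := exists_bound A
  let K : ℕ := max K0 2
  have hK2 : 2 ≤ K := le_max_right _ _
  have hK1 : (1 : ℝ) < K := by exact_mod_cast (by omega : 1 < K)
  have hKpos : (0 : ℝ) < K := by linarith
  let T : ℕ := 4 * (Fintype.card ι + 1)
  have hT : 0 < T := by positivity
  obtain ⟨κ, hκ⟩ : ∃ κ : ℝ, κ = ((K : ℝ) - ((K : ℝ) ^ T)⁻¹) / K := ⟨_, rfl⟩
  have hinv : 0 < ((K : ℝ) ^ T)⁻¹ := by positivity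
  have hinv2 : ((K : ℝ) ^ T)⁻¹ ≤ 1 := inv_le_one_of_one_le₀ (one_le_pow₀ hK1.le)
  have hκ1 : κ < 1 := by
    rw [hκ, div_lt_one hKpos]
    linarith
  obtain ⟨m, hm⟩ := exists_pow_lt_of_lt_one
    (show (0 : ℝ) < 1 / (4 * (Fintype.card ι + 1)) by positivity) hκ1
  let B : Matrix ι ι (MonoidAlgebra ℤ G) := ((K : Matrix ι ι (MonoidAlgebra ℤ G)) - A) ^ m
  refine ⟨Finset.univ.biUnion (fun i => (B i i).coeff.support), ?_⟩
  intro X _ _ π X' _ _ π' hπ hπ'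
  -- common facts
  have key : ∀ (Y : Type) [Group Y] [Fintype Y] (η : G →* Y),
      (∀ g ∈ Finset.univ.biUnion (fun i => (B i i).coeff.support), g ≠ 1 → η g ≠ 1) →
      ∃ (M₀ : Matrix (ι × Y) (ι × Y) ℤ) (hM : (M₀.map (Int.cast : ℤ → ℂ)).IsHermitian),
        (∀ i, 0 ≤ hM.eigenvalues i) ∧ (∀ i, hM.eigenvalues i ≤ K) ∧
        Module.finrank ℂ (Zx q R0 η) =
          Module.finrank ℂ (LinearMap.ker (M₀.map (Int.cast : ℤ → ℂ)).mulVecLin) ∧
        (((((K : ℝ) : ℂ) • (1 : Matrix (ι × Y) (ι × Y) ℂ) -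
          M₀.map (Int.cast : ℤ → ℂ)) ^ m).trace).re =
          (Fintype.card Y : ℝ) * ((∑ i, (B i i).coeff 1 : ℤ) : ℝ) := by
    intro Y _ _ η hη
    obtain ⟨D, hD1, hD2⟩ := hA Y η
    let D' : Matrix (ρ × Y) (ι × Y) ℂ := D.map (Int.cast : ℤ → ℂ)
    have hDH : D'ᴴ = (Dᵀ).map (Int.cast : ℤ → ℂ) := by
      ext i j
      rw [Matrix.conjTranspose_apply]
      show star ((D j i : ℤ) : ℂ) = ((D j i : ℤ) : ℂ)
      rw [star_intCast]
    have hMD : (thx η A).map (Int.cast : ℤ → ℂ) = D'ᴴ * D' := by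
      rw [hDH, hD1]
      exact Matrix.map_mul (f := Int.castRingHom ℂ)
    have hps : ((thx η A).map (Int.cast : ℤ → ℂ)).PosSemidef := by
      rw [hMD]
      exact Matrix.posSemidef_conjTranspose_mul_self D'
    refine ⟨thx η A, hps.1, hps.eigenvalues_nonneg, ?_, ?_, ?_⟩
    · apply eig_le
      intro i
      refine (hK0 Y η i).trans ?_
      exact_mod_cast le_max_left _ _
    · rw [hD2, hMD, Matrix.ker_mulVecLin_conjTranspose_mul_self]
    · rw [cast_shift]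
      have h1 : ((K : Matrix (ι × Y) (ι × Y) ℤ) - thx η A) ^ m = thx η B := by
        rw [map_pow, map_sub, map_natCast]
      rw [h1, trace_thx η B (fun i g hg => hη g
        (Finset.mem_biUnion.2 ⟨i, Finset.mem_univ i, hg⟩))]
      rw [Complex.intCast_re, Int.cast_mul, Int.cast_natCast]
  obtain ⟨M, hM, -, hM2, hM3, hM4⟩ := key X π hπ
  obtain ⟨M', hM', hM1', hM2', hM3', hM4'⟩ := key X' π' hπ'
  have hl := spec_lower _ hM K hM2 m
  have hu := spec_upper M' hM' hM1' K T hK2 hT hM2' m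
  rw [hM4, ← hM3] at hl
  rw [hM4', ← hM3', Fintype.card_prod, Nat.cast_mul] at hu
  have hX : (0 : ℝ) < Fintype.card X := by exact_mod_cast Fintype.card_pos
  have hX' : (0 : ℝ) < Fintype.card X' := by exact_mod_cast Fintype.card_pos
  have hKm : (0 : ℝ) < (K : ℝ) ^ m := by positivity
  set α : ℝ := ((∑ i, (B i i).coeff 1 : ℤ) : ℝ) with hα
  have h1 : (Module.finrank ℂ (Zx q R0 π) : ℝ) / Fintype.card X ≤ α / (K : ℝ) ^ m := by
    rw [div_le_div_iff₀ hX hKm]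
    linarith
  have h2 : α / (K : ℝ) ^ m ≤ (Module.finrank ℂ (Zx q R0 π') : ℝ) / Fintype.card X' +
      (Fintype.card ι : ℝ) / T + (Fintype.card ι : ℝ) * κ ^ m := by
    rw [div_le_iff₀ hKm]
    have h3 : κ ^ m * (K : ℝ) ^ m = ((K : ℝ) - ((K : ℝ) ^ T)⁻¹) ^ m := by
      rw [← mul_pow, hκ, div_mul_cancel₀ _ hKpos.ne']
    have h4 : (Fintype.card X' : ℝ) * α ≤ (Fintype.card X' : ℝ) *
        (((Module.finrank ℂ (Zx q R0 π') : ℝ) / Fintype.card X' +
          (Fintype.card ι : ℝ) / T + (Fintype.card ι : ℝ) * κ ^ m) * (K : ℝ) ^ m) := by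
      refine hu.trans (le_of_eq ?_)
      rw [← h3]
      field_simp
    exact le_of_mul_le_mul_left h4 hX'
  have hι : (0 : ℝ) ≤ Fintype.card ι := by positivity
  have h5 : (Fintype.card ι : ℝ) / T ≤ 1 / 4 := by
    have hTc : (T : ℝ) = 4 * ((Fintype.card ι : ℝ) + 1) := by
      show ((4 * (Fintype.card ι + 1) : ℕ) : ℝ) = _
      push_cast
      ring
    rw [hTc, div_le_div_iff₀ (by positivity) (by norm_num)]
    linarith
  have h6 : (Fintype.card ι : ℝ) * κ ^ m ≤ 1 / 4 := by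
    have h7 : (Fintype.card ι : ℝ) * κ ^ m ≤
        (Fintype.card ι : ℝ) * (1 / (4 * (Fintype.card ι + 1))) :=
      mul_le_mul_of_nonneg_left hm.le hι
    refine h7.trans ?_
    rw [mul_one_div, div_le_div_iff₀ (by positivity) (by norm_num)]
    linarith
  linarith

end EssMap
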