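import Mathlib

/-!
# Position dependent elements
-/

namespace EssMap

/-- Functions on the positions together with a shift. -/
@[ext]
structure LX (W X : Type) where
  /-- the function -/
  v : X → W
  /-- the shift -/
  i : X

namespace LX

variable {W X : Type} [Group W] [AddCommGroup X]

instance : Mul (LX W X) := ⟨fun a b => ⟨fun x => a.v x * b.v (x + a.i), a.i + b.i⟩⟩
instance : One (LX W X) := ⟨⟨fun _ => 1, 0⟩⟩
instance : Inv (LX W X) := ⟨fun a => ⟨fun x => (a.v (x - a.i))⁻¹, -a.i⟩⟩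

theorem mul_v (a b : LX W X) (x : X) : (a * b).v x = a.v x * b.v (x + a.i) := rfl
theorem mul_i (a b : LX W X) : (a * b).i = a.i + b.i := rfl
theorem one_v (x : X) : (1 : LX W X).v x = 1 := rfl
theorem one_i : (1 : LX W X).i = 0 := rfl
theorem inv_v (a : LX W X) (x : X) : (a⁻¹).v x = (a.v (x - a.i))⁻¹ := rfl
theorem inv_i (a : LX W X) : (a⁻¹).i = -a.i := rfl

instance : Group (LX W X) := Group.ofLeftAxioms
  (fun a b c => by
    apply LX.ext
    · funext x
      rw [mul_v, mul_v, mul_v, mul_v, mul_i, mul_assoc, add_assoc]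
    · rw [mul_i, mul_i, mul_i, mul_i, add_assoc])
  (fun a => by
    apply LX.ext
    · funext x
      rw [mul_v, one_v, one_i, add_zero, one_mul]
    · rw [mul_i, one_i, zero_add])
  (fun a => by
    apply LX.ext
    · funext x
      rw [mul_v, inv_v, inv_i, one_v, ← sub_eq_add_neg, inv_mul_cancel]
    · rw [mul_i, inv_i, one_i, neg_add_cancel])

/-- The shift as a homomorphism. -/
def toI : LX W X →* Multiplicative X where
  toFun a := Multiplicative.ofAdd a.i
  map_one' := rfl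
  map_mul' _ _ := rfl

end LX

variable {ι : Type} {W : Type} [Group W]

/-- The homomorphism with given values. -/
def lz (c : ι → ℤ) (f : ι → ℤ → W) : FreeGroup ι →* LX W ℤ := FreeGroup.lift (fun i => ⟨f i, c i⟩)

theorem lz_of (c : ι → ℤ) (f : ι → ℤ → W) (i : ι) : lz c f (FreeGroup.of i) = ⟨f i, c i⟩ :=
  FreeGroup.lift_apply_of

/-- The total shift. -/
def shf (c : ι → ℤ) : FreeGroup ι →* Multiplicative ℤ :=
  FreeGroup.lift (fun i => Multiplicative.ofAdd (c i))

theorem lz_i (c : ι → ℤ) (f : ι → ℤ → W) (w : FreeGroup ι) : (lz c f w).i = (shf c w).toAdd := by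
  have h : LX.toI.comp (lz c f) = shf c := by
    ext i
    rw [MonoidHom.comp_apply, lz_of]
    unfold shf
    rw [FreeGroup.lift_apply_of]
    rfl
  exact congrArg Multiplicative.toAdd (DFunLike.congr_fun h w)

/-- Locality. -/
theorem exists_window (c : ι → ℤ) (w : FreeGroup ι) : ∃ L : ℕ,
    ∀ (W : Type) [Group W] (f f' : ι → ℤ → W) (κ : ℤ),
      (∀ i κ', |κ' - κ| ≤ L → f i κ' = f' i κ') → (lz c f w).v κ = (lz c f' w).v κ := by
  induction w using FreeGroup.induction_on with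
  | C1 =>
    refine ⟨0, fun W _ f f' κ _ => ?_⟩
    rw [map_one, map_one]
  | of i =>
    refine ⟨0, fun W _ f f' κ h => ?_⟩
    rw [lz_of, lz_of]
    exact h i κ (by rw [sub_self, abs_zero]; exact le_rfl)
  | inv_of i _ =>
    refine ⟨(c i).natAbs, fun W _ f f' κ h => ?_⟩
    rw [map_inv, map_inv, lz_of, lz_of, LX.inv_v, LX.inv_v]
    show (f i (κ - c i))⁻¹ = (f' i (κ - c i))⁻¹
    rw [h i (κ - c i) (by rw [Int.natCast_natAbs, sub_sub_cancel_left, abs_neg])]
  | mul w w' hw hw' =>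
    obtain ⟨L, hL⟩ := hw
    obtain ⟨L', hL'⟩ := hw'
    refine ⟨L + (L' + (shf c w).toAdd.natAbs), fun W _ f f' κ h => ?_⟩
    rw [map_mul, map_mul, LX.mul_v, LX.mul_v, lz_i, lz_i]
    have h0 : (0 : ℤ) ≤ |(shf c w).toAdd| := abs_nonneg _
    rw [hL W f f' κ (fun i κ' hκ => h i κ' (by
      rw [Nat.cast_add, Nat.cast_add, Int.natCast_natAbs]
      have h1 : (0 : ℤ) ≤ L' := Int.natCast_nonneg _
      linarith))]
    rw [hL' W f f' (κ + (shf c w).toAdd) (fun i κ' hκ => h i κ' (by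
      rw [Nat.cast_add, Nat.cast_add, Int.natCast_natAbs]
      have h1 : (0 : ℤ) ≤ L := Int.natCast_nonneg _
      have h2 := abs_add_le (κ' - (κ + (shf c w).toAdd)) (shf c w).toAdd
      have h3 : κ' - (κ + (shf c w).toAdd) + (shf c w).toAdd = κ' - κ := by ring
      rw [h3] at h2
      linarith))]

theorem exists_window_fin (c : ι → ℤ) (R : Set (FreeGroup ι)) (hR : R.Finite) : ∃ L : ℕ,
    ∀ w ∈ R, ∀ (W : Type) [Group W] (f f' : ι → ℤ → W) (κ : ℤ),
      (∀ i κ', |κ' - κ| ≤ L → f i κ' = f' i κ') → (lz c f w).v κ = (lz c f' w).v κ := by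
  choose L hL using exists_window c
  obtain ⟨M, hM⟩ := (hR.image L).bddAbove
  refine ⟨M, fun w hw W _ f f' κ h => hL w W f f' κ (fun i κ' hκ => h i κ' ?_)⟩
  have h1 : L w ≤ M := hM (Set.mem_image_of_mem L hw)
  exact hκ.trans (by exact_mod_cast h1)

end EssMap
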