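import Pool.Agent.EssMap.Asm

/-!
# Main theorems
-/

open CategoryTheory groupCohomology

namespace EssMap

/-- A class has infinite order. -/
def NonTors {A : Type*} [AddCommGroup A] (x : A) : Prop := ∀ m : ℤ, m ≠ 0 → m • x ≠ 0

/-- The preimage in `Q` of a subgroup of finite index. -/
def pre {Q T : Type*} [Group Q] [Group T] {Q' : Subgroup Q} (f : Q' →* T) (T₀ : Subgroup T) :
    Subgroup Q := (T₀.comap f).map Q'.subtype

theorem pre_le {Q T : Type*} [Group Q] [Group T] {Q' : Subgroup Q} (f : Q' →* T)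
    (T₀ : Subgroup T) : pre f T₀ ≤ Q' := by
  rintro _ ⟨x, -, rfl⟩
  exact x.2

theorem pre_fin {Q T : Type*} [Group Q] [Group T] {Q' : Subgroup Q} (hQ' : Q'.FiniteIndex)
    (f : Q' →* T) (T₀ : Subgroup T) (hT₀ : T₀.FiniteIndex) : (pre f T₀).FiniteIndex := by
  constructor
  unfold pre
  rw [Subgroup.index_map_subtype]
  apply mul_ne_zero _ hQ'.index_ne_zero
  rw [Subgroup.index_comap]
  intro h0
  have h1 := Subgroup.relIndex_ne_zero_trans (H := T₀) (K := T₀) (L := f.range)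
  have h2 : T₀.relIndex f.range ≠ 0 := by
    have := hT₀
    exact (inferInstance : (T₀.subgroupOf f.range).FiniteIndex).index_ne_zero
  exact h2 h0

/-- The restriction of `f` to a subgroup of the preimage. -/
def fres {Q T : Type*} [Group Q] [Group T] {Q' : Subgroup Q} (f : Q' →* T) (T₀ : Subgroup T)
    {G : Subgroup Q} (hG : G ≤ pre f T₀) : G →* T₀ :=
  (f.comp (Subgroup.inclusion (hG.trans (pre_le f T₀)))).codRestrict T₀ (fun x => by
    obtain ⟨y, hy, hyx⟩ := hG x.2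
    have h1 : y = Subgroup.inclusion (hG.trans (pre_le f T₀)) x := Subtype.ext hyx
    rw [MonoidHom.comp_apply, ← h1]
    exact hy)

theorem fres_comp {Q T : Type*} [Group Q] [Group T] {Q' : Subgroup Q} (f : Q' →* T)
    (T₀ : Subgroup T) {G : Subgroup Q} (hG : G ≤ pre f T₀) :
    T₀.subtype.comp (fres f T₀ hG) =
      f.comp (Subgroup.inclusion (hG.trans (pre_le f T₀))) := rfl

theorem main_top {Q : Type} [Group Q] {n : ℕ} (hQ : Dual n Q) (φ : Q →* Q)
    (hinj : Function.Injective φ) (hfin : φ.range.FiniteIndex)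
    (Q' : Subgroup Q) (hQ' : Q'.FiniteIndex) (T : Type) [Group T] (f : Q' →* T)
    (T₀ : Subgroup T) (hT₀ : T₀.FiniteIndex) (hT : EqNoeth T₀) (hT2 : TorFree T₀)
    (τ : HZ T n) (hτ : NonTors (pull f n τ)) :
    ∃ G : Subgroup Q, G.FiniteIndex ∧ G ≤ Q' ∧
      ∀ x : G, (∀ h : G →* T₀, h x = 1) → ∀ k, ∃ y, itr φ k y = x := by
  obtain ⟨G, hG1, hG2, hG3, hG4⟩ := reduce hQ φ (pre f T₀) (pre_fin hQ' f T₀ hT₀)
  refine ⟨G, hG1, hG2.trans (pre_le f T₀), fun x hx k => ?_⟩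
  have hGd := hQ.sub G
  have := hGd.fg
  obtain ⟨e⟩ := hGd.top
  obtain ⟨e0⟩ := hQ.top
  have h1 : NonTors (pull (fres f T₀ hG2) n (pull T₀.subtype n τ)) := by
    intro m hm h0
    rw [← pull_comp, fres_comp, pull_comp] at h0
    obtain ⟨m', hm', h2⟩ := torsion_of_res n e0 hQ.cd (hG2.trans (pre_le f T₀)) _ m hm h0
    exact hτ m' hm' h2
  obtain ⟨y, hy⟩ := core_T n e hGd.cd hG4 (rst φ G hG3) (rst_inj hinj G hG3)
    (rst_fin hinj hfin G hG1 hG3) T₀ hT hT2 (fres f T₀ hG2) (pull T₀.subtype n τ) h1 x hx k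
  refine ⟨y, ?_⟩
  rw [← itr_rst φ G hG3, hy]

/-- The integers, written multiplicatively. -/
abbrev ZM := Multiplicative ℤ

theorem eqNoeth_ZM : EqNoeth ZM := eqNoeth_nilpotent inferInstance

theorem torFree_ZM : TorFree ZM := by
  intro t m hm h
  have h1 : m • t.toAdd = 0 := congrArg Multiplicative.toAdd h
  rw [nsmul_eq_mul] at h1
  have h2 : (m : ℤ) ≠ 0 := by exact_mod_cast hm.ne'
  have h3 : t.toAdd = 0 := by
    rcases mul_eq_zero.1 h1 with h4 | h4
    · exact absurd h4 h2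
    · exact h4
  exact Multiplicative.toAdd.injective h3

theorem torFree_prod {T U : Type*} [Group T] [Group U] (hT : TorFree T) (hU : TorFree U) :
    TorFree (T × U) := by
  intro t m hm h
  have h1 := congrArg Prod.fst h
  have h2 := congrArg Prod.snd h
  exact Prod.ext (hT _ m hm h1) (hU _ m hm h2)

theorem exists_cls {T : Type} [Group T] (j : ℕ) (τ : HZ T j) :
    ∃ (c : (Fin j → T) → ℤ) (hc : inhomogeneousCochains.d (Rep.trivial ℤ T ℤ) j c = 0),
      τ = cls c hc := by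
  induction τ using groupCohomology_induction_on with
  | h z => exact ⟨_, d_iCocycles _ j z, congrArg _ (eq_cocyclesMk _ j z)⟩

theorem comp_cocycle {G T : Type} [Group G] [Group T] (f : G →* T) {j : ℕ}
    (c : (Fin j → T) → ℤ) (hc : inhomogeneousCochains.d (Rep.trivial ℤ T ℤ) j c = 0) :
    inhomogeneousCochains.d (Rep.trivial ℤ G ℤ) j (fun g => c (f ∘ g)) = 0 := by
  funext g
  refine (d_triv _ g).trans ?_
  have h1 := congrFun hc (f ∘ g)
  refine Eq.trans ?_ h1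
  refine Eq.trans ?_ (d_triv c (f ∘ g)).symm
  congr 1
  apply Finset.sum_congr rfl
  intro i _
  rw [Fin.comp_contractNth]
  intro a b
  exact map_mul f a b

theorem pull_cls {G T : Type} [Group G] [Group T] (f : G →* T) {j : ℕ}
    (c : (Fin j → T) → ℤ) (hc : inhomogeneousCochains.d (Rep.trivial ℤ T ℤ) j c = 0) :
    pull f j (cls c hc) = cls (fun g => c (f ∘ g)) (comp_cocycle f c hc) := by
  unfold pull cls
  apply map_mk
  intro g
  rfl

theorem cupc_comp {G T : Type} [Group G] [Group T] (f : G →* T) (a : T →* ZM) {j : ℕ}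
    (c : (Fin j → T) → ℤ) :
    (fun g => cupc a c (f ∘ g)) = cupc (a.comp f) (fun g => c (f ∘ g)) := by
  funext g
  rfl

theorem cls_congr {G : Type} [Group G] {j : ℕ} {c c' : (Fin j → G) → ℤ} (h : c = c')
    (hc : inhomogeneousCochains.d (Rep.trivial ℤ G ℤ) j c = 0)
    (hc' : inhomogeneousCochains.d (Rep.trivial ℤ G ℤ) j c' = 0) : cls c hc = cls c' hc' := by
  subst h
  rfl

theorem main_codeg {Q : Type} [Group Q] {j : ℕ} (hQ : Dual (j + 1) Q) (φ : Q →* Q)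
    (hinj : Function.Injective φ) (hfin : φ.range.FiniteIndex)
    (Q' : Subgroup Q) (hQ' : Q'.FiniteIndex) (T : Type) [Group T] (f : Q' →* T)
    (T₀ : Subgroup T) (hT₀ : T₀.FiniteIndex) (hT : EqNoeth T₀) (hT2 : TorFree T₀)
    (τ : HZ T j) (hτ : NonTors (pull f j τ)) :
    ∃ G : Subgroup Q, G.FiniteIndex ∧ G ≤ Q' ∧
      ∀ x : G, (∀ h : G →* T₀ × ZM, h x = 1) → ∀ k, ∃ y, itr φ k y = x := by
  obtain ⟨G, hG1, hG2, hG3, hG4⟩ := reduce hQ φ (pre f T₀) (pre_fin hQ' f T₀ hT₀)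
  refine ⟨G, hG1, hG2.trans (pre_le f T₀), fun x hx k => ?_⟩
  have hGd := hQ.sub G
  have := hGd.fg
  obtain ⟨e⟩ := hGd.top
  have hlow := hGd.low j rfl
  have hfinite := finite_codeg e hGd.cd hlow hG4
  have h1 : NonTors (pull (fres f T₀ hG2) j (pull T₀.subtype j τ)) := by
    intro m hm h0
    rw [← pull_comp, fres_comp, pull_comp] at h0
    obtain ⟨m', hm', h2⟩ := torsion_of_res' j (hG2.trans (pre_le f T₀)) hfinite _ m hm h0
    exact hτ m' hm' h2
  obtain ⟨c, hc, hcτ⟩ := exists_cls j (pull T₀.subtype j τ)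
  rw [hcτ, pull_cls] at h1
  obtain ⟨a, ha⟩ := nondeg e hGd.cd hlow hG4 _ (comp_cocycle (fres f T₀ hG2) c hc) h1
  let f₁ : G →* T₀ × ZM := (fres f T₀ hG2).prod a
  let c₁ : (Fin (j + 1) → T₀ × ZM) → ℤ := cupc (MonoidHom.snd T₀ ZM)
    (fun g => c (MonoidHom.fst T₀ ZM ∘ g))
  have hc₁ : inhomogeneousCochains.d (Rep.trivial ℤ (T₀ × ZM) ℤ) (j + 1) c₁ = 0 :=
    cupc_cocycle _ _ (comp_cocycle (MonoidHom.fst T₀ ZM) c hc)
  have h2 : NonTors (pull f₁ (j + 1) (cls c₁ hc₁)) := by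
    rw [pull_cls]
    exact ha
  obtain ⟨y, hy⟩ := core_T (j + 1) e hGd.cd hG4 (rst φ G hG3) (rst_inj hinj G hG3)
    (rst_fin hinj hfin G hG1 hG3) (T₀ × ZM) (hT.prod eqNoeth_ZM) (torFree_prod hT2 torFree_ZM)
    f₁ (cls c₁ hc₁) h2 x hx k
  refine ⟨y, ?_⟩
  rw [← itr_rst φ G hG3, hy]

end EssMap
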