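import Pool.Agent.EssMap.Dim3

/-!
# Minors with module coefficients
-/

namespace EssMap

variable {ι : Type} [Fintype ι] [DecidableEq ι] {G : Type} [Group G]
  (a : G →* Multiplicative ℤ) (γ : ι → G) {M : Type} [AddCommGroup M] [Module LL M]

/-- The induced homomorphism. -/
noncomputable def Pm (v : ι → M) : AG LL (ι → LL) tL →* AG LL M tL :=
  MonoidHom.mk' (fun x => ⟨∑ j, x.v j • v j, x.i⟩) (by
    intro x y
    apply AG.ext
    · show ∑ j, (x.v + (tL ^ x.i) • y.v) j • v j =
        ∑ j, x.v j • v j + (tL ^ x.i) • ∑ j, y.v j • v j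
      rw [Finset.smul_sum, ← Finset.sum_add_distrib]
      apply Finset.sum_congr rfl
      intro j _
      rw [Pi.add_apply, Pi.smul_apply, add_smul, Units.smul_def, Units.smul_def, smul_eq_mul,
        mul_smul]
    · rfl)

theorem Pm_v (v : ι → M) (x : AG LL (ι → LL) tL) : (Pm v x).v = ∑ j, x.v j • v j :=
  AG.mk_v (u := tL) (∑ j, x.v j • v j) x.i

theorem Pm_i (v : ι → M) (x : AG LL (ι → LL) tL) : (Pm v x).i = x.i :=
  AG.mk_i (u := tL) (∑ j, x.v j • v j) x.i

theorem single_smul_sum (v : ι → M) (i : ι) : ∑ j, (Pi.single i 1 : ι → LL) j • v j = v i := by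
  rw [Finset.sum_eq_single i]
  · rw [Pi.single_eq_same, one_smul]
  · intro j _ hj
    rw [Pi.single_eq_of_ne hj, zero_smul]
  · intro h
    exact absurd (Finset.mem_univ i) h

theorem hom_val_mod (z : G →* AG LL M tL) (hz : ∀ g, (z g).i = (a g).toAdd)
    (w : FreeGroup ι) :
    (z (FreeGroup.lift γ w)).v = ∑ j, (DD a γ w).v j • (z (γ j)).v := by
  have h : z.comp (FreeGroup.lift γ) = (Pm (fun i => (z (γ i)).v)).comp (DD a γ) := by
    ext i
    · rw [MonoidHom.comp_apply, MonoidHom.comp_apply, DD_of, FreeGroup.lift_apply_of, Pm_v,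
        AG.mk_v, single_smul_sum]
    · rw [MonoidHom.comp_apply, MonoidHom.comp_apply, DD_of, FreeGroup.lift_apply_of, Pm_i,
        AG.mk_i, hz]
  have h2 := congrArg AG.v (DFunLike.congr_fun h w)
  rw [MonoidHom.comp_apply, MonoidHom.comp_apply, Pm_v] at h2
  exact h2

theorem minors_mod (hγ : Function.Surjective (FreeGroup.lift γ)) (z : G →* AG LL M tL)
    (hz : ∀ g, (z g).i = (a g).toAdd) (i₀ : ι)
    (hi₀ : (z (γ i₀)).v = 0) (W : ι → FreeGroup ι) (hW : ∀ i, FreeGroup.lift γ (W i) = 1)
    (g : G) : (EE a γ i₀ W).det • (z g).v = 0 := by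
  let E := EE a γ i₀ W
  have h1 : ∀ i, ∑ j, E i j • (z (γ j)).v = 0 := by
    intro i
    by_cases hi : i = i₀
    · have h3 : E i = Pi.single i₀ 1 := if_pos hi
      rw [h3, single_smul_sum, hi₀]
    · have h3 : E i = (DD a γ (W i)).v := if_neg hi
      rw [h3, ← hom_val_mod a γ z hz, hW, map_one, AG.one_v]
  have h2 : ∀ j, E.det • (z (γ j)).v = 0 := by
    intro j
    have h3 : ∑ i, E.adjugate j i • (∑ k, E i k • (z (γ k)).v) = 0 := by
      apply Finset.sum_eq_zero
      intro i _
      rw [h1, smul_zero]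
    have h4 : ∑ i, E.adjugate j i • (∑ k, E i k • (z (γ k)).v) =
        ∑ k, ((E.adjugate * E) j k) • (z (γ k)).v := by
      simp only [Finset.smul_sum, smul_smul, Matrix.mul_apply, Finset.sum_smul]
      exact Finset.sum_comm
    rw [h4, Matrix.adjugate_mul] at h3
    rw [Finset.sum_eq_single j] at h3
    · rw [Matrix.smul_apply, Matrix.one_apply_eq, smul_eq_mul, mul_one] at h3
      exact h3
    · intro k _ hk
      rw [Matrix.smul_apply, Matrix.one_apply_ne hk.symm, smul_zero, zero_smul]
    · intro h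
      exact absurd (Finset.mem_univ j) h
  let Z : Subgroup G :=
    { carrier := {g | E.det • (z g).v = 0}
      one_mem' := by
        show E.det • (z 1).v = 0
        rw [map_one, AG.one_v, smul_zero]
      mul_mem' := by
        intro x y hx hy
        show E.det • (z (x * y)).v = 0
        have hx' : E.det • (z x).v = 0 := hx
        have hy' : E.det • (z y).v = 0 := hy
        rw [map_mul, AG.mul_v, smul_add, hx', zero_add, smul_comm, hy', smul_zero]
      inv_mem' := by
        intro x hx
        show E.det • (z x⁻¹).v = 0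
        have hx' : E.det • (z x).v = 0 := hx
        rw [map_inv, AG.inv_v, smul_neg, smul_comm, hx', smul_zero, neg_zero] }
  have h3 : ∀ w : FreeGroup ι, FreeGroup.lift γ w ∈ Z := by
    intro w
    induction w using FreeGroup.induction_on with
    | C1 => rw [map_one]; exact Z.one_mem
    | of i => rw [FreeGroup.lift_apply_of]; exact h2 i
    | inv_of i _ => rw [map_inv, FreeGroup.lift_apply_of]; exact Z.inv_mem (h2 i)
    | mul x y hx hy => rw [map_mul]; exact Z.mul_mem hx hy
  obtain ⟨w, rfl⟩ := hγ g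
  exact h3 w

/-- Two-sided complex sequences. -/
def SQ : Type := ℤ → ℂ

instance : AddCommGroup SQ := inferInstanceAs (AddCommGroup (ℤ → ℂ))

/-- The shift. -/
def sft (i : ℤ) : AddMonoid.End SQ where
  toFun s := fun k => s (k + i)
  map_zero' := rfl
  map_add' _ _ := rfl

theorem sft_apply (i : ℤ) (s : SQ) (k : ℤ) : sft i s k = s (k + i) := rfl

/-- The shifts, as a homomorphism. -/
def sftHom : Multiplicative ℤ →* AddMonoid.End SQ where
  toFun i := sft i.toAdd
  map_one' := by
    ext s
    funext k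
    show s (k + 0) = s k
    rw [add_zero]
  map_mul' i j := by
    ext s
    funext k
    show s (k + (i.toAdd + j.toAdd)) = s (k + i.toAdd + j.toAdd)
    rw [add_assoc]

/-- The action of Laurent polynomials. -/
noncomputable def actL : LL →+* AddMonoid.End SQ :=
  (AddMonoidAlgebra.lift ℤ (AddMonoid.End SQ) ℤ sftHom).toRingHom

noncomputable instance : Module LL SQ := Module.compHom SQ actL

theorem smul_SQ (f : LL) (s : SQ) : f • s = actL f s := rfl

theorem actL_T (n : ℤ) : actL (LaurentPolynomial.T n) = sft n := by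
  show AddMonoidAlgebra.lift ℤ (AddMonoid.End SQ) ℤ sftHom (AddMonoidAlgebra.single n 1) = _
  rw [AddMonoidAlgebra.lift_single, one_smul]
  rfl

theorem tL_zpow (n : ℤ) : ((tL ^ n : LLˣ) : LL) = LaurentPolynomial.T n := by
  have h := evL_zpow tL n
  have h2 : evL tL = RingHom.id LL := by
    unfold evL
    apply IsLocalization.ringHom_ext (M := Submonoid.powers (Polynomial.X : Polynomial ℤ))
    apply Polynomial.ringHom_ext'
    · exact RingHom.ext_int _ _
    · rw [RingHom.comp_apply, RingHom.comp_apply]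
      have h1 : algebraMap (Polynomial ℤ) LL Polynomial.X = LaurentPolynomial.T 1 := by
        rw [LaurentPolynomial.algebraMap_eq_toLaurent, Polynomial.toLaurent_X]
      rw [h1, LaurentPolynomial.eval₂_T, zpow_one]
      rfl
  have h3 := LaurentPolynomial.eval₂_T (Int.castRingHom LL) tL n
  have h4 : evL tL (LaurentPolynomial.T n) = ((tL ^ n : LLˣ) : LL) := h3
  rw [h2] at h4
  exact h4.symm

theorem tL_smul (n : ℤ) (s : SQ) : (tL ^ n) • s = sft n s := by
  rw [Units.smul_def, tL_zpow, smul_SQ, actL_T]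

end EssMap
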