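import Pool.Agent.EssMap.Dim

/-!
# No twisted cocycles
-/

namespace EssMap

variable {G : Type} [Group G]

/-- Additive functions. -/
def Addf (G K : Type) [Group G] [Field K] : Submodule K (G → K) where
  carrier := {h | ∀ x y, h (x * y) = h x + h y}
  zero_mem' := fun x y => by simp
  add_mem' := fun {f g} hf hg x y => by
    rw [Pi.add_apply, Pi.add_apply, Pi.add_apply, hf, hg]
    ring
  smul_mem' := fun c f hf x y => by
    rw [Pi.smul_apply, Pi.smul_apply, Pi.smul_apply, hf, smul_add]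

theorem addf_one {K : Type} [Field K] (h : Addf G K) : h.1 1 = 0 := by
  have := h.2 1 1
  rw [mul_one] at this
  exact left_eq_add.1 this

theorem addf_pow {K : Type} [Field K] (h : Addf G K) (x : G) (n : ℕ) :
    h.1 (x ^ n) = n * h.1 x := by
  induction n with
  | zero => rw [pow_zero, addf_one, Nat.cast_zero, zero_mul]
  | succ n ih => rw [pow_succ, h.2, ih]; push_cast; ring

theorem addf_ext {K : Type} [Field K] {ι : Type} (γ : ι → G)
    (hγ : Function.Surjective (FreeGroup.lift γ)) (h : Addf G K) (h0 : ∀ i, h.1 (γ i) = 0) :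
    h = 0 := by
  let F : G →* Multiplicative K := MonoidHom.mk' (fun g => Multiplicative.ofAdd (h.1 g)) (by
    intro x y
    rw [h.2, ofAdd_add])
  have hF : F.comp (FreeGroup.lift γ) = 1 := by
    ext i
    rw [MonoidHom.comp_apply, FreeGroup.lift_apply_of]
    show Multiplicative.ofAdd (h.1 (γ i)) = 1
    rw [h0, ofAdd_zero]
  apply Subtype.ext
  funext g
  obtain ⟨w, rfl⟩ := hγ g
  have := DFunLike.congr_fun hF w
  exact Multiplicative.ofAdd.injective this

theorem addf_finite {K : Type} [Field K] {ι : Type} [Finite ι] (γ : ι → G)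
    (hγ : Function.Surjective (FreeGroup.lift γ)) : FiniteDimensional K (Addf G K) := by
  let F : Addf G K →ₗ[K] (ι → K) :=
    { toFun := fun h i => h.1 (γ i)
      map_add' := fun _ _ => rfl
      map_smul' := fun _ _ => rfl }
  apply FiniteDimensional.of_injective F
  rw [injective_iff_map_eq_zero]
  intro h h0
  exact addf_ext γ hγ h (fun i => congrFun h0 i)

/-- Precomposition. -/
def prc {K : Type} [Field K] (φ : G →* G) : Addf G K →ₗ[K] Addf G K where
  toFun h := ⟨fun g => h.1 (φ g), fun x y => by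
    show h.1 (φ (x * y)) = h.1 (φ x) + h.1 (φ y)
    rw [map_mul]
    exact h.2 _ _⟩
  map_add' _ _ := rfl
  map_smul' _ _ := rfl

theorem prc_surj {K : Type} [Field K] [CharZero K] {ι : Type} [Finite ι] (γ : ι → G)
    (hγ : Function.Surjective (FreeGroup.lift γ)) (φ : G →* G) (hfin : φ.range.FiniteIndex) :
    Function.Surjective (prc (K := K) φ) := by
  have := addf_finite (K := K) γ hγ
  rw [← LinearMap.injective_iff_surjective, injective_iff_map_eq_zero]
  intro h h0
  apply Subtype.ext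
  funext x
  obtain ⟨n, hn, -, hx⟩ := Subgroup.exists_pow_mem_of_index_ne_zero hfin.index_ne_zero x
  obtain ⟨y, hy⟩ := hx
  have h1 : h.1 (φ y) = 0 := congrFun (congrArg Subtype.val h0) y
  rw [hy, addf_pow] at h1
  rcases mul_eq_zero.1 h1 with h2 | h2
  · exact absurd h2 (by exact_mod_cast hn.ne')
  · exact h2

theorem no_twist {ι : Type} [Finite ι] (γ : ι → G)
    (hγ : Function.Surjective (FreeGroup.lift γ)) (φ : G →* G) (hfin : φ.range.FiniteIndex)
    (a : G →* Multiplicative ℤ) (t : G) (ht : (a t).toAdd = 1) (p : ℕ)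
    (hap : ∀ g, (p : ℤ) ∣ (a (φ g)).toAdd) (ζ : ℂˣ) (hζ : ζ ^ p = 1) (hζ1 : ζ ≠ 1)
    (z : G →* AG ℂ ℂ ζ) (hz : ∀ g, (z g).i = (a g).toAdd) (hzt : (z t).v = 0) (g : G) :
    (z g).v = 0 := by
  have hmul : ∀ x y, (z (x * y)).v = (z x).v + ((ζ ^ (a x).toAdd : ℂˣ) : ℂ) * (z y).v := by
    intro x y
    rw [map_mul, AG.mul_v, hz, Units.smul_def, smul_eq_mul]
  have hz1 : ∀ n : ℤ, (p : ℤ) ∣ n → ζ ^ n = 1 := by
    rintro n ⟨m, rfl⟩
    rw [zpow_mul, zpow_natCast, hζ, one_zpow]
  have hmul1 : ∀ x y, (p : ℤ) ∣ (a x).toAdd → (z (x * y)).v = (z x).v + (z y).v := by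
    intro x y hx
    rw [hmul, hz1 _ hx, Units.val_one, one_mul]
  let w : Addf G ℂ := ⟨fun g => (z (φ g)).v, fun x y => by
    show (z (φ (x * y))).v = (z (φ x)).v + (z (φ y)).v
    rw [map_mul φ x y]
    exact hmul1 _ _ (hap x)⟩
  obtain ⟨h, hh⟩ := prc_surj (K := ℂ) γ hγ φ hfin w
  have hh2 : ∀ g, h.1 (φ g) = (z (φ g)).v := fun g => congrFun (congrArg Subtype.val hh) g
  have hpow : ∀ x, (p : ℤ) ∣ (a x).toAdd → ∀ n : ℕ, (z (x ^ n)).v = n * (z x).v := by
    intro x hx n
    induction n with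
    | zero => rw [pow_zero, map_one, AG.one_v, Nat.cast_zero, zero_mul]
    | succ n ih => rw [pow_succ', hmul1 _ _ hx, ih]; push_cast; ring
  have heq : ∀ x, (p : ℤ) ∣ (a x).toAdd → (z x).v = h.1 x := by
    intro x hx
    obtain ⟨n, hn, -, hxn⟩ := Subgroup.exists_pow_mem_of_index_ne_zero hfin.index_ne_zero x
    obtain ⟨y, hy⟩ := hxn
    have h1 := hh2 y
    rw [hy, addf_pow, hpow x hx] at h1
    have h2 : (n : ℂ) ≠ 0 := by exact_mod_cast hn.ne'
    exact (mul_left_cancel₀ h2 h1).symm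
  have hinv : (z t⁻¹).v = 0 := by
    rw [map_inv, AG.inv_v, hzt, smul_zero, neg_zero]
  have hzero : ∀ x, (p : ℤ) ∣ (a x).toAdd → (z x).v = 0 := by
    intro x hx
    have h1 : (a (t * x * t⁻¹)).toAdd = (a x).toAdd := by
      rw [map_mul a, map_mul a, map_inv a, toAdd_mul, toAdd_mul, toAdd_inv]
      ring
    have h2 : (z (t * x * t⁻¹)).v = (ζ : ℂ) * (z x).v := by
      rw [hmul, hinv, mul_zero, add_zero, hmul, hzt, zero_add, ht, zpow_one]
    have h3 : h.1 (t * x * t⁻¹) = h.1 x := by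
      have h4 : h.1 (t * t⁻¹) = h.1 t + h.1 t⁻¹ := h.2 _ _
      rw [mul_inv_cancel, addf_one] at h4
      rw [h.2, h.2]
      linear_combination -h4
    rw [heq _ (by rw [h1]; exact hx), h3, ← heq _ hx] at h2
    have h5 : ((ζ : ℂ) - 1) * (z x).v = 0 := by rw [sub_mul, ← h2, one_mul, sub_self]
    rcases mul_eq_zero.1 h5 with h6 | h6
    · exfalso
      apply hζ1
      apply Units.ext
      rw [Units.val_one]
      exact sub_eq_zero.1 h6
    · exact h6
  let Z : Subgroup G :=
    { carrier := {g | (z g).v = 0}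
      one_mem' := by
        show (z 1).v = 0
        rw [map_one, AG.one_v]
      mul_mem' := by
        intro x y hx hy
        show (z (x * y)).v = 0
        have hx' : (z x).v = 0 := hx
        have hy' : (z y).v = 0 := hy
        rw [hmul, hx', hy', mul_zero, add_zero]
      inv_mem' := by
        intro x hx
        show (z x⁻¹).v = 0
        have hx' : (z x).v = 0 := hx
        rw [map_inv, AG.inv_v, hx', smul_zero, neg_zero] }
  have h7 : g * (t ^ (a g).toAdd)⁻¹ ∈ Z := by
    apply hzero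
    rw [map_mul a, map_inv a, map_zpow a, toAdd_mul, toAdd_inv, toAdd_zpow, ht]
    simp
  have h8 : t ^ (a g).toAdd ∈ Z := Z.zpow_mem hzt _
  have h9 := Z.mul_mem h7 h8
  rw [inv_mul_cancel_right] at h9
  exact h9

end EssMap
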