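import Pool.Agent.EssMap.Cup

/-!
# Nondegeneracy of the product with homomorphisms to the integers
-/

open CategoryTheory groupCohomology

namespace EssMap

variable {G : Type} [Group G]

/-- The class of an integral cocycle. -/
noncomputable def cls {j : ℕ} (c : (Fin j → G) → ℤ)
    (hc : inhomogeneousCochains.d (Rep.trivial ℤ G ℤ) j c = 0) : HZ G j :=
  π (Rep.trivial ℤ G ℤ) j (cocyclesMk c hc)

theorem chi_delta (a : G →* Multiplicative ℤ) {j : ℕ} (c : (Fin j → G) → ℤ)
    (hc : inhomogeneousCochains.d (Rep.trivial ℤ G ℤ) j c = 0) :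
    cmap (chi a) (j + 1) (δ (XG_shortExact G) j (j + 1) rfl (cls c hc)) =
      cls (cupc a c) (cupc_cocycle a c hc) := by
  have hz : (inhomogeneousCochains (XG G).X₃).d j (j + 1) c = 0 := by
    rw [inhomogeneousCochains.d_def]
    exact hc
  have h1 := δ_apply (XG_shortExact G) (rfl : j + 1 = j + 1) c hz (clift c)
    (by
      funext g
      exact clift_eps c g) (ccoch c) (ccoch_cocycle c hc)
  unfold cls
  refine (congrArg (cmap (chi a) (j + 1)) h1).trans ?_
  unfold cmap
  apply map_mk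
  intro g
  exact ccoch_chi a c g

theorem nondeg [Group.FG G] {j : ℕ}
    (e : groupCohomology (Rep.leftRegular ℤ G) (j + 1) ≃+ ℤ)
    (h : ∀ M : Rep ℤ G, Limits.IsZero (groupCohomology M (j + 1 + 1)))
    (h3 : Limits.IsZero (groupCohomology (Rep.leftRegular ℤ G) j))
    (ho : Ori (j + 1) G = ⊤) (c : (Fin j → G) → ℤ)
    (hc : inhomogeneousCochains.d (Rep.trivial ℤ G ℤ) j c = 0)
    (hnt : ∀ m : ℤ, m ≠ 0 → m • cls c hc ≠ 0) :
    ∃ a : G →* Multiplicative ℤ, ∀ m : ℤ, m ≠ 0 → m • cls (cupc a c) (cupc_cocycle a c hc) ≠ 0 := by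
  by_contra hcon
  push Not at hcon
  have hd : Mono (δ (XG_shortExact G) j (j + 1) rfl) :=
    mono_δ_of_isZero (XG_shortExact G) j h3
  have hd2 := (ModuleCat.mono_iff_injective _).1 hd
  obtain ⟨m, hm, hm2⟩ := cl_torsion (j + 1) e h ho
    (δ (XG_shortExact G) j (j + 1) rfl (cls c hc)) (fun a => by
      obtain ⟨m, hm, hm2⟩ := hcon a
      refine ⟨m, hm, ?_⟩
      rw [chi_delta]
      exact hm2)
  apply hnt m hm
  apply hd2
  have h4 : (δ (XG_shortExact G) j (j + 1) rfl).hom (m • cls c hc) =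
      m • (δ (XG_shortExact G) j (j + 1) rfl).hom (cls c hc) := map_zsmul _ _ _
  exact h4.trans (hm2.trans (map_zero _).symm)

end EssMap
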