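import Pool.Agent.EssMap.NoTw

/-!
# Integral functions and a prime
-/

namespace EssMap

variable {A B : Type} [Group A] [Group B]

/-- Integral valued additive functions. -/
def IsInt (h : Addf A ℚ) : Prop := ∀ g, ∃ n : ℤ, h.1 g = n

/-- The rational function of an integral one. -/
def toQ (c : A →* Multiplicative ℤ) : Addf A ℚ :=
  ⟨fun g => ((c g).toAdd : ℚ), fun x y => by
    show (((c (x * y)).toAdd : ℤ) : ℚ) = ((c x).toAdd : ℚ) + ((c y).toAdd : ℚ)
    rw [map_mul, toAdd_mul, Int.cast_add]⟩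

theorem exists_hom_of_int (h : Addf A ℚ) (hh : IsInt h) :
    ∃ c : A →* Multiplicative ℤ, ∀ g, h.1 g = ((c g).toAdd : ℚ) := by
  choose n hn using hh
  refine ⟨MonoidHom.mk' (fun g => Multiplicative.ofAdd (n g)) ?_, fun g => hn g⟩
  intro x y
  rw [← ofAdd_add]
  congr 1
  have h1 : ((n (x * y) : ℤ) : ℚ) = ((n x + n y : ℤ) : ℚ) := by
    rw [← hn, h.2, hn, hn, Int.cast_add]
  exact_mod_cast h1

theorem isInt_of_gen {ι : Type} (γ : ι → A) (hγ : Function.Surjective (FreeGroup.lift γ))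
    (h : Addf A ℚ) (hh : ∀ i, ∃ n : ℤ, h.1 (γ i) = n) : IsInt h := by
  let S : Subgroup A :=
    { carrier := {g | ∃ n : ℤ, h.1 g = n}
      one_mem' := ⟨0, by rw [addf_one, Int.cast_zero]⟩
      mul_mem' := by
        rintro x y ⟨m, hm⟩ ⟨n, hn⟩
        exact ⟨m + n, by rw [h.2, hm, hn, Int.cast_add]⟩
      inv_mem' := by
        rintro x ⟨m, hm⟩
        refine ⟨-m, ?_⟩
        have h1 : h.1 (x * x⁻¹) = h.1 x + h.1 x⁻¹ := h.2 _ _
        rw [mul_inv_cancel, addf_one, hm] at h1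
        rw [Int.cast_neg]
        linarith }
  have hS : ∀ w : FreeGroup ι, FreeGroup.lift γ w ∈ S := by
    intro w
    induction w using FreeGroup.induction_on with
    | C1 => rw [map_one]; exact S.one_mem
    | of i => rw [FreeGroup.lift_apply_of]; exact hh i
    | inv_of i _ => rw [map_inv, FreeGroup.lift_apply_of]; exact S.inv_mem (hh i)
    | mul x y hx hy => rw [map_mul]; exact S.mul_mem hx hy
  intro g
  obtain ⟨w, rfl⟩ := hγ g
  exact hS w

theorem exists_den {ι : Type} [Fintype ι] (γ : ι → A)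
    (hγ : Function.Surjective (FreeGroup.lift γ)) (h : Addf A ℚ) :
    ∃ N : ℕ, 0 < N ∧ IsInt ((N : ℚ) • h) := by
  refine ⟨∏ i, (h.1 (γ i)).den, Finset.prod_pos (fun i _ => (h.1 (γ i)).den_pos), ?_⟩
  apply isInt_of_gen γ hγ
  intro i
  obtain ⟨m, hm⟩ := Finset.dvd_prod_of_mem (fun i => (h.1 (γ i)).den) (Finset.mem_univ i)
  refine ⟨m * (h.1 (γ i)).num, ?_⟩
  show (((∏ i, (h.1 (γ i)).den : ℕ)) : ℚ) * h.1 (γ i) = _
  rw [hm]
  push_cast
  rw [mul_assoc, mul_left_comm, Rat.den_mul_eq_num]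

/-- The prime. -/
theorem exists_prime {ι : Type} [Fintype ι] (γ : ι → A)
    (hγ : Function.Surjective (FreeGroup.lift γ)) (φ : A →* A) (h : Addf A ℚ)
    (h1 : IsInt (prc φ h)) (h2 : ¬ IsInt h) :
    ∃ (a : A →* Multiplicative ℤ) (t : A) (p : ℕ), (a t).toAdd = 1 ∧ p.Prime ∧
      ∀ g, (p : ℤ) ∣ (a (φ g)).toAdd := by
  classical
  have hex := exists_den γ hγ h
  let N := Nat.find hex
  have hN : 0 < N ∧ IsInt ((N : ℚ) • h) := Nat.find_spec hex
  have hmin : ∀ M, M < N → ¬ (0 < M ∧ IsInt ((M : ℚ) • h)) := fun M hM => Nat.find_min hex hM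
  have hN1 : N ≠ 1 := by
    intro h3
    apply h2
    have := hN.2
    rw [h3, Nat.cast_one, one_smul] at this
    exact this
  obtain ⟨p, hp, hpN⟩ := Nat.exists_prime_and_dvd hN1
  obtain ⟨M, hM⟩ := hpN
  obtain ⟨e, he⟩ := exists_hom_of_int _ hN.2
  have he' : ∀ g, (N : ℚ) * h.1 g = ((e g).toAdd : ℚ) := he
  have hnd : ¬ ∀ g, (p : ℤ) ∣ (e g).toAdd := by
    intro hall
    have hM0 : 0 < M := by
      rcases Nat.eq_zero_or_pos M with h3 | h3
      · rw [h3, mul_zero] at hM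
        exact absurd hM hN.1.ne'
      · exact h3
    apply hmin M (by rw [hM]; nlinarith [hp.two_le]) ⟨hM0, ?_⟩
    intro g
    obtain ⟨m, hm⟩ := hall g
    refine ⟨m, ?_⟩
    have h3 := he' g
    rw [hM, hm] at h3
    push_cast at h3
    have hp0 : (p : ℚ) ≠ 0 := by exact_mod_cast hp.ne_zero
    show (M : ℚ) * h.1 g = m
    rw [mul_assoc] at h3
    exact mul_left_cancel₀ hp0 h3
  let R : AddSubgroup ℤ :=
    { carrier := {n | ∃ g, (e g).toAdd = n}
      zero_mem' := ⟨1, by rw [map_one, toAdd_one]⟩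
      add_mem' := by
        rintro _ _ ⟨x, rfl⟩ ⟨y, rfl⟩
        exact ⟨x * y, by rw [map_mul, toAdd_mul]⟩
      neg_mem' := by
        rintro _ ⟨x, rfl⟩
        exact ⟨x⁻¹, by rw [map_inv, toAdd_inv]⟩ }
  obtain ⟨r, hr⟩ := Int.subgroup_cyclic R
  have hall : ∀ g, ∃ n : ℤ, n * r = (e g).toAdd := by
    intro g
    have h3 : (e g).toAdd ∈ R := ⟨g, rfl⟩
    rw [hr, AddSubgroup.mem_closure_singleton] at h3
    obtain ⟨n, hn⟩ := h3
    exact ⟨n, by rw [← hn, smul_eq_mul]⟩
  have hrR : r ∈ R := by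
    rw [hr]
    exact AddSubgroup.mem_closure_of_mem rfl
  obtain ⟨t, ht⟩ := hrR
  have hpr : ¬ (p : ℤ) ∣ r := by
    intro hd
    apply hnd
    intro g
    obtain ⟨n, hn⟩ := hall g
    rw [← hn]
    exact Dvd.dvd.mul_left hd n
  have hr0 : r ≠ 0 := by
    rintro rfl
    exact hpr (dvd_zero _)
  choose n hn using hall
  refine ⟨MonoidHom.mk' (fun g => Multiplicative.ofAdd (n g)) ?_, t, p, ?_, hp, fun g => ?_⟩
  · intro x y
    rw [← ofAdd_add]
    congr 1
    apply mul_right_cancel₀ hr0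
    rw [add_mul, hn, hn, hn, map_mul, toAdd_mul]
  · show n t = 1
    apply mul_right_cancel₀ hr0
    rw [hn, ht, one_mul]
  · show (p : ℤ) ∣ n (φ g)
    obtain ⟨m, hm⟩ := h1 g
    have h3 : h.1 (φ g) = m := hm
    have h4 : n (φ g) * r = (p : ℤ) * (M * m) := by
      have h5 := he' (φ g)
      rw [h3, ← hn, hM] at h5
      have h6 : (((p * M : ℕ) : ℤ) * m : ℤ) = n (φ g) * r := by exact_mod_cast h5
      rw [← h6]
      push_cast
      ring
    have h5 : (p : ℤ) ∣ n (φ g) * r := ⟨_, h4⟩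
    rcases (Nat.prime_iff_prime_int.1 hp).dvd_or_dvd h5 with h6 | h6
    · exact h6
    · exact absurd h6 hpr

/-- Restriction along a homomorphism. -/
def rsf (j : B →* A) : Addf A ℚ →ₗ[ℚ] Addf B ℚ where
  toFun h := ⟨fun g => h.1 (j g), fun x y => by
    show h.1 (j (x * y)) = h.1 (j x) + h.1 (j y)
    rw [map_mul]
    exact h.2 _ _⟩
  map_add' _ _ := rfl
  map_smul' _ _ := rfl

theorem prc_inj (φ : A →* A) (hfin : φ.range.FiniteIndex) (h : Addf A ℚ) (h0 : prc φ h = 0) :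
    h = 0 := by
  apply Subtype.ext
  funext x
  obtain ⟨n, hn, -, hx⟩ := Subgroup.exists_pow_mem_of_index_ne_zero hfin.index_ne_zero x
  obtain ⟨y, hy⟩ := hx
  have h1 : h.1 (φ y) = 0 := congrFun (congrArg Subtype.val h0) y
  rw [hy, addf_pow] at h1
  rcases mul_eq_zero.1 h1 with h2 | h2
  · exact absurd h2 (by exact_mod_cast hn.ne')
  · exact h2

theorem isInt_sub (h h' : Addf A ℚ) (h1 : IsInt h) (h2 : IsInt h') : IsInt (h - h') := by
  intro g
  obtain ⟨m, hm⟩ := h1 g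
  obtain ⟨n, hn⟩ := h2 g
  exact ⟨m - n, by
    show h.1 g - h'.1 g = _
    rw [hm, hn, Int.cast_sub]⟩

theorem isInt_prc (φ : A →* A) (h : Addf A ℚ) (h1 : IsInt h) : IsInt (prc φ h) :=
  fun g => h1 (φ g)

theorem isInt_prc_iter (φ : A →* A) (k : ℕ) (h : Addf A ℚ) (h1 : IsInt h) :
    IsInt ((prc φ)^[k] h) := by
  induction k generalizing h with
  | zero => exact h1
  | succ k ih => exact ih _ (isInt_prc φ h h1)

/-- Passing to a subgroup of finite index. -/
theorem descend {ι : Type} [Fintype ι] (γ : ι → A)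
    (hγ : Function.Surjective (FreeGroup.lift γ)) (φ : A →* A) (hφ : φ.range.FiniteIndex)
    (ψ : B →* B) (hψ : ψ.range.FiniteIndex) (j : B →* A) (hj : j.range.FiniteIndex)
    (hjj : ∀ x, φ (j x) = j (ψ x)) (hB : ∀ h : Addf B ℚ, IsInt (prc ψ h) → IsInt h)
    (h : Addf A ℚ) (hh : IsInt (prc φ h)) : IsInt h := by
  classical
  obtain ⟨s, hs⟩ := (prc_surj (K := ℚ) γ hγ φ hφ).hasRightInverse
  let c : ℕ → Addf A ℚ := fun k => s^[k] h
  have hc : ∀ k, prc φ (c (k + 1)) = c k := by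
    intro k
    show prc φ (s^[k + 1] h) = s^[k] h
    rw [Function.iterate_succ_apply', hs]
  have hcB : ∀ k, IsInt (rsf j (c k)) := by
    intro k
    have hcomm : ∀ f : Addf A ℚ, rsf j (prc φ f) = prc ψ (rsf j f) := by
      intro f
      apply Subtype.ext
      funext x
      show f.1 (φ (j x)) = f.1 (j (ψ x))
      rw [hjj]
    induction k with
    | zero =>
      apply hB
      rw [← hcomm]
      exact fun g => hh (j g)
    | succ k ih =>
      apply hB
      rw [← hcomm, hc]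
      exact ih
  -- a uniform denominator
  obtain ⟨M, hM, hMj⟩ : ∃ M : ℕ, 0 < M ∧ ∀ x : A, ∃ y, j y = x ^ M := by
    refine ⟨(j.range.index).factorial, Nat.factorial_pos _, fun x => ?_⟩
    obtain ⟨n, hn, hn2, hx⟩ := Subgroup.exists_pow_mem_of_index_ne_zero hj.index_ne_zero x
    obtain ⟨m, hm⟩ := Nat.dvd_factorial hn hn2
    obtain ⟨y, hy⟩ := hx
    refine ⟨y ^ m, ?_⟩
    rw [map_pow, hy, ← pow_mul, ← hm]
  have hMc : ∀ k x, ∃ n : ℤ, (M : ℚ) * (c k).1 x = n := by
    intro k x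
    obtain ⟨y, hy⟩ := hMj x
    obtain ⟨n, hn⟩ := hcB k y
    have h3 : (c k).1 (j y) = n := hn
    rw [hy, addf_pow] at h3
    exact ⟨n, h3⟩
  choose q hq using hMc
  have hM0 : (M : ℚ) ≠ 0 := by exact_mod_cast hM.ne'
  have : NeZero M := ⟨hM.ne'⟩
  obtain ⟨i, l, hil, heq⟩ := Finite.exists_ne_map_eq_of_infinite
    (fun k : ℕ => fun x : ι => ((q k (γ x) : ℤ) : ZMod M))
  have key : ∀ i l : ℕ, i < l → (∀ x, ((q i (γ x) : ℤ) : ZMod M) = ((q l (γ x) : ℤ) : ZMod M)) →
      IsInt h := by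
    intro i l hil heq
    have h3 : IsInt (c i - c l) := by
      apply isInt_of_gen γ hγ
      intro x
      have h4 := (ZMod.intCast_eq_intCast_iff_dvd_sub _ _ _).1 (heq x).symm
      obtain ⟨m, hm⟩ := h4
      refine ⟨m, ?_⟩
      show (c i).1 (γ x) - (c l).1 (γ x) = m
      apply mul_left_cancel₀ hM0
      rw [mul_sub, hq, hq]
      have h5 : ((q i (γ x) - q l (γ x) : ℤ) : ℚ) = ((M : ℤ) * m : ℤ) := by rw [hm]
      push_cast at h5
      exact h5
    have hci : ∀ k d, (prc φ)^[k] (c (k + d)) = c d := by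
      intro k
      induction k with
      | zero => intro d; rw [Nat.zero_add]; rfl
      | succ k ih =>
        intro d
        rw [Function.iterate_succ_apply]
        have h6 : k + 1 + d = (k + d) + 1 := by omega
        rw [h6, hc, ih]
    have h4 := isInt_prc_iter φ (i + 1) _ h3
    rw [iterate_map_sub] at h4
    obtain ⟨d, rfl⟩ := Nat.exists_eq_add_of_lt hil
    have h5 : (prc φ)^[i + 1] (c i) = prc φ h := by
      rw [Function.iterate_succ_apply']
      have := hci i 0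
      rw [Nat.add_zero] at this
      rw [this]
      rfl
    have h6 : (prc φ)^[i + 1] (c (i + d + 1)) = c d := by
      have h7 : i + d + 1 = (i + 1) + d := by omega
      rw [h7, hci]
    rw [h5, h6] at h4
    have h7 : IsInt (c d) := by
      have h8 := isInt_sub _ _ hh h4
      rw [sub_sub_cancel] at h8
      exact h8
    have h8 := isInt_prc_iter φ d _ h7
    have h9 := hci d 0
    rw [Nat.add_zero] at h9
    rw [h9] at h8
    exact h8
  rcases lt_or_gt_of_ne hil with h3 | h3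
  · exact key i l h3 (fun x => congrFun heq x)
  · exact key l i h3 (fun x => (congrFun heq x).symm)

/-- A non surjective map gives a non integral function. -/
theorem exists_nonint {ι : Type} [Fintype ι] (γ : ι → A)
    (hγ : Function.Surjective (FreeGroup.lift γ)) (φ : A →* A) (hφ : φ.range.FiniteIndex)
    (c : A →* Multiplicative ℤ) (hc : ∀ e : A →* Multiplicative ℤ, e.comp φ ≠ c) :
    ∃ h : Addf A ℚ, IsInt (prc φ h) ∧ ¬ IsInt h := by
  obtain ⟨h, hh⟩ := prc_surj (K := ℚ) γ hγ φ hφ (toQ c)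
  refine ⟨h, ?_, ?_⟩
  · rw [hh]
    exact fun g => ⟨_, rfl⟩
  · intro h1
    obtain ⟨e, he⟩ := exists_hom_of_int h h1
    apply hc e
    ext g
    apply Multiplicative.toAdd.injective
    have h2 : h.1 (φ g) = ((c g).toAdd : ℚ) := congrFun (congrArg Subtype.val hh) g
    rw [he] at h2
    exact_mod_cast h2

end EssMap
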