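import Pool.Agent.EssMap.Top

/-!
# Restriction maps in the top degree
-/

open CategoryTheory groupCohomology

namespace EssMap

variable {Q : Type} [Group Q]

/-- The map induced by a module map. -/
noncomputable def cmap {A B : Rep ℤ Q} (g : A ⟶ B) (n : ℕ) :
    groupCohomology A n →ₗ[ℤ] groupCohomology B n :=
  (groupCohomology.map (MonoidHom.id Q) g n).hom

theorem cmap_comp {A B C : Rep ℤ Q} (f : A ⟶ B) (g : B ⟶ C) (n : ℕ)
    (x : groupCohomology A n) : cmap (f ≫ g) n x = cmap g n (cmap f n x) := by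
  unfold cmap
  rw [groupCohomology.map_id_comp]
  rfl

theorem cmap_add {A B : Rep ℤ Q} (f g : A ⟶ B) (n : ℕ) :
    cmap (f + g) n = cmap f n + cmap g n := by
  unfold cmap
  have h : cochainsMap (MonoidHom.id Q) (f + g) =
      cochainsMap (MonoidHom.id Q) f + cochainsMap (MonoidHom.id Q) g := by
    rfl
  unfold groupCohomology.map
  rw [h, HomologicalComplex.homologyMap_add]
  rfl

theorem cmap_zero {A B : Rep ℤ Q} (n : ℕ) : cmap (0 : A ⟶ B) n = 0 := by
  have h := cmap_add (0 : A ⟶ B) 0 n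
  rw [add_zero] at h
  exact (left_eq_add.1 h)

theorem cmap_sum {A B : Rep ℤ Q} {ι : Type*} (s : Finset ι) (f : ι → (A ⟶ B)) (n : ℕ) :
    cmap (∑ i ∈ s, f i) n = ∑ i ∈ s, cmap (f i) n := by
  classical
  induction s using Finset.induction_on with
  | empty => simp [cmap_zero]
  | insert a s ha ih => rw [Finset.sum_insert ha, Finset.sum_insert ha, cmap_add, ih]

theorem cmap_id {A : Rep ℤ Q} (n : ℕ) : cmap (𝟙 A) n = LinearMap.id := by
  unfold cmap
  rw [groupCohomology.map_id]
  rfl

theorem cmap_zsmul {A B : Rep ℤ Q} (f : A ⟶ B) (m : ℕ) (n : ℕ) :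
    cmap (m • f) n = m • cmap f n := by
  induction m with
  | zero => rw [zero_smul, zero_smul, cmap_zero]
  | succ m ih => rw [add_smul, add_smul, one_smul, one_smul, cmap_add, ih]

section Pair

variable {S' S : Subgroup Q} (h : S' ≤ S)

/-- The inclusion of invariant functions. -/
noncomputable def io : MS S ⟶ MS S' :=
  Rep.ofHom
    { toFun := fun f => ⟨f.1, fun g x => f.2 ⟨g.1, h g.2⟩ x⟩
      map_add' := fun _ _ => rfl
      map_smul' := fun _ _ => rfl
      isIntertwining' := fun _ => rfl }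

theorem io_apply (f : MS S) (x : Q) : ((io h).hom f).1 x = f.1 x := rfl

theorem res_sh (n : ℕ) (y : groupCohomology (MS S) n) :
    pull (Subgroup.inclusion h) n (sh S n y) = sh S' n (cmap (io h) n y) := by
  unfold pull sh cmap
  have h1 := groupCohomology.map_comp S.subtype (Subgroup.inclusion h) (ev S)
    (tr (Subgroup.inclusion h)) n
  have h2 := groupCohomology.map_comp (A := MS S) (MonoidHom.id Q) S'.subtype (io h) (ev S') n
  have h3 : groupCohomology.map (S.subtype.comp (Subgroup.inclusion h))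
      ((Rep.resFunctor (Subgroup.inclusion h)).map (ev S) ≫ tr (Subgroup.inclusion h)) n =
      groupCohomology.map ((MonoidHom.id Q).comp S'.subtype)
      ((Rep.resFunctor S'.subtype).map (io h) ≫ ev S') n := by
    apply groupCohomology.map_congr
    · rfl
    · rfl
  rw [h1, h2] at h3
  exact congrArg (fun F => F.hom y) h3

omit h in
theorem sum_coset_left [Fintype (S ⧸ S'.subgroupOf S)] (f : MS S') (g : S) (x : Q) :
    ∑ t : S ⧸ S'.subgroupOf S, f.1 (((t.out : S) : Q)⁻¹ * (g * x)) =
      ∑ t : S ⧸ S'.subgroupOf S, f.1 (((t.out : S) : Q)⁻¹ * x) := by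
  rw [← Equiv.sum_comp (MulAction.toPerm g : Equiv.Perm (S ⧸ S'.subgroupOf S))
    (fun t => f.1 (((t.out : S) : Q)⁻¹ * (g * x)))]
  apply Finset.sum_congr rfl
  intro t _
  show f.1 ((((g • t).out : S) : Q)⁻¹ * (g * x)) = _
  have h1 : (QuotientGroup.mk ((g • t).out) : S ⧸ S'.subgroupOf S) =
      QuotientGroup.mk (g * t.out) := by
    rw [QuotientGroup.out_eq']
    conv_lhs => rw [← QuotientGroup.out_eq' t]
    rfl
  rw [QuotientGroup.eq, Subgroup.mem_subgroupOf] at h1
  have h2 := MS_left S' f ⟨_, h1⟩ (((t.out : S) : Q)⁻¹ * x)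
  rw [← h2]
  push_cast
  group

/-- Summation over the cosets. -/
noncomputable def su [Fintype (S ⧸ S'.subgroupOf S)] : MS S' ⟶ MS S :=
  Rep.ofHom
    { toFun := fun f => ⟨fun x => ∑ t : S ⧸ S'.subgroupOf S, f.1 (((t.out : S) : Q)⁻¹ * x),
        fun g x => sum_coset_left f g x⟩
      map_add' := fun a b => by
        apply Subtype.ext
        funext x
        show ∑ t : S ⧸ S'.subgroupOf S, (a.1 (((t.out : S) : Q)⁻¹ * x) +
          b.1 (((t.out : S) : Q)⁻¹ * x)) = _
        rw [Finset.sum_add_distrib]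
        rfl
      map_smul' := fun m a => by
        apply Subtype.ext
        funext x
        show ∑ t : S ⧸ S'.subgroupOf S, m • (a.1 (((t.out : S) : Q)⁻¹ * x)) = _
        rw [← Finset.smul_sum]
        rfl
      isIntertwining' := fun g => by
        apply LinearMap.ext
        intro f
        apply Subtype.ext
        funext x
        show ∑ t : S ⧸ S'.subgroupOf S, f.1 (((t.out : S) : Q)⁻¹ * x * g) =
          ∑ t : S ⧸ S'.subgroupOf S, f.1 (((t.out : S) : Q)⁻¹ * (x * g))
        simp only [mul_assoc] }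

theorem io_su [Fintype (S ⧸ S'.subgroupOf S)] :
    io h ≫ su (S := S) (S' := S') = (Fintype.card (S ⧸ S'.subgroupOf S)) • 𝟙 (MS S) := by
  ext f x
  show ∑ t : S ⧸ S'.subgroupOf S, f.1 (((t.out : S) : Q)⁻¹ * x) = _
  have h1 : ∀ t : S ⧸ S'.subgroupOf S, f.1 (((t.out : S) : Q)⁻¹ * x) = f.1 x := fun t =>
    MS_left S f (t.out)⁻¹ x
  rw [Finset.sum_congr rfl (fun t _ => h1 t), Finset.sum_const, Finset.card_univ]
  rfl

end Pair

/-- Right translation of the group ring. -/
noncomputable def rt (s : Q) : Rep.leftRegular ℤ Q ⟶ Rep.leftRegular ℤ Q :=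
  Rep.leftRegularHom (Rep.leftRegular ℤ Q) (MonoidAlgebra.single s 1)

theorem rt_single (s t : Q) :
    (rt s).hom (MonoidAlgebra.single t 1) = MonoidAlgebra.single (t * s) 1 := by
  unfold rt
  rw [Rep.leftRegularHom_hom_single, one_smul]
  simp

theorem lr_ext {A : Rep ℤ Q} (f g : Rep.leftRegular ℤ Q ⟶ A)
    (h : f.hom (MonoidAlgebra.single 1 1) = g.hom (MonoidAlgebra.single 1 1)) : f = g := by
  apply (Rep.leftRegularHomEquiv A).injective
  exact h

theorem rt_one : rt (1 : Q) = 𝟙 _ := by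
  apply lr_ext
  rw [rt_single, mul_one]
  rfl

theorem rt_mul (s t : Q) : rt (s * t) = rt s ≫ rt t := by
  apply lr_ext
  rw [rt_single]
  show _ = (rt t).hom ((rt s).hom (MonoidAlgebra.single 1 1))
  rw [rt_single, rt_single, mul_assoc]

section Pair2

variable {S' S : Subgroup Q} (h : S' ≤ S)

include h in
theorem sum_dl [Fintype (S ⧸ S'.subgroupOf S)] (x : Q) :
    ∑ t : S ⧸ S'.subgroupOf S, (dl S').1 (x * ((t.out : S) : Q)) = (dl S).1 x := by
  classical
  rw [dl_apply]
  by_cases hx : x ∈ S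
  · rw [if_pos hx]
    rw [Finset.sum_eq_single (QuotientGroup.mk (⟨x, hx⟩⁻¹ : S))]
    · rw [dl_apply, if_pos]
      have h1 : (QuotientGroup.mk (⟨x, hx⟩⁻¹ : S) : S ⧸ S'.subgroupOf S) =
          QuotientGroup.mk (Quotient.out (QuotientGroup.mk (⟨x, hx⟩⁻¹ : S) :
            S ⧸ S'.subgroupOf S)) := by
        rw [QuotientGroup.out_eq']
      rw [QuotientGroup.eq, Subgroup.mem_subgroupOf, inv_inv] at h1
      exact h1
    · intro t _ ht
      rw [dl_apply, if_neg]
      intro h2
      apply ht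
      rw [← QuotientGroup.out_eq' t]
      symm
      rw [QuotientGroup.eq, Subgroup.mem_subgroupOf, inv_inv]
      exact h2
    · intro h3
      exact absurd (Finset.mem_univ _) h3
  · rw [if_neg hx]
    apply Finset.sum_eq_zero
    intro t _
    rw [dl_apply, if_neg]
    intro h2
    apply hx
    exact (Subgroup.mul_mem_cancel_right S t.out.2).1 (h h2)

theorem kS_io [Fintype (S ⧸ S'.subgroupOf S)] :
    kS S ≫ io h = ∑ t : S ⧸ S'.subgroupOf S, rt ((t.out : S) : Q) ≫ kS S' := by
  classical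
  apply lr_ext
  apply Subtype.ext
  funext x
  let F : (Rep.leftRegular ℤ Q ⟶ MS S') →+ ℤ :=
    { toFun := fun f => (f.hom (MonoidAlgebra.single 1 1)).1 x
      map_zero' := rfl
      map_add' := fun _ _ => rfl }
  have h2 := map_sum F (fun t : S ⧸ S'.subgroupOf S => rt ((t.out : S) : Q) ≫ kS S') Finset.univ
  refine Eq.trans ?_ h2.symm
  show ((kS S).hom (MonoidAlgebra.single 1 1)).1 x = _
  rw [kS_single, mul_one, ← sum_dl h]
  apply Finset.sum_congr rfl
  intro t _
  show _ = ((kS S').hom ((rt ((t.out : S) : Q)).hom (MonoidAlgebra.single 1 1))).1 x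
  rw [rt_single, one_mul, kS_single]

end Pair2

section Main

variable (n : ℕ)

/-- The map from the cohomology with coefficients in the group ring. -/
noncomputable def pS (S : Subgroup Q) :
    groupCohomology (Rep.leftRegular ℤ Q) n →ₗ[ℤ] HZ S n :=
  (sh S n).comp (cmap (kS S) n)

theorem pS_surjective (S : Subgroup Q) [S.FiniteIndex]
    (h : ∀ M : Rep ℤ Q, Limits.IsZero (groupCohomology M (n + 1))) :
    Function.Surjective (pS n S) :=
  (sh_surjective S n).comp (top_surj (kS S) (kS_surjective S) n h)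

theorem res_pS {S' S : Subgroup Q} (h : S' ≤ S) [Fintype (S ⧸ S'.subgroupOf S)]
    (x : groupCohomology (Rep.leftRegular ℤ Q) n) :
    pull (Subgroup.inclusion h) n (pS n S x) =
      ∑ t : S ⧸ S'.subgroupOf S, pS n S' (cmap (rt ((t.out : S) : Q)) n x) := by
  unfold pS
  show pull (Subgroup.inclusion h) n (sh S n (cmap (kS S) n x)) = _
  rw [res_sh, ← cmap_comp, kS_io, cmap_sum]
  rw [LinearMap.sum_apply, map_sum]
  apply Finset.sum_congr rfl
  intro t _
  rw [cmap_comp]
  rfl

/-- The elements acting trivially on the cohomology with coefficients in the group ring. -/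
def Ori (n : ℕ) (Q : Type) [Group Q] : Subgroup Q where
  carrier := {s | ∀ x : groupCohomology (Rep.leftRegular ℤ Q) n, cmap (rt s) n x = x}
  one_mem' := by
    intro x
    rw [rt_one, cmap_id]
    rfl
  mul_mem' := by
    intro a b ha hb x
    rw [rt_mul, cmap_comp, ha, hb]
  inv_mem' := by
    intro a ha x
    have h := ha (cmap (rt a⁻¹) n x)
    rw [← cmap_comp, ← rt_mul, inv_mul_cancel, rt_one, cmap_id] at h
    exact h.symm

theorem res_pS_ori {S' S : Subgroup Q} (h : S' ≤ S) [S'.FiniteIndex] (hS : S ≤ Ori n Q)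
    (x : groupCohomology (Rep.leftRegular ℤ Q) n) :
    pull (Subgroup.inclusion h) n (pS n S x) = (S'.relIndex S : ℤ) • pS n S' x := by
  classical
  have : (S'.subgroupOf S).FiniteIndex := inferInstance
  have := (S'.subgroupOf S).fintypeQuotientOfFiniteIndex
  rw [res_pS n h x]
  have h1 : ∀ t : S ⧸ S'.subgroupOf S, pS n S' (cmap (rt ((t.out : S) : Q)) n x) = pS n S' x := by
    intro t
    rw [hS (t.out).2 x]
  rw [Finset.sum_congr rfl (fun t _ => h1 t), Finset.sum_const, Finset.card_univ]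
  rw [Subgroup.relIndex, Subgroup.index, Nat.card_eq_fintype_card, natCast_zsmul]

theorem res_divisible (h : ∀ M : Rep ℤ Q, Limits.IsZero (groupCohomology M (n + 1)))
    {S' S : Subgroup Q} (hS'S : S' ≤ S) [S'.FiniteIndex] (hS : S ≤ Ori n Q) (c : HZ S n) :
    ∃ c' : HZ S' n, pull (Subgroup.inclusion hS'S) n c = (S'.relIndex S : ℤ) • c' := by
  have : S.FiniteIndex := Subgroup.finiteIndex_of_le hS'S
  obtain ⟨x, rfl⟩ := pS_surjective n S h c
  exact ⟨_, res_pS_ori n hS'S hS x⟩

end Main

end EssMap
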