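import Pool.Agent.EssMap.ResP

/-!
# The theorem on residually finite p-groups
-/

open CategoryTheory groupCohomology

namespace EssMap

theorem hn_of {Q : Type} [Group Q] (hQ : Dual 3 Q) (φ : Q →* Q)
    (hinj : Function.Injective φ) (hfin : φ.range.FiniteIndex)
    (hcap : ∀ q : Q, (∀ k : ℕ, q ∈ Set.range (φ^[k])) → q = 1)
    (hno : ¬ ∃ N : Subgroup Q, N.FiniteIndex ∧ Group.IsNilpotent N)
    (G : Subgroup Q) (hG : G.FiniteIndex) : HN G := by
  intro X _ j hj hj2 k f τ hτ
  have hinj' : Function.Injective (G.subtype.comp j) := (Subgroup.subtype_injective G).comp hj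
  have hS : (G.subtype.comp j).range.FiniteIndex := by
    apply range_comp_fin j G.subtype (Subgroup.subtype_injective G) hj2
    rw [Subgroup.range_subtype]
    exact hG
  let e : X ≃* (G.subtype.comp j).range := MonoidHom.ofInjective hinj'
  apply nil_class hQ φ hinj hfin hcap hno (G.subtype.comp j).range hS k
    (f.comp e.symm.toMonoidHom) τ
  intro m hm h0
  apply hτ m hm
  have h1 : f = (f.comp e.symm.toMonoidHom).comp e.toMonoidHom := by
    ext x
    · show (f x).v = (f (e.symm (e x))).v
      rw [MulEquiv.symm_apply_apply]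
    · show (f x).i = (f (e.symm (e x))).i
      rw [MulEquiv.symm_apply_apply]
  rw [h1, pull_comp, ← map_zsmul, h0, map_zero]

theorem exists_finset {Q : Type} [Group Q] [Group.FG Q] (φ : Q →* Q)
    (hinj : Function.Injective φ) (hfin : φ.range.FiniteIndex) (hd : 2 ≤ φ.range.index)
    (G : Subgroup Q) (hG : G.FiniteIndex) (e : ℕ) :
    ∃ (P : Subgroup G) (S : Finset G), P.FiniteIndex ∧ e ≤ P.index ∧
      Subgroup.closure (S : Set G) = P ∧ S.card ≤ G.index * Group.rank Q := by
  classical
  let k := e * G.index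
  let H : Subgroup Q := G.comap (itr φ k)
  have hr : H.relIndex ⊤ ≤ G.index := by
    rw [Subgroup.relIndex_top_right]
    show (G.comap (itr φ k)).index ≤ _
    rw [Subgroup.index_comap, ← Subgroup.relIndex_top_right G]
    exact Subgroup.relIndex_le_of_le_right le_top
      (by rw [Subgroup.relIndex_top_right]; exact hG.index_ne_zero)
  rw [Subgroup.relIndex_top_right] at hr
  have hH : H.FiniteIndex := by
    constructor
    show (G.comap (itr φ k)).index ≠ 0
    rw [Subgroup.index_comap]
    intro h0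
    exact hG.index_ne_zero (Subgroup.index_eq_zero_of_relIndex_eq_zero h0)
  have hHfg : Group.FG H := inferInstance
  obtain ⟨S', hS'1, hS'2⟩ := Group.rank_spec H
  let h : H →* G := ((itr φ k).comp H.subtype).codRestrict G (fun x => x.2)
  have h1 : (h.range.map G.subtype) = (itr φ k).range ⊓ G := by
    ext x
    constructor
    · rintro ⟨y, ⟨z, rfl⟩, rfl⟩
      exact ⟨⟨z.1, rfl⟩, (h z).2⟩
    · rintro ⟨⟨z, rfl⟩, hz⟩
      exact ⟨h ⟨z, hz⟩, ⟨⟨z, hz⟩, rfl⟩, rfl⟩
  have h2 : (itr φ k).range.FiniteIndex := by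
    constructor
    rw [itr_index hinj]
    exact pow_ne_zero _ hfin.index_ne_zero
  have h3 : h.range.index * G.index = ((itr φ k).range ⊓ G).index := by
    rw [← h1, Subgroup.index_map_subtype]
  have h4 : ((itr φ k).range ⊓ G).FiniteIndex := inferInstance
  have h5 : h.range.index ≠ 0 := by
    intro h6
    rw [h6, zero_mul] at h3
    exact h4.index_ne_zero h3.symm
  refine ⟨h.range, S'.image h, ⟨h5⟩, ?_, ?_, ?_⟩
  · have h6 : (itr φ k).range.index ≤ ((itr φ k).range ⊓ G).index :=
      Nat.le_of_dvd (Nat.pos_of_ne_zero h4.index_ne_zero)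
        (Subgroup.index_dvd_of_le inf_le_left)
    rw [← h3, itr_index hinj] at h6
    have h7 : 2 ^ k ≤ φ.range.index ^ k := Nat.pow_le_pow_left hd k
    have h8 : k < 2 ^ k := Nat.lt_two_pow_self
    have h9 : e * G.index < h.range.index * G.index := lt_of_lt_of_le h8 (h7.trans h6)
    exact (Nat.lt_of_mul_lt_mul_right h9).le
  · rw [Finset.coe_image, ← MonoidHom.map_closure, hS'2, ← MonoidHom.range_eq_map]
  · calc (S'.image h).card ≤ S'.card := Finset.card_image_le
      _ = Group.rank H := hS'1
      _ ≤ H.index * Group.rank Q := Subgroup.rank_le_index_mul_rank H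
      _ ≤ G.index * Group.rank Q := Nat.mul_le_mul_right _ hr

theorem resid_p {Q : Type} [Group Q] (hQ : Dual 3 Q) (φ : Q →* Q)
    (hinj : Function.Injective φ) (hfin : φ.range.FiniteIndex)
    (hcap : ∀ q : Q, (∀ k : ℕ, q ∈ Set.range (φ^[k])) → q = 1)
    (p : ℕ) (hp : p.Prime) (G : Subgroup Q) (hG : G.FiniteIndex)
    (hres : ∀ g : G, g ≠ 1 → ∃ N : Subgroup G, N.Normal ∧ (∃ k, N.index = p ^ k) ∧ g ∉ N)
    (hlift : ∀ f : G →* Multiplicative (ZMod p), ∃ F : G →* Multiplicative ℤ,
      ∀ g, (f g).toAdd = (((F g).toAdd : ℤ) : ZMod p)) :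
    ∃ N : Subgroup Q, N.FiniteIndex ∧ Group.IsNilpotent N := by
  by_contra hno
  have hFact : Fact p.Prime := ⟨hp⟩
  have hfg := hQ.fg
  have fgG : Group.FG G := inferInstance
  have hL : LiftP p G := by
    intro f
    obtain ⟨F, hF⟩ := hlift (MonoidHom.mk' (fun g => Multiplicative.ofAdd (f.1 g)) (by
      intro x y
      rw [f.2, ofAdd_add]))
    refine ⟨F, ?_⟩
    apply Subtype.ext
    funext g
    rw [toP_apply, ← hF g]
    rfl
  have hHN : HN G := hn_of hQ φ hinj hfin hcap hno G hG
  have hd : 2 ≤ φ.range.index := by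
    by_contra hlt
    have h1 : φ.range.index = 1 := by
      have := hfin.index_ne_zero
      omega
    rw [Subgroup.index_eq_one, MonoidHom.range_eq_top] at h1
    have h2 : ∀ k, Function.Surjective (φ^[k]) := fun k => h1.iterate k
    have h3 : ∀ q : Q, q = 1 := fun q => hcap q (fun k => h2 k q)
    have h4 : Subsingleton Q := ⟨fun a b => by rw [h3 a, h3 b]⟩
    exact hno ⟨⊤, inferInstance, inferInstance⟩
  by_cases hβ : 2 ≤ Module.finrank (ZMod p) (Addf G (ZMod p))
  · exact contra p hHN hL hβ hres (G.index * Group.rank Q)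
      (fun e => exists_finset φ hinj hfin hd G hG e)
  · have h1 := comm_of_small p (G := G) (by omega) hres
    have h2 : Group.IsNilpotent G := by
      have : Std.Commutative (α := G) (· * ·) := ⟨h1⟩
      let i : CommGroup G := { (inferInstance : Group G) with mul_comm := h1 }
      exact @CommGroup.isNilpotent G i
    exact hno ⟨G, hG, h2⟩

end EssMap
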