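import Pool.Agent.EssMap.PGr
import Pool.Agent.EssMap.Kap
import Pool.Agent.EssMap.Lueck
import Pool.Agent.EssMap.Dim3

/-!
# Residually finite p-groups in dimension three
-/

namespace EssMap

/-- Residually a finite p-group. -/
def ResP (p : ℕ) (G : Type) [Group G] : Prop :=
  ∀ g : G, g ≠ 1 → ∃ N : Subgroup G, N.Normal ∧ (∃ k, N.index = p ^ k) ∧ g ∉ N

theorem avoid {G : Type} [Group G] {p : ℕ} [Fact p.Prime] (h : ResP p G) (S : Finset G) :
    ∃ N : Subgroup G, N.Normal ∧ (∃ k, N.index = p ^ k) ∧ ∀ g ∈ S, g ≠ 1 → g ∉ N := by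
  classical
  have hp : p.Prime := Fact.out
  induction S using Finset.induction_on with
  | empty => exact ⟨⊤, inferInstance, ⟨0, by rw [Subgroup.index_top, pow_zero]⟩, by simp⟩
  | insert a S _ ih =>
    obtain ⟨N, hN1, ⟨k, hk⟩, hN3⟩ := ih
    by_cases ha : a = 1
    · refine ⟨N, hN1, ⟨k, hk⟩, fun g hg hg1 => ?_⟩
      rcases Finset.mem_insert.1 hg with h1 | h1
      · exact absurd (h1.trans ha) hg1
      · exact hN3 g h1 hg1
    · obtain ⟨M, hM1, ⟨l, hl⟩, hM3⟩ := h a ha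
      refine ⟨N ⊓ M, inferInstance, ?_, fun g hg hg1 hgm => ?_⟩
      · have h1 : (N ⊓ M).index ∣ p ^ (k + l) := by
          have h2 := Subgroup.relIndex_mul_index (inf_le_right : N ⊓ M ≤ M)
          rw [Subgroup.inf_relIndex_right] at h2
          rw [← h2, pow_add, hl, ← hk]
          exact mul_dvd_mul_right (Subgroup.relIndex_dvd_index_of_normal N M) _
        obtain ⟨j, -, hj⟩ := (Nat.dvd_prime_pow hp).1 h1
        exact ⟨j, hj⟩
      · rcases Finset.mem_insert.1 hg with h1 | h1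
        · exact hM3 (h1 ▸ hgm.2)
        · exact hN3 g h1 hg1 hgm.1

theorem contra {G : Type} [Group G] [Group.FG G] (p : ℕ) [Fact p.Prime] (hHN : HN G)
    (hL : LiftP p G) (hβ : 2 ≤ Module.finrank (ZMod p) (Addf G (ZMod p))) (hres : ResP p G)
    (r : ℕ) (hr : ∀ e : ℕ, ∃ (P : Subgroup G) (S : Finset G), P.FiniteIndex ∧ e ≤ P.index ∧
      Subgroup.closure (S : Set G) = P ∧ S.card ≤ r) : False := by
  classical
  have hp : p.Prime := Fact.out
  obtain ⟨m, q, hq⟩ := fg_fin (G := G)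
  obtain ⟨P, S, hP, he, hS, hSr⟩ := hr (4 * r + 1)
  obtain ⟨ρ, _, R0, w, hR, hw, hcl⟩ := exists_relators q hq P hP (fun x : S => (x : G)) (by
    rw [← hS]
    congr 1
    exact Subtype.range_coe)
  obtain ⟨S0, hS0⟩ := approx q R0
  obtain ⟨N, hN1, ⟨k, hk⟩, hN3⟩ := avoid hres S0
  have hNf : N.FiniteIndex := ⟨by rw [hk]; exact pow_ne_zero _ hp.ne_zero⟩
  let N' : Subgroup G := N ⊓ P.normalCore
  have hN'f : N'.FiniteIndex := inferInstance
  have i1 : Fintype (G ⧸ N) := Fintype.ofFinite _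
  have i2 : Fintype (G ⧸ N') := Fintype.ofFinite _
  let π := QuotientGroup.mk' N
  let π' := QuotientGroup.mk' N'
  have hπ : Function.Surjective π := QuotientGroup.mk'_surjective N
  have hπ' : Function.Surjective π' := QuotientGroup.mk'_surjective N'
  have hker : π.ker = N := QuotientGroup.ker_mk' N
  have hker' : π'.ker = N' := QuotientGroup.ker_mk' N'
  have hav : ∀ g ∈ S0, g ≠ 1 → π g ≠ 1 := fun g hg hg1 h1 =>
    hN3 g hg hg1 (hker ▸ (MonoidHom.mem_ker).2 h1)
  have hav' : ∀ g ∈ S0, g ≠ 1 → π' g ≠ 1 := fun g hg hg1 h1 => by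
    have h2 : g ∈ π'.ker := (MonoidHom.mem_ker).2 h1
    rw [hker'] at h2
    exact hN3 g hg hg1 h2.1
  have h1 := hS0 (G ⧸ N) π (G ⧸ N') π' hav hav'
  have hX : Nat.card (G ⧸ N) = Fintype.card (G ⧸ N) := Nat.card_eq_fintype_card
  have hX' : Nat.card (G ⧸ N') = Fintype.card (G ⧸ N') := Nat.card_eq_fintype_card
  have hpg : IsPGroup p (G ⧸ N) := IsPGroup.of_card (n := k) hk
  have h2 := pgroup_growth p (Nat.card (G ⧸ N)) G hHN hL (G ⧸ N) hpg rfl π hπ
  have h3 := kap_lower q R0 π hq hπ hR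
  have hPle : π'.ker ≤ P := by
    rw [hker']
    exact inf_le_right.trans P.normalCore_le
  have h4 := kap_upper q R0 π' hπ' hq hR P hPle w hw hcl
  have h5 : Nat.card (P.map π') * P.index = Nat.card (G ⧸ N') := by
    have h6 := (P.map π').card_mul_index
    have h7 : (P.map π').index = P.index := by
      rw [Subgroup.index_map, MonoidHom.range_eq_top.2 hπ', Subgroup.index_top, mul_one,
        sup_of_le_left hPle]
    rw [h7] at h6
    exact h6
  rw [hX] at h2
  rw [hX'] at h5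
  have hcpos : (0 : ℝ) < Fintype.card (G ⧸ N) := by exact_mod_cast Fintype.card_pos
  have hcpos' : (0 : ℝ) < Fintype.card (G ⧸ N') := by exact_mod_cast Fintype.card_pos
  have h8 : 2 * Fintype.card (G ⧸ N) ≤ Module.finrank ℂ (Zx q R0 π) := by
    have h9 : Fintype.card (G ⧸ N) * 2 ≤
      Fintype.card (G ⧸ N) * Module.finrank (ZMod p) (Addf G (ZMod p)) :=
      Nat.mul_le_mul_left _ hβ
    omega
  have h9 : 4 * Module.finrank ℂ (Zx q R0 π') ≤ 5 * Fintype.card (G ⧸ N') := by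
    have h10 : Fintype.card S ≤ r := by rw [Fintype.card_coe]; exact hSr
    have h11 : Fintype.card S * Nat.card (P.map π') ≤ r * Nat.card (P.map π') :=
      Nat.mul_le_mul_right _ h10
    have h12 : Nat.card (P.map π') * (4 * r + 1) ≤ Nat.card (P.map π') * P.index :=
      Nat.mul_le_mul_left _ he
    nlinarith
  have h13 : (2 : ℝ) ≤ (Module.finrank ℂ (Zx q R0 π) : ℝ) / Fintype.card (G ⧸ N) := by
    rw [le_div_iff₀ hcpos]
    exact_mod_cast h8
  have h14 : (Module.finrank ℂ (Zx q R0 π') : ℝ) / Fintype.card (G ⧸ N') ≤ 5 / 4 := by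
    rw [div_le_div_iff₀ hcpos' (by norm_num)]
    have : (4 : ℝ) * (Module.finrank ℂ (Zx q R0 π') : ℝ) ≤ 5 * (Fintype.card (G ⧸ N') : ℝ) := by
      exact_mod_cast h9
    linarith
  linarith

theorem coatom_ker {p : ℕ} [Fact p.Prime] (P : Type) [Group P] [Finite P] (hP : IsPGroup p P)
    (M : Subgroup P) (hM : IsCoatom M) :
    ∃ χ : P →* Multiplicative (ZMod p), χ.ker = M := by
  have hnil : Group.IsNilpotent P := hP.isNilpotent
  have hMn : M.Normal := Subgroup.NormalizerCondition.normal_of_coatom M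
    Group.normalizerCondition_of_isNilpotent hM
  have h1 : Nat.card (P ⧸ M) ≠ 1 := by
    intro h2
    apply hM.1
    exact Subgroup.index_eq_one.1 h2
  obtain ⟨χ, hχ⟩ := exists_char (P ⧸ M) (hP.to_quotient M) h1
  refine ⟨χ.comp (QuotientGroup.mk' M), ?_⟩
  have h2 : M ≤ (χ.comp (QuotientGroup.mk' M)).ker := by
    intro x hx
    rw [MonoidHom.mem_ker, MonoidHom.comp_apply]
    have h3 : QuotientGroup.mk' M x = 1 := (QuotientGroup.eq_one_iff x).2 hx
    rw [h3, map_one]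
  rcases hM.le_iff.1 h2 with h3 | h3
  · exfalso
    obtain ⟨y, hy⟩ := hχ (Multiplicative.ofAdd 1)
    obtain ⟨x, rfl⟩ := QuotientGroup.mk'_surjective M y
    have h4 : x ∈ (χ.comp (QuotientGroup.mk' M)).ker := by
      rw [h3]
      exact Subgroup.mem_top x
    rw [MonoidHom.mem_ker, MonoidHom.comp_apply, hy] at h4
    have h5 : (1 : ZMod p) = 0 := congrArg Multiplicative.toAdd h4
    exact one_ne_zero h5
  · exact h3

theorem comm_of_small {G : Type} [Group G] [Group.FG G] (p : ℕ) [Fact p.Prime]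
    (hβ : Module.finrank (ZMod p) (Addf G (ZMod p)) ≤ 1) (hres : ResP p G) (x y : G) :
    x * y = y * x := by
  have hp : p.Prime := Fact.out
  have i1 := addf_fd (H := G) (K := ZMod p)
  obtain ⟨v, hv⟩ := finrank_le_one_iff.1 hβ
  by_contra hne
  have hg : x * y * x⁻¹ * y⁻¹ ≠ 1 := by
    intro h1
    apply hne
    rw [mul_inv_eq_one, mul_inv_eq_iff_eq_mul] at h1
    exact h1
  obtain ⟨N, hN1, ⟨k, hk⟩, hN3⟩ := hres _ hg
  have hNf : N.FiniteIndex := ⟨by rw [hk]; exact pow_ne_zero _ hp.ne_zero⟩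
  have hpg : IsPGroup p (G ⧸ N) := IsPGroup.of_card (n := k) hk
  have hc1 : Nat.card (G ⧸ N) ≠ 1 := by
    intro h2
    apply hN3
    have h3 : N = ⊤ := Subgroup.index_eq_one.1 h2
    rw [h3]
    exact Subgroup.mem_top _
  -- characters
  have hchar : ∀ χ : G ⧸ N →* Multiplicative (ZMod p), ∃ c : ZMod p, ∀ g : G,
      (χ (QuotientGroup.mk' N g)).toAdd = c * v.1 g := by
    intro χ
    let f : Addf G (ZMod p) := ⟨fun g => (χ (QuotientGroup.mk' N g)).toAdd, fun a b => by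
      show (χ (QuotientGroup.mk' N (a * b))).toAdd = _
      rw [map_mul, map_mul, toAdd_mul]⟩
    obtain ⟨c, hc⟩ := hv f
    refine ⟨c, fun g => ?_⟩
    have h3 := congrFun (congrArg Subtype.val hc) g
    exact h3.symm
  obtain ⟨χ0, hχ0⟩ := exists_char (G ⧸ N) hpg hc1
  obtain ⟨z, hz⟩ := hχ0 (Multiplicative.ofAdd 1)
  obtain ⟨c0, hc0⟩ := hchar χ0
  have hgen : Subgroup.closure {z} = (⊤ : Subgroup (G ⧸ N)) := by
    by_contra hnt
    obtain ⟨M, hM, hM2⟩ := (IsCoatomic.eq_top_or_exists_le_coatom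
      (Subgroup.closure {z} : Subgroup (G ⧸ N))).resolve_left hnt
    have hzM : z ∈ M := hM2 (Subgroup.subset_closure rfl)
    obtain ⟨χ, hχ⟩ := coatom_ker (G ⧸ N) hpg M hM
    obtain ⟨c, hc⟩ := hchar χ
    rw [← hχ, MonoidHom.mem_ker] at hzM
    obtain ⟨g, rfl⟩ := QuotientGroup.mk'_surjective N z
    have h3 := hc g
    rw [hzM, toAdd_one] at h3
    have h4 := hc0 g
    rw [hz, toAdd_ofAdd] at h4
    have h5 : c = 0 := by
      rcases mul_eq_zero.1 h3.symm with h6 | h6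
      · exact h6
      · rw [h6, mul_zero] at h4
        exact absurd h4 one_ne_zero
    apply hM.1
    rw [← hχ, Subgroup.eq_top_iff']
    intro y
    obtain ⟨g', rfl⟩ := QuotientGroup.mk'_surjective N y
    rw [MonoidHom.mem_ker]
    apply Multiplicative.toAdd.injective
    rw [hc, h5, zero_mul]
    rfl
  have hcomm : ∀ a b : G ⧸ N, a * b = b * a := by
    intro a b
    have ha : a ∈ Subgroup.closure {z} := by rw [hgen]; exact Subgroup.mem_top a
    have hb : b ∈ Subgroup.closure {z} := by rw [hgen]; exact Subgroup.mem_top b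
    rw [Subgroup.mem_closure_singleton] at ha hb
    obtain ⟨i, rfl⟩ := ha
    obtain ⟨j, rfl⟩ := hb
    rw [← zpow_add, ← zpow_add, Int.add_comm]
  apply hN3
  rw [← QuotientGroup.eq_one_iff]
  have h3 : ((x * y * x⁻¹ * y⁻¹ : G) : G ⧸ N) = (x : G ⧸ N) * y * (x : G ⧸ N)⁻¹ * (y : G ⧸ N)⁻¹ :=
    rfl
  rw [h3, hcomm x y, mul_inv_cancel_right, mul_inv_cancel]

end EssMap
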