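import Pool.Agent.EssMap.Eig

/-!
# Roots of unity
-/

namespace EssMap

theorem exists_eig {V : Type} [AddCommGroup V] [Module ℂ V] (T : V →ₗ[ℂ] V)
    (P : Polynomial ℂ) (hP : P ≠ 0) (hT : Polynomial.aeval T P = 0) (v : V) (hv : v ≠ 0) :
    ∃ (μ : ℂ) (w : V), w ≠ 0 ∧ T w = μ • w := by
  classical
  have hex : ∃ n : ℕ, ∃ q : Polynomial ℂ, q ≠ 0 ∧ q.natDegree = n ∧
      ∃ w : V, w ≠ 0 ∧ Polynomial.aeval T q w = 0 :=
    ⟨P.natDegree, P, hP, rfl, v, hv, by rw [hT]; rfl⟩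
  obtain ⟨q, hq0, hqn, w, hw, hqw⟩ := Nat.find_spec hex
  have hmin : ∀ m, m < Nat.find hex → ¬ ∃ q : Polynomial ℂ, q ≠ 0 ∧ q.natDegree = m ∧
      ∃ w : V, w ≠ 0 ∧ Polynomial.aeval T q w = 0 := fun m hm => Nat.find_min hex hm
  by_cases h0 : q.natDegree = 0
  · exfalso
    rw [Polynomial.eq_C_of_natDegree_eq_zero h0, Polynomial.aeval_C,
      Module.algebraMap_end_apply] at hqw
    rcases smul_eq_zero.1 hqw with h1 | h1
    · apply hq0
      rw [Polynomial.eq_C_of_natDegree_eq_zero h0, h1, map_zero]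
    · exact hw h1
  · have hdeg : q.degree ≠ 0 := by
      intro h
      apply h0
      exact Polynomial.natDegree_eq_of_degree_eq_some h
    obtain ⟨μ, hμ⟩ := IsAlgClosed.exists_root q hdeg
    obtain ⟨r, hr⟩ := Polynomial.dvd_iff_isRoot.2 hμ
    have hr0 : r ≠ 0 := by
      rintro rfl
      rw [mul_zero] at hr
      exact hq0 hr
    have hrd : r.natDegree < Nat.find hex := by
      rw [← hqn]
      conv_rhs => rw [hr]
      rw [Polynomial.natDegree_mul (Polynomial.X_sub_C_ne_zero μ) hr0,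
        Polynomial.natDegree_X_sub_C]
      omega
    have h1 : Polynomial.aeval T r w ≠ 0 := fun h =>
      hmin _ hrd ⟨r, hr0, rfl, w, hw, h⟩
    refine ⟨μ, Polynomial.aeval T r w, h1, ?_⟩
    have h2 : Polynomial.aeval T ((Polynomial.X - Polynomial.C μ) * r) w = 0 := by
      rw [← hr]
      exact hqw
    rw [map_mul, Module.End.mul_apply, map_sub, Polynomial.aeval_X, Polynomial.aeval_C,
      LinearMap.sub_apply, Module.algebraMap_end_apply, sub_eq_zero] at h2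
    exact h2

theorem root_of_eig {V : Type} [AddCommGroup V] [Module ℂ V] (T : V →ₗ[ℂ] V)
    (P : Polynomial ℂ) (hT : Polynomial.aeval T P = 0) (μ : ℂ) (w : V) (hw : w ≠ 0)
    (h : T w = μ • w) : P.IsRoot μ := by
  have h1 := Module.End.aeval_apply_of_mem_apply_eq_smul (p := P) h
  rw [hT, LinearMap.zero_apply] at h1
  rcases smul_eq_zero.1 h1.symm with h2 | h2
  · exact h2
  · exact absurd h2 hw

variable {G : Type} [Group G] (a : G →* Multiplicative ℤ)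

theorem VK_pow (f : VK a) (x : G) (hx : a x = 1) (n : ℕ) : f.1 (x ^ n) = n * f.1 x := by
  induction n with
  | zero => rw [pow_zero, VK_one, Nat.cast_zero, zero_mul]
  | succ n ih =>
    rw [pow_succ, f.2.1 _ _ (by rw [map_pow, hx, one_pow]) hx, ih]
    push_cast
    ring

theorem VK_inv (f : VK a) (x : G) (hx : a x = 1) : f.1 x⁻¹ = -f.1 x := by
  have h := f.2.1 x x⁻¹ hx (by rw [map_inv, hx, inv_one])
  rw [mul_inv_cancel, VK_one] at h
  linear_combination -h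

theorem VK_ne (f : VK a) (hf : f ≠ 0) : ∃ x, a x = 1 ∧ f.1 x ≠ 0 := by
  by_contra hcon
  push Not at hcon
  apply hf
  apply Subtype.ext
  funext x
  by_cases hx : a x = 1
  · exact hcon x hx
  · exact f.2.2 x hx

theorem eig_ne_zero (t : G) (f : VK a) (hf : f ≠ 0) (μ : ℂ) (h : TT a t f = μ • f) : μ ≠ 0 := by
  rintro rfl
  obtain ⟨x, -, hx⟩ := VK_ne a f hf
  apply hx
  have h1 : f.1 (t * (t⁻¹ * x * t) * t⁻¹) = 0 := by
    have h2 := congrFun (congrArg Subtype.val h) (t⁻¹ * x * t)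
    rw [zero_smul] at h2
    exact h2
  rw [← h1]
  congr 1
  group

theorem eig_zpow (t : G) (f : VK a) (μ : ℂˣ) (h : TT a t f = (μ : ℂ) • f) (n : ℤ) (x : G) :
    f.1 (t ^ n * x * (t ^ n)⁻¹) = ((μ ^ n : ℂˣ) : ℂ) * f.1 x := by
  have h1 : ∀ x, f.1 (t * x * t⁻¹) = (μ : ℂ) * f.1 x :=
    fun x => congrFun (congrArg Subtype.val h) x
  have h2 : ∀ (n : ℕ) (x : G), f.1 (t ^ n * x * (t ^ n)⁻¹) = ((μ ^ n : ℂˣ) : ℂ) * f.1 x := by
    intro n
    induction n with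
    | zero => intro x; simp
    | succ n ih =>
      intro x
      have h3 : t ^ (n + 1) * x * (t ^ (n + 1))⁻¹ = t * (t ^ n * x * (t ^ n)⁻¹) * t⁻¹ := by
        rw [pow_succ' t n]
        group
      rw [h3, h1, ih, pow_succ' μ n, Units.val_mul, mul_assoc]
  obtain ⟨m, rfl | rfl⟩ := n.eq_nat_or_neg
  · rw [zpow_natCast, zpow_natCast, h2]
  · have h3 := h2 m (t ^ (-(m : ℤ)) * x * (t ^ (-(m : ℤ)))⁻¹)
    have h4 : t ^ m * (t ^ (-(m : ℤ)) * x * (t ^ (-(m : ℤ)))⁻¹) * (t ^ m)⁻¹ = x := by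
      rw [zpow_neg, zpow_natCast]
      group
    rw [h4] at h3
    have h5 : μ ^ (-(m : ℤ)) * μ ^ m = 1 := by rw [zpow_neg, zpow_natCast, inv_mul_cancel]
    rw [h3, ← mul_assoc, ← Units.val_mul, h5, Units.val_one, one_mul]

/-- Precomposition with an endomorphism which multiplies `a`. -/
def PF (φ : G →* G) (δ : ℤ) (hδ : δ ≠ 0) (h : ∀ g, (a (φ g)).toAdd = δ * (a g).toAdd)
    (f : VK a) : VK a :=
  ⟨fun g => f.1 (φ g), fun x y hx hy => by
    show f.1 (φ (x * y)) = f.1 (φ x) + f.1 (φ y)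
    rw [map_mul]
    apply f.2.1
    · apply Multiplicative.toAdd.injective
      rw [h, hx, toAdd_one, mul_zero]
    · apply Multiplicative.toAdd.injective
      rw [h, hy, toAdd_one, mul_zero], fun x hx => by
    apply f.2.2
    intro h1
    apply hx
    have h2 := h x
    rw [h1, toAdd_one] at h2
    rcases mul_eq_zero.1 h2.symm with h3 | h3
    · exact absurd h3 hδ
    · exact Multiplicative.toAdd.injective h3⟩

theorem PF_ne (φ : G →* G) (hfin : φ.range.FiniteIndex) (δ : ℤ) (hδ : δ ≠ 0)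
    (h : ∀ g, (a (φ g)).toAdd = δ * (a g).toAdd) (f : VK a) (hf : f ≠ 0) :
    PF a φ δ hδ h f ≠ 0 := by
  obtain ⟨x, hx, hfx⟩ := VK_ne a f hf
  obtain ⟨n, hn, -, y, hy⟩ := Subgroup.exists_pow_mem_of_index_ne_zero hfin.index_ne_zero x
  intro h0
  have h1 : f.1 (φ y) = 0 := congrFun (congrArg Subtype.val h0) y
  rw [hy, VK_pow a f x hx] at h1
  rcases mul_eq_zero.1 h1 with h2 | h2
  · exact absurd h2 (by exact_mod_cast hn.ne')
  · exact hfx h2

theorem PF_eig (φ : G →* G) (δ : ℤ) (hδ : δ ≠ 0)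
    (h : ∀ g, (a (φ g)).toAdd = δ * (a g).toAdd) (t : G) (ht : (a t).toAdd = 1) (f : VK a)
    (μ : ℂˣ) (hμ : TT a t f = (μ : ℂ) • f) :
    TT a t (PF a φ δ hδ h f) = ((μ ^ δ : ℂˣ) : ℂ) • PF a φ δ hδ h f := by
  apply Subtype.ext
  funext g
  show f.1 (φ (t * g * t⁻¹)) = ((μ ^ δ : ℂˣ) : ℂ) * f.1 (φ g)
  by_cases hg : a (φ g) = 1
  · let κ := (t ^ δ)⁻¹ * φ t
    have hκ : a κ = 1 := by
      apply Multiplicative.toAdd.injective
      show (a ((t ^ δ)⁻¹ * φ t)).toAdd = 0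
      rw [map_mul a, map_inv a, map_zpow a, toAdd_mul, toAdd_inv, toAdd_zpow, ht, h, ht]
      simp
    have h1 : φ (t * g * t⁻¹) = t ^ δ * (κ * φ g * κ⁻¹) * (t ^ δ)⁻¹ := by
      rw [map_mul, map_mul, map_inv]
      show _ = t ^ δ * ((t ^ δ)⁻¹ * φ t * φ g * ((t ^ δ)⁻¹ * φ t)⁻¹) * (t ^ δ)⁻¹
      group
    rw [h1, eig_zpow a t f μ hμ]
    congr 1
    rw [f.2.1 _ _ (by rw [map_mul, hκ, hg, one_mul]) (by rw [map_inv, hκ, inv_one]),
      f.2.1 _ _ hκ hg, VK_inv a f κ hκ]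
    ring
  · have h2 : a (φ (t * g * t⁻¹)) ≠ 1 := by
      rw [map_mul φ, map_mul φ, map_inv φ, a_conj]
      exact hg
    rw [f.2.2 _ h2, f.2.2 _ hg, mul_zero]

/-- A root of unity among the eigenvalues. -/
theorem exists_root_unity (φ : G →* G) (hfin : φ.range.FiniteIndex) (δ : ℤ) (hδ : 2 ≤ |δ|)
    (h : ∀ g, (a (φ g)).toAdd = δ * (a g).toAdd) (t : G) (ht : (a t).toAdd = 1)
    (P : Polynomial ℂ) (hP : P ≠ 0) (hT : Polynomial.aeval (TT a t) P = 0) (f₀ : VK a)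
    (hf₀ : f₀ ≠ 0) :
    ∃ (μ : ℂˣ) (m : ℕ) (f : VK a), 0 < m ∧ μ ^ m = 1 ∧ f ≠ 0 ∧ TT a t f = (μ : ℂ) • f := by
  have hδ0 : δ ≠ 0 := by
    rintro rfl
    simp at hδ
  obtain ⟨μ₀, w, hw, hw2⟩ := exists_eig (TT a t) P hP hT f₀ hf₀
  let μ : ℂˣ := Units.mk0 μ₀ (eig_ne_zero a t w hw μ₀ hw2)
  have hall : ∀ k : ℕ, ∃ f : VK a, f ≠ 0 ∧ TT a t f = ((μ ^ (δ ^ k) : ℂˣ) : ℂ) • f := by
    intro k
    induction k with
    | zero =>
      refine ⟨w, hw, ?_⟩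
      rw [pow_zero, zpow_one]
      exact hw2
    | succ k ih =>
      obtain ⟨f, hf, hf2⟩ := ih
      refine ⟨PF a φ δ hδ0 h f, PF_ne a φ hfin δ hδ0 h f hf, ?_⟩
      rw [PF_eig a φ δ hδ0 h t ht f _ hf2, ← zpow_mul, pow_succ]
  have hfinite : Set.Finite {z : ℂ | P.IsRoot z} := Polynomial.finite_setOfPred_isRoot hP
  have := hfinite.to_subtype
  let F : ℕ → {z : ℂ | P.IsRoot z} := fun k => ⟨((μ ^ (δ ^ k) : ℂˣ) : ℂ), by
    obtain ⟨f, hf, hf2⟩ := hall k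
    exact root_of_eig (TT a t) P hT _ f hf hf2⟩
  obtain ⟨i, j, hij, hFF⟩ := Finite.exists_ne_map_eq_of_infinite F
  have h1 : μ ^ (δ ^ i) = μ ^ (δ ^ j) := Units.ext (congrArg Subtype.val hFF)
  have h2 : μ ^ (δ ^ i - δ ^ j) = 1 := by rw [zpow_sub, h1, mul_inv_cancel]
  have h3 : δ ^ i - δ ^ j ≠ 0 := by
    intro h3
    apply hij
    have h4 : |δ| ^ i = |δ| ^ j := by rw [← abs_pow, ← abs_pow, sub_eq_zero.1 h3]
    exact Int.pow_right_injective (by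
      have : 2 ≤ |δ| := hδ
      omega) h4
  refine ⟨μ, (δ ^ i - δ ^ j).natAbs, w, Int.natAbs_pos.2 h3, ?_, hw, hw2⟩
  rcases Int.natAbs_eq (δ ^ i - δ ^ j) with h4 | h4
  · rw [← zpow_natCast, ← h4, h2]
  · rw [← zpow_natCast, ← inv_inj, ← zpow_neg, ← h4, h2, inv_one]

end EssMap
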