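import Pool.Agent.EssMap.Coord

/-!
# Strong minors
-/

open PowerSeries

namespace EssMap

variable {ι : Type} [Fintype ι] [DecidableEq ι] {G : Type} [Group G]
  (a : G →* Multiplicative ℤ) (γ : ι → G)

/-- The matrix of relations, with the rows in `J` replaced. -/
noncomputable def EJ (J : Finset ι) (W : ι → FreeGroup ι) : Matrix ι ι LL :=
  Matrix.of fun i => if i ∈ J then Pi.single i 1 else (DD a γ (W i)).v

theorem cramerJ {R : Type} [CommRing R] (u : Rˣ) (J : Finset ι) (W : ι → FreeGroup ι)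
    (v : ι → R) (hv : ∀ i, pv u v (DD a γ (W i)).v = 0) (j : ι) :
    evL u (EJ a γ J W).det * v j =
      ∑ l : J, ((EJ a γ J W).map (evL u)).adjugate j l.1 * v l.1 := by
  let E := (EJ a γ J W).map (evL u)
  have h1 : ∀ i, E.mulVec v i = if i ∈ J then v i else 0 := by
    intro i
    have h2 : E.mulVec v i = pv u v (EJ a γ J W i) := rfl
    rw [h2]
    by_cases hi : i ∈ J
    · have h3 : EJ a γ J W i = Pi.single i 1 := if_pos hi
      rw [if_pos hi, h3, pv_single]
    · have h3 : EJ a γ J W i = (DD a γ (W i)).v := if_neg hi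
      rw [if_neg hi, h3, hv]
  have h2 : (E.adjugate * E).mulVec v = E.adjugate.mulVec (E.mulVec v) := by
    rw [Matrix.mulVec_mulVec]
  rw [Matrix.adjugate_mul, Matrix.smul_mulVec, Matrix.one_mulVec] at h2
  have h3 := congrFun h2 j
  rw [Pi.smul_apply, smul_eq_mul] at h3
  have h4 : evL u (EJ a γ J W).det = E.det := RingHom.map_det _ _
  rw [h4, h3]
  show ∑ i, E.adjugate j i * E.mulVec v i = _
  rw [Finset.sum_coe_sort J (fun l => E.adjugate j l * v l), ← Finset.sum_filter_add_sum_filter_not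
    Finset.univ (fun i => i ∈ J)]
  have h5 : ∑ i ∈ Finset.univ.filter (fun i => ¬ i ∈ J), E.adjugate j i * E.mulVec v i = 0 := by
    apply Finset.sum_eq_zero
    intro i hi
    rw [h1, if_neg (Finset.mem_filter.1 hi).2, mul_zero]
  rw [h5, add_zero]
  have h6 : Finset.univ.filter (fun i => i ∈ J) = J := by ext; simp
  rw [h6]
  apply Finset.sum_congr rfl
  intro i hi
  rw [h1, if_pos hi]

/-- Independence of a family of homomorphisms to the integers. -/
def Ind {G : Type} [Group G] {B : ℕ} (b : Fin B → (G →* Multiplicative ℤ)) : Prop :=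
  ∀ c : Fin B → ℤ, (∀ g, ∑ j, c j * (b j g).toAdd = 0) → c = 0

theorem indep_gen (hγ : Function.Surjective (FreeGroup.lift γ)) {B : ℕ}
    (b : Fin B → (G →* Multiplicative ℤ)) (hb : Ind b) :
    LinearIndependent ℚ (fun j => fun i => (((b j (γ i)).toAdd : ℤ) : ℚ)) := by
  rw [Fintype.linearIndependent_iff]
  intro c hc
  -- clear denominators
  let N : ℕ := ∏ j, (c j).den
  have hN : (N : ℚ) ≠ 0 := by
    have : N ≠ 0 := Finset.prod_ne_zero_iff.2 (fun j _ => (c j).den_ne_zero)
    exact_mod_cast this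
  have hint : ∀ j, ∃ n : ℤ, (N : ℚ) * c j = n := by
    intro j
    obtain ⟨m, hm⟩ := Finset.dvd_prod_of_mem (fun i => (c i).den) (Finset.mem_univ j)
    refine ⟨m * (c j).num, ?_⟩
    show (((∏ j, (c j).den : ℕ)) : ℚ) * c j = _
    rw [hm]
    push_cast
    rw [mul_assoc, mul_left_comm, Rat.den_mul_eq_num]
  choose n hn using hint
  have h1 : ∀ i, ∑ j, n j * (b j (γ i)).toAdd = 0 := by
    intro i
    have h2 := congrFun hc i
    rw [Finset.sum_apply] at h2
    have h3 : ((∑ j, n j * (b j (γ i)).toAdd : ℤ) : ℚ) =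
        (N : ℚ) * ∑ j, (c j • fun i => (((b j (γ i)).toAdd : ℤ) : ℚ)) i := by
      push_cast
      rw [Finset.mul_sum]
      apply Finset.sum_congr rfl
      intro j _
      rw [← hn, Pi.smul_apply, smul_eq_mul]
      ring
    rw [h2, Pi.zero_apply, mul_zero] at h3
    exact_mod_cast h3
  let F : G →* Multiplicative ℤ := MonoidHom.mk'
    (fun g => Multiplicative.ofAdd (∑ j, n j * (b j g).toAdd)) (by
      intro x y
      rw [← ofAdd_add, ← Finset.sum_add_distrib]
      congr 1
      apply Finset.sum_congr rfl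
      intro j _
      rw [map_mul, toAdd_mul]
      ring)
  have hF : F.comp (FreeGroup.lift γ) = 1 := by
    ext i
    rw [MonoidHom.comp_apply, FreeGroup.lift_apply_of]
    show Multiplicative.ofAdd (∑ j, n j * (b j (γ i)).toAdd) = 1
    rw [h1, ofAdd_zero]
  have h2 := hb n (fun g => by
    obtain ⟨w, rfl⟩ := hγ g
    exact Multiplicative.ofAdd.injective (DFunLike.congr_fun hF w))
  intro j
  have h3 := hn j
  rw [h2, Pi.zero_apply, Int.cast_zero] at h3
  rcases mul_eq_zero.1 h3 with h4 | h4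
  · exact absurd h4 hN
  · exact h4

/-- Strong vanishing of the minors. -/
theorem vanishJ (hγ : Function.Surjective (FreeGroup.lift γ)) {B : ℕ}
    (b : Fin B → (G →* Multiplicative ℤ)) (hb : Ind b)
    (H : ∀ (k : ℕ) (f : G →* TK k) (τ : HZ (TK k) 2), ¬ NonTors (pull f 2 τ))
    (J : Finset ι) (hJ : J.card < B)
    (W : ι → FreeGroup ι) (hW : ∀ i, FreeGroup.lift γ (W i) = 1) : (EJ a γ J W).det = 0 := by
  classical
  by_contra hne
  let Δ := evL us (EJ a γ J W).det
  have h1 : Δ ≠ 0 := fun h => hne (evL_us_inj _ h)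
  have h1B : Δ ^ B ≠ 0 := pow_ne_zero _ h1
  have h2 : ∃ e, coeff e (Δ ^ B) ≠ 0 := by
    by_contra hcon
    push Not at hcon
    apply h1B
    ext e
    rw [hcon, map_zero]
  let e := Nat.find h2
  have he : coeff e (Δ ^ B) ≠ 0 := Nat.find_spec h2
  have he2 : ∀ j, j < e → coeff j (Δ ^ B) = 0 := by
    intro j hj
    have := Nat.find_min h2 hj
    push Not at this
    exact this
  choose c f hc hf using fun j => tower a (b j) H e
  choose hfi w hw1 hw2 using hf
  obtain ⟨θ, hθ⟩ := exists_minor _ (indep_gen γ hγ b hb)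
  -- the matrix of solutions
  let V : Matrix (Fin B) (Fin B) (PR e) := Matrix.of fun i j => (f j (γ (θ i))).v
  let M : Matrix (Fin B) J (PR e) := Matrix.of fun i l =>
    ((EJ a γ J W).map (evL (uk e))).adjugate (θ i) l.1
  let N : Matrix J (Fin B) (PR e) := Matrix.of fun l j => (f j (γ l.1)).v
  have h3 : (mq e Δ) • V = M * N := by
    ext i j
    rw [Matrix.smul_apply, smul_eq_mul, Matrix.mul_apply]
    have h4 := cramerJ a γ (uk e) J W (fun i => (f j (γ i)).v)
      (fun i => hom_rel a γ _ (f j) (hfi j) _ (hW i)) (θ i)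
    rw [mq_evL] at h4
    exact h4
  have h4 : mq e (Δ ^ B) * V.det = 0 := by
    have h5 : ((mq e Δ) • V).det = 0 := by
      rw [h3]
      exact det_mul_small (by rw [Fintype.card_coe]; exact hJ) M N
    rw [Matrix.det_smul, Fintype.card_fin] at h5
    rw [map_pow]
    exact h5
  let V' : Matrix (Fin B) (Fin B) ℤ⟦X⟧ := Matrix.of fun i j => w j (γ (θ i))
  have h5 : V.det = mq e V'.det := by
    rw [RingHom.map_det]
    congr 1
    ext i j
    exact hw1 j (γ (θ i))
  rw [h5, ← map_mul, mq_eq_zero] at h4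
  have h6 := h4 e le_rfl
  obtain ⟨q, hq⟩ := (X_pow_dvd_iff (n := e) (φ := Δ ^ B)).2 he2
  rw [hq, mul_assoc, coeff_X_pow_mul', if_pos le_rfl, Nat.sub_self,
    coeff_zero_eq_constantCoeff_apply, map_mul] at h6
  rw [hq, coeff_X_pow_mul', if_pos le_rfl, Nat.sub_self, coeff_zero_eq_constantCoeff_apply] at he
  have h7 : constantCoeff V'.det = (∏ j, c j) *
      (Matrix.of fun i j => (b j (γ (θ i))).toAdd).det := by
    rw [RingHom.map_det, ← Matrix.det_mul_row]
    congr 1
    ext i j
    show constantCoeff (w j (γ (θ i))) = c j * (b j (γ (θ i))).toAdd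
    exact hw2 j (γ (θ i))
  have h8 : (Matrix.of fun i j => (b j (γ (θ i))).toAdd).det ≠ 0 := by
    intro h9
    apply hθ
    have h10 : (Matrix.of fun i j => (((b j (γ (θ i))).toAdd : ℤ) : ℚ)).det =
        (((Matrix.of fun i j => (b j (γ (θ i))).toAdd).det : ℤ) : ℚ) := by
      rw [Int.cast_det]
      congr 1
    rw [h10, h9, Int.cast_zero]
  rcases mul_eq_zero.1 h6 with h9 | h9
  · exact he h9
  · rw [h7] at h9
    rcases mul_eq_zero.1 h9 with h10 | h10
    · exact absurd h10 (Finset.prod_ne_zero_iff.2 (fun j _ => hc j))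
    · exact h8 h10

end EssMap
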