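import Pool.Agent.EssMap.SMin

/-!
# The dimension of the space of twisted cocycles
-/

namespace EssMap

variable {ι : Type} [Fintype ι] [DecidableEq ι] {G : Type} [Group G]

/-- Twisted cocycles. -/
def Tw (K : Type) [Field K] (u : Kˣ) (a : G →* Multiplicative ℤ) : Submodule K (G → K) where
  carrier := {z | ∀ x y, z (x * y) = z x + ((u ^ (a x).toAdd : Kˣ) : K) * z y}
  zero_mem' := fun x y => by simp
  add_mem' := by
    intro f g hf hg x y
    rw [Pi.add_apply, Pi.add_apply, Pi.add_apply, hf, hg]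
    ring
  smul_mem' := by
    intro c f hf x y
    rw [Pi.smul_apply, Pi.smul_apply, Pi.smul_apply, hf, smul_eq_mul, smul_eq_mul, smul_eq_mul]
    ring

/-- The homomorphism of a cocycle. -/
def twHom {K : Type} [Field K] {u : Kˣ} {a : G →* Multiplicative ℤ} (z : Tw K u a) :
    G →* AG K K u :=
  MonoidHom.mk' (fun g => ⟨z.1 g, (a g).toAdd⟩) (by
    intro x y
    apply AG.ext
    · rw [AG.mul_v, AG.mk_v, AG.mk_v, AG.mk_v, AG.mk_i, z.2, Units.smul_def, smul_eq_mul]
    · rw [AG.mul_i, AG.mk_i, AG.mk_i, AG.mk_i, map_mul, toAdd_mul])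

theorem twHom_i {K : Type} [Field K] {u : Kˣ} {a : G →* Multiplicative ℤ} (z : Tw K u a) (g : G) :
    (twHom z g).i = (a g).toAdd := AG.mk_i (R := K) (M := K) (u := u) _ _

theorem twHom_v {K : Type} [Field K] {u : Kˣ} {a : G →* Multiplicative ℤ} (z : Tw K u a) (g : G) :
    (twHom z g).v = z.1 g := AG.mk_v (R := K) (M := K) (u := u) _ _

/-- Restriction to generators. -/
def twRes {K : Type} [Field K] {u : Kˣ} (a : G →* Multiplicative ℤ) (γ : ι → G) :
    Tw K u a →ₗ[K] (ι → K) where
  toFun z := fun i => z.1 (γ i)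
  map_add' _ _ := rfl
  map_smul' _ _ := rfl

theorem twRes_inj {K : Type} [Field K] {u : Kˣ} (a : G →* Multiplicative ℤ) (γ : ι → G)
    (hγ : Function.Surjective (FreeGroup.lift γ)) :
    Function.Injective (twRes (K := K) (u := u) a γ) := by
  rw [injective_iff_map_eq_zero]
  intro z hz
  apply Subtype.ext
  funext g
  obtain ⟨w, rfl⟩ := hγ g
  rw [← twHom_v, hom_val a γ u (twHom z) (twHom_i z)]
  unfold pv
  apply Finset.sum_eq_zero
  intro j _
  have h1 : z.1 (γ j) = 0 := congrFun hz j
  show evL u ((DD a γ w).v j) * (twHom z (γ j)).v = 0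
  rw [twHom_v, h1, mul_zero]

theorem tw_finite {K : Type} [Field K] {u : Kˣ} (a : G →* Multiplicative ℤ) (γ : ι → G)
    (hγ : Function.Surjective (FreeGroup.lift γ)) : FiniteDimensional K (Tw K u a) :=
  FiniteDimensional.of_injective _ (twRes_inj a γ hγ)

theorem tw_dim {K : Type} [Field K] (u : Kˣ) (a : G →* Multiplicative ℤ) (γ : ι → G)
    (hγ : Function.Surjective (FreeGroup.lift γ)) {B : ℕ}
    (b : Fin B → (G →* Multiplicative ℤ)) (hb : Ind b)
    (H : ∀ (k : ℕ) (f : G →* TK k) (τ : HZ (TK k) 2), ¬ NonTors (pull f 2 τ)) :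
    B ≤ Module.finrank K (Tw K u a) := by
  classical
  by_contra hlt
  push Not at hlt
  have hfd := tw_finite (K := K) (u := u) a γ hγ
  let Z : Submodule K (ι → K) := LinearMap.range (twRes (K := K) (u := u) a γ)
  have hZ : Module.finrank K Z = Module.finrank K (Tw K u a) :=
    LinearMap.finrank_range_of_inj (twRes_inj a γ hγ)
  obtain ⟨J, hJ, hJ2⟩ := coords _ Z hZ
  let 𝒥 : Type := {w : FreeGroup ι // FreeGroup.lift γ w = 1} ⊕ J
  let V : 𝒥 → (ι → K) := fun x => match x with
    | Sum.inl w => fun j => evL u ((DD a γ w.1).v j)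
    | Sum.inr j => Pi.single j.1 1
  have hspan : Submodule.span K (Set.range V) = ⊤ := by
    by_contra hne
    obtain ⟨f, hf, hf2⟩ := Submodule.exists_le_ker_of_lt_top _ (lt_top_iff_ne_top.2 hne)
    let v : ι → K := fun j => f (Pi.single j 1)
    have hfv : ∀ x : ι → K, f x = ∑ j, x j * v j := by
      intro x
      conv_lhs => rw [← Finset.univ_sum_single x]
      rw [map_sum]
      apply Finset.sum_congr rfl
      intro j _
      have : (Pi.single j (x j) : ι → K) = x j • Pi.single j 1 := by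
        rw [← Pi.single_smul, smul_eq_mul, mul_one]
      rw [this, map_smul, smul_eq_mul]
    have hrel : ∀ w, FreeGroup.lift γ w = 1 → pv u v (DD a γ w).v = 0 := by
      intro w hw
      have hm : V (Sum.inl ⟨w, hw⟩ : 𝒥) ∈ Set.range V := ⟨(Sum.inl ⟨w, hw⟩ : 𝒥), rfl⟩
      have h7 : V (Sum.inl ⟨w, hw⟩ : 𝒥) ∈ LinearMap.ker f := hf2 (Submodule.subset_span hm)
      rw [LinearMap.mem_ker, hfv] at h7
      exact h7
    obtain ⟨z, hz1, hz2⟩ := exists_hom a γ u hγ v hrel
    have hvZ : v ∈ Z := by
      refine ⟨⟨fun g => (z g).v, fun x y => ?_⟩, ?_⟩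
      · show (z (x * y)).v = (z x).v + ((u ^ (a x).toAdd : Kˣ) : K) * (z y).v
        rw [map_mul, AG.mul_v, hz1, Units.smul_def, smul_eq_mul]
      · funext i
        exact hz2 i
    have hv0 : v = 0 := by
      apply hJ2 v hvZ
      intro j hj
      have hm : V (Sum.inr ⟨j, hj⟩ : 𝒥) ∈ Set.range V := ⟨(Sum.inr ⟨j, hj⟩ : 𝒥), rfl⟩
      have h8 : V (Sum.inr ⟨j, hj⟩ : 𝒥) ∈ LinearMap.ker f := hf2 (Submodule.subset_span hm)
      exact h8
    apply hf
    apply LinearMap.ext
    intro x
    rw [hfv, LinearMap.zero_apply]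
    apply Finset.sum_eq_zero
    intro j _
    rw [hv0, Pi.zero_apply, mul_zero]
  have hs : LinearIndepOn K V (Set.range (Sum.inr : J → 𝒥)) := by
    have h1 : LinearIndependent K (fun j : J => (Pi.single j.1 1 : ι → K)) := by
      have h2 := (Pi.basisFun K ι).linearIndependent.comp (fun j : J => j.1) Subtype.val_injective
      have h3 : (⇑(Pi.basisFun K ι) ∘ fun j : J => j.1) = fun j : J => (Pi.single j.1 1 : ι → K) := by
        funext j
        exact Pi.basisFun_apply K ι j.1
      rw [h3] at h2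
      exact h2
    exact (linearIndepOn_range_iff (Sum.inr_injective) V).2 h1
  obtain ⟨b', -, hb1, hb2, hb3⟩ := exists_linearIndepOn_extension hs (Set.subset_univ _)
  have hsp : ⊤ ≤ Submodule.span K (Set.range (fun x : b' => V x)) := by
    rw [← hspan, Submodule.span_le, ← Set.image_univ, ← Set.image_eq_range]
    exact hb2
  let Bs : Module.Basis b' K (ι → K) := Module.Basis.mk hb3 hsp
  let e0 : ι ≃ b' := (Bs.indexEquiv (Pi.basisFun K ι)).symm
  let q : ι → Prop := fun i => ∃ j : J, (e0 i).1 = Sum.inr j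
  have hmem : ∀ j : J, (Sum.inr j : 𝒥) ∈ b' := fun j => hb1 ⟨j, rfl⟩
  let e1 : {i // i ∈ J} ≃ {i // q i} := Equiv.ofBijective
    (fun j => ⟨e0.symm ⟨Sum.inr j, hmem j⟩, j, by rw [Equiv.apply_symm_apply]⟩) (by
      constructor
      · intro j j' h
        have h1 := congrArg Subtype.val h
        have h2 := congrArg Subtype.val (e0.symm.injective h1)
        exact Sum.inr_injective h2
      · rintro ⟨i, j, hj⟩
        refine ⟨j, Subtype.ext ?_⟩
        show e0.symm ⟨Sum.inr j, hmem j⟩ = i
        rw [Equiv.symm_apply_eq]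
        exact Subtype.ext hj.symm)
  let e : ι ≃ b' := (e1.extendSubtype).trans e0
  have he : ∀ (i : ι) (hi : i ∈ J), (e i).1 = Sum.inr ⟨i, hi⟩ := by
    intro i hi
    have h1 : e i = e0 (e1.extendSubtype i) := rfl
    rw [h1, Equiv.extendSubtype_apply_of_mem e1 i hi]
    show (e0 (e0.symm ⟨Sum.inr ⟨i, hi⟩, hmem _⟩)).1 = _
    rw [Equiv.apply_symm_apply]
  let W : ι → FreeGroup ι := fun i => match (e i).1 with
    | Sum.inl w => w.1
    | Sum.inr _ => 1
  have hW : ∀ i, FreeGroup.lift γ (W i) = 1 := by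
    intro i
    show FreeGroup.lift γ (match (e i).1 with
      | Sum.inl w => w.1
      | Sum.inr _ => 1) = 1
    cases h : (e i).1 with
    | inl w => exact w.2
    | inr j => exact map_one _
  have hrow : ((EJ a γ J W).map (evL u)).row = fun i => V (e i).1 := by
    funext i j
    show evL u ((EJ a γ J W) i j) = V (e i).1 j
    by_cases hi : i ∈ J
    · rw [he i hi]
      have h3 : EJ a γ J W i = Pi.single i 1 := if_pos hi
      rw [h3]
      show evL u ((Pi.single i 1 : ι → LL) j) = (Pi.single i 1 : ι → K) j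
      by_cases hj : j = i
      · subst hj
        rw [Pi.single_eq_same, Pi.single_eq_same, map_one]
      · rw [Pi.single_eq_of_ne hj, Pi.single_eq_of_ne hj, map_zero]
    · have h3 : EJ a γ J W i = (DD a γ (W i)).v := if_neg hi
      rw [h3]
      show evL u ((DD a γ (match (e i).1 with
        | Sum.inl w => w.1
        | Sum.inr _ => 1)).v j) = V (e i).1 j
      cases h : (e i).1 with
      | inr j' =>
        exfalso
        apply hi
        have h4 : e i = e j'.1 := by
          apply Subtype.ext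
          rw [h, he j'.1 j'.2]
        rw [e.injective h4]
        exact j'.2
      | inl w => rfl
  have hli : LinearIndependent K (fun i => V (e i).1) :=
    (linearIndependent_equiv e (f := fun x : b' => V x)).2 hb3
  rw [← hrow, Matrix.linearIndependent_rows_iff_isUnit, Matrix.isUnit_iff_isUnit_det] at hli
  have h5 : ((EJ a γ J W).map (evL u)).det = 0 := by
    have h6 : evL u (EJ a γ J W).det = ((EJ a γ J W).map (evL u)).det := RingHom.map_det _ _
    rw [← h6, vanishJ a γ hγ b hb H J (lt_of_le_of_lt hJ hlt) W hW, map_zero]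
  rw [h5] at hli
  exact not_isUnit_zero hli

end EssMap
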