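import Pool.Agent.EssMap.Coh

/-!
# The top degree
-/

open CategoryTheory groupCohomology

namespace EssMap

variable {Q : Type} [Group Q] (S : Subgroup Q)

open Classical in
/-- The characteristic function of `S`. -/
noncomputable def dl : MS S := ⟨fun x => if x ∈ S then 1 else 0, by
  intro g h
  have : (S.subtype g * h ∈ S) ↔ h ∈ S := by
    rw [Subgroup.mul_mem_cancel_left]
    exact g.2
  simp only [this]
  rfl⟩

open Classical in
theorem dl_apply (x : Q) : (dl S).1 x = if x ∈ S then 1 else 0 := rfl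

/-- The module map from the group ring to the coinduced module. -/
noncomputable def kS : Rep.leftRegular ℤ Q ⟶ MS S := Rep.leftRegularHom (MS S) (dl S)

theorem kS_single (t x : Q) : ((kS S).hom (MonoidAlgebra.single t 1)).1 x = (dl S).1 (x * t) := by
  unfold kS
  rw [Rep.leftRegularHom_hom_single, one_smul]
  rfl

theorem MS_left (f : MS S) (s : S) (x : Q) : f.1 (s * x) = f.1 x := f.2 s x

theorem kS_surjective [S.FiniteIndex] : Function.Surjective (kS S).hom := by
  classical
  intro f
  have := S.fintypeQuotientOfFiniteIndex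
  refine ⟨∑ t : Q ⧸ S, (f.1 (t.out)⁻¹) • (MonoidAlgebra.single t.out 1), ?_⟩
  apply Subtype.ext
  funext x
  rw [map_sum]
  have h1 : ∀ t : Q ⧸ S, (((kS S).hom ((f.1 (t.out)⁻¹) • (MonoidAlgebra.single t.out 1)))).1 x =
      if t = QuotientGroup.mk x⁻¹ then f.1 x else 0 := by
    intro t
    rw [map_smul]
    show (f.1 (t.out)⁻¹) • (((kS S).hom (MonoidAlgebra.single t.out 1)).1 x) = _
    rw [kS_single, dl_apply]
    have h2 : x * t.out ∈ S ↔ t = QuotientGroup.mk x⁻¹ := by
      constructor
      · intro h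
        rw [← QuotientGroup.out_eq' t]
        symm
        rw [QuotientGroup.eq, inv_inv]
        exact h
      · intro h
        have h3 : (QuotientGroup.mk x⁻¹ : Q ⧸ S) = QuotientGroup.mk t.out := by
          rw [QuotientGroup.out_eq', h]
        rw [QuotientGroup.eq, inv_inv] at h3
        exact h3
    by_cases h4 : x * t.out ∈ S
    · rw [if_pos h4, if_pos (h2.1 h4)]
      have h5 := MS_left S f ⟨_, S.inv_mem h4⟩ x
      have h6 : (t.out)⁻¹ = (x * t.out)⁻¹ * x := by group
      rw [h6]
      show f.1 ((x * t.out)⁻¹ * x) • (1 : ℤ) = f.1 x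
      rw [smul_eq_mul, mul_one]
      exact h5
    · rw [if_neg h4, if_neg (fun h => h4 (h2.2 h)), smul_zero]
  let E : (MS S) →ₗ[ℤ] ℤ := LinearMap.proj x ∘ₗ
    (Representation.coindV S.subtype (Rep.trivial ℤ S ℤ).ρ).subtype
  have h7 : (∑ t : Q ⧸ S, (kS S).hom ((f.1 (t.out)⁻¹) • (MonoidAlgebra.single t.out 1))).1 x =
      ∑ t : Q ⧸ S, ((kS S).hom ((f.1 (t.out)⁻¹) • (MonoidAlgebra.single t.out 1))).1 x :=
    map_sum E _ _
  refine h7.trans ?_
  rw [Finset.sum_congr rfl (fun t _ => h1 t), Finset.sum_ite_eq', if_pos (Finset.mem_univ _)]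

theorem top_surj {A B : Rep ℤ Q} (g : A ⟶ B) (hg : Function.Surjective g.hom) (n : ℕ)
    (h : ∀ M : Rep ℤ Q, Limits.IsZero (groupCohomology M (n + 1))) :
    Function.Surjective (groupCohomology.map (MonoidHom.id Q) g n).hom := by
  have : Epi g := (Rep.epi_iff_surjective g).2 hg
  let X : ShortComplex (Rep ℤ Q) := ShortComplex.mk (Limits.kernel.ι g) g
    (Limits.kernel.condition g)
  have hX : X.ShortExact :=
    { exact := ShortComplex.exact_of_f_is_kernel X (Limits.kernelIsKernel g)
      mono_f := inferInstanceAs (Mono (Limits.kernel.ι g))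
      epi_g := this }
  have h2 := mapShortComplex₃_exact hX (rfl : n + 1 = n + 1)
  have h3 : (mapShortComplex₃ hX (rfl : n + 1 = n + 1)).g = 0 :=
    Limits.IsZero.eq_of_tgt (h _) _ _
  have h4 := (ShortComplex.exact_iff_epi _ h3).1 h2
  exact (ModuleCat.epi_iff_surjective _).1 h4

end EssMap
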