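import Pool.Agent.EssMap.Aug

/-!
# Classes with coefficients in the augmentation ideal
-/

open CategoryTheory groupCohomology

namespace EssMap

section free

variable {k : Type} [CommRing k] (G : Type) [Group G]

/-- The generators of the free module. -/
noncomputable def fb {r : ℕ} (i : Fin r) : Rep.free k G (Fin r) :=
  Finsupp.single i (MonoidAlgebra.single 1 1)

/-- The coordinate maps of the free module. -/
noncomputable def fpr {r : ℕ} (i : Fin r) : Rep.free k G (Fin r) ⟶ Rep.leftRegular k G :=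
  Rep.freeLift k G (Rep.leftRegular k G)
    (fun j => if j = i then (MonoidAlgebra.single 1 1 : Rep.leftRegular k G) else 0)

theorem free_hom_fb {r : ℕ} {A : Rep k G} (f : Fin r → A) (i : Fin r) :
    (Rep.freeLift k G A f).hom (fb G i) = f i := by
  have h := Representation.freeLift_single_single A.ρ i (1 : G) (1 : k) f
  rw [one_smul, map_one] at h
  exact h

theorem lrh_one {A : Rep k G} (a : A) :
    (Rep.leftRegularHom A a).hom (MonoidAlgebra.single 1 1) = a := by
  rw [Rep.leftRegularHom_hom_single, one_smul, map_one]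
  rfl

theorem free_split {r : ℕ} : 𝟙 (Rep.free k G (Fin r)) =
    ∑ i, fpr G i ≫ Rep.leftRegularHom (Rep.free k G (Fin r)) (fb G i) := by
  classical
  apply Rep.free_ext
  intro j
  let F : (Rep.free k G (Fin r) ⟶ Rep.free k G (Fin r)) →+ Rep.free k G (Fin r) :=
    { toFun := fun f => f.hom (fb G j)
      map_zero' := rfl
      map_add' := fun _ _ => rfl }
  have h2 := map_sum F (fun i => fpr G i ≫ Rep.leftRegularHom (Rep.free k G (Fin r)) (fb G i))
    Finset.univ
  refine Eq.trans ?_ h2.symm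
  show fb G j = ∑ i, (Rep.leftRegularHom (Rep.free k G (Fin r)) (fb G i)).hom
    ((fpr G i).hom (fb G j))
  unfold fpr
  rw [Finset.sum_eq_single j]
  · rw [free_hom_fb, if_pos rfl, lrh_one]
  · intro i _ hij
    rw [free_hom_fb, if_neg (fun h => hij h.symm), map_zero]
  · intro h
    exact absurd (Finset.mem_univ _) h

end free

variable (G : Type) [Group G]

theorem top_gen {r : ℕ} (n : ℕ) (h : ∀ M : Rep ℤ G, Limits.IsZero (groupCohomology M (n + 1)))
    (M : Rep ℤ G) (x : Fin r → M) (hs : Function.Surjective (Rep.freeLift ℤ G M x).hom)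
    (z : groupCohomology M n) :
    ∃ w : Fin r → groupCohomology (Rep.leftRegular ℤ G) n,
      z = ∑ i, cmap (Rep.leftRegularHom M (x i)) n (w i) := by
  obtain ⟨z', rfl⟩ := top_surj (Rep.freeLift ℤ G M x) hs n h z
  refine ⟨fun i => cmap (fpr G i) n z', ?_⟩
  have h1 : z' = ∑ i, cmap (fpr G i ≫ Rep.leftRegularHom (Rep.free ℤ G (Fin r)) (fb G i)) n z' := by
    have h2 := congrArg (fun f => cmap f n z') (free_split (k := ℤ) G (r := r))
    simp only [cmap_sum, cmap_id] at h2
    rw [LinearMap.sum_apply] at h2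
    exact h2
  show cmap (Rep.freeLift ℤ G M x) n z' = _
  conv_lhs => rw [h1]
  rw [map_sum]
  apply Finset.sum_congr rfl
  intro i _
  rw [← cmap_comp, ← cmap_comp]
  congr 2
  rw [Category.assoc]
  congr 1
  apply lr_ext
  show (Rep.freeLift ℤ G M x).hom ((Rep.leftRegularHom (Rep.free ℤ G (Fin r)) (fb G i)).hom
    (MonoidAlgebra.single 1 1)) = (Rep.leftRegularHom M (x i)).hom (MonoidAlgebra.single 1 1)
  rw [lrh_one, lrh_one]
  exact free_hom_fb G x i

theorem gm_one : gm G 1 = 0 := by
  apply Subtype.ext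
  show (MonoidAlgebra.single 1 1 - MonoidAlgebra.single 1 1 : MonoidAlgebra ℤ G) = 0
  rw [sub_self]

theorem gm_all (R : AddSubgroup (IG G)) (hR : ∀ (g : G) (x : IG G), x ∈ R → (IG G).ρ g x ∈ R)
    (Y : Set G) (hY : Subgroup.closure Y = ⊤) (hYR : ∀ g ∈ Y, gm G g ∈ R) (g : G) :
    gm G g ∈ R := by
  have hg : g ∈ Subgroup.closure Y := by
    rw [hY]
    exact Subgroup.mem_top g
  induction hg using Subgroup.closure_induction with
  | mem x hx => exact hYR x hx
  | one =>
    rw [gm_one]
    exact R.zero_mem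
  | mul a b _ _ ha hb =>
    rw [gm_mul]
    exact R.add_mem (hR _ _ hb) ha
  | inv a _ ha =>
    have h1 := gm_mul G a⁻¹ a
    rw [inv_mul_cancel, gm_one] at h1
    have h2 : gm G a⁻¹ = -(IG G).ρ a⁻¹ (gm G a) := by
      rw [eq_neg_iff_add_eq_zero, add_comm]
      exact h1.symm
    rw [h2]
    exact R.neg_mem (hR _ _ ha)

theorem aug_all (R : AddSubgroup (IG G)) (hR : ∀ g : G, gm G g ∈ R) (x : IG G) : x ∈ R := by
  have key : ∀ y : MonoidAlgebra ℤ G, ∃ r ∈ R, (r.1 : MonoidAlgebra ℤ G) =
      y - MonoidAlgebra.single 1 ((eps G).hom (y : Rep.leftRegular ℤ G)) := by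
    intro y
    induction y using MonoidAlgebra.induction_linear with
    | zero =>
      refine ⟨0, R.zero_mem, ?_⟩
      have h1 : (eps G).hom ((0 : MonoidAlgebra ℤ G) : Rep.leftRegular ℤ G) = 0 := map_zero _
      rw [h1]
      show (0 : MonoidAlgebra ℤ G) = 0 - MonoidAlgebra.single 1 (0 : ℤ)
      simp
    | add a b ha hb =>
      obtain ⟨r, hr, hr2⟩ := ha
      obtain ⟨s, hs, hs2⟩ := hb
      refine ⟨r + s, R.add_mem hr hs, ?_⟩
      have h1 : (eps G).hom ((a + b : MonoidAlgebra ℤ G) : Rep.leftRegular ℤ G) =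
        (eps G).hom (a : Rep.leftRegular ℤ G) + (eps G).hom (b : Rep.leftRegular ℤ G) :=
        map_add _ _ _
      rw [h1]
      have h2 : ((r + s).1 : MonoidAlgebra ℤ G) = r.1 + s.1 := rfl
      have h3 : (MonoidAlgebra.single (1 : G) ((eps G).hom (a : Rep.leftRegular ℤ G) +
        (eps G).hom (b : Rep.leftRegular ℤ G)) : MonoidAlgebra ℤ G) =
        MonoidAlgebra.single (1 : G) ((eps G).hom (a : Rep.leftRegular ℤ G)) +
        MonoidAlgebra.single (1 : G) ((eps G).hom (b : Rep.leftRegular ℤ G)) :=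
        MonoidAlgebra.single_add _ _ _
      rw [h2, hr2, hs2, h3]
      abel
    | single g m =>
      refine ⟨m • gm G g, R.zsmul_mem (hR g) m, ?_⟩
      rw [eps_single]
      have h1 : ((m • gm G g).1 : MonoidAlgebra ℤ G) =
        m • (MonoidAlgebra.single g 1 - MonoidAlgebra.single 1 1 : MonoidAlgebra ℤ G) := by
        have h4 := map_zsmul (IW G).subtype m (gm G g)
        refine h4.trans ?_
        exact (int_smul_eq_zsmul inferInstance _ _).symm
      rw [h1, smul_sub, MonoidAlgebra.smul_single, MonoidAlgebra.smul_single, smul_eq_mul,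
        mul_one]
  obtain ⟨r, hr, hr2⟩ := key x.1
  have h1 : (eps G).hom ((x.1 : MonoidAlgebra ℤ G) : Rep.leftRegular ℤ G) = 0 := x.2
  rw [h1] at hr2
  have h2 : r = x := by
    apply Subtype.ext
    have h3 : (r.1 : MonoidAlgebra ℤ G) = x.1 - MonoidAlgebra.single (1 : G) (0 : ℤ) := hr2
    rw [MonoidAlgebra.single_zero, sub_zero] at h3
    exact h3
  rw [← h2]
  exact hr

end EssMap
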