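import Pool.Agent.EssMap.Rel

/-!
# Torsion and the orientation subgroup
-/

open CategoryTheory groupCohomology

namespace EssMap

variable {Q : Type} [Group Q] (n : ℕ)

theorem key_gen (e : groupCohomology (Rep.leftRegular ℤ Q) n ≃+ ℤ)
    (x : groupCohomology (Rep.leftRegular ℤ Q) n) : x = e x • e.symm 1 := by
  apply e.injective
  rw [map_zsmul, e.apply_symm_apply, smul_eq_mul, mul_one]

theorem ori_finiteIndex (e : groupCohomology (Rep.leftRegular ℤ Q) n ≃+ ℤ) :
    (Ori n Q).FiniteIndex := by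
  let χ : Q →* ℤ :=
    { toFun := fun s => e (cmap (rt s) n (e.symm 1))
      map_one' := by
        rw [rt_one, cmap_id]
        exact e.apply_symm_apply 1
      map_mul' := by
        intro s t
        rw [rt_mul, cmap_comp]
        conv_lhs => rw [key_gen n e (cmap (rt s) n (e.symm 1))]
        rw [map_zsmul, map_zsmul, smul_eq_mul] }
  have h1 : χ.toHomUnits.ker ≤ Ori n Q := by
    intro s hs x
    rw [MonoidHom.mem_ker] at hs
    have h2 : χ s = 1 := congrArg Units.val hs
    have h3 : e (cmap (rt s) n (e.symm 1)) = 1 := h2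
    have h4 : cmap (rt s) n (e.symm 1) = e.symm 1 := by
      apply e.injective
      rw [h3, e.apply_symm_apply]
    rw [key_gen n e x, map_zsmul, h4]
  exact Subgroup.finiteIndex_of_le h1

theorem sh_injective (e : groupCohomology (Rep.leftRegular ℤ Q) n ≃+ ℤ)
    (h : ∀ M : Rep ℤ Q, Limits.IsZero (groupCohomology M (n + 1)))
    (S : Subgroup Q) [S.FiniteIndex] : Function.Injective (sh S n) := by
  have hf : Module.Finite ℤ (groupCohomology (Rep.leftRegular ℤ Q) n) := by
    refine ⟨⟨{e.symm 1}, ?_⟩⟩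
    rw [eq_top_iff]
    intro x _
    rw [key_gen n e x, ← int_smul_eq_zsmul inferInstance]
    apply Submodule.smul_mem
    apply Submodule.subset_span
    simp
  have hf2 : Module.Finite ℤ (groupCohomology (MS S) n) :=
    Module.Finite.of_surjective (cmap (kS S) n) (top_surj (kS S) (kS_surjective S) n h)
  let i : groupCohomology (MS S) n ≃ₗ[ℤ] HZ S n :=
    (groupCohomology.coindIso (Rep.trivial ℤ S ℤ) n).toLinearEquiv
  have h1 : Function.Surjective (i.symm.toLinearMap.comp (sh S n)) :=
    i.symm.surjective.comp (sh_surjective S n)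
  have h2 := OrzechProperty.injective_of_surjective_endomorphism _ h1
  intro a b hab
  apply h2
  show i.symm (sh S n a) = i.symm (sh S n b)
  rw [hab]

theorem torsion_of_res (e : groupCohomology (Rep.leftRegular ℤ Q) n ≃+ ℤ)
    (h : ∀ M : Rep ℤ Q, Limits.IsZero (groupCohomology M (n + 1)))
    {S' S : Subgroup Q} (hS : S' ≤ S) [S'.FiniteIndex] (c : HZ S n) (m : ℤ) (hm : m ≠ 0)
    (hc : m • pull (Subgroup.inclusion hS) n c = 0) : ∃ m' : ℤ, m' ≠ 0 ∧ m' • c = 0 := by
  classical
  have : S.FiniteIndex := Subgroup.finiteIndex_of_le hS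
  have : (S'.subgroupOf S).FiniteIndex := inferInstance
  have := (S'.subgroupOf S).fintypeQuotientOfFiniteIndex
  obtain ⟨y, rfl⟩ := sh_surjective S n c
  rw [res_sh, ← map_zsmul] at hc
  have h1 : m • cmap (io hS) n y = 0 := by
    apply sh_injective n e h S'
    rw [hc, map_zero]
  have h2 : m • (Fintype.card (S ⧸ S'.subgroupOf S) • y) = 0 := by
    have h3 := congrArg (cmap (su (S := S) (S' := S')) n) h1
    rw [map_zsmul, ← cmap_comp, io_su, cmap_zsmul, cmap_id, map_zero] at h3
    exact h3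
  refine ⟨m * (Fintype.card (S ⧸ S'.subgroupOf S) : ℤ), ?_, ?_⟩
  · apply mul_ne_zero hm
    exact_mod_cast Fintype.card_ne_zero
  · rw [mul_smul, natCast_zsmul, ← map_nsmul, ← map_zsmul, h2, map_zero]

theorem cyclic_top (e : groupCohomology (Rep.leftRegular ℤ Q) n ≃+ ℤ)
    (h : ∀ M : Rep ℤ Q, Limits.IsZero (groupCohomology M (n + 1)))
    (S : Subgroup Q) [S.FiniteIndex] : ∃ v : HZ S n, ∀ c : HZ S n, ∃ m : ℤ, c = m • v := by
  refine ⟨pS n S (e.symm 1), fun c => ?_⟩
  obtain ⟨x, rfl⟩ := pS_surjective n S h c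
  refine ⟨e x, ?_⟩
  rw [← map_zsmul]
  congr 1
  exact key_gen n e x

end EssMap
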