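import Pool.Agent.EssMap.Two

/-!
# The tower of lifts
-/

open CategoryTheory groupCohomology PowerSeries

namespace EssMap

/-- A representative. -/
noncomputable def rp (k : ℕ) (v : PR k) : ℤ⟦X⟧ := Function.surjInv (mq_surj k) v

theorem mq_rp (k : ℕ) (v : PR k) : mq k (rp k v) = v := Function.surjInv_eq (mq_surj k) v

/-- The defect of additivity of the representatives. -/
noncomputable def df (k : ℕ) (x y : TK k) : ℤ⟦X⟧ :=
  rp k x.v + ((us ^ x.i : (ℤ⟦X⟧)ˣ) : ℤ⟦X⟧) * rp k y.v - rp k (x * y).v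

theorem mq_df (k : ℕ) (x y : TK k) : mq k (df k x y) = 0 := by
  unfold df
  rw [map_sub, map_add, map_mul, mq_rp, mq_rp, mq_rp, AG.mul_v, Units.smul_def, smul_eq_mul,
    uk_zpow, sub_self]

theorem df_cocycle (k : ℕ) (x y z : TK k) :
    df k (x * y) z + df k x y = ((us ^ x.i : (ℤ⟦X⟧)ˣ) : ℤ⟦X⟧) * df k y z + df k x (y * z) := by
  unfold df
  rw [AG.mul_i, zpow_add, Units.val_mul, mul_assoc x y z]
  ring

theorem coeff_df (k : ℕ) (i : ℤ) (x y : TK k) :
    coeff (k + 1) (((us ^ i : (ℤ⟦X⟧)ˣ) : ℤ⟦X⟧) * df k x y) = coeff (k + 1) (df k x y) := by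
  have h1 := (mq_eq_zero k _).1 (mq_df k x y)
  obtain ⟨w, hw⟩ := (X_pow_dvd_iff (n := k + 1) (φ := df k x y)).2 (fun j hj => h1 j (by omega))
  rw [hw, mul_left_comm, coeff_X_pow_mul', coeff_X_pow_mul', if_pos le_rfl, if_pos le_rfl,
    Nat.sub_self, coeff_zero_eq_constantCoeff_apply, coeff_zero_eq_constantCoeff_apply, map_mul,
    us_zpow_const, one_mul]

/-- The obstruction cocycle. -/
noncomputable def om (k : ℕ) (x y : TK k) : ℤ := coeff (k + 1) (df k x y)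

theorem om_cocycle (k : ℕ) (x y z : TK k) :
    om k (x * y) z + om k x y = om k y z + om k x (y * z) := by
  unfold om
  rw [← map_add, df_cocycle, map_add, coeff_df]

variable {G : Type} [Group G]

/-- The lifting step. -/
theorem lift_step (k : ℕ) (f : G →* TK k)
    (H : ∀ τ : HZ (TK k) 2, ¬ NonTors (pull f 2 τ)) :
    ∃ (m : ℤ) (f' : G →* TK (k + 1)), m ≠ 0 ∧ ∀ x, (f' x).i = (f x).i ∧
      ∃ w : ℤ⟦X⟧, (f' x).v = mq (k + 1) w ∧ mq k w = m • (f x).v := by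
  have h1 := H (c2 (om k) (om_cocycle k))
  unfold NonTors at h1
  push Not at h1
  obtain ⟨m, hm, h2⟩ := h1
  rw [pull_c2] at h2
  obtain ⟨β, hβ⟩ := smul_c2 _ _ m h2
  let W : G → ℤ⟦X⟧ := fun x => m • rp k (f x).v - β x • X ^ (k + 1)
  have hW : ∀ x y, mq (k + 1) (W (x * y)) =
      mq (k + 1) (W x) + mq (k + 1) (((us ^ (f x).i : (ℤ⟦X⟧)ˣ) : ℤ⟦X⟧) * W y) := by
    intro x y
    rw [← map_add, ← sub_eq_zero, ← map_sub, mq_eq_zero]
    have e1 : W (x * y) - (W x + ((us ^ (f x).i : (ℤ⟦X⟧)ˣ) : ℤ⟦X⟧) * W y) =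
        -(m • df k (f x) (f y)) - (β (x * y)) • X ^ (k + 1) + β x • X ^ (k + 1)
          + (((us ^ (f x).i : (ℤ⟦X⟧)ˣ) : ℤ⟦X⟧) * (β y • X ^ (k + 1))) := by
      simp only [W, df, map_mul, zsmul_eq_mul]
      ring
    rw [e1]
    intro j hj
    have hd := (mq_eq_zero k _).1 (mq_df k (f x) (f y))
    have e2 : ∀ (u : ℤ⟦X⟧) (b : ℤ), coeff j (u * (b • (X : ℤ⟦X⟧) ^ (k + 1))) =
        if j = k + 1 then b * constantCoeff u else 0 := by
      intro u b
      rw [mul_smul_comm, mul_comm u, map_zsmul, coeff_X_pow_mul', smul_eq_mul]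
      split_ifs with h3 h4 h4
      · subst h4
        rw [Nat.sub_self, coeff_zero_eq_constantCoeff_apply]
      · omega
      · omega
      · rw [mul_zero]
    have e3 : ∀ b : ℤ, coeff j (b • (X : ℤ⟦X⟧) ^ (k + 1)) = if j = k + 1 then b else 0 := by
      intro b
      have := e2 1 b
      rw [one_mul, map_one, mul_one] at this
      exact this
    rw [map_add, map_add, map_sub, map_neg, map_zsmul, e3, e3, e2, us_zpow_const, mul_one]
    by_cases hjk : j = k + 1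
    · rw [if_pos hjk, if_pos hjk, if_pos hjk, hjk]
      have h4 := hβ x y
      unfold om at h4
      rw [smul_eq_mul, h4]
      ring
    · rw [if_neg hjk, if_neg hjk, if_neg hjk, hd j (by omega)]
      simp
  refine ⟨m, MonoidHom.mk' (fun x => ⟨mq (k + 1) (W x), (f x).i⟩) ?_, hm, fun x => ⟨?_, W x, ?_, ?_⟩⟩
  · intro x y
    apply AG.ext
    · rw [AG.mul_v, AG.mk_v, AG.mk_v, AG.mk_v, AG.mk_i, hW, map_mul, Units.smul_def, smul_eq_mul,
        uk_zpow]
    · rw [AG.mul_i, AG.mk_i, AG.mk_i, AG.mk_i, map_mul, AG.mul_i]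
  · exact AG.mk_i (u := uk (k + 1)) _ _
  · exact AG.mk_v (u := uk (k + 1)) _ _
  · have h3 : mq k (X ^ (k + 1)) = 0 := by
      rw [mq_eq_zero]
      intro j hj
      rw [coeff_X_pow, if_neg (by omega)]
    show mq k (m • rp k (f x).v - β x • X ^ (k + 1)) = m • (f x).v
    rw [map_sub, map_zsmul, map_zsmul, mq_rp, h3, smul_zero, sub_zero]

/-- The tower. -/
theorem tower (a b : G →* Multiplicative ℤ)
    (H : ∀ (k : ℕ) (f : G →* TK k) (τ : HZ (TK k) 2), ¬ NonTors (pull f 2 τ)) (k : ℕ) :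
    ∃ (c : ℤ) (f : G →* TK k), c ≠ 0 ∧ ∀ x, (f x).i = (a x).toAdd ∧
      ∃ w : ℤ⟦X⟧, (f x).v = mq k w ∧ constantCoeff w = c * (b x).toAdd := by
  induction k with
  | zero =>
    refine ⟨1, MonoidHom.mk' (fun x => ⟨mq 0 (C ((b x).toAdd)), (a x).toAdd⟩) ?_, one_ne_zero,
      fun x => ⟨?_, C ((b x).toAdd), ?_, ?_⟩⟩
    · intro x y
      apply AG.ext
      · rw [AG.mul_v, AG.mk_v, AG.mk_v, AG.mk_v, AG.mk_i, uk_zero, one_smul, map_mul, toAdd_mul,
          map_add, map_add]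
      · rw [AG.mul_i, AG.mk_i, AG.mk_i, AG.mk_i, map_mul, toAdd_mul]
    · exact AG.mk_i (u := uk 0) _ _
    · exact AG.mk_v (u := uk 0) _ _
    · rw [constantCoeff_C, one_mul]
  | succ k ih =>
    obtain ⟨c, f, hc, hf⟩ := ih
    obtain ⟨m, f', hm, hf'⟩ := lift_step k f (H k f)
    refine ⟨m * c, f', mul_ne_zero hm hc, fun x => ⟨?_, ?_⟩⟩
    · rw [(hf' x).1, (hf x).1]
    · obtain ⟨w, hw1, hw2⟩ := (hf' x).2
      obtain ⟨w', hw1', hw2'⟩ := (hf x).2
      refine ⟨w, hw1, ?_⟩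
      rw [hw1', ← map_zsmul, ← sub_eq_zero, ← map_sub, mq_eq_zero] at hw2
      have h3 := hw2 0 (by omega)
      rw [map_sub, map_zsmul, coeff_zero_eq_constantCoeff_apply, coeff_zero_eq_constantCoeff_apply,
        hw2', sub_eq_zero] at h3
      rw [h3, smul_eq_mul, mul_assoc]

end EssMap
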