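import Pool.Agent.EssMap.Fox

/-!
# Vanishing of the minors and generic cocycles
-/

open PowerSeries

namespace EssMap

variable {ι : Type} [Fintype ι] [DecidableEq ι] {G : Type} [Group G]

theorem mq_evL (k : ℕ) (f : LL) : evL (uk k) f = mq k (evL us f) := by
  have h : evL (uk k) = (mq k).comp (evL us) := by
    unfold evL
    apply IsLocalization.ringHom_ext (M := Submonoid.powers (Polynomial.X : Polynomial ℤ))
    apply Polynomial.ringHom_ext'
    · exact RingHom.ext_int _ _
    · rw [RingHom.comp_apply, RingHom.comp_apply, RingHom.comp_apply]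
      have h1 : algebraMap (Polynomial ℤ) LL Polynomial.X = LaurentPolynomial.T 1 := by
        rw [LaurentPolynomial.algebraMap_eq_toLaurent, Polynomial.toLaurent_X]
      rw [h1, LaurentPolynomial.eval₂_T, LaurentPolynomial.eval₂_T, uk_zpow]
  rw [h, RingHom.comp_apply]

/-- All minors vanish. -/
theorem vanish (a b : G →* Multiplicative ℤ) (γ : ι → G)
    (hγ : Function.Surjective (FreeGroup.lift γ)) (i₀ : ι) (hi₀ : (a (γ i₀)).toAdd = 1)
    (hab : ¬ ∃ n : ℤ, ∀ g, (b g).toAdd = n * (a g).toAdd)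
    (H : ∀ (k : ℕ) (f : G →* TK k) (τ : HZ (TK k) 2), ¬ NonTors (pull f 2 τ))
    (W : ι → FreeGroup ι) (hW : ∀ i, FreeGroup.lift γ (W i) = 1) : (EE a γ i₀ W).det = 0 := by
  by_contra hne
  have h1 : evL us (EE a γ i₀ W).det ≠ 0 := fun h => hne (evL_us_inj _ h)
  have h2 : ∃ e, coeff e (evL us (EE a γ i₀ W).det) ≠ 0 := by
    by_contra hcon
    push Not at hcon
    apply h1
    ext e
    rw [hcon, map_zero]
  classical
  let e := Nat.find h2
  have he : coeff e (evL us (EE a γ i₀ W).det) ≠ 0 := Nat.find_spec h2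
  have he2 : ∀ j, j < e → coeff j (evL us (EE a γ i₀ W).det) = 0 := by
    intro j hj
    have := Nat.find_min h2 hj
    push Not at this
    exact this
  obtain ⟨c, f, hc, hf⟩ := tower a a H e
  obtain ⟨c', f', hc', hf'⟩ := tower a b H e
  choose hfi w hw1 hw2 using hf
  choose hfi' w' hw1' hw2' using hf'
  have h3 : ∀ j, (b (γ j)).toAdd = (b (γ i₀)).toAdd * (a (γ j)).toAdd := by
    intro j
    have h4 := minors a γ (uk e) i₀ W (fun i => (f (γ i)).v) (fun i => (f' (γ i)).v)
      (fun i => hom_rel a γ _ f hfi _ (hW i)) (fun i => hom_rel a γ _ f' hfi' _ (hW i)) j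
    rw [mq_evL, hw1, hw1, hw1', hw1', ← map_mul, ← map_mul, ← map_sub, ← map_mul, mq_eq_zero] at h4
    have h5 := h4 e le_rfl
    obtain ⟨q, hq⟩ := (X_pow_dvd_iff (n := e) (φ := evL us (EE a γ i₀ W).det)).2 he2
    rw [hq, mul_assoc, coeff_X_pow_mul', if_pos le_rfl, Nat.sub_self,
      coeff_zero_eq_constantCoeff_apply, map_mul, map_sub, map_mul, map_mul, hw2, hw2, hw2',
      hw2'] at h5
    rw [hq, coeff_X_pow_mul', if_pos le_rfl, Nat.sub_self, coeff_zero_eq_constantCoeff_apply] at he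
    rw [hi₀] at h5
    have h6 : constantCoeff q * (c * c') * ((b (γ j)).toAdd - (b (γ i₀)).toAdd * (a (γ j)).toAdd)
        = 0 := by
      rw [← h5]
      ring
    rcases mul_eq_zero.1 h6 with h7 | h7
    · exact absurd h7 (mul_ne_zero he (mul_ne_zero hc hc'))
    · exact sub_eq_zero.1 h7
  apply hab
  refine ⟨(b (γ i₀)).toAdd, fun g => ?_⟩
  obtain ⟨w, rfl⟩ := hγ g
  have h4 : b.comp (FreeGroup.lift γ) =
      ((zpowGroupHom (b (γ i₀)).toAdd).comp a).comp (FreeGroup.lift γ) := by
    ext j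
    rw [MonoidHom.comp_apply, FreeGroup.lift_apply_of, MonoidHom.comp_apply,
      FreeGroup.lift_apply_of, MonoidHom.comp_apply, zpowGroupHom_apply]
    apply Multiplicative.toAdd.injective
    rw [h3, toAdd_zpow, smul_eq_mul]
  have h5 := congrArg Multiplicative.toAdd (DFunLike.congr_fun h4 w)
  rw [MonoidHom.comp_apply, MonoidHom.comp_apply, MonoidHom.comp_apply, zpowGroupHom_apply,
    toAdd_zpow, smul_eq_mul] at h5
  exact h5

end EssMap
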